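import Pool.Agent.H.MP_dda0b9_al.DefsMod

/-!
# MP_dda0b9_al: for an algebra with an acyclic complete system of orthogonal idempotents the
modules `A e_i` generate the category of finite-dimensional modules (job J7)
-/

namespace MPdda

open CategoryTheory CategoryTheory.Limits

namespace AG

open scoped ModuleCat

variable {A : Type} [Ring A] [Algebra ℂ A]

theorem shortExact_of {X Y Z : FDMod A} (f : X.obj →ₗ[A] Y.obj) (g : Y.obj →ₗ[A] Z.obj)
    (hf : Function.Injective f) (hg : Function.Surjective g) (hfg : Function.Exact f g) :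
    ∃ w, (ShortComplex.mk (X₁ := X) (X₂ := Y) (X₃ := Z) (ObjectProperty.homMk (ModuleCat.ofHom f))
      (ObjectProperty.homMk (ModuleCat.ofHom g)) w).ShortExact := by
  have w : (ObjectProperty.homMk (ModuleCat.ofHom f) : X ⟶ Y) ≫
      (ObjectProperty.homMk (ModuleCat.ofHom g) : Y ⟶ Z) = 0 := by
    apply ObjectProperty.hom_ext
    apply ModuleCat.hom_ext
    refine LinearMap.ext fun x => ?_
    exact (hfg (f x)).2 ⟨x, rfl⟩
  refine ⟨w, ?_⟩
  set S := ShortComplex.mk (X₁ := X) (X₂ := Y) (X₃ := Z) (ObjectProperty.homMk (ModuleCat.ofHom f))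
      (ObjectProperty.homMk (ModuleCat.ofHom g)) w with hS
  have hp : (fdProp A).ι.PreservesHomology :=
    ⟨(fdProp A).preservesKernels_ι, (fdProp A).preservesCokernels_ι⟩
  have hm : Mono ((fdProp A).ι.map S.f) := (ModuleCat.mono_iff_injective _).2 hf
  have he : Epi ((fdProp A).ι.map S.g) := (ModuleCat.epi_iff_surjective _).2 hg
  have hex : (S.map (fdProp A).ι).Exact :=
    (ShortComplex.ShortExact.moduleCat_exact_iff_function_exact _).2 hfg
  exact
    { exact := (S.exact_map_iff_of_faithful (fdProp A).ι).1 hex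
      mono_f := (fdProp A).ι.mono_of_mono_map hm
      epi_g := (fdProp A).ι.epi_of_epi_map he }

/-- a submodule as an object -/
def sub (M : FDMod A) (N : Submodule A M.obj) : FDMod A :=
  ⟨ModuleCat.of A N, by
    have h : FiniteDimensional ℂ M.obj := M.property
    exact @fdProp_of A _ _ N _ _ _ _
      (Module.Finite.of_injective (N.subtype.restrictScalars ℂ) Subtype.val_injective)⟩

/-- a quotient as an object -/
def quo (M : FDMod A) (N : Submodule A M.obj) : FDMod A :=
  ⟨ModuleCat.of A (M.obj ⧸ N), by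
    have h : FiniteDimensional ℂ M.obj := M.property
    exact @fdProp_of A _ _ (M.obj ⧸ N) _ _ _ _
      (Module.Finite.of_surjective (N.mkQ.restrictScalars ℂ) N.mkQ_surjective)⟩

theorem sub_quo (M : FDMod A) (N : Submodule A M.obj) :
    ∃ S : ShortComplex (FDMod A), S.ShortExact ∧ S.X₁ = sub M N ∧ S.X₂ = M ∧ S.X₃ = quo M N := by
  obtain ⟨w, h⟩ := shortExact_of (X := sub M N) (Y := M) (Z := quo M N) N.subtype N.mkQ
    Subtype.val_injective N.mkQ_surjective (LinearMap.exact_subtype_mkQ N)
  exact ⟨_, h, rfl, rfl, rfl⟩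

theorem ker_range {M N : FDMod A} (f : M.obj →ₗ[A] N.obj) :
    ∃ S : ShortComplex (FDMod A), S.ShortExact ∧ S.X₁ = sub M (LinearMap.ker f) ∧ S.X₂ = M ∧
      S.X₃ = sub N (LinearMap.range f) := by
  obtain ⟨w, h⟩ := shortExact_of (X := sub M (LinearMap.ker f)) (Y := M)
    (Z := sub N (LinearMap.range f)) (LinearMap.ker f).subtype f.rangeRestrict
    Subtype.val_injective f.surjective_rangeRestrict (by
      intro x
      constructor
      · intro hx
        exact ⟨⟨x, congrArg Subtype.val hx⟩, rfl⟩
      · rintro ⟨y, rfl⟩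
        exact Subtype.ext y.2)
  exact ⟨_, h, rfl, rfl, rfl⟩

theorem peirce_smul {e : A} (he : IsIdempotentElem e) (h0 : e ≠ 0)
    (h1 : Module.finrank ℂ (peirce e e) = 1) (a : A) : ∃ c : ℂ, e * a * e = c • e := by
  have hmem : e ∈ peirce e e := by
    refine ⟨e, ?_⟩
    change e * (e * e) = e
    rw [he, he]
  have hmem' : e * a * e ∈ peirce e e := by
    refine ⟨a, ?_⟩
    change e * (a * e) = e * a * e
    rw [mul_assoc]
  obtain ⟨c, hc⟩ := (finrank_eq_one_iff_of_nonzero' (⟨e, hmem⟩ : peirce e e) (by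
    intro h
    exact h0 (congrArg Subtype.val h))).1 h1 ⟨_, hmem'⟩
  exact ⟨c, (congrArg Subtype.val hc).symm⟩

theorem peirce_ne_bot {e f a : A} (h : e * a * f ≠ 0) : peirce e f ≠ ⊥ := by
  intro hb
  have hmem : e * a * f ∈ peirce e f := by
    refine ⟨a, ?_⟩
    change e * (a * f) = e * a * f
    rw [mul_assoc]
  rw [hb] at hmem
  exact h ((Submodule.mem_bot ℂ).1 hmem)

section Main

variable {I : Type} [Fintype I] {e : I → A} (he : CompleteOrthogonalIdempotents e) {ht : I → ℤ}
    (h1 : ∀ i, Module.finrank ℂ (peirce (e i) (e i)) = 1)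
    (h2 : ∀ i j, i ≠ j → peirce (e i) (e j) ≠ ⊥ → ht j < ht i)

/-- all components of `M` outside `{c < ht}` vanish -/
def SuppIn (e : I → A) (ht : I → ℤ) (c : ℤ) (M : FDMod A) : Prop :=
  ∀ i, ∀ m : M.obj, e i • m ≠ 0 → c < ht i

include he in
omit [Algebra ℂ A] in
theorem sum_smul_eq {M : Type} [AddCommGroup M] [Module A M] (m : M) : ∑ i, e i • m = m := by
  rw [← Finset.sum_smul, he.complete, one_smul]

include he h1 h2 in
theorem smul_of_max {M : Type} [AddCommGroup M] [Module A M] {i : I} {m : M} (hm : e i • m = m)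
    (hm0 : m ≠ 0) (hmax : ∀ j, ∀ x : M, e j • x ≠ 0 → ht j ≤ ht i) (a : A) :
    ∃ c : ℂ, a • m = (algebraMap ℂ A c) • m := by
  classical
  have hi0 : e i ≠ 0 := by
    intro h
    rw [h, zero_smul] at hm
    exact hm0 hm.symm
  obtain ⟨c, hc⟩ := peirce_smul (he.idem i) hi0 (h1 i) a
  refine ⟨c, ?_⟩
  rw [← sum_smul_eq he (a • m), Finset.sum_eq_single i]
  · have h3 : e i • a • m = (e i * a * e i) • m := by
      rw [mul_smul, mul_smul, hm]
    rw [h3, hc, Algebra.smul_def, mul_smul, hm]
  · intro j _ hj
    by_contra hne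
    have h3 : e j • a • m = (e j * a * e i) • m := by
      rw [mul_smul, mul_smul, hm]
    have h4 : e j * a * e i ≠ 0 := by
      intro h
      rw [h3, h, zero_smul] at hne
      exact hne rfl
    exact absurd (h2 j i hj (peirce_ne_bot h4)) (not_lt.2 (hmax j _ hne))
  · intro h
    exact absurd (Finset.mem_univ i) h

end Main

theorem isZero_of_forall {M : FDMod A} (h : ∀ m : M.obj, m = 0) : IsZero M := by
  rw [IsZero.iff_id_eq_zero]
  apply ObjectProperty.hom_ext
  apply ModuleCat.hom_ext
  refine LinearMap.ext fun x => ?_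
  exact h x

omit [Algebra ℂ A] in
theorem mul_idem_of_mem_span {e : A} (he : IsIdempotentElem e) {x : A}
    (hx : x ∈ Submodule.span A {e}) : x * e = x := by
  obtain ⟨a, rfl⟩ := Submodule.mem_span_singleton.1 hx
  rw [smul_eq_mul, mul_assoc, he]

theorem step [FiniteDimensional ℂ A] {I : Type} [Fintype I] (e : I → A)
    (he : CompleteOrthogonalIdempotents e) (ht : I → ℤ)
    (h1 : ∀ i, Module.finrank ℂ (peirce (e i) (e i)) = 1)
    (h2 : ∀ i j, i ≠ j → peirce (e i) (e j) ≠ ⊥ → ht j < ht i)
    (G : ObjectProperty (FDMod A)) (hP : ∀ i, G (projMod (e i)))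
    (hCoker : ∀ S : ShortComplex (FDMod A), S.ShortExact → G S.X₁ → G S.X₂ → G S.X₃)
    (k : ℕ) (ihk : ∀ c : ℤ, (Finset.univ.filter fun i => c < ht i).card ≤ k →
      ∀ M : FDMod A, SuppIn e ht c M → G M)
    (c : ℤ) (hc : (Finset.univ.filter fun i => c < ht i).card ≤ k + 1)
    (M : FDMod A) (hM : SuppIn e ht c M) (hM0 : ∃ m : M.obj, m ≠ 0) :
    ∃ S : Submodule A M.obj, S ≠ ⊥ ∧ G (sub M S) ∧ SuppIn e ht c (quo M S) := by
  classical
  obtain ⟨m1, hm1⟩ := hM0
  have hex : ∃ i, ∃ m : M.obj, e i • m ≠ 0 := by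
    by_contra hcon
    push Not at hcon
    apply hm1
    rw [← sum_smul_eq he m1]
    exact Finset.sum_eq_zero fun i _ => hcon i m1
  obtain ⟨i, hi, hmax⟩ := Finset.exists_max_image
    (Finset.univ.filter fun i => ∃ m : M.obj, e i • m ≠ 0) ht (by
      obtain ⟨i, hi⟩ := hex
      exact ⟨i, by simpa using hi⟩)
  rw [Finset.mem_filter] at hi
  obtain ⟨m0, hm0⟩ := hi.2
  set m : M.obj := e i • m0 with hm
  have hem : e i • m = m := by
    rw [hm, ← mul_smul, he.idem i]
  have hmax' : ∀ j, ∀ x : M.obj, e j • x ≠ 0 → ht j ≤ ht i := fun j x hx =>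
    hmax j (by simpa using ⟨x, hx⟩)
  set f : (projMod (e i)).obj →ₗ[A] M.obj :=
    (LinearMap.toSpanSingleton A M.obj m).comp (Submodule.span A {e i}).subtype with hf
  have hfa : ∀ x : Submodule.span A {e i}, f x = (x : A) • m := fun x => rfl
  refine ⟨LinearMap.range f, ?_, ?_, ?_⟩
  · intro hb
    have h3 : m ∈ LinearMap.range f :=
      ⟨(⟨e i, Submodule.mem_span_singleton_self _⟩ : Submodule.span A {e i}), hem⟩
    rw [hb] at h3
    exact hm0 ((Submodule.mem_bot A).1 h3)
  · obtain ⟨S, hS, hS1, hS2, hS3⟩ := ker_range f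
    rw [← hS3]
    refine hCoker S hS ?_ ?_
    · rw [hS1]
      refine ihk (ht i) ?_ _ ?_
      · refine Nat.lt_succ_iff.1 ((Finset.card_lt_card ?_).trans_le hc)
        rw [Finset.ssubset_iff_of_subset]
        · exact ⟨i, by simpa using hM i m0 hm0, by simp⟩
        · intro j hj
          have h3 := hM i m0 hm0
          simp only [Finset.mem_filter, Finset.mem_univ, true_and] at hj ⊢
          omega
      · intro j x hx
        obtain ⟨⟨a, ha⟩, hxa⟩ := x
        have ham : a • m = 0 := hxa
        have hae := mul_idem_of_mem_span (he.idem i) ha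
        have hja : e j * a ≠ 0 := by
          intro h
          apply hx
          apply Subtype.ext
          apply Subtype.ext
          exact h
        by_cases hij : j = i
        · subst hij
          exfalso
          have hi0 : e j ≠ 0 := by
            intro h
            rw [h, zero_mul] at hja
            exact hja rfl
          obtain ⟨l, hl⟩ := peirce_smul (he.idem j) hi0 (h1 j) a
          have h3 : e j * a = l • e j := by rw [← hl, mul_assoc, hae]
          have h4 : (e j * a) • m = 0 := by rw [mul_smul, ham, smul_zero]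
          rw [h3, Algebra.smul_def, mul_smul, hem] at h4
          have h5 : l = 0 := by
            by_contra hl0
            apply hm0
            have h6 : (algebraMap ℂ A l⁻¹) • (algebraMap ℂ A l) • m = m := by
              rw [← mul_smul, ← map_mul, inv_mul_cancel₀ hl0, map_one, one_smul]
            rw [← h6, h4, smul_zero]
          rw [h5, zero_smul] at h3
          exact hja h3
        · refine h2 j i hij (peirce_ne_bot (a := a) ?_)
          rw [mul_assoc, hae]
          exact hja
    · rw [hS2]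
      exact hP i
  · intro j q hq
    obtain ⟨x, rfl⟩ := (LinearMap.range f).mkQ_surjective q
    refine hM j x fun h => hq ?_
    have h3 : (LinearMap.range f).mkQ (e j • x) = 0 := by rw [h, map_zero]
    exact h3

open scoped ModuleCat in
theorem key [FiniteDimensional ℂ A] {I : Type} [Fintype I] (e : I → A)
    (he : CompleteOrthogonalIdempotents e) (ht : I → ℤ)
    (h1 : ∀ i, Module.finrank ℂ (peirce (e i) (e i)) = 1)
    (h2 : ∀ i j, i ≠ j → peirce (e i) (e j) ≠ ⊥ → ht j < ht i)
    (G : ObjectProperty (FDMod A)) (hP : ∀ i, G (projMod (e i)))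
    (hZ : ∀ Z, IsZero Z → G Z)
    (hCoker : ∀ S : ShortComplex (FDMod A), S.ShortExact → G S.X₁ → G S.X₂ → G S.X₃)
    (hExt : ∀ S : ShortComplex (FDMod A), S.ShortExact → G S.X₁ → G S.X₃ → G S.X₂)
    (k : ℕ) : ∀ c : ℤ, (Finset.univ.filter fun i => c < ht i).card ≤ k →
      ∀ M : FDMod A, SuppIn e ht c M → G M := by
  classical
  induction k with
  | zero =>
    intro c hc M hM
    refine hZ M (isZero_of_forall ?_)
    intro m
    rw [← sum_smul_eq he m]
    refine Finset.sum_eq_zero fun i _ => ?_
    by_contra hne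
    have h4 := hM i m hne
    have h5 : i ∈ Finset.univ.filter fun i => c < ht i := by simpa using h4
    rw [Finset.card_eq_zero.1 (Nat.le_zero.1 hc)] at h5
    exact absurd h5 (Finset.notMem_empty i)
  | succ k ihk =>
    intro c hc
    have inner : ∀ d : ℕ, ∀ M : FDMod A, Module.finrank ℂ M.obj ≤ d → SuppIn e ht c M → G M := by
      intro d
      induction d with
      | zero =>
        intro M hd _
        have h : FiniteDimensional ℂ M.obj := M.property
        have h3 : Subsingleton M.obj := Module.finrank_zero_iff.1 (Nat.le_zero.1 hd)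
        exact hZ M (isZero_of_forall fun m => Subsingleton.elim _ _)
      | succ d ihd =>
        intro M hd hM
        by_cases hM0 : ∃ m : M.obj, m ≠ 0
        · obtain ⟨S, hS0, hS1, hS2⟩ := step e he ht h1 h2 G hP hCoker k ihk c hc M hM hM0
          have h : FiniteDimensional ℂ M.obj := M.property
          obtain ⟨T, hT, hT1, hT2, hT3⟩ := sub_quo M S
          rw [← hT2]
          refine hExt T hT (hT1 ▸ hS1) ?_
          rw [hT3]
          refine ihd _ ?_ hS2
          let g : M.obj →ₗ[A] (quo M S).obj := S.mkQ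
          have hg : Function.Surjective (g.restrictScalars ℂ) := S.mkQ_surjective
          have h3 := (g.restrictScalars ℂ).finrank_range_add_finrank_ker
          rw [LinearMap.range_eq_top.2 hg, finrank_top] at h3
          have h4 : 0 < Module.finrank ℂ (LinearMap.ker (g.restrictScalars ℂ)) := by
            rw [Module.finrank_pos_iff, Submodule.nontrivial_iff_ne_bot]
            intro hb
            obtain ⟨s, hs, hs0⟩ := S.ne_bot_iff.1 hS0
            have h5 : s ∈ LinearMap.ker (g.restrictScalars ℂ) :=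
              (Submodule.Quotient.mk_eq_zero S).2 hs
            rw [hb] at h5
            exact hs0 ((Submodule.mem_bot ℂ).1 h5)
          omega
        · push Not at hM0
          exact hZ M (isZero_of_forall hM0)
    intro M hM
    exact inner _ M le_rfl hM

end AG

open AG

variable {A : Type} [Ring A] [Algebra ℂ A] [FiniteDimensional ℂ A]

theorem abGen_projMod {I : Type} [Fintype I] (e : I → A)
    (he : CompleteOrthogonalIdempotents e) (ht : I → ℤ)
    (h1 : ∀ i, Module.finrank ℂ (peirce (e i) (e i)) = 1)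
    (h2 : ∀ i j, i ≠ j → peirce (e i) (e j) ≠ ⊥ → ht j < ht i) :
    AbGen (fun i => projMod (e i)) := by
  classical
  intro G _ hP hZ hCoker hKer hExt M
  refine key e he ht h1 h2 G hP hZ hCoker hExt _ (-(∑ i, |ht i|) - 1) le_rfl M ?_
  intro i m _
  have h3 : |ht i| ≤ ∑ i, |ht i| :=
    Finset.single_le_sum (f := fun i => |ht i|) (fun i _ => abs_nonneg _) (Finset.mem_univ i)
  have h4 := neg_abs_le (ht i)
  omega

end MPdda
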