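import Pool.Agent.H.MP_dda0b9_al.Decomp

/-!
# MP_dda0b9_al: right almost split maps and the inverse of the Hom-matrix (job J10)
-/

namespace MPdda

open CategoryTheory CategoryTheory.Limits

attribute [local instance] Abelian.hasFiniteBiproducts

/-- `f : E ⟶ X` is right almost split. -/
structure RAS {C : Type 1} [Category.{0} C] [Abelian C] {E X : C} (f : E ⟶ X) : Prop where
  not_split : ∀ s : X ⟶ E, s ≫ f ≠ 𝟙 X
  lift : ∀ (Z : C) (g : Z ⟶ X), Indecomposable Z → ¬ IsIso g → ∃ h : Z ⟶ E, h ≫ f = g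

variable {C : Type 1} [Category.{0} C] [Abelian C] [Linear ℂ C]

omit [Linear ℂ C] in
theorem as_not_isIso_zero {X Y : C} (hX : Indecomposable X) : ¬ IsIso (0 : X ⟶ Y) := by
  intro h
  apply hX.1
  rw [IsZero.iff_id_eq_zero, ← IsIso.hom_inv_id (0 : X ⟶ Y), zero_comp]

/-- The submodule of the non-isomorphisms between indecomposables. -/
noncomputable def radSub (hfd : ∀ X Y : C, FiniteDimensional ℂ (X ⟶ Y)) {X Y : C}
    (hX : Indecomposable X) (hY : Indecomposable Y) : Submodule ℂ (X ⟶ Y) where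
  carrier := {g | ¬ IsIso g}
  zero_mem' := as_not_isIso_zero hX
  add_mem' {a b} ha hb := not_isIso_add hfd hX hY a b ha hb
  smul_mem' c g hg := by
    intro h
    apply hg
    refine ⟨⟨c • inv (c • g), ?_, ?_⟩⟩
    · rw [Linear.comp_smul, ← Linear.smul_comp, IsIso.hom_inv_id]
    · rw [Linear.smul_comp, ← Linear.comp_smul, IsIso.inv_hom_id]

theorem mem_radSub (hfd : ∀ X Y : C, FiniteDimensional ℂ (X ⟶ Y)) {X Y : C}
    (hX : Indecomposable X) (hY : Indecomposable Y) (g : X ⟶ Y) :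
    g ∈ radSub hfd hX hY ↔ ¬ IsIso g := Iff.rfl

theorem exists_ras (hfd : ∀ X Y : C, FiniteDimensional ℂ (X ⟶ Y)) {ι : Type} [Finite ι]
    (M : ι → C) (hM : IsIndecList M) (j : ι) : ∃ (E : C) (f : E ⟶ M j), RAS f := by
  classical
  have : Fintype ι := Fintype.ofFinite ι
  let R : ∀ i, Submodule ℂ (M i ⟶ M j) := fun i => radSub hfd (hM.indec i) (hM.indec j)
  have hR : ∀ i, Module.Finite ℂ (R i) := fun i => by
    have := hfd (M i) (M j)
    infer_instance
  let d : ι → ℕ := fun i => Module.finrank ℂ (R i)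
  let b : ∀ i, Module.Basis (Fin (d i)) ℂ (R i) := fun i => Module.finBasis ℂ (R i)
  let F : (Σ i, Fin (d i)) → C := fun p => M p.1
  let f : ⨁ F ⟶ M j := biproduct.desc (fun p => ((b p.1 p.2 : R p.1) : M p.1 ⟶ M j))
  refine ⟨⨁ F, f, ?_, ?_⟩
  · intro s hs
    have h1 : s ≫ f = ∑ p, (s ≫ biproduct.π F p) ≫ ((b p.1 p.2 : R p.1) : M p.1 ⟶ M j) := by
      have h2 : 𝟙 (⨁ F) = ∑ p, biproduct.π F p ≫ biproduct.ι F p := biproduct.total.symm
      calc s ≫ f = s ≫ 𝟙 (⨁ F) ≫ f := by rw [Category.id_comp]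
        _ = ∑ p, (s ≫ biproduct.π F p) ≫ ((b p.1 p.2 : R p.1) : M p.1 ⟶ M j) := by
          rw [h2, Preadditive.sum_comp, Preadditive.comp_sum]
          refine Finset.sum_congr rfl fun p _ => ?_
          simp only [f, Category.assoc, biproduct.ι_desc]
    have h3 : s ≫ f ∈ radSub hfd (hM.indec j) (hM.indec j) := by
      rw [h1]
      refine Submodule.sum_mem _ fun p _ => ?_
      rw [mem_radSub]
      intro hiso
      have h4 := (not_isIso_comp hfd (hM.indec j) (hM.indec p.1) (hM.indec j) _ _ hiso).2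
      exact (b p.1 p.2).2 h4
    rw [hs, mem_radSub] at h3
    exact h3 inferInstance
  · intro Z g hZ hg
    obtain ⟨i, ⟨e⟩⟩ := hM.complete Z hZ
    have hg' : ¬ IsIso (e.inv ≫ g) := by
      intro h
      apply hg
      have : g = e.hom ≫ (e.inv ≫ g) := by simp
      rw [this]
      infer_instance
    let g' : R i := ⟨e.inv ≫ g, hg'⟩
    refine ⟨e.hom ≫ ∑ a, ((b i).repr g' a) • biproduct.ι F ⟨i, a⟩, ?_⟩
    have h1 : ∑ a, ((b i).repr g' a) • ((b i a : R i) : M i ⟶ M j) = e.inv ≫ g := by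
      have h2 := congrArg Subtype.val ((b i).sum_repr g')
      refine Eq.trans ?_ h2
      rw [Submodule.coe_sum]
      rfl
    rw [Category.assoc, Preadditive.sum_comp]
    have h3 : ∀ a, (((b i).repr g' a) • biproduct.ι F ⟨i, a⟩) ≫ f
        = ((b i).repr g' a) • ((b i a : R i) : M i ⟶ M j) := by
      intro a
      rw [Linear.smul_comp]
      simp only [f, biproduct.ι_desc]
    rw [Finset.sum_congr rfl (fun a _ => h3 a), h1, Iso.hom_inv_id_assoc]

/-- dimension of the morphisms to a finite direct sum -/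
theorem finrank_to_biproduct (hfd : ∀ X Y : C, FiniteDimensional ℂ (X ⟶ Y)) {n : ℕ}
    (Y : Fin n → C) (Z : C) :
    Module.finrank ℂ (Z ⟶ ⨁ Y) = ∑ k, Module.finrank ℂ (Z ⟶ Y k) := by
  let φ : (Z ⟶ ⨁ Y) ≃ₗ[ℂ] (∀ k, Z ⟶ Y k) :=
    { toFun := fun f k => f ≫ biproduct.π Y k
      invFun := fun g => biproduct.lift g
      left_inv := fun f => by ext; simp
      right_inv := fun g => by ext; simp
      map_add' := fun f g => by ext; simp
      map_smul' := fun c f => by ext; simp }
  rw [φ.finrank_eq, Module.finrank_pi_fintype]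

/-- dimension of the morphisms from a finite direct sum -/
theorem finrank_from_biproduct (hfd : ∀ X Y : C, FiniteDimensional ℂ (X ⟶ Y)) {n : ℕ}
    (Y : Fin n → C) (Z : C) :
    Module.finrank ℂ (⨁ Y ⟶ Z) = ∑ k, Module.finrank ℂ (Y k ⟶ Z) := by
  let φ : (⨁ Y ⟶ Z) ≃ₗ[ℂ] (∀ k, Y k ⟶ Z) :=
    { toFun := fun f k => biproduct.ι Y k ≫ f
      invFun := fun g => biproduct.desc g
      left_inv := fun f => by ext; simp
      right_inv := fun g => by ext; simp
      map_add' := fun f g => by ext; simp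
      map_smul' := fun c f => by ext; simp }
  rw [φ.finrank_eq, Module.finrank_pi_fintype]

theorem exists_mult (hfd : ∀ X Y : C, FiniteDimensional ℂ (X ⟶ Y)) {ι : Type} [Fintype ι]
    (M : ι → C) (hM : IsIndecList M) (X : C) :
    ∃ μ : ι → ℕ,
      (∀ Y, Module.finrank ℂ (X ⟶ Y) = ∑ l, μ l * Module.finrank ℂ (M l ⟶ Y)) ∧
      (∀ Y, Module.finrank ℂ (Y ⟶ X) = ∑ l, μ l * Module.finrank ℂ (Y ⟶ M l)) := by
  classical
  obtain ⟨n, Y, hY, ⟨e⟩⟩ := exists_decomp hfd X
  choose i hi using fun k => hM.complete (Y k) (hY k)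
  have hsum : ∀ f : ι → ℕ, ∑ k, f (i k) = ∑ l, (∑ k, if i k = l then 1 else 0) * f l := by
    intro f
    simp only [Finset.sum_mul]
    rw [Finset.sum_comm]
    refine Finset.sum_congr rfl fun k _ => ?_
    simp
  refine ⟨fun l => ∑ k, if i k = l then 1 else 0, fun Z => ?_, fun Z => ?_⟩
  · rw [← hsum (fun l => Module.finrank ℂ (M l ⟶ Z)),
      (Linear.homCongr ℂ e (Iso.refl Z)).finrank_eq, finrank_from_biproduct hfd]
    refine Finset.sum_congr rfl fun k _ => ?_
    exact (Linear.homCongr ℂ (hi k).some (Iso.refl Z)).finrank_eq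
  · rw [← hsum (fun l => Module.finrank ℂ (Z ⟶ M l)),
      (Linear.homCongr ℂ (Iso.refl Z) e).finrank_eq, finrank_to_biproduct hfd]
    refine Finset.sum_congr rfl fun k _ => ?_
    exact (Linear.homCongr ℂ (Iso.refl Z) (hi k).some).finrank_eq

/-- dimension of the space of nonisomorphisms between members of the list -/
theorem finrank_radSub (hfd : ∀ X Y : C, FiniteDimensional ℂ (X ⟶ Y)) {ι : Type}
    [DecidableEq ι] (M : ι → C) (hM : IsIndecList M) (i j : ι) :
    (Module.finrank ℂ (radSub hfd (hM.indec i) (hM.indec j)) : ℤ)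
      = Module.finrank ℂ (M i ⟶ M j) - (1 : Matrix ι ι ℤ) i j := by
  have := hfd (M i) (M j)
  by_cases h : i = j
  · subst h
    rw [Matrix.one_apply_eq]
    set R := radSub hfd (hM.indec i) (hM.indec i) with hR
    have hne : (𝟙 (M i)) ≠ 0 := fun h0 => (hM.indec i).1 ((IsZero.iff_id_eq_zero _).2 h0)
    have hinf : R ⊓ Submodule.span ℂ {𝟙 (M i)} = ⊥ := by
      rw [eq_bot_iff]
      rintro x ⟨hx1, hx2⟩
      obtain ⟨c, rfl⟩ := Submodule.mem_span_singleton.1 hx2
      by_cases hc : c = 0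
      · rw [hc, zero_smul]; exact Submodule.zero_mem _
      · exfalso
        apply hx1
        refine ⟨⟨c⁻¹ • 𝟙 (M i), ?_, ?_⟩⟩
        · simp [smul_smul, hc]
        · simp [smul_smul, hc]
    have hsup : R ⊔ Submodule.span ℂ {𝟙 (M i)} = ⊤ := by
      rw [eq_top_iff]
      intro θ _
      obtain ⟨c, hc⟩ := exists_sub_smul_nilpotent hfd (hM.indec i) (θ : End (M i))
      have h1 : θ - c • 𝟙 (M i) ∈ R := by
        rw [hR, mem_radSub]
        intro hiso
        obtain ⟨m, hm⟩ := hc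
        have hu : ∀ η : End (M i), IsIso (C := C) (X := M i) (Y := M i) η → IsUnit η := by
          intro η hη
          refine ⟨⟨η, inv (C := C) (X := M i) (Y := M i) η, ?_, ?_⟩, rfl⟩
          · exact IsIso.inv_hom_id (C := C) (X := M i) (Y := M i) η
          · exact IsIso.hom_inv_id (C := C) (X := M i) (Y := M i) η
        have h0 := (hu _ hiso).pow m
        erw [hm] at h0
        have hnt : Nontrivial (End (M i)) := ⟨⟨(1 : End (M i)), 0, hne⟩⟩
        exact not_isUnit_zero h0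
      have h2 : θ = (θ - c • 𝟙 (M i)) + c • 𝟙 (M i) := by abel
      rw [h2]
      exact Submodule.add_mem_sup h1 (Submodule.smul_mem _ _ (Submodule.mem_span_singleton_self _))
    have h3 := Submodule.finrank_sup_add_finrank_inf_eq R (Submodule.span ℂ {𝟙 (M i)})
    rw [hinf, hsup, finrank_top, finrank_bot, finrank_span_singleton hne] at h3
    rw [add_zero] at h3
    rw [h3]
    push_cast
    ring
  · rw [Matrix.one_apply_ne h]
    have htop : radSub hfd (hM.indec i) (hM.indec j) = ⊤ := by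
      rw [eq_top_iff]
      intro g _
      rw [mem_radSub]
      intro hiso
      exact h (hM.irredundant i j ⟨asIso g⟩)
    rw [htop, finrank_top, sub_zero]

/-- exact sequence of a right almost split map -/
theorem finrank_ras (hfd : ∀ X Y : C, FiniteDimensional ℂ (X ⟶ Y)) {Z E X : C} (f : E ⟶ X)
    (hf : RAS f) (hZ : Indecomposable Z) (hX : Indecomposable X) :
    Module.finrank ℂ (Z ⟶ E) = Module.finrank ℂ (radSub hfd hZ hX)
      + Module.finrank ℂ (Z ⟶ kernel f) := by
  have := hfd Z E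
  have h1 := LinearMap.finrank_range_add_finrank_ker (Linear.rightComp ℂ Z f)
  have hr : LinearMap.range (Linear.rightComp ℂ Z f) = radSub hfd hZ hX := by
    ext g
    rw [LinearMap.mem_range, mem_radSub]
    constructor
    · rintro ⟨h, rfl⟩ hiso
      rw [Linear.rightComp_apply] at hiso
      refine hf.not_split (inv (h ≫ f) ≫ h) ?_
      rw [Category.assoc, IsIso.inv_hom_id]
    · intro hg
      obtain ⟨h, hh⟩ := hf.lift Z g hZ hg
      exact ⟨h, hh⟩
  let φ : (Z ⟶ kernel f) ≃ₗ[ℂ] LinearMap.ker (Linear.rightComp ℂ Z f) :=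
    { toFun := fun g => ⟨g ≫ kernel.ι f, by simp⟩
      invFun := fun g => kernel.lift f g.1 g.2
      left_inv := fun g => by
        apply (cancel_mono (kernel.ι f)).1
        simp
      right_inv := fun g => by
        apply Subtype.ext
        simp
      map_add' := fun g h => by
        apply Subtype.ext
        simp
      map_smul' := fun c g => by
        apply Subtype.ext
        simp }
  rw [← h1, hr, φ.finrank_eq]

theorem hom_matrix_inverse (hfd : ∀ X Y : C, FiniteDimensional ℂ (X ⟶ Y)) {ι : Type}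
    [Fintype ι] [DecidableEq ι] (M : ι → C) (hM : IsIndecList M) (E : ι → C)
    (f : ∀ j, E j ⟶ M j) (hf : ∀ j, RAS (f j)) :
    ∃ r : Matrix ι ι ℤ,
      Matrix.of (fun i j => (Module.finrank ℂ (M i ⟶ M j) : ℤ)) * r = 1 ∧
      ∀ j, ∑ l, r l j * (Module.finrank ℂ (M l ⟶ M j) : ℤ) =
        (Module.finrank ℂ (M j ⟶ M j) : ℤ) - Module.finrank ℂ (E j ⟶ M j) +
          Module.finrank ℂ (kernel (f j) ⟶ M j) := by
  choose μ hμ1 hμ2 using exists_mult hfd M hM
  refine ⟨fun l j => (1 : Matrix ι ι ℤ) l j - μ (E j) l + μ (kernel (f j)) l, ?_, ?_⟩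
  · ext i j
    rw [Matrix.mul_apply]
    simp only [Matrix.of_apply]
    have e1 : ∑ l, (Module.finrank ℂ (M i ⟶ M l) : ℤ) *
        ((1 : Matrix ι ι ℤ) l j - μ (E j) l + μ (kernel (f j)) l)
        = Module.finrank ℂ (M i ⟶ M j) - Module.finrank ℂ (M i ⟶ E j)
          + Module.finrank ℂ (M i ⟶ kernel (f j)) := by
      rw [hμ2 (E j) (M i), hμ2 (kernel (f j)) (M i)]
      push_cast
      have e2 : ∀ l, (Module.finrank ℂ (M i ⟶ M l) : ℤ) *
        ((1 : Matrix ι ι ℤ) l j - μ (E j) l + μ (kernel (f j)) l)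
        = (Module.finrank ℂ (M i ⟶ M l) : ℤ) * (1 : Matrix ι ι ℤ) l j
          - μ (E j) l * (Module.finrank ℂ (M i ⟶ M l) : ℤ)
          + μ (kernel (f j)) l * (Module.finrank ℂ (M i ⟶ M l) : ℤ) := fun l => by ring
      rw [Finset.sum_congr rfl (fun l _ => e2 l), Finset.sum_add_distrib, Finset.sum_sub_distrib]
      simp [Matrix.one_apply]
    rw [e1, finrank_ras hfd (f j) (hf j) (hM.indec i) (hM.indec j)]
    push_cast
    rw [finrank_radSub hfd M hM i j]
    ring
  · intro j
    rw [hμ1 (E j) (M j), hμ1 (kernel (f j)) (M j)]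
    push_cast
    have e2 : ∀ l, ((1 : Matrix ι ι ℤ) l j - μ (E j) l + μ (kernel (f j)) l)
        * (Module.finrank ℂ (M l ⟶ M j) : ℤ)
        = (1 : Matrix ι ι ℤ) l j * (Module.finrank ℂ (M l ⟶ M j) : ℤ)
          - μ (E j) l * (Module.finrank ℂ (M l ⟶ M j) : ℤ)
          + μ (kernel (f j)) l * (Module.finrank ℂ (M l ⟶ M j) : ℤ) := fun l => by ring
    rw [Finset.sum_congr rfl (fun l _ => e2 l), Finset.sum_add_distrib, Finset.sum_sub_distrib]
    simp [Matrix.one_apply]

end MPdda
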