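import Pool.Agent.H.MP_dda0b9_al.DefsRep

/-!
# MP_dda0b9_al: the Tits form of `D_n` is positive definite; the tree `D_n` (job J12)
-/

namespace MPdda

open CategoryTheory

theorem tits_tele (f : ℕ → ℤ) (N : ℕ) :
    2 * ∑ k ∈ Finset.range N, (f k - f (k + 1)) ^ 2 =
      4 * ∑ k ∈ Finset.range (N + 1), f k ^ 2 - 2 * f 0 ^ 2 - 2 * f N ^ 2 -
        4 * ∑ k ∈ Finset.range N, f k * f (k + 1) := by
  induction N with
  | zero => simp; ring
  | succ N ih =>
    rw [Finset.sum_range_succ, mul_add, ih, Finset.sum_range_succ (fun k => f k ^ 2) (N + 1),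
      Finset.sum_range_succ (fun k => f k * f (k + 1)) N]
    ring

theorem tits_prod (n : ℕ) (hn : 4 ≤ n) (o : Fin (n - 1) → Bool) (d : Fin n → ℤ)
    (k : Fin (n - 1)) :
    d (dSrc n hn o k) * d (dTgt n hn o k) = d (dEnd₁ n hn k) * d (dEnd₂ n hn k) := by
  unfold dSrc dTgt
  cases o k
  · simp only [Bool.false_eq_true, if_false]
    ring
  · simp

theorem tits_pos (n : ℕ) (hn : 4 ≤ n) (o : Fin (n - 1) → Bool) (d : Fin n → ℤ) (hd : d ≠ 0) :
    0 < eform n hn o d d := by
  obtain ⟨N, hN⟩ : ∃ N, n = N + 3 := ⟨n - 3, by omega⟩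
  subst hN
  let f : ℕ → ℤ := fun i => if h : i < N + 3 then d ⟨i, h⟩ else 0
  have hf : ∀ x : Fin (N + 3), d x = f x := by
    intro x
    simp only [f]
    rw [dif_pos x.2]
  have h1 : eform (N + 3) hn o d d = ∑ x ∈ Finset.range (N + 3), f x ^ 2 -
      ∑ k ∈ Finset.range (N + 2), f (min k N) * f (k + 1) := by
    unfold eform
    rw [← Fin.sum_univ_eq_sum_range (fun x => f x ^ 2) (N + 3),
      ← Fin.sum_univ_eq_sum_range (fun k => f (min k N) * f (k + 1)) (N + 2)]
    congr 1
    · refine Finset.sum_congr rfl fun x _ => ?_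
      rw [hf]
      ring
    · refine Finset.sum_congr rfl fun k _ => ?_
      rw [tits_prod, hf, hf]
      rfl
  have h2 : ∑ k ∈ Finset.range (N + 2), f (min k N) * f (k + 1) =
      ∑ k ∈ Finset.range N, f k * f (k + 1) + f N * f (N + 1) + f N * f (N + 2) := by
    rw [Finset.sum_range_succ, Finset.sum_range_succ]
    have e1 : min N N = N := min_self N
    have e2 : min (N + 1) N = N := by omega
    rw [e1, e2]
    congr 2
    refine Finset.sum_congr rfl fun k hk => ?_
    rw [Finset.mem_range] at hk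
    have e3 : min k N = k := by omega
    rw [e3]
  have h3 : 4 * eform (N + 3) hn o d d = 2 * f 0 ^ 2 +
      2 * ∑ k ∈ Finset.range N, (f k - f (k + 1)) ^ 2 + (f N - 2 * f (N + 1)) ^ 2 +
        (f N - 2 * f (N + 2)) ^ 2 := by
    rw [h1, h2, tits_tele, Finset.sum_range_succ, Finset.sum_range_succ]
    ring
  by_contra hcon
  push Not at hcon
  have s0 : 0 ≤ f 0 ^ 2 := sq_nonneg _
  have s1 : 0 ≤ ∑ k ∈ Finset.range N, (f k - f (k + 1)) ^ 2 :=
    Finset.sum_nonneg fun k _ => sq_nonneg _
  have s2 : 0 ≤ (f N - 2 * f (N + 1)) ^ 2 := sq_nonneg _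
  have s3 : 0 ≤ (f N - 2 * f (N + 2)) ^ 2 := sq_nonneg _
  have t0 : f 0 ^ 2 = 0 := by linarith
  have t1 : ∑ k ∈ Finset.range N, (f k - f (k + 1)) ^ 2 = 0 := by linarith
  have t2 : (f N - 2 * f (N + 1)) ^ 2 = 0 := by linarith
  have t3 : (f N - 2 * f (N + 2)) ^ 2 = 0 := by linarith
  have u0 : f 0 = 0 := by
    exact pow_eq_zero_iff (two_ne_zero) |>.1 t0
  have u1 : ∀ k, k < N → f k = f (k + 1) := by
    intro k hk
    have := (Finset.sum_eq_zero_iff_of_nonneg (fun k _ => sq_nonneg (f k - f (k + 1)))).1 t1 k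
      (Finset.mem_range.2 hk)
    have := pow_eq_zero_iff (two_ne_zero) |>.1 this
    linarith
  have u2 : f N - 2 * f (N + 1) = 0 := pow_eq_zero_iff (two_ne_zero) |>.1 t2
  have u3 : f N - 2 * f (N + 2) = 0 := pow_eq_zero_iff (two_ne_zero) |>.1 t3
  have u4 : ∀ k, k ≤ N → f k = 0 := by
    intro k
    induction k with
    | zero => exact fun _ => u0
    | succ k ih =>
      intro hk
      rw [← u1 k (by omega)]
      exact ih (by omega)
  have u5 := u4 N le_rfl
  apply hd
  funext x
  rw [hf x]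
  change f x.1 = 0
  have hx := x.2
  rcases Nat.lt_or_ge N x.1 with hx1 | hx1
  · have : x.1 = N + 1 ∨ x.1 = N + 2 := by omega
    rcases this with h | h
    · rw [h]
      linarith
    · rw [h]
      linarith
  · exact u4 _ hx1

/-- signs -/
def titsEps (n : ℕ) (o : Fin (n - 1) → Bool) (j : ℕ) : ℤ :=
  if h : j < n - 1 then (if o ⟨j, h⟩ then 1 else -1) else 0

/-- potential -/
def titsL (n : ℕ) (o : Fin (n - 1) → Bool) (v : ℕ) : ℤ :=
  if v = 0 then 0 else
    (∑ j ∈ Finset.range (min (v - 1) (n - 3)), titsEps n o j) + titsEps n o (v - 1)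

theorem titsL_min (n : ℕ) (o : Fin (n - 1) → Bool) (m : ℕ) (hm : m ≤ n - 3) :
    titsL n o m = ∑ j ∈ Finset.range m, titsEps n o j := by
  unfold titsL
  rcases m with _ | m
  · simp
  · rw [if_neg (by omega), Finset.sum_range_succ]
    have e : min (m + 1 - 1) (n - 3) = m := by omega
    rw [e]
    rfl

theorem titsL_succ (n : ℕ) (o : Fin (n - 1) → Bool) (k : ℕ) :
    titsL n o (k + 1) = titsL n o (min k (n - 3)) + titsEps n o k := by
  rw [titsL_min n o (min k (n - 3)) (Nat.min_le_right _ _)]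
  unfold titsL
  rw [if_neg (Nat.succ_ne_zero k)]
  rfl

theorem titsL_arrow (n : ℕ) (hn : 4 ≤ n) (o : Fin (n - 1) → Bool) (k : Fin (n - 1)) :
    titsL n o (dTgt n hn o k) = titsL n o (dSrc n hn o k) + 1 := by
  have h := titsL_succ n o k
  unfold dSrc dTgt
  have e : titsEps n o k = if o k then 1 else -1 := by
    unfold titsEps
    rw [dif_pos k.2]
  rw [e] at h
  cases hk : o k
  · rw [hk] at h
    simp only [Bool.false_eq_true, if_false] at h ⊢
    change titsL n o (min k.1 (n - 3)) = titsL n o (k.1 + 1) + 1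
    omega
  · rw [hk] at h
    simp only [if_true] at h ⊢
    change titsL n o (k.1 + 1) = titsL n o (min k.1 (n - 3)) + 1
    omega

theorem titsL_path (n : ℕ) (hn : 4 ≤ n) (o : Fin (n - 1) → Bool) {x y : DQuiver n hn o}
    (p : Quiver.Path x y) : titsL n o y.val = titsL n o x.val + p.length := by
  induction p with
  | nil => simp
  | cons p e ih =>
    obtain ⟨k, h1, h2⟩ := e
    rw [Quiver.Path.length_cons, ← h2, titsL_arrow n hn o k, h1, ih]
    push_cast
    ring

theorem tits_inj (n : ℕ) (hn : 4 ≤ n) (o : Fin (n - 1) → Bool) (k k' : Fin (n - 1))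
    (h1 : dSrc n hn o k' = dSrc n hn o k) (h2 : dTgt n hn o k' = dTgt n hn o k) : k' = k := by
  unfold dSrc at h1
  unfold dTgt at h2
  have g1 := congrArg Fin.val h1
  have g2 := congrArg Fin.val h2
  apply Fin.ext
  have hk := k.2
  have hk' := k'.2
  cases hok : o k <;> cases hok' : o k' <;>
    simp only [hok, hok', Bool.false_eq_true, if_false, if_true, dEnd₁, dEnd₂] at g1 g2 <;> omega

/-- There are no oriented cycles. -/
theorem path_self_unique (n : ℕ) (hn : 4 ≤ n) (o : Fin (n - 1) → Bool) (x : Fin n)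
    (p : pv n hn o x ⟶ pv n hn o x) : p = 𝟙 _ := by
  have h := titsL_path n hn o (x := ⟨x⟩) (y := ⟨x⟩) p
  have h0 : Quiver.Path.length (V := DQuiver n hn o) (a := ⟨x⟩) (b := ⟨x⟩) p = 0 := by
    have : titsL n o x = titsL n o x +
      (Quiver.Path.length (V := DQuiver n hn o) (a := ⟨x⟩) (b := ⟨x⟩) p : ℤ) := h
    omega
  exact Quiver.Path.eq_nil_of_length_zero _ h0

theorem tits_len1 (n : ℕ) (hn : 4 ≤ n) (o : Fin (n - 1) → Bool) {x y : DQuiver n hn o}
    (p : Quiver.Path x y) (hp : p.length = 1) : ∃ e : x ⟶ y, p = e.toPath := by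
  cases p with
  | nil => simp at hp
  | cons q e =>
    rw [Quiver.Path.length_cons] at hp
    have hq : q.length = 0 := by omega
    have h3 := Quiver.Path.eq_of_length_zero q hq
    subst h3
    have h4 := Quiver.Path.eq_nil_of_length_zero q hq
    subst h4
    exact ⟨e, rfl⟩

/-- The only path between the ends of an arrow is this arrow. -/
theorem path_arrow_unique (n : ℕ) (hn : 4 ≤ n) (o : Fin (n - 1) → Bool) (k : Fin (n - 1))
    (p : pv n hn o (dSrc n hn o k) ⟶ pv n hn o (dTgt n hn o k)) : p = pa n hn o k := by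
  have h : titsL n o (dTgt n hn o k) = titsL n o (dSrc n hn o k) +
      (Quiver.Path.length (V := DQuiver n hn o) (a := ⟨dSrc n hn o k⟩)
        (b := ⟨dTgt n hn o k⟩) p : ℤ) :=
    titsL_path n hn o (x := ⟨dSrc n hn o k⟩) (y := ⟨dTgt n hn o k⟩) p
  rw [titsL_arrow] at h
  have h' : (Quiver.Path.length (V := DQuiver n hn o) (a := ⟨dSrc n hn o k⟩)
      (b := ⟨dTgt n hn o k⟩) p : ℤ) = 1 := by linarith
  obtain ⟨e, he⟩ := tits_len1 n hn o (x := ⟨dSrc n hn o k⟩) (y := ⟨dTgt n hn o k⟩) p
    (by exact_mod_cast h')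
  obtain ⟨k', h1, h2⟩ := e
  have h5 := tits_inj n hn o k k' h1 h2
  subst h5
  exact he

instance tits_finite_V (n : ℕ) (hn : 4 ≤ n) (o : Fin (n - 1) → Bool) : Finite (DQuiver n hn o) :=
  Finite.of_injective (fun x => x.val) (fun x y h => by
    cases x
    cases y
    simp only at h
    rw [h])

instance tits_finite_hom (n : ℕ) (hn : 4 ≤ n) (o : Fin (n - 1) → Bool) (x y : DQuiver n hn o) :
    Finite (x ⟶ y) :=
  inferInstanceAs (Finite {k : Fin (n - 1) // dSrc n hn o k = x.val ∧ dTgt n hn o k = y.val})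

theorem tits_finite_len (n : ℕ) (hn : 4 ≤ n) (o : Fin (n - 1) → Bool) (x : DQuiver n hn o)
    (N : ℕ) : ∀ y : DQuiver n hn o, {p : Quiver.Path x y | p.length = N}.Finite := by
  induction N with
  | zero =>
    intro y
    apply Set.Subsingleton.finite
    intro p hp q hq
    have h1 : p.length = 0 := hp
    have h2 : q.length = 0 := hq
    have h3 := Quiver.Path.eq_of_length_zero p h1
    subst h3
    rw [Quiver.Path.eq_nil_of_length_zero p h1, Quiver.Path.eq_nil_of_length_zero q h2]
  | succ N ih =>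
    intro y
    refine Set.Finite.subset (s := ⋃ z : DQuiver n hn o, ⋃ e : z ⟶ y,
      (fun q : Quiver.Path x z => q.cons e) '' {q | q.length = N}) ?_ ?_
    · refine Set.finite_iUnion fun z => ?_
      have := tits_finite_hom n hn o z y
      refine Set.finite_iUnion fun e => ?_
      exact (ih z).image _
    · intro p hp
      have hp' : p.length = N + 1 := hp
      cases p with
      | nil => simp at hp'
      | cons q e =>
        rename_i z
        simp only [Set.mem_iUnion]
        refine ⟨z, e, q, ?_, rfl⟩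
        have : q.length + 1 = N + 1 := hp'
        have h3 : q.length = N := by omega
        exact h3

/-- There are only finitely many paths between two vertices. -/
theorem path_finite (n : ℕ) (hn : 4 ≤ n) (o : Fin (n - 1) → Bool)
    (x y : Paths (DQuiver n hn o)) : Finite (x ⟶ y) := by
  have h1 : ∀ x y : DQuiver n hn o, Finite (Quiver.Path x y) := by
    intro x y
    have h2 := tits_finite_len n hn o x (titsL n o y.val - titsL n o x.val).toNat y
    have h3 : {p : Quiver.Path x y | p.length = (titsL n o y.val - titsL n o x.val).toNat} =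
        Set.univ := by
      apply Set.eq_univ_of_forall
      intro p
      have := titsL_path n hn o p
      change p.length = _
      omega
    rw [h3] at h2
    exact Set.finite_univ_iff.1 h2
  exact h1 x y

theorem sum_outdeg (n : ℕ) (hn : 4 ≤ n) (o : Fin (n - 1) → Bool) :
    ∑ x : Fin n, (1 - (Finset.card {k : Fin (n - 1) | dSrc n hn o k = x} : ℤ)) = 1 := by
  rw [Finset.sum_sub_distrib]
  have h1 : (∑ x : Fin n, (Finset.card {k : Fin (n - 1) | dSrc n hn o k = x} : ℤ)) =
      (n - 1 : ℕ) := by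
    rw [← Nat.cast_sum, ← Finset.card_eq_sum_card_fiberwise (s := Finset.univ)
      (f := dSrc n hn o) (t := Finset.univ) (fun _ _ => Finset.mem_coe.2 (Finset.mem_univ _))]
    simp
  rw [h1]
  simp
  omega

end MPdda
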