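import Pool.Agent.H.MP_dda0b9_al.DefsProj
import Pool.Agent.H.MP_dda0b9_al.TitsD

/-!
# MP_dda0b9_al: construction of the indecomposable projective representations (job J14)
-/

namespace MPdda

open CategoryTheory CategoryTheory.Limits

attribute [local instance] Abelian.hasFiniteBiproducts

section paths

theorem pd_toPath_comp_inj {V : Type} [Quiver.{0} V] {a y b : V} (e : a ⟶ b)
    (p : Quiver.Path b y) {b' : V} (e' : a ⟶ b') (p' : Quiver.Path b' y)
    (h : e.toPath.comp p = e'.toPath.comp p') :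
    (⟨b, e, p⟩ : Σ b, (a ⟶ b) × Quiver.Path b y) = ⟨b', e', p'⟩ := by
  induction p with
  | nil =>
    cases p' with
    | nil =>
      rw [Quiver.Path.comp_nil, Quiver.Path.comp_nil] at h
      have := Quiver.Path.hom_heq_of_cons_eq_cons h
      rw [eq_of_heq this]
    | cons q' f' =>
      rw [Quiver.Path.comp_nil, Quiver.Path.comp_cons] at h
      have h1 := congrArg Quiver.Path.length h
      simp at h1
  | cons q f ih =>
    cases p' with
    | nil =>
      rw [Quiver.Path.comp_nil, Quiver.Path.comp_cons] at h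
      have h1 := congrArg Quiver.Path.length h
      simp at h1
    | cons q' f' =>
      rw [Quiver.Path.comp_cons, Quiver.Path.comp_cons] at h
      have h1 := Quiver.Path.obj_eq_of_cons_eq_cons h
      subst h1
      have h2 := eq_of_heq (Quiver.Path.heq_of_cons_eq_cons h)
      have h3 := eq_of_heq (Quiver.Path.hom_heq_of_cons_eq_cons h)
      subst h3
      have h4 := ih q' h2
      cases h4
      rfl

end paths

variable {n : ℕ} {hn : 4 ≤ n} {o : Fin (n - 1) → Bool}

/-- length of a path -/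
def plen {a b : Paths (DQuiver n hn o)} (p : a ⟶ b) : ℕ := Quiver.Path.length p

theorem plen_comp {a b c : Paths (DQuiver n hn o)} (p : a ⟶ b) (q : b ⟶ c) :
    plen (p ≫ q) = plen p + plen q := Quiver.Path.length_comp p q

theorem plen_id (a : Paths (DQuiver n hn o)) : plen (𝟙 a) = 0 := rfl

/-- the arrows with source `x` -/
abbrev Out (n : ℕ) (hn : 4 ≤ n) (o : Fin (n - 1) → Bool) (x : Fin n) : Type :=
  {k : Fin (n - 1) // dSrc n hn o k = x}

/-- the arrow `k` as a morphism with source `x` -/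
def ar (x : Fin n) (k : Out n hn o x) : pv n hn o x ⟶ pv n hn o (dTgt n hn o k.1) :=
  (Paths.of (DQuiver n hn o)).map ⟨k.1, k.2, rfl⟩

theorem ar_inj {x : Fin n} {y : Paths (DQuiver n hn o)} :
    Function.Injective (fun s : (Σ k : Out n hn o x, (pv n hn o (dTgt n hn o k.1) ⟶ y)) =>
      ar x s.1 ≫ s.2) := by
  rintro ⟨⟨k, hk⟩, p⟩ ⟨⟨k', hk'⟩, p'⟩ h
  let e : (⟨x⟩ : DQuiver n hn o) ⟶ ⟨dTgt n hn o k⟩ := ⟨k, hk, rfl⟩
  let e' : (⟨x⟩ : DQuiver n hn o) ⟶ ⟨dTgt n hn o k'⟩ := ⟨k', hk', rfl⟩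
  have h1 := pd_toPath_comp_inj (V := DQuiver n hn o) e p e' p' h
  have h2 : k = k' := by
    have h3 := congrArg (fun s : (Σ b : DQuiver n hn o, ((⟨x⟩ : DQuiver n hn o) ⟶ b) ×
      Quiver.Path b y) => s.2.1.1) h1
    exact h3
  subst h2
  have h3 := eq_of_heq (Sigma.mk.inj h1).2
  have h4 := (Prod.mk.inj h3).2
  have h5 : p = p' := h4
  rw [h5]

theorem ar_ne_id {x : Fin n} (k : Out n hn o x)
    (p : pv n hn o (dTgt n hn o k.1) ⟶ pv n hn o x) : ar x k ≫ p ≠ 𝟙 _ := by
  intro h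
  have h1 := congrArg plen h
  have h2 : plen (ar x k) = 1 := rfl
  rw [plen_comp, plen_id, h2] at h1
  omega

theorem ar_surj {x : Fin n} {y : Paths (DQuiver n hn o)} (p : pv n hn o x ⟶ y)
    (hp : pv n hn o x ≠ y) : ∃ (k : Out n hn o x) (q : pv n hn o (dTgt n hn o k.1) ⟶ y),
      p = ar x k ≫ q := by
  rcases Nat.eq_zero_or_pos (Quiver.Path.length p) with h0 | hpos
  · exact absurd (Quiver.Path.eq_of_length_zero p h0) hp
  · obtain ⟨m, hm⟩ : ∃ m, Quiver.Path.length p = m + 1 := ⟨_, (Nat.succ_pred_eq_of_pos hpos).symm⟩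
    obtain ⟨⟨c⟩, ⟨k, hk1, hk2⟩, q, hq, rfl⟩ := Quiver.Path.eq_toPath_comp_of_length_eq_succ p hm
    have hk2' : dTgt n hn o k = c := hk2
    subst hk2'
    exact ⟨⟨k, hk1⟩, q, rfl⟩

theorem path_antisymm {x y : Fin n} (p : pv n hn o x ⟶ pv n hn o y)
    (q : pv n hn o y ⟶ pv n hn o x) : x = y := by
  have h := path_self_unique n hn o x (p ≫ q)
  have h1 := congrArg plen h
  rw [plen_comp, plen_id] at h1
  have h2 : plen p = 0 := by omega
  have h3 : (⟨x⟩ : DQuiver n hn o) = ⟨y⟩ := Quiver.Path.eq_of_length_zero p h2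
  exact congrArg DQuiver.val h3

section proj

/-- morphisms of representations are equal if they agree on all elements -/
theorem drep_ext {V W : DRep n hn o} {f g : V ⟶ W}
    (h : ∀ y (v : V.obj y), (f.app y).hom.hom v = (g.app y).hom.hom v) : f = g := by
  ext y v
  exact h y v

theorem drep_nat {V W : DRep n hn o} (f : V ⟶ W) {y z : Paths (DQuiver n hn o)} (p : y ⟶ z)
    (v : V.obj y) : (f.app z).hom.hom ((V.map p).hom.hom v)
      = (W.map p).hom.hom ((f.app y).hom.hom v) :=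
  LinearMap.congr_fun (congrArg (fun k => k.hom.hom) (f.naturality p)) v

theorem drep_map_id (V : DRep n hn o) (y : Paths (DQuiver n hn o)) (v : V.obj y) :
    (V.map (𝟙 y)).hom.hom v = v :=
  LinearMap.congr_fun (congrArg (fun k => k.hom.hom) (V.map_id y)) v

theorem drep_map_comp (V : DRep n hn o) {y z w : Paths (DQuiver n hn o)} (p : y ⟶ z)
    (q : z ⟶ w) (v : V.obj y) :
    (V.map (p ≫ q)).hom.hom v = (V.map q).hom.hom ((V.map p).hom.hom v) :=
  LinearMap.congr_fun (congrArg (fun k => k.hom.hom) (V.map_comp p q)) v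

/-- the space of the projective representation at `y` -/
noncomputable def ppObj (x : Fin n) (y : Paths (DQuiver n hn o)) : FGModuleCat.{0} ℂ :=
  haveI := path_finite n hn o (pv n hn o x) y
  FGModuleCat.of ℂ ((pv n hn o x ⟶ y) →₀ ℂ)

/-- its maps -/
noncomputable def ppMap (x : Fin n) {y z : Paths (DQuiver n hn o)} (f : y ⟶ z) :
    ppObj x y ⟶ ppObj x z :=
  haveI := path_finite n hn o (pv n hn o x) y
  haveI := path_finite n hn o (pv n hn o x) z
  FGModuleCat.ofHom (Finsupp.lmapDomain ℂ ℂ (fun p => p ≫ f))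

theorem pp_lin_ext0 {x : Fin n} {y : Paths (DQuiver n hn o)} {W : Type} [AddCommGroup W]
    [Module ℂ W] {f g : ppObj x y →ₗ[ℂ] W}
    (h : ∀ p, f (Finsupp.single p (1 : ℂ) : (pv n hn o x ⟶ y) →₀ ℂ)
      = g (Finsupp.single p (1 : ℂ) : (pv n hn o x ⟶ y) →₀ ℂ)) : f = g := by
  refine Finsupp.lhom_ext' (R := ℂ) (M := ℂ) (α := pv n hn o x ⟶ y) fun p => ?_
  ext
  exact h p

theorem ppMap_single {x : Fin n} {y z : Paths (DQuiver n hn o)} (f : y ⟶ z)
    (p : pv n hn o x ⟶ y) :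
    (ppMap x f).hom.hom (Finsupp.single p (1 : ℂ) : (pv n hn o x ⟶ y) →₀ ℂ)
      = (Finsupp.single (p ≫ f) (1 : ℂ) : (pv n hn o x ⟶ z) →₀ ℂ) :=
  Finsupp.mapDomain_single

/-- the representation -/
noncomputable def PPd (x : Fin n) : DRep n hn o where
  obj y := ppObj x y
  map f := ppMap x f
  map_id y := by
    apply FGModuleCat.hom_ext
    apply pp_lin_ext0
    intro p
    rw [ppMap_single, Category.comp_id]
    rfl
  map_comp f g := by
    apply FGModuleCat.hom_ext
    apply pp_lin_ext0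
    intro p
    rw [ppMap_single, ← Category.assoc]
    refine Eq.trans ?_ (congrArg (ppMap x g).hom.hom (ppMap_single f p)).symm
    exact (ppMap_single g (p ≫ f)).symm

/-- the basis element of a path -/
noncomputable def bs {x : Fin n} {y : Paths (DQuiver n hn o)} (p : pv n hn o x ⟶ y) :
    (PPd x).obj y := (Finsupp.single p (1 : ℂ) : (pv n hn o x ⟶ y) →₀ ℂ)

/-- linear maps out of `PPd` -/
theorem pp_lin_ext {x : Fin n} {y : Paths (DQuiver n hn o)} {W : Type} [AddCommGroup W]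
    [Module ℂ W] {f g : (PPd x).obj y →ₗ[ℂ] W} (h : ∀ p, f (bs p) = g (bs p)) : f = g :=
  pp_lin_ext0 h

/-- linear maps out of `PPd` -/
noncomputable def ppDesc {x : Fin n} {y : Paths (DQuiver n hn o)} {W : Type} [AddCommGroup W]
    [Module ℂ W] (w : (pv n hn o x ⟶ y) → W) : (PPd x).obj y →ₗ[ℂ] W :=
  Finsupp.linearCombination ℂ w

theorem ppDesc_bs {x : Fin n} {y : Paths (DQuiver n hn o)} {W : Type} [AddCommGroup W]
    [Module ℂ W] (w : (pv n hn o x ⟶ y) → W) (p : pv n hn o x ⟶ y) : ppDesc w (bs p) = w p := by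
  have h := Finsupp.linearCombination_single ℂ (v := w) (1 : ℂ) p
  rw [one_smul] at h
  exact h

theorem PPd_map_bs {x : Fin n} {y z : Paths (DQuiver n hn o)} (f : y ⟶ z)
    (p : pv n hn o x ⟶ y) : ((PPd x).map f).hom.hom (bs p) = bs (p ≫ f) := ppMap_single f p

/-- Yoneda -/
noncomputable def yo {x : Fin n} {V : DRep n hn o} (v : V.obj (pv n hn o x)) : PPd x ⟶ V where
  app y := ObjectProperty.homMk (ModuleCat.ofHom (ppDesc (fun p => (V.map p).hom.hom v)))
  naturality y z f := by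
    apply FGModuleCat.hom_ext
    apply pp_lin_ext
    intro p
    change ppDesc (fun p => (V.map p).hom.hom v) (((PPd x).map f).hom.hom (bs p))
      = (V.map f).hom.hom (ppDesc (fun p => (V.map p).hom.hom v) (bs p))
    rw [PPd_map_bs, ppDesc_bs, ppDesc_bs, drep_map_comp]

theorem yo_app_bs {x : Fin n} {V : DRep n hn o} (v : V.obj (pv n hn o x))
    {y : Paths (DQuiver n hn o)} (p : pv n hn o x ⟶ y) :
    ((yo v).app y).hom.hom (bs p) = (V.map p).hom.hom v := ppDesc_bs _ _

theorem pp_hom_ext {x : Fin n} {V : DRep n hn o} {f g : PPd x ⟶ V}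
    (h : (f.app _).hom.hom (bs (𝟙 (pv n hn o x))) = (g.app _).hom.hom (bs (𝟙 _))) : f = g := by
  ext1
  funext y
  apply FGModuleCat.hom_ext
  apply pp_lin_ext
  intro p
  have h1 : (bs p : (PPd x).obj y) = ((PPd x).map p).hom.hom (bs (𝟙 (pv n hn o x))) := by
    rw [PPd_map_bs, Category.id_comp]
  rw [h1, drep_nat, drep_nat, h]

theorem yo_eq {x : Fin n} {V : DRep n hn o} (f : PPd x ⟶ V) :
    yo ((f.app _).hom.hom (bs (𝟙 (pv n hn o x)))) = f := by
  apply pp_hom_ext
  rw [yo_app_bs, drep_map_id]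

/-- Yoneda as a linear equivalence -/
noncomputable def yoEquiv (x : Fin n) (V : DRep n hn o) :
    (PPd x ⟶ V) ≃ₗ[ℂ] V.obj (pv n hn o x) where
  toFun f := (f.app _).hom.hom (bs (𝟙 (pv n hn o x)))
  invFun v := yo v
  left_inv f := yo_eq f
  right_inv v := by
    change ((yo v).app _).hom.hom (bs (𝟙 (pv n hn o x))) = v
    rw [yo_app_bs, drep_map_id]
  map_add' f g := rfl
  map_smul' c f := rfl

theorem drep_epi_surj {V W : DRep n hn o} (f : V ⟶ W) (hf : Epi f)
    (y : Paths (DQuiver n hn o)) : Function.Surjective (f.app y).hom.hom := by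
  have h1 : Epi (f.app y) := (NatTrans.epi_iff_epi_app f).1 hf y
  have h2 : Epi ((forget₂ (FGModuleCat.{0} ℂ) (ModuleCat.{0} ℂ)).map (f.app y)) := inferInstance
  exact (ModuleCat.epi_iff_surjective _).1 h2

theorem drep_epi_of_surj {V W : DRep n hn o} (f : V ⟶ W)
    (h : ∀ y, Function.Surjective (f.app y).hom.hom) : Epi f := by
  constructor
  intro Z a b hab
  apply drep_ext
  intro y v
  obtain ⟨w, rfl⟩ := h y v
  exact LinearMap.congr_fun (congrArg (fun k : V ⟶ Z => (k.app y).hom.hom) hab) w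

theorem drep_mono_of_inj {V W : DRep n hn o} (f : V ⟶ W)
    (h : ∀ y, Function.Injective (f.app y).hom.hom) : Mono f := by
  constructor
  intro Z a b hab
  apply drep_ext
  intro y v
  apply h y
  exact LinearMap.congr_fun (congrArg (fun k : Z ⟶ W => (k.app y).hom.hom) hab) v

theorem pp_proj (x : Fin n) : Projective (PPd (hn := hn) (o := o) x) := by
  constructor
  intro E X f e he
  obtain ⟨w, hw⟩ := drep_epi_surj e he (pv n hn o x) ((f.app _).hom.hom (bs (𝟙 (pv n hn o x))))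
  refine ⟨yo w, ?_⟩
  apply pp_hom_ext
  change (e.app _).hom.hom (((yo w).app _).hom.hom (bs (𝟙 _))) = _
  rw [yo_app_bs, drep_map_id, hw]

theorem pp_epi_of_lift {E X : DRep n hn o} (g : E ⟶ X)
    (h : ∀ x (φ : PPd x ⟶ X), ∃ h : PPd x ⟶ E, h ≫ g = φ) : Epi g := by
  apply drep_epi_of_surj
  rintro ⟨y⟩ v
  obtain ⟨k, hk⟩ := h y (yo (v : X.obj (pv n hn o y)))
  refine ⟨(k.app (pv n hn o y)).hom.hom (bs (𝟙 _)), ?_⟩
  have h1 : (g.app (pv n hn o y)).hom.hom ((k.app (pv n hn o y)).hom.hom (bs (𝟙 _)))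
      = ((k ≫ g).app (pv n hn o y)).hom.hom (bs (𝟙 _)) := rfl
  refine h1.trans ?_
  rw [hk, yo_app_bs, drep_map_id]

theorem finrank_pp (x : Fin n) (y : Paths (DQuiver n hn o)) :
    Module.finrank ℂ ((PPd x).obj y) = Nat.card (pv n hn o x ⟶ y) := by
  have := path_finite n hn o (pv n hn o x) y
  let _ := Fintype.ofFinite (pv n hn o x ⟶ y)
  rw [Nat.card_eq_fintype_card]
  exact Module.finrank_finsupp_self ℂ

theorem pp_dim_self (x : Fin n) : dimV (PPd (hn := hn) (o := o) x) x = 1 := by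
  rw [dimV, finrank_pp, Nat.card_eq_one_iff_unique]
  exact ⟨⟨fun p q => (path_self_unique n hn o x p).trans (path_self_unique n hn o x q).symm⟩,
    ⟨𝟙 _⟩⟩

theorem pp_dim_arrow (k : Fin (n - 1)) :
    dimV (PPd (hn := hn) (o := o) (dSrc n hn o k)) (dTgt n hn o k) = 1 := by
  rw [dimV, finrank_pp, Nat.card_eq_one_iff_unique]
  exact ⟨⟨fun p q => (path_arrow_unique n hn o k p).trans (path_arrow_unique n hn o k q).symm⟩,
    ⟨pa n hn o k⟩⟩

theorem pp_finrank_hom (x : Fin n) (Y : DRep n hn o) :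
    Module.finrank ℂ (PPd x ⟶ Y) = dimV Y x := (yoEquiv x Y).finrank_eq

theorem pp_not_isZero (x : Fin n) : ¬ IsZero (PPd (hn := hn) (o := o) x) := by
  intro h
  have h1 := pp_finrank_hom (hn := hn) (o := o) x (PPd x)
  rw [pp_dim_self] at h1
  have h2 : Subsingleton (PPd (hn := hn) (o := o) x ⟶ PPd x) := ⟨fun f g => h.eq_of_src f g⟩
  rw [Module.finrank_zero_of_subsingleton] at h1
  exact zero_ne_one h1

theorem pp_indec (x : Fin n) : Indecomposable (PPd (hn := hn) (o := o) x) := by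
  refine ⟨pp_not_isZero x, fun Y Z e => ?_⟩
  have h1 := pp_finrank_hom (hn := hn) (o := o) x (PPd x)
  rw [pp_dim_self] at h1
  have hne : 𝟙 (PPd (hn := hn) (o := o) x) ≠ 0 := fun h =>
    pp_not_isZero x ((IsZero.iff_id_eq_zero _).2 h)
  obtain ⟨c, hc⟩ := (finrank_eq_one_iff_of_nonzero' _ hne).1 h1
    (e.hom ≫ biprod.fst ≫ biprod.inl ≫ e.inv)
  have h2 : (biprod.fst : Y ⊞ Z ⟶ Y) ≫ biprod.inl = c • 𝟙 (Y ⊞ Z) := by
    have h3 : (biprod.fst : Y ⊞ Z ⟶ Y) ≫ biprod.inl
        = e.inv ≫ (e.hom ≫ biprod.fst ≫ biprod.inl ≫ e.inv) ≫ e.hom := by simp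
    rw [h3, ← hc]
    simp
  by_cases hc0 : c = 0
  · left
    rw [IsZero.iff_id_eq_zero]
    have h4 : 𝟙 Y = (biprod.inl : Y ⟶ Y ⊞ Z) ≫ ((biprod.fst : Y ⊞ Z ⟶ Y) ≫
      (biprod.inl : Y ⟶ Y ⊞ Z)) ≫ (biprod.fst : Y ⊞ Z ⟶ Y) := by simp
    rw [h4, h2, hc0]
    simp
  · right
    rw [IsZero.iff_id_eq_zero]
    have h5 : (biprod.inr : Z ⟶ Y ⊞ Z) ≫ ((biprod.fst : Y ⊞ Z ⟶ Y) ≫
        (biprod.inl : Y ⟶ Y ⊞ Z)) ≫ (biprod.snd : Y ⊞ Z ⟶ Z) = 0 := by simp
    rw [h2] at h5
    have h6 : c • 𝟙 Z = 0 := by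
      rw [← h5]
      simp
    exact (smul_eq_zero.1 h6).resolve_left hc0

theorem pp_noniso (x y : Fin n) (h : Nonempty (PPd (hn := hn) (o := o) x ≅ PPd y)) : x = y := by
  obtain ⟨e⟩ := h
  have key : ∀ (x y : Fin n), (PPd (hn := hn) (o := o) x ≅ PPd y) →
      Nonempty (pv n hn o y ⟶ pv n hn o x) := by
    intro x y e
    have h1 := pp_finrank_hom (hn := hn) (o := o) x (PPd y)
    rw [(Linear.homCongr ℂ e (Iso.refl (PPd (hn := hn) (o := o) y))).finrank_eq,
      pp_finrank_hom, pp_dim_self, dimV, finrank_pp] at h1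
    have := path_finite n hn o (pv n hn o y) (pv n hn o x)
    have h2 : 0 < Nat.card (pv n hn o y ⟶ pv n hn o x) := by omega
    exact (Nat.card_pos_iff.1 h2).1
  obtain ⟨p⟩ := key x y e
  obtain ⟨q⟩ := key y x e.symm
  exact path_antisymm q p

end proj

section rad

/-- an element of `PPd` as a finitely supported function -/
noncomputable def toF {x : Fin n} {y : Paths (DQuiver n hn o)} (v : (PPd x).obj y) :
    (pv n hn o x ⟶ y) →₀ ℂ := v

/-- coefficient of an element of `PPd` -/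
noncomputable def cfD {x : Fin n} {y : Paths (DQuiver n hn o)} (v : (PPd x).obj y)
    (p : pv n hn o x ⟶ y) : ℂ := toF v p

theorem cf_ext {x : Fin n} {y : Paths (DQuiver n hn o)} {v w : (PPd x).obj y}
    (h : ∀ p, cfD v p = cfD w p) : v = w := by
  have h1 : toF v = toF w := Finsupp.ext h
  exact h1

theorem cf_zero {x : Fin n} {y : Paths (DQuiver n hn o)} (p : pv n hn o x ⟶ y) :
    cfD (0 : (PPd x).obj y) p = 0 := rfl

theorem cf_sum {x : Fin n} {y : Paths (DQuiver n hn o)} {κ : Type} (s : Finset κ)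
    (v : κ → (PPd x).obj y) (p : pv n hn o x ⟶ y) :
    cfD (∑ k ∈ s, v k) p = ∑ k ∈ s, cfD (v k) p := by
  classical
  induction s using Finset.induction_on with
  | empty => rfl
  | insert a s ha ih =>
    rw [Finset.sum_insert ha, Finset.sum_insert ha, ← ih]
    rfl

theorem cf_bs_self {x : Fin n} {y : Paths (DQuiver n hn o)} (p : pv n hn o x ⟶ y) :
    cfD (bs p) p = 1 := by
  have h : (Finsupp.single p (1 : ℂ)) p = 1 := Finsupp.single_eq_same
  exact h

/-- the radical -/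
noncomputable def RRd (n : ℕ) (hn : 4 ≤ n) (o : Fin (n - 1) → Bool) (x : Fin n) :
    DRep n hn o := ⨁ (fun k : Out n hn o x => PPd (dTgt n hn o k.1))

/-- one component of the inclusion of the radical -/
noncomputable def rk (x : Fin n) (k : Out n hn o x) :
    PPd (hn := hn) (o := o) (dTgt n hn o k.1) ⟶ PPd x := yo (bs (ar x k))

/-- the inclusion of the radical -/
noncomputable def rr (x : Fin n) : RRd n hn o x ⟶ PPd x :=
  biproduct.desc (fun k : Out n hn o x => rk x k)

theorem rk_app (x : Fin n) (k : Out n hn o x) {y : Paths (DQuiver n hn o)}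
    (v : (PPd (dTgt n hn o k.1)).obj y) :
    ((rk x k).app y).hom.hom v
      = (Finsupp.mapDomain (fun p => ar x k ≫ p) (toF v) : (pv n hn o x ⟶ y) →₀ ℂ) := by
  have h : ((rk x k).app y).hom.hom = (Finsupp.lmapDomain ℂ ℂ (fun p => ar x k ≫ p) :
      ((pv n hn o (dTgt n hn o k.1) ⟶ y) →₀ ℂ) →ₗ[ℂ] ((pv n hn o x ⟶ y) →₀ ℂ)) := by
    refine pp_lin_ext (x := dTgt n hn o k.1) fun p => ?_
    refine (yo_app_bs _ p).trans ?_
    rw [PPd_map_bs]
    exact (Finsupp.mapDomain_single (M := ℂ) (f := fun p => ar x k ≫ p)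
      (a := p) (b := (1 : ℂ))).symm
  exact LinearMap.congr_fun h v

theorem cf_rk_same (x : Fin n) (k : Out n hn o x) {y : Paths (DQuiver n hn o)}
    (v : (PPd (dTgt n hn o k.1)).obj y) (p : pv n hn o (dTgt n hn o k.1) ⟶ y) :
    cfD (((rk x k).app y).hom.hom v) (ar x k ≫ p) = cfD v p := by
  rw [rk_app]
  refine Finsupp.mapDomain_apply (f := fun p => ar x k ≫ p) ?_ (toF v) p
  intro p q hpq
  have h := ar_inj (x := x) (y := y) (a₁ := ⟨k, p⟩) (a₂ := ⟨k, q⟩) hpq
  exact eq_of_heq (Sigma.mk.inj h).2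

theorem cf_rk_ne (x : Fin n) (k k' : Out n hn o x) (hk : k ≠ k') {y : Paths (DQuiver n hn o)}
    (v : (PPd (dTgt n hn o k.1)).obj y) (p : pv n hn o (dTgt n hn o k'.1) ⟶ y) :
    cfD (((rk x k).app y).hom.hom v) (ar x k' ≫ p) = 0 := by
  rw [rk_app]
  refine Finsupp.mapDomain_of_notMem_range (f := fun p => ar x k ≫ p) (toF v) (ar x k' ≫ p) ?_
  rintro ⟨q, hq⟩
  have h := ar_inj (x := x) (y := y) (a₁ := ⟨k, q⟩) (a₂ := ⟨k', p⟩) hq
  exact hk (Sigma.mk.inj h).1

theorem rr_app (x : Fin n) {y : Paths (DQuiver n hn o)} (w : (RRd n hn o x).obj y) :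
    ((rr x).app y).hom.hom w = ∑ k : Out n hn o x, ((rk x k).app y).hom.hom
      (((biproduct.π (fun k : Out n hn o x => PPd (dTgt n hn o k.1)) k).app y).hom.hom w) := by
  have h1 : (rr x : RRd n hn o x ⟶ PPd x)
      = ∑ k : Out n hn o x, biproduct.π (fun k : Out n hn o x => PPd (dTgt n hn o k.1)) k
        ≫ rk x k := by
    unfold rr
    exact biproduct.desc_eq
  rw [h1, NatTrans.app_sum]
  change ((ModuleCat.isFG ℂ).ι.map (∑ k : Out n hn o x, _)).hom w = _
  rw [Functor.map_sum, ModuleCat.hom_sum, LinearMap.sum_apply]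
  rfl

theorem rr_total (x : Fin n) {y : Paths (DQuiver n hn o)} (w : (RRd n hn o x).obj y) :
    w = ∑ k : Out n hn o x,
      ((biproduct.ι (fun k : Out n hn o x => PPd (dTgt n hn o k.1)) k).app y).hom.hom
      (((biproduct.π (fun k : Out n hn o x => PPd (dTgt n hn o k.1)) k).app y).hom.hom w) := by
  have h1 : 𝟙 (RRd n hn o x)
      = ∑ k : Out n hn o x, biproduct.π (fun k : Out n hn o x => PPd (dTgt n hn o k.1)) k
        ≫ biproduct.ι (fun k : Out n hn o x => PPd (dTgt n hn o k.1)) k :=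
    biproduct.total.symm
  have h2 : w = ((𝟙 (RRd n hn o x) : RRd n hn o x ⟶ _).app y).hom.hom w := rfl
  conv_lhs => rw [h2]
  rw [h1, NatTrans.app_sum]
  change ((ModuleCat.isFG ℂ).ι.map (∑ k : Out n hn o x, _)).hom w = _
  rw [Functor.map_sum, ModuleCat.hom_sum, LinearMap.sum_apply]
  rfl

theorem cf_rr (x : Fin n) {y : Paths (DQuiver n hn o)} (w : (RRd n hn o x).obj y)
    (k : Out n hn o x) (p : pv n hn o (dTgt n hn o k.1) ⟶ y) :
    cfD (((rr x).app y).hom.hom w) (ar x k ≫ p) = cfD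
      (((biproduct.π (fun k : Out n hn o x => PPd (dTgt n hn o k.1)) k).app y).hom.hom w) p := by
  rw [rr_app, cf_sum, Finset.sum_eq_single k]
  · exact cf_rk_same x k _ p
  · intro k' _ hk'
    exact cf_rk_ne x k' k hk' _ p
  · intro h; exact absurd (Finset.mem_univ k) h

theorem rr_mono (x : Fin n) : Mono (rr (hn := hn) (o := o) x) := by
  apply drep_mono_of_inj
  intro y
  rw [injective_iff_map_eq_zero]
  intro w hw
  rw [rr_total x w]
  refine Finset.sum_eq_zero fun k _ => ?_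
  have h1 : ((biproduct.π (fun k : Out n hn o x => PPd (dTgt n hn o k.1)) k).app y).hom.hom w
      = 0 := by
    apply cf_ext
    intro p
    rw [← cf_rr, hw]
    rfl
  rw [h1]
  exact map_zero _

theorem rr_surj (x : Fin n) {y : Paths (DQuiver n hn o)} (hy : pv n hn o x ≠ y) :
    Function.Surjective ((rr (hn := hn) (o := o) x).app y).hom.hom := by
  rw [← LinearMap.range_eq_top]
  set R := LinearMap.range ((rr (hn := hn) (o := o) x).app y).hom.hom with hR
  have h1 : R.mkQ = 0 := by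
    refine pp_lin_ext (x := x) fun p => ?_
    rw [LinearMap.zero_apply, Submodule.mkQ_apply, Submodule.Quotient.mk_eq_zero]
    obtain ⟨k, q, rfl⟩ := ar_surj p hy
    refine ⟨((biproduct.ι (fun k : Out n hn o x => PPd (dTgt n hn o k.1)) k).app y).hom.hom
      (bs q), ?_⟩
    have h2 : ((rr x).app y).hom.hom
        (((biproduct.ι (fun k : Out n hn o x => PPd (dTgt n hn o k.1)) k).app y).hom.hom (bs q))
        = ((biproduct.ι (fun k : Out n hn o x => PPd (dTgt n hn o k.1)) k ≫ rr x).app y).hom.hom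
          (bs q) := rfl
    rw [h2]
    unfold rr
    rw [biproduct.ι_desc]
    refine (yo_app_bs _ q).trans ?_
    rw [PPd_map_bs]
  have h3 : LinearMap.ker R.mkQ = ⊤ := by rw [h1, LinearMap.ker_zero]
  rwa [Submodule.ker_mkQ] at h3

theorem rr_not_epi (x : Fin n) : ¬ Epi (rr (hn := hn) (o := o) x) := by
  intro h
  obtain ⟨w, hw⟩ := drep_epi_surj _ h (pv n hn o x) (bs (𝟙 (pv n hn o x)))
  have h1 : w = 0 := by
    rw [rr_total x w]
    refine Finset.sum_eq_zero fun k _ => ?_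
    have h2 : ((biproduct.π (fun k : Out n hn o x => PPd (dTgt n hn o k.1)) k).app _).hom.hom w
        = 0 := by
      apply cf_ext
      intro p
      exact absurd (path_self_unique n hn o x (ar x k ≫ p)) (ar_ne_id k p)
    rw [h2]
    exact map_zero _
  rw [h1, map_zero] at hw
  have h3 := cf_bs_self (𝟙 (pv n hn o x))
  rw [← hw] at h3
  exact zero_ne_one h3

theorem rr_factor (x : Fin n) (Z : DRep n hn o) (g : Z ⟶ PPd x) (hg : ¬ Epi g) :
    ∃ g' : Z ⟶ RRd n hn o x, g' ≫ rr x = g := by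
  have hmono := rr_mono (hn := hn) (o := o) x
  have hx : ∀ z, (g.app (pv n hn o x)).hom.hom z = 0 := by
    intro z
    by_contra hz
    apply hg
    apply drep_epi_of_surj
    -- `bs 𝟙` is in the range
    have h0 : ∃ z', (g.app (pv n hn o x)).hom.hom z' = bs (𝟙 (pv n hn o x)) := by
      set v := (g.app (pv n hn o x)).hom.hom z with hv
      have h1 : v = cfD v (𝟙 _) • bs (𝟙 (pv n hn o x)) := by
        apply cf_ext
        intro p
        have hp := path_self_unique n hn o x p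
        subst hp
        have h2 : cfD (cfD v (𝟙 _) • bs (𝟙 (pv n hn o x))) (𝟙 _)
            = cfD v (𝟙 _) * cfD (bs (𝟙 (pv n hn o x))) (𝟙 _) := rfl
        rw [h2, cf_bs_self, mul_one]
      have h3 : cfD v (𝟙 _) ≠ 0 := by
        intro h4
        rw [h4, zero_smul] at h1
        exact hz h1
      refine ⟨(cfD v (𝟙 _))⁻¹ • z, ?_⟩
      rw [map_smul, ← hv]
      conv_lhs => rw [h1]
      rw [smul_smul]
      have h5 : cfD (cfD v (𝟙 _) • bs (𝟙 (pv n hn o x))) (𝟙 _) = cfD v (𝟙 _) := by rw [← h1]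
      rw [h5, inv_mul_cancel₀ h3, one_smul]
    obtain ⟨z', hz'⟩ := h0
    intro y
    rw [← LinearMap.range_eq_top]
    set R := LinearMap.range (g.app y).hom.hom with hR
    have h1 : R.mkQ = 0 := by
      refine pp_lin_ext (x := x) fun p => ?_
      rw [LinearMap.zero_apply, Submodule.mkQ_apply, Submodule.Quotient.mk_eq_zero]
      refine ⟨(Z.map p).hom.hom z', ?_⟩
      rw [drep_nat, hz', PPd_map_bs, Category.id_comp]
    have h3 : LinearMap.ker R.mkQ = ⊤ := by rw [h1, LinearMap.ker_zero]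
    rwa [Submodule.ker_mkQ] at h3
  let S : ShortComplex (DRep n hn o) :=
    ShortComplex.mk (rr x) (cokernel.π (rr x)) (cokernel.condition _)
  have hS : S.Exact := ShortComplex.exact_of_g_is_cokernel S (cokernelIsCokernel (rr x))
  have hSm : Mono S.f := hmono
  have hk : g ≫ S.g = 0 := by
    apply drep_ext
    intro y z
    have h1 : ∃ w, ((rr x).app y).hom.hom w = (g.app y).hom.hom z := by
      by_cases hy : pv n hn o x = y
      · subst hy
        exact ⟨0, by rw [hx z, map_zero]⟩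
      · exact rr_surj x hy _
    obtain ⟨w, hw⟩ := h1
    change ((cokernel.π (rr x)).app y).hom.hom ((g.app y).hom.hom z) = 0
    rw [← hw]
    have h2 : ((cokernel.π (rr x)).app y).hom.hom (((rr x).app y).hom.hom w)
        = ((rr x ≫ cokernel.π (rr x)).app y).hom.hom w := rfl
    rw [h2, cokernel.condition]
    rfl
  exact ⟨hS.lift g hk, hS.lift_f g hk⟩

end rad

theorem exists_projData (n : ℕ) (hn : 4 ≤ n) (o : Fin (n - 1) → Bool) :
    Nonempty (ProjData n hn o) :=
  ⟨{ PP := PPd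
     R := RRd n hn o
     r := rr
     indec := pp_indec
     noniso := pp_noniso
     proj := pp_proj
     finrank_hom := pp_finrank_hom
     epi_of_lift := pp_epi_of_lift
     mono_r := rr_mono
     not_epi_r := rr_not_epi
     factor := rr_factor
     R_iso := fun _ => ⟨Iso.refl _⟩
     dim_self := pp_dim_self
     dim_arrow := pp_dim_arrow }⟩

end MPdda
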