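import Pool.Agent.H.MP_dda0b9_al.DefsQ

/-!
# MP_dda0b9_al: indecomposable objects in a Hom-finite `ℂ`-linear abelian category (job J8)
-/

namespace MPdda

open CategoryTheory CategoryTheory.Limits

attribute [local instance] Abelian.hasFiniteBiproducts

set_option linter.unusedSectionVars false
set_option linter.unusedVariables false

variable {C : Type 1} [Category.{0} C] [Abelian C] [Linear ℂ C]

/-! ### idempotents -/

/-- An idempotent endomorphism of an indecomposable object is `0` or `1`. -/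
lemma idem_zero_or_one {X : C} (hX : Indecomposable X) (e : X ⟶ X) (he : e ≫ e = e) :
    e = 0 ∨ e = 𝟙 X := by
  obtain ⟨Y, i, p, hip, hpi⟩ := IsIdempotentComplete.idempotents_split X e he
  have he' : (𝟙 X - e) ≫ (𝟙 X - e) = 𝟙 X - e := by
    simp [Preadditive.sub_comp, Preadditive.comp_sub, he]
  obtain ⟨Z, j, q, hjq, hqj⟩ := IsIdempotentComplete.idempotents_split X (𝟙 X - e) he'
  have hiq : i ≫ q = 0 := by
    have h1 : i ≫ e = i := by rw [← hpi, ← Category.assoc, hip, Category.id_comp]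
    have h2 : e ≫ q = 0 := by
      have h3 : (𝟙 X - e) ≫ q = q := by
        rw [← hqj, Category.assoc, hjq, Category.comp_id]
      rw [Preadditive.sub_comp, Category.id_comp, sub_eq_self] at h3
      exact h3
    rw [← h1, Category.assoc, h2, comp_zero]
  have hjp : j ≫ p = 0 := by
    have h1 : j ≫ (𝟙 X - e) = j := by rw [← hqj, ← Category.assoc, hjq, Category.id_comp]
    have h1' : j ≫ e = 0 := by
      rw [Preadditive.comp_sub, Category.comp_id, sub_eq_self] at h1
      exact h1
    have h2 : e ≫ p = p := by rw [← hpi, Category.assoc, hip, Category.comp_id]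
    rw [← h2, ← Category.assoc, h1', zero_comp]
  let φ : X ≅ Y ⊞ Z :=
    { hom := biprod.lift p q
      inv := biprod.desc i j
      hom_inv_id := by rw [biprod.lift_desc, hpi, hqj]; abel
      inv_hom_id := by
        ext
        · simp [hip]
        · simp [hiq]
        · simp [hjp]
        · simp [hjq] }
  rcases hX.2 Y Z φ with h | h
  · left
    rw [← hpi, h.eq_of_tgt p 0, zero_comp]
  · right
    have : 𝟙 X - e = 0 := by rw [← hqj, h.eq_of_tgt q 0, zero_comp]
    exact (sub_eq_zero.1 this).symm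

lemma nontrivial_end {X : C} (hX : Indecomposable X) : Nontrivial (End X) := by
  refine ⟨0, 1, fun h => hX.1 ?_⟩
  rw [IsZero.iff_id_eq_zero]
  exact h.symm

/-! ### Fitting -/

open Polynomial in
lemma unit_or_nilp {A : Type} [Ring A] [Algebra ℂ A] [FiniteDimensional ℂ A]
    (hA : ∀ e : A, e * e = e → e = 0 ∨ e = 1) (θ : A) : IsUnit θ ∨ IsNilpotent θ := by
  have hint : IsIntegral ℂ θ := Algebra.IsIntegral.isIntegral θ
  have hm0 : minpoly ℂ θ ≠ 0 := minpoly.ne_zero hint
  obtain ⟨g, hg, hnd⟩ :=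
    Polynomial.exists_eq_pow_rootMultiplicity_mul_and_not_dvd (minpoly ℂ θ) hm0 0
  rw [map_zero, sub_zero] at hg hnd
  set k := (minpoly ℂ θ).rootMultiplicity 0
  have hcop : IsCoprime (X ^ (k + 1) : ℂ[X]) g := by
    apply IsCoprime.pow_left
    exact (Polynomial.prime_X.irreducible.coprime_iff_not_dvd).2 hnd
  obtain ⟨u, v, huv⟩ := hcop
  have hmθ : aeval θ (X ^ k * g) = 0 := by rw [← hg]; exact minpoly.aeval ℂ θ
  set e : A := aeval θ (u * X ^ (k + 1)) with he
  have he1 : 1 - e = aeval θ (v * g) := by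
    have : (1 : ℂ[X]) - u * X ^ (k + 1) = v * g := by rw [← huv]; ring
    rw [← this, map_sub, map_one]
  have hee : e * (1 - e) = 0 := by
    rw [he1, he, ← map_mul]
    have : u * X ^ (k + 1) * (v * g) = (u * v * X) * (X ^ k * g) := by ring
    rw [this, map_mul, hmθ, mul_zero]
  have hee' : e * e = e := by
    rw [mul_sub, mul_one, sub_eq_zero] at hee
    exact hee.symm
  rcases hA e hee' with h | h
  · right
    refine ⟨k, ?_⟩
    have h1 : aeval θ (X ^ k * (v * g)) = 0 := by
      have : (X : ℂ[X]) ^ k * (v * g) = v * (X ^ k * g) := by ring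
      rw [this, map_mul, hmθ, mul_zero]
    rw [map_mul, ← he1, h, sub_zero, mul_one, map_pow, aeval_X] at h1
    exact h1
  · left
    have h1 : aeval θ (u * X ^ k) * θ = 1 := by
      have : aeval θ ((u * X ^ k) * X) = 1 := by
        have h3 : (u * X ^ k) * X = u * X ^ (k + 1) := by ring
        rw [← h, he, h3]
      rwa [map_mul, aeval_X] at this
    have h2 : θ * aeval θ (u * X ^ k) = 1 := by
      have : aeval θ (X * (u * X ^ k)) = 1 := by
        have h3 : X * (u * X ^ k) = u * X ^ (k + 1) := by ring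
        rw [← h, he, h3]
      rwa [map_mul, aeval_X] at this
    exact ⟨⟨θ, aeval θ (u * X ^ k), h2, h1⟩, rfl⟩

/-- Fitting: an endomorphism of an indecomposable object is invertible or nilpotent. -/
theorem isIso_or_nilpotent (hfd : ∀ X Y : C, FiniteDimensional ℂ (X ⟶ Y)) {X : C}
    (hX : Indecomposable X) (θ : End X) : IsIso (C := C) (X := X) (Y := X) θ ∨ IsNilpotent θ := by
  have : FiniteDimensional ℂ (End X) := hfd X X
  rcases unit_or_nilp (A := End X) (fun e he => idem_zero_or_one hX e he) θ with h | h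
  · exact Or.inl ((isUnit_iff_isIso θ).1 h)
  · exact Or.inr h

/-- Every endomorphism of an indecomposable object is a scalar plus a nilpotent one. -/
theorem exists_sub_smul_nilpotent (hfd : ∀ X Y : C, FiniteDimensional ℂ (X ⟶ Y)) {X : C}
    (hX : Indecomposable X) (θ : End X) : ∃ c : ℂ, IsNilpotent (θ - c • (1 : End X)) := by
  have : FiniteDimensional ℂ (End X) := hfd X X
  have : Nontrivial (End X) := nontrivial_end hX
  obtain ⟨c, hc⟩ := spectrum.nonempty_of_isAlgClosed_of_finiteDimensional ℂ (A := End X) θ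
  refine ⟨c, ?_⟩
  rw [spectrum.mem_iff, Algebra.algebraMap_eq_smul_one] at hc
  rcases isIso_or_nilpotent hfd hX (θ - c • (1 : End X)) with h | h
  · exfalso
    apply hc
    rw [← IsUnit.neg_iff, neg_sub]
    exact (isUnit_iff_isIso _).2 h
  · exact h

/-- Sums of non-isomorphisms `X ⟶ Y` between indecomposables are non-isomorphisms. -/
theorem not_isIso_add (hfd : ∀ X Y : C, FiniteDimensional ℂ (X ⟶ Y)) {X Y : C}
    (hX : Indecomposable X) (hY : Indecomposable Y) (f g : X ⟶ Y) (hf : ¬ IsIso f)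
    (hg : ¬ IsIso g) : ¬ IsIso (f + g) := by
  intro h
  have hsum : f ≫ inv (f + g) + g ≫ inv (f + g) = 𝟙 X := by
    rw [← Preadditive.add_comp, IsIso.hom_inv_id]
  rcases isIso_or_nilpotent hfd hX (End.of (f ≫ inv (f + g))) with h1 | h1
  · apply hf
    have h2 : IsIso ((f ≫ inv (f + g)) ≫ (f + g)) := by
      have : IsIso (f ≫ inv (f + g)) := h1
      infer_instance
    rw [Category.assoc, IsIso.inv_hom_id, Category.comp_id] at h2
    exact h2
  · apply hg
    have h3 : IsUnit (1 - End.of (f ≫ inv (f + g)) : End X) := h1.isUnit_one_sub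
    have h4 : (1 - End.of (f ≫ inv (f + g)) : End X) = End.of (g ≫ inv (f + g)) := by
      show 𝟙 X - (f ≫ inv (f + g)) = g ≫ inv (f + g)
      rw [← hsum]; abel
    rw [h4] at h3
    have h5 : IsIso (g ≫ inv (f + g)) := (isUnit_iff_isIso _).1 h3
    have h6 : IsIso ((g ≫ inv (f + g)) ≫ (f + g)) := inferInstance
    rw [Category.assoc, IsIso.inv_hom_id, Category.comp_id] at h6
    exact h6

/-- A non-isomorphism between indecomposables composed with anything, back to an
indecomposable, is a non-isomorphism. -/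
theorem not_isIso_comp (hfd : ∀ X Y : C, FiniteDimensional ℂ (X ⟶ Y)) {X Y Z : C}
    (hX : Indecomposable X) (hY : Indecomposable Y) (hZ : Indecomposable Z) (f : X ⟶ Y)
    (g : Y ⟶ Z) (hfg : IsIso (f ≫ g)) : IsIso f ∧ IsIso g := by
  have h1 : f ≫ g ≫ inv (f ≫ g) = 𝟙 X := by
    rw [← Category.assoc, IsIso.hom_inv_id]
  have hid : (g ≫ inv (f ≫ g) ≫ f) ≫ (g ≫ inv (f ≫ g) ≫ f) = g ≫ inv (f ≫ g) ≫ f := by
    have : f ≫ g ≫ inv (f ≫ g) ≫ f = f := by
      rw [← Category.assoc g, ← Category.assoc f, h1, Category.id_comp]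
    rw [Category.assoc, Category.assoc, this]
  rcases idem_zero_or_one hY _ hid with h | h
  · exfalso
    apply hX.1
    rw [IsZero.iff_id_eq_zero]
    have h2 : f = 0 := by
      have h3 : f ≫ (g ≫ inv (f ≫ g) ≫ f) = f := by
        rw [← Category.assoc g, ← Category.assoc f, h1, Category.id_comp]
      rw [h, comp_zero] at h3
      exact h3.symm
    have h3 : ∀ w : Y ⟶ X, f ≫ w = 0 := fun w => by rw [h2, zero_comp]
    exact h1.symm.trans (h3 _)
  · have hf : IsIso f := ⟨g ≫ inv (f ≫ g), h1, by rw [Category.assoc]; exact h⟩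
    exact ⟨hf, IsIso.of_isIso_comp_left f g⟩

/-! ### decompositions -/

/-- `X` is the direct sum of the `Y k`. -/
def Dec {J : Type} [Fintype J] (Y : J → C) (X : C) : Prop :=
  ∃ (i : ∀ k, Y k ⟶ X) (p : ∀ k, X ⟶ Y k), (∀ k, i k ≫ p k = 𝟙 _) ∧
    (∀ k l, k ≠ l → i k ≫ p l = 0) ∧ ∑ k, p k ≫ i k = 𝟙 X

lemma Dec.iso {J : Type} [Fintype J] {Y : J → C} {X : C} (h : Dec Y X) :
    Nonempty (X ≅ ⨁ Y) := by
  classical
  obtain ⟨i, p, h1, h2, h3⟩ := h
  refine ⟨{ hom := biproduct.lift p, inv := biproduct.desc i, hom_inv_id := ?_,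
            inv_hom_id := ?_ }⟩
  · rw [biproduct.lift_desc, h3]
  · refine biproduct.hom_ext' _ _ fun k => biproduct.hom_ext _ _ fun l => ?_
    simp only [biproduct.ι_desc_assoc, Category.assoc, biproduct.lift_π, Category.comp_id]
    by_cases hkl : k = l
    · subst hkl
      rw [h1, biproduct.ι_π_self]
    · rw [h2 k l hkl, biproduct.ι_π_ne _ hkl]

lemma Dec.of_equiv {J K : Type} [Fintype J] [Fintype K] {Y : J → C} {X : C} (h : Dec Y X)
    (e : K ≃ J) : Dec (fun k => Y (e k)) X := by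
  obtain ⟨i, p, h1, h2, h3⟩ := h
  refine ⟨fun k => i (e k), fun k => p (e k), fun k => h1 _, fun k l hkl =>
    h2 _ _ (fun h => hkl (e.injective h)), ?_⟩
  rw [← h3]
  exact e.sum_comp (fun k => p k ≫ i k)

/-- finite direct sums of indecomposables -/
def FinDec (X : C) : Prop :=
  ∃ (J : Type) (_ : Fintype J) (Y : J → C), (∀ k, Indecomposable (Y k)) ∧ Dec Y X

lemma finDec_biprod {X Y Z : C} (e : X ≅ Y ⊞ Z) (hY : FinDec Y) (hZ : FinDec Z) :
    FinDec X := by
  obtain ⟨J, _, A, hA, i, p, h1, h2, h3⟩ := hY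
  obtain ⟨K, _, B, hB, j, q, k1, k2, k3⟩ := hZ
  refine ⟨J ⊕ K, inferInstance, Sum.elim A B, ?_, ?_⟩
  · rintro (k | k)
    · exact hA k
    · exact hB k
  · refine ⟨fun k => match k with
        | Sum.inl k => i k ≫ biprod.inl ≫ e.inv
        | Sum.inr k => j k ≫ biprod.inr ≫ e.inv,
      fun k => match k with
        | Sum.inl k => e.hom ≫ biprod.fst ≫ p k
        | Sum.inr k => e.hom ≫ biprod.snd ≫ q k, ?_, ?_, ?_⟩
    · rintro (k | k)
      · simp [h1]
      · simp [k1]
    · rintro (k | k) (l | l) hkl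
      · have hne : k ≠ l := fun h => hkl (by rw [h])
        have : (i k ≫ biprod.inl ≫ e.inv) ≫ (e.hom ≫ biprod.fst ≫ p l) = 0 := by
          simp [h2 k l hne]
        exact this
      · have : (i k ≫ biprod.inl ≫ e.inv) ≫ (e.hom ≫ biprod.snd ≫ q l) = 0 := by simp
        exact this
      · have : (j k ≫ biprod.inr ≫ e.inv) ≫ (e.hom ≫ biprod.fst ≫ p l) = 0 := by simp
        exact this
      · have hne : k ≠ l := fun h => hkl (by rw [h])
        have : (j k ≫ biprod.inr ≫ e.inv) ≫ (e.hom ≫ biprod.snd ≫ q l) = 0 := by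
          simp [k2 k l hne]
        exact this
    · rw [Fintype.sum_sum_type]
      have e1 : ∑ x, (e.hom ≫ biprod.fst ≫ p x) ≫ (i x ≫ biprod.inl ≫ e.inv)
          = (e.hom ≫ biprod.fst) ≫ (biprod.inl ≫ e.inv) := by
        have h4 : ∀ x, (e.hom ≫ biprod.fst ≫ p x) ≫ (i x ≫ biprod.inl ≫ e.inv)
            = (e.hom ≫ biprod.fst) ≫ (p x ≫ i x) ≫ (biprod.inl ≫ e.inv) := by
          intro x; simp only [Category.assoc]
        rw [Finset.sum_congr rfl (fun x _ => h4 x), ← Preadditive.comp_sum,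
          ← Preadditive.sum_comp, h3, Category.id_comp]
      have e2 : ∑ x, (e.hom ≫ biprod.snd ≫ q x) ≫ (j x ≫ biprod.inr ≫ e.inv)
          = (e.hom ≫ biprod.snd) ≫ (biprod.inr ≫ e.inv) := by
        have h4 : ∀ x, (e.hom ≫ biprod.snd ≫ q x) ≫ (j x ≫ biprod.inr ≫ e.inv)
            = (e.hom ≫ biprod.snd) ≫ (q x ≫ j x) ≫ (biprod.inr ≫ e.inv) := by
          intro x; simp only [Category.assoc]
        rw [Finset.sum_congr rfl (fun x _ => h4 x), ← Preadditive.comp_sum,
          ← Preadditive.sum_comp, k3, Category.id_comp]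
      have e3 : (e.hom ≫ biprod.fst) ≫ (biprod.inl ≫ e.inv)
          + (e.hom ≫ biprod.snd) ≫ (biprod.inr ≫ e.inv) = 𝟙 X := by
        have h5 : (e.hom ≫ biprod.fst) ≫ (biprod.inl ≫ e.inv)
          + (e.hom ≫ biprod.snd) ≫ (biprod.inr ≫ e.inv)
          = e.hom ≫ (biprod.fst ≫ biprod.inl + biprod.snd ≫ biprod.inr) ≫ e.inv := by
          simp only [Preadditive.add_comp, Preadditive.comp_add, Category.assoc]
        rw [h5, biprod.total, Category.id_comp, e.hom_inv_id]
      have e4 := (congrArg₂ (· + ·) e1 e2).trans e3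
      exact e4

lemma finrank_pos_of_not_isZero (hfd : ∀ X Y : C, FiniteDimensional ℂ (X ⟶ Y)) {X : C}
    (hX : ¬ IsZero X) : 0 < Module.finrank ℂ (X ⟶ X) := by
  have := hfd X X
  have : Nontrivial (X ⟶ X) := ⟨0, 𝟙 X, fun h => hX ((IsZero.iff_id_eq_zero X).2 h.symm)⟩
  exact Module.finrank_pos

lemma finrank_end_lt (hfd : ∀ X Y : C, FiniteDimensional ℂ (X ⟶ Y)) {X Y Z : C}
    (e : X ≅ Y ⊞ Z) : Module.finrank ℂ (Y ⟶ Y) + Module.finrank ℂ (Z ⟶ Z)
      ≤ Module.finrank ℂ (X ⟶ X) := by
  have := hfd X X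
  have := hfd Y Y
  have := hfd Z Z
  rw [← Module.finrank_prod]
  let L : ((Y ⟶ Y) × (Z ⟶ Z)) →ₗ[ℂ] (X ⟶ X) :=
    { toFun := fun f => e.hom ≫ biprod.map f.1 f.2 ≫ e.inv
      map_add' := by
        intro f g
        have : biprod.map (f + g).1 (f + g).2 = biprod.map f.1 f.2 + biprod.map g.1 g.2 := by
          ext <;> simp
        rw [this]
        simp
      map_smul' := by
        intro c f
        have : biprod.map (c • f).1 (c • f).2 = c • biprod.map f.1 f.2 := by
          ext <;> simp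
        rw [this]
        simp }
  apply LinearMap.finrank_le_finrank_of_injective (f := L)
  rw [← LinearMap.ker_eq_bot, LinearMap.ker_eq_bot']
  rintro ⟨f, g⟩ h
  have h1 : e.hom ≫ biprod.map f g ≫ e.inv = 0 := h
  have h2 : biprod.map f g = 0 := by
    have := congrArg (fun u => e.inv ≫ u ≫ e.hom) h1
    simpa using this
  have h3 : f = 0 := by
    have := congrArg (fun u => biprod.inl ≫ u ≫ biprod.fst) h2
    simpa using this
  have h4 : g = 0 := by
    have := congrArg (fun u => biprod.inr ≫ u ≫ biprod.snd) h2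
    simpa using this
  rw [h3, h4]
  rfl

lemma finDec_all (hfd : ∀ X Y : C, FiniteDimensional ℂ (X ⟶ Y)) : ∀ (n : ℕ) (X : C),
    Module.finrank ℂ (X ⟶ X) = n → FinDec X := by
  intro n
  induction n using Nat.strong_induction_on with
  | _ n ih =>
    intro X hn
    by_cases h0 : IsZero X
    · refine ⟨Empty, inferInstance, fun k => k.elim, fun k => k.elim, fun k => k.elim,
        fun k => k.elim, fun k => k.elim, fun k => k.elim, ?_⟩
      exact h0.eq_of_src _ _
    by_cases hi : Indecomposable X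
    · refine ⟨Unit, inferInstance, fun _ => X, fun _ => hi, fun _ => 𝟙 X, fun _ => 𝟙 X,
        fun _ => by simp, fun k l hkl => (hkl rfl).elim, by simp⟩
    · unfold Indecomposable at hi
      push Not at hi
      obtain ⟨Y, Z, e, hY, hZ⟩ := hi h0
      have h1 := finrank_end_lt hfd e
      have h2 := finrank_pos_of_not_isZero hfd hY
      have h3 := finrank_pos_of_not_isZero hfd hZ
      exact finDec_biprod e (ih _ (by omega) Y rfl) (ih _ (by omega) Z rfl)

/-- Every object is a finite direct sum of indecomposable objects. -/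
theorem exists_decomp (hfd : ∀ X Y : C, FiniteDimensional ℂ (X ⟶ Y)) (X : C) :
    ∃ (n : ℕ) (Y : Fin n → C), (∀ k, Indecomposable (Y k)) ∧ Nonempty (X ≅ ⨁ Y) := by
  obtain ⟨J, _, Y, hY, hd⟩ := finDec_all hfd _ X rfl
  refine ⟨Fintype.card J, fun k => Y ((Fintype.equivFin J).symm k), fun k => hY _, ?_⟩
  exact (hd.of_equiv (Fintype.equivFin J).symm).iso

end MPdda
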