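import Pool.Agent.H.MP_dda0b9_al.Delta
import Pool.Agent.H.MP_dda0b9_al.TitsD
import Pool.Agent.H.MP_dda0b9_al.Decomp

/-!
# MP_dda0b9_al: indecomposable representations of type `D_n` quivers have no self-extensions
(job J13)
-/

namespace MPdda

open CategoryTheory CategoryTheory.Limits

attribute [local instance] Abelian.hasFiniteBiproducts

variable {n : ℕ} {hn : 4 ≤ n} {o : Fin (n - 1) → Bool}

/-- Total dimension. -/
noncomputable def tdim (X : DRep n hn o) : ℕ := ∑ x, dimV X x

theorem tdim_eq_zero {X : DRep n hn o} : tdim X = 0 ↔ IsZero X := by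
  rw [isZero_iff_dimV, tdim, Finset.sum_eq_zero_iff]
  simp

theorem tdim_shortExact (S : ShortComplex (DRep n hn o)) (hS : S.ShortExact) :
    tdim S.X₂ = tdim S.X₁ + tdim S.X₃ := by
  rw [tdim, tdim, tdim, ← Finset.sum_add_distrib]
  exact Finset.sum_congr rfl fun x _ => dimV_shortExact S hS x

theorem tdim_of_mono {X Y : DRep n hn o} (f : X ⟶ Y) [Mono f] :
    tdim Y = tdim X + tdim (cokernel f) := by
  have hS : (ShortComplex.mk f (cokernel.π f) (cokernel.condition f)).ShortExact :=
    { exact := ShortComplex.exact_cokernel f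
      mono_f := inferInstance
      epi_g := by dsimp; infer_instance }
  exact tdim_shortExact _ hS

theorem tdim_of_epi {X Y : DRep n hn o} (f : X ⟶ Y) [Epi f] :
    tdim X = tdim (kernel f) + tdim Y := by
  have hS : (ShortComplex.mk (kernel.ι f) f (kernel.condition f)).ShortExact :=
    { exact := ShortComplex.exact_kernel f
      mono_f := by dsimp; infer_instance
      epi_g := inferInstance }
  exact tdim_shortExact _ hS

theorem tdim_le_of_mono {X Y : DRep n hn o} (f : X ⟶ Y) [Mono f] : tdim X ≤ tdim Y := by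
  rw [tdim_of_mono f]; omega

theorem mono_of_epi_of_tdim_le {X Y : DRep n hn o} (f : X ⟶ Y) [Epi f]
    (h : tdim X ≤ tdim Y) : Mono f := by
  have h1 := tdim_of_epi f
  have h2 : tdim (kernel f) = 0 := by omega
  rw [tdim_eq_zero] at h2
  exact Preadditive.mono_of_kernel_zero (h2.eq_of_src _ _)

theorem mono_of_tdim_le_image {X Y : DRep n hn o} (f : X ⟶ Y)
    (h : tdim X ≤ tdim (image f)) : Mono f := by
  have h1 : Mono (factorThruImage f) := mono_of_epi_of_tdim_le _ h
  rw [← image.fac f]
  exact mono_comp _ _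

/-- A nonzero retract of an indecomposable object is everything. -/
theorem isIso_of_retract {X Y : DRep n hn o} (hX : Indecomposable X) (m : Y ⟶ X) (g : X ⟶ Y)
    (h : m ≫ g = 𝟙 Y) (hY : ¬ IsZero Y) : IsIso m := by
  have hfd : ∀ X Y : DRep n hn o, FiniteDimensional ℂ (X ⟶ Y) := drep_hom_fd
  rcases isIso_or_nilpotent hfd hX (g ≫ m : X ⟶ X) with h1 | h1
  · refine ⟨g, h, ?_⟩
    have h2 : (g ≫ m) ≫ (g ≫ m) = g ≫ m := by
      rw [Category.assoc, ← Category.assoc m, h, Category.id_comp]
    have h3 : IsIso (g ≫ m) := h1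
    rw [← cancel_mono (g ≫ m), h2, Category.id_comp]
  · exfalso
    apply hY
    obtain ⟨k, hk⟩ := h1
    have h2 : ∀ k : ℕ, m ≫ ((show End X from (g ≫ m)) ^ k : End X) = m := by
      intro k
      induction k with
      | zero => rw [pow_zero]; exact Category.comp_id m
      | succ k ih =>
        rw [pow_succ']
        change m ≫ (((show End X from (g ≫ m)) ^ k : End X) ≫ (g ≫ m)) = m
        rw [← Category.assoc, ih, ← Category.assoc, h, Category.id_comp]
    have h3 := h2 k
    rw [hk] at h3
    have h4 : m = 0 := by rw [← h3]; exact comp_zero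
    rw [IsZero.iff_id_eq_zero, ← h, h4, zero_comp]

theorem rigid_of_brick (X : DRep n hn o) (hX : Indecomposable X)
    (h : Module.finrank ℂ (X ⟶ X) = 1) : Function.Surjective (delta X X) := by
  have h1 := euler_delta X X
  have h2 : (fun x => (dimV X x : ℤ)) ≠ 0 := by
    intro h0
    apply hX.1
    rw [isZero_iff_dimV]
    intro x
    have h5 : ((dimV X x : ℕ) : ℤ) = 0 := congrFun h0 x
    exact_mod_cast h5
  have h3 := tits_pos n hn o _ h2
  rw [h, ← sub_eq_zero] at h1
  have h4 : Module.finrank ℂ ((∀ k : Fin (n - 1), X.obj (pv n hn o (dSrc n hn o k)) →ₗ[ℂ]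
        X.obj (pv n hn o (dTgt n hn o k))) ⧸ LinearMap.range (delta X X)) = 0 := by
    push_cast at h1
    omega
  rw [← LinearMap.range_eq_top]
  rw [Module.finrank_zero_iff] at h4
  exact Submodule.Quotient.subsingleton_iff.1 h4

theorem rigid_of_indecomposable (X : DRep n hn o) (hX : Indecomposable X) :
    Function.Surjective (delta X X) := by
  have hfd : ∀ X Y : DRep n hn o, FiniteDimensional ℂ (X ⟶ Y) := drep_hom_fd
  suffices h : ∀ (m : ℕ) (X : DRep n hn o), tdim X = m → Indecomposable X →
      Function.Surjective (delta X X) from h _ X rfl hX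
  clear hX X
  intro m
  induction m using Nat.strong_induction_on with
  | _ m ih =>
  intro X hm hX
  by_cases hbrick : Module.finrank ℂ (X ⟶ X) = 1
  · exact rigid_of_brick X hX hbrick
  -- a nonzero nilpotent endomorphism
  have hne1 : (1 : End X) ≠ 0 := by
    intro h
    exact hX.1 ((IsZero.iff_id_eq_zero X).2 h)
  have hex : ∃ θ : End X, θ ≠ 0 ∧ IsNilpotent θ := by
    by_contra hcon
    push Not at hcon
    apply hbrick
    refine finrank_eq_one (1 : End X) hne1 ?_
    intro θ'
    let θ : End X := θ'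
    obtain ⟨c, hc⟩ := exists_sub_smul_nilpotent hfd hX θ
    refine ⟨c, ?_⟩
    by_contra hne
    exact hcon (θ - c • (1 : End X)) (fun h => hne (sub_eq_zero.1 h).symm) hc
  -- choose one with image of minimal dimension
  let Q : ℕ → Prop := fun k => ∃ θ : End X, θ ≠ 0 ∧ IsNilpotent θ ∧
    tdim (image (show X ⟶ X from θ)) = k
  have hQ : ∃ k, Q k := by
    obtain ⟨θ, h1, h2⟩ := hex
    exact ⟨_, θ, h1, h2, rfl⟩
  classical
  obtain ⟨θ, hθ1, hθ2, hθ3⟩ := Nat.find_spec hQ
  have hmin : ∀ η : End X, η ≠ 0 → IsNilpotent η →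
      Nat.find hQ ≤ tdim (image (show X ⟶ X from η)) := fun η h1 h2 =>
    Nat.find_min' hQ ⟨η, h1, h2, rfl⟩
  -- pass to a power with square zero
  obtain ⟨ψ, hψ1, hψ2, hψ3⟩ : ∃ ψ : X ⟶ X, ψ ≠ 0 ∧ ψ ≫ ψ = 0 ∧
      tdim (image ψ) ≤ Nat.find hQ := by
    have hk : ∃ k, θ ^ k = 0 := hθ2
    have hk0 : Nat.find hk ≠ 0 := by
      intro h0
      have := Nat.find_spec hk
      rw [h0, pow_zero] at this
      exact hne1 this
    obtain ⟨j, hj⟩ := Nat.exists_eq_succ_of_ne_zero hk0
    have hj0 : j ≠ 0 := by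
      rintro rfl
      have := Nat.find_spec hk
      rw [hj, Nat.succ_eq_add_one, zero_add, pow_one] at this
      exact hθ1 this
    have hjne : θ ^ j ≠ 0 := Nat.find_min hk (by omega)
    refine ⟨θ ^ j, hjne, ?_, ?_⟩
    · change (θ ^ j : End X) * (θ ^ j : End X) = 0
      rw [← pow_add]
      exact pow_eq_zero_of_le (by omega) (Nat.find_spec hk)
    · obtain ⟨i, rfl⟩ := Nat.exists_eq_succ_of_ne_zero hj0
      have e1 : (θ ^ (i + 1) : End X) = ((θ ^ i : End X) : X ⟶ X) ≫ (θ : X ⟶ X) := by
        rw [pow_succ']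
        rfl
      rw [← hθ3]
      change tdim (image (show X ⟶ X from (θ ^ (i + 1) : End X))) ≤ _
      rw [e1]
      exact tdim_le_of_mono (image.preComp _ _)
  -- image, kernel
  have hιψ : image.ι ψ ≫ ψ = 0 := by
    rw [← cancel_epi (factorThruImage ψ), ← Category.assoc, image.fac, hψ2, comp_zero]
  let j : image ψ ⟶ kernel ψ := kernel.lift ψ (image.ι ψ) hιψ
  have hj : j ≫ kernel.ι ψ = image.ι ψ := kernel.lift_ι _ _ _
  have hjm : Mono j := by
    have : Mono (j ≫ kernel.ι ψ) := by rw [hj]; infer_instance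
    exact mono_of_mono j (kernel.ι ψ)
  have hjne : j ≠ 0 := by
    intro h
    apply hψ1
    rw [← image.fac ψ, ← hj, h, zero_comp, comp_zero]
  have hke : kernel.ι ψ ≫ factorThruImage ψ = 0 := by
    rw [← cancel_mono (image.ι ψ), Category.assoc, image.fac, kernel.condition, zero_comp]
  have hS : (ShortComplex.mk (kernel.ι ψ) (factorThruImage ψ) hke).ShortExact := by
    refine { exact := ?_, mono_f := by dsimp; infer_instance,
             epi_g := by dsimp; infer_instance }
    rw [ShortComplex.exact_iff_exact_up_to_refinements]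
    intro A x₂ hx₂
    dsimp at x₂ hx₂
    refine ⟨A, 𝟙 A, inferInstance, kernel.lift ψ x₂ ?_, ?_⟩
    · rw [← image.fac ψ, ← Category.assoc, hx₂, zero_comp]
    · dsimp
      rw [Category.id_comp, kernel.lift_ι]
  obtain ⟨N, Y, hYi, ⟨φ⟩⟩ := exists_decomp hfd (kernel ψ)
  have hexa : ∃ a, j ≫ φ.hom ≫ biproduct.π Y a ≠ 0 := by
    by_contra hcon
    push Not at hcon
    apply hjne
    rw [← cancel_mono φ.hom, zero_comp]
    refine biproduct.hom_ext _ _ fun a => ?_
    rw [Category.assoc, hcon a, zero_comp]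
  obtain ⟨a, ha⟩ := hexa
  let q : kernel ψ ⟶ Y a := φ.hom ≫ biproduct.π Y a
  let s : Y a ⟶ kernel ψ := biproduct.ι Y a ≫ φ.inv
  have hsq : s ≫ q = 𝟙 (Y a) := by
    simp only [s, q, Category.assoc]
    rw [φ.inv_hom_id_assoc, biproduct.ι_π_self]
  have hsm : Mono s := by
    have : Mono (s ≫ q) := by rw [hsq]; infer_instance
    exact mono_of_mono s q
  let u : image ψ ⟶ Y a := j ≫ q
  have hune : u ≠ 0 := ha
  -- the new endomorphism
  let η : X ⟶ X := factorThruImage ψ ≫ u ≫ s ≫ kernel.ι ψ
  have hηne : η ≠ 0 := by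
    intro h
    apply hune
    rw [← cancel_epi (factorThruImage ψ), ← cancel_mono (s ≫ kernel.ι ψ), Category.assoc,
      comp_zero, zero_comp]
    exact h
  have hηnil : IsNilpotent (show End X from η) := by
    rcases isIso_or_nilpotent hfd hX η with h1 | h1
    · exfalso
      have h2 : IsIso η := h1
      have h3 : Mono (factorThruImage ψ) := by
        have : Mono (factorThruImage ψ ≫ (u ≫ s ≫ kernel.ι ψ)) := by
          change Mono η
          infer_instance
        exact mono_of_mono _ (u ≫ s ≫ kernel.ι ψ)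
      have h4 : Mono ψ := by
        rw [← image.fac ψ]
        exact mono_comp _ _
      apply hψ1
      rw [← cancel_mono ψ, hψ2, zero_comp]
    · exact h1
  have hDη := hmin η hηne hηnil
  have hle1 : tdim (image η) ≤ tdim (image u) := by
    have hfac : (factorThruImage ψ ≫ factorThruImage u) ≫ (image.ι u ≫ s ≫ kernel.ι ψ) = η := by
      simp only [Category.assoc]
      rw [image.fac_assoc]
    let F : MonoFactorisation η :=
      { I := image u
        m := image.ι u ≫ s ≫ kernel.ι ψ
        m_mono := inferInstance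
        e := factorThruImage ψ ≫ factorThruImage u
        fac := hfac }
    have hl : image.lift F ≫ F.m = image.ι η := image.lift_fac F
    have : Mono (image.lift F) := by
      have : Mono (image.lift F ≫ F.m) := by rw [hl]; infer_instance
      exact mono_of_mono _ F.m
    exact tdim_le_of_mono (image.lift F)
  have hum : Mono u := mono_of_tdim_le_image u (by
    exact hψ3.trans (hDη.trans hle1))
  -- dimension of `Y a`
  have hD1 := tdim_shortExact _ hS
  dsimp at hD1
  have hD2 : tdim (image ψ) ≠ 0 := by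
    rw [Ne, tdim_eq_zero]
    intro h
    exact hune (h.eq_of_src _ _)
  have hD3 : tdim (Y a) ≤ tdim (kernel ψ) := tdim_le_of_mono s
  have hrig := ih (tdim (Y a)) (by omega) (Y a) rfl (hYi a)
  have hrig2 : Function.Surjective (delta (image ψ) (Y a)) := surjective_of_mono (Y a) u hrig
  obtain ⟨g, hg⟩ := extend_of_surjective (Y a) _ hS hrig2 q
  dsimp at g hg
  have hret : (s ≫ kernel.ι ψ) ≫ g = 𝟙 (Y a) := by
    rw [Category.assoc, hg, hsq]
  have hiso : IsIso (s ≫ kernel.ι ψ) := isIso_of_retract hX _ g hret (hYi a).1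
  have hD4 : tdim X ≤ tdim (Y a) := tdim_le_of_mono (inv (s ≫ kernel.ι ψ))
  omega

end MPdda
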