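import Pool.Agent.H.MP_dda0b9_al.ContribD
import Pool.Agent.H.MP_dda0b9_al.RigidD
import Pool.Agent.H.MP_dda0b9_al.ProjD

/-!
# MP_dda0b9_al: the trace of the Auslander algebra of a type `D_n` quiver is 1 (assembly)
-/

namespace MPdda

open CategoryTheory CategoryTheory.Limits

attribute [local instance] Abelian.hasFiniteBiproducts

variable {n : ℕ} {hn : 4 ≤ n} {o : Fin (n - 1) → Bool}

theorem ausD_matrix {ι : Type} [Fintype ι] [DecidableEq ι] (M : ι → DRep n hn o)
    (hM : IsIndecList M) :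
    ∃ r : Matrix ι ι ℤ,
      Matrix.of (fun i j => (Module.finrank ℂ (M i ⟶ M j) : ℤ)) * r = 1 ∧
      ∑ j, ∑ l, r l j * (Module.finrank ℂ (M l ⟶ M j) : ℤ) = 1 := by
  classical
  obtain ⟨D⟩ := exists_projData n hn o
  have hfd : ∀ X Y : DRep n hn o, FiniteDimensional ℂ (X ⟶ Y) := drep_hom_fd
  choose E f hf using fun j => exists_ras hfd M hM j
  obtain ⟨r, h1, h2⟩ := hom_matrix_inverse hfd M hM E f hf
  refine ⟨r, h1, ?_⟩
  have hj : ∀ x, ∃ j, Nonempty (D.PP x ≅ M j) := fun x => hM.complete _ (D.indec x)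
  choose g hg using hj
  have ginj : Function.Injective g := by
    intro x y hxy
    obtain ⟨e1⟩ := hg x
    obtain ⟨e2⟩ := hg y
    rw [← hxy] at e2
    exact D.noniso x y ⟨e1 ≪≫ e2.symm⟩
  rw [Finset.sum_congr rfl (fun j _ => h2 j)]
  rw [← Finset.sum_subset (Finset.subset_univ (Finset.univ.image g)) ?_]
  · rw [Finset.sum_image (fun x _ y _ h => ginj h)]
    rw [Finset.sum_congr rfl (fun x _ => contrib_proj D (f (g x)) (hf _) x (hg x).some.symm)]
    exact sum_outdeg n hn o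
  · intro j _ hjn
    refine contrib_nonproj D (f j) (hf j) (hM.indec j) ?_
      (rigid_of_indecomposable _ (hM.indec j))
    rintro x ⟨e⟩
    obtain ⟨e1⟩ := hg x
    have : j = g x := hM.irredundant _ _ ⟨e ≪≫ e1⟩
    exact hjn (Finset.mem_image.2 ⟨x, Finset.mem_univ _, this.symm⟩)

end MPdda
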