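import Pool.Agent.H.MP_dda0b9_al.DefsMod
import Pool.Agent.H.MP_dda0b9_al.Decomp

/-!
# MP_dda0b9_al: the projective modules over an Auslander algebra and their generation property
(job J9)
-/

namespace MPdda

open CategoryTheory CategoryTheory.Limits

attribute [local instance] Abelian.hasFiniteBiproducts

section fd

variable {A : Type} [Ring A] [Algebra ℂ A]

/-- morphism of `FDMod A` from a linear map -/
def agHom {X Y : FDMod A} (f : X.obj →ₗ[A] Y.obj) : X ⟶ Y :=
  ObjectProperty.homMk (ModuleCat.ofHom f)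

theorem agHom_surj {X Y : FDMod A} (f : X ⟶ Y) : agHom f.hom.hom = f := rfl

theorem ag_mono {X Y : FDMod A} (f : X.obj →ₗ[A] Y.obj) (hf : Function.Injective f) :
    Mono (agHom f) := by
  constructor
  intro W h h' e
  apply ObjectProperty.hom_ext
  apply ModuleCat.hom_ext
  ext x
  apply hf
  exact LinearMap.congr_fun (congrArg (fun k => k.hom.hom) e) x

theorem ag_epi {X Y : FDMod A} (f : X.obj →ₗ[A] Y.obj) (hf : Function.Surjective f) :
    Epi (agHom f) := by
  constructor
  intro W h h' e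
  apply ObjectProperty.hom_ext
  apply ModuleCat.hom_ext
  ext y
  obtain ⟨x, rfl⟩ := hf y
  exact LinearMap.congr_fun (congrArg (fun k => k.hom.hom) e) x

theorem ag_surjective {X Y : FDMod A} (q : X ⟶ Y) (hq : Epi q) :
    Function.Surjective q.hom.hom := by
  let R := LinearMap.range q.hom.hom
  have hepi : Epi (ModuleCat.ofHom R.mkQ) := by
    rw [ModuleCat.epi_iff_surjective]
    exact Submodule.mkQ_surjective R
  let Q : FDMod A := ⟨ModuleCat.of A (Y.obj ⧸ R),
    (fdProp A).prop_of_epi (ModuleCat.ofHom R.mkQ) Y.property⟩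
  have h1 : (agHom (Y := Q) R.mkQ : Y ⟶ Q) = 0 := by
    rw [← cancel_epi q, comp_zero]
    apply ObjectProperty.hom_ext
    apply ModuleCat.hom_ext
    ext x
    change R.mkQ (q.hom.hom x) = 0
    rw [Submodule.mkQ_apply, Submodule.Quotient.mk_eq_zero]
    exact LinearMap.mem_range_self _ x
  have h2 : R.mkQ = 0 := congrArg (fun k => k.hom.hom) h1
  rw [← LinearMap.range_eq_top]
  have h3 : LinearMap.ker R.mkQ = ⊤ := by rw [h2, LinearMap.ker_zero]
  rwa [Submodule.ker_mkQ] at h3

theorem ag_shortExact {X Y Z : FDMod A} (f : X.obj →ₗ[A] Y.obj) (g : Y.obj →ₗ[A] Z.obj)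
    (hf : Function.Injective f) (hg : Function.Surjective g)
    (hfg : ∀ y, g y = 0 ↔ ∃ x, f x = y) :
    ∃ w, (ShortComplex.mk (agHom f) (agHom g) w).ShortExact := by
  have w : agHom f ≫ agHom g = 0 := by
    apply ObjectProperty.hom_ext
    apply ModuleCat.hom_ext
    ext x
    exact (hfg _).2 ⟨x, rfl⟩
  refine ⟨w, ?_⟩
  have hm := ag_mono f hf
  have he := ag_epi g hg
  have hlift : ∀ {W : FDMod A} (k : W ⟶ Y), k ≫ agHom g = 0 → ∃ l : W ⟶ X, l ≫ agHom f = k := by
    intro W k hk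
    have hk' : ∀ y, g (k.hom.hom y) = 0 := fun y =>
      LinearMap.congr_fun (congrArg (fun k => k.hom.hom) hk) y
    let e := LinearEquiv.ofInjective f hf
    have hr : ∀ y, k.hom.hom y ∈ LinearMap.range f := fun y => (hfg _).1 (hk' y)
    refine ⟨agHom (e.symm.toLinearMap ∘ₗ (k.hom.hom.codRestrict (LinearMap.range f) hr)), ?_⟩
    apply ObjectProperty.hom_ext
    apply ModuleCat.hom_ext
    ext y
    change f (e.symm ⟨k.hom.hom y, hr y⟩) = k.hom.hom y
    have := e.apply_symm_apply ⟨k.hom.hom y, hr y⟩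
    exact congrArg Subtype.val this
  have hex : (ShortComplex.mk (agHom f) (agHom g) w).Exact := by
    refine ShortComplex.exact_of_f_is_kernel _ ?_
    refine KernelFork.IsLimit.ofι _ _ (fun k hk => (hlift k hk).choose)
      (fun k hk => (hlift k hk).choose_spec) ?_
    intro W k hk m hm'
    rw [← cancel_mono (agHom f)]
    exact hm'.trans (hlift k hk).choose_spec.symm
  exact { exact := hex, mono_f := hm, epi_g := he }

end fd

section hX

variable {C : Type 1} [Category.{0} C] [Abelian C] [Linear ℂ C] (G0 : C)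

instance ag_tower (X : C) : IsScalarTower ℂ (End G0) (X ⟶ G0) where
  smul_assoc c a x := by
    change x ≫ (c • a : G0 ⟶ G0) = c • (x ≫ a)
    rw [Linear.comp_smul]

/-- the module `Hom(X, G0)` over `End G0` -/
noncomputable def hobj (hfd : ∀ X Y : C, FiniteDimensional ℂ (X ⟶ Y)) (X : C) :
    FDMod (End G0) :=
  ⟨ModuleCat.of (End G0) (X ⟶ G0), @fdProp_of (End G0) _ _ (X ⟶ G0) _ _ _ _ (hfd X G0)⟩

variable {G0} (hfd : ∀ X Y : C, FiniteDimensional ℂ (X ⟶ Y))

/-- a morphism as an element of the module -/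
noncomputable def tm {X : C} (g : X ⟶ G0) : (hobj G0 hfd X).obj := g

/-- an element of the module as a morphism -/
noncomputable def fm {X : C} (g : (hobj G0 hfd X).obj) : X ⟶ G0 := g

theorem fm_tm {X : C} (g : X ⟶ G0) : fm hfd (tm hfd g) = g := rfl
theorem tm_fm {X : C} (g : (hobj G0 hfd X).obj) : tm hfd (fm hfd g) = g := rfl
theorem fm_add {X : C} (g h : (hobj G0 hfd X).obj) : fm hfd (g + h) = fm hfd g + fm hfd h := rfl
theorem fm_smul {X : C} (c : End G0) (g : (hobj G0 hfd X).obj) :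
    fm hfd (c • g) = fm hfd g ≫ (c : G0 ⟶ G0) := rfl
theorem tm_add {X : C} (g h : X ⟶ G0) : tm hfd (g + h) = tm hfd g + tm hfd h := rfl
theorem tm_zero {X : C} : tm hfd (0 : X ⟶ G0) = 0 := rfl
theorem tm_smul {X : C} (c : End G0) (g : X ⟶ G0) :
    c • tm hfd g = tm hfd (g ≫ (c : G0 ⟶ G0)) := rfl
theorem tm_inj {X : C} {g h : X ⟶ G0} (e : tm hfd g = tm hfd h) : g = h := e
theorem tm_sum {X : C} {κ : Type} (s : Finset κ) (g : κ → (X ⟶ G0)) :
    tm hfd (∑ k ∈ s, g k) = ∑ k ∈ s, tm hfd (g k) := by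
  classical
  induction s using Finset.induction_on with
  | empty => simp [tm_zero]
  | insert a s ha ih => rw [Finset.sum_insert ha, Finset.sum_insert ha, tm_add, ih]

/-- precomposition with `u` -/
noncomputable def preLin {X Y : C} (u : X ⟶ Y) :
    (hobj G0 hfd Y).obj →ₗ[End G0] (hobj G0 hfd X).obj where
  toFun g := tm hfd (u ≫ fm hfd g)
  map_add' a b := by
    rw [fm_add, Preadditive.comp_add, tm_add]
  map_smul' c a := by
    rw [fm_smul, RingHom.id_apply, tm_smul, Category.assoc]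

theorem preLin_apply {X Y : C} (u : X ⟶ Y) (g : (hobj G0 hfd Y).obj) :
    preLin hfd u g = tm hfd (u ≫ fm hfd g) := rfl

/-- `∑ (b k ≫ g) • n k` -/
noncomputable def combLin (N : ModuleCat (End G0)) {m : ℕ} {X : C} (b : Fin m → (G0 ⟶ X))
    (x : Fin m → N) : (hobj G0 hfd X).obj →ₗ[End G0] N where
  toFun g := ∑ k, (End.of (b k ≫ fm hfd g)) • x k
  map_add' g h := by
    rw [← Finset.sum_add_distrib]
    refine Finset.sum_congr rfl fun k _ => ?_
    rw [← add_smul]
    congr 1
    exact Preadditive.comp_add _ _ _ (b k) (fm hfd g) (fm hfd h)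
  map_smul' c g := by
    rw [RingHom.id_apply, Finset.smul_sum]
    refine Finset.sum_congr rfl fun k _ => ?_
    rw [← mul_smul]
    congr 1
    exact (Category.assoc _ _ _).symm

theorem combLin_apply (N : ModuleCat (End G0)) {m : ℕ} {X : C} (b : Fin m → (G0 ⟶ X))
    (x : Fin m → N) (g : (hobj G0 hfd X).obj) :
    combLin hfd N b x g = ∑ k, (End.of (b k ≫ fm hfd g)) • x k := rfl

/-- `G0` generates and cogenerates in the split sense -/
def SplitGen (G0 : C) : Prop :=
  ∀ X : C, ∃ (m : ℕ) (a : Fin m → (X ⟶ G0)) (b : Fin m → (G0 ⟶ X)), ∑ k, a k ≫ b k = 𝟙 X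

theorem sum_smul_tm {X : C} {m : ℕ} {a : Fin m → (X ⟶ G0)} {b : Fin m → (G0 ⟶ X)}
    (hab : ∑ k, a k ≫ b k = 𝟙 X) (g : (hobj G0 hfd X).obj) :
    ∑ k, (End.of (b k ≫ fm hfd g)) • tm hfd (a k) = g := by
  have h3 : fm hfd g = ∑ k, a k ≫ b k ≫ fm hfd g := by
    have h4 : fm hfd g = (∑ k, a k ≫ b k) ≫ fm hfd g := by rw [hab, Category.id_comp]
    refine h4.trans ?_
    rw [Preadditive.sum_comp]
    exact Finset.sum_congr rfl fun k _ => Category.assoc _ _ _
  calc ∑ k, (End.of (b k ≫ fm hfd g)) • tm hfd (a k)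
      = ∑ k, tm hfd (a k ≫ b k ≫ fm hfd g) := Finset.sum_congr rfl fun k _ => tm_smul _ _ _
    _ = tm hfd (∑ k, a k ≫ b k ≫ fm hfd g) := (tm_sum _ _ _).symm
    _ = g := by rw [← h3, tm_fm]

theorem lin_eq_comb {X : C} {m : ℕ} {a : Fin m → (X ⟶ G0)} {b : Fin m → (G0 ⟶ X)}
    (hab : ∑ k, a k ≫ b k = 𝟙 X) (N : ModuleCat (End G0))
    (φ : (hobj G0 hfd X).obj →ₗ[End G0] N) (g : (hobj G0 hfd X).obj) :
    φ g = ∑ k, (End.of (b k ≫ fm hfd g)) • φ (tm hfd (a k)) := by
  conv_lhs => rw [← sum_smul_tm hfd hab g]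
  rw [map_sum]
  refine Finset.sum_congr rfl fun k _ => ?_
  rw [map_smul]

theorem hobj_projective (hG : SplitGen G0) (X : C) : Projective (hobj G0 hfd X) := by
  obtain ⟨m, a, b, hab⟩ := hG X
  constructor
  intro E N φ q hq
  have hs := ag_surjective q hq
  choose x hx using fun k => hs (φ.hom.hom (tm hfd (a k)))
  refine ⟨agHom (combLin hfd E.obj b x), ?_⟩
  apply ObjectProperty.hom_ext
  apply ModuleCat.hom_ext
  ext g
  rw [lin_eq_comb hfd hab N.obj φ.hom.hom]
  change q.hom.hom (combLin hfd E.obj b x g) = _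
  rw [combLin_apply, map_sum]
  refine Finset.sum_congr rfl fun k _ => ?_
  rw [map_smul, hx]

/-- the linear map `u ↦ h(u)` -/
noncomputable def preLinL (X Y : C) : (X ⟶ Y) →ₗ[ℂ] (hobj G0 hfd Y ⟶ hobj G0 hfd X) where
  toFun u := agHom (preLin hfd u)
  map_add' u v := by
    apply ObjectProperty.hom_ext
    apply ModuleCat.hom_ext
    ext g
    change preLin hfd (u + v) g = preLin hfd u g + preLin hfd v g
    rw [preLin_apply, Preadditive.add_comp]
    rfl
  map_smul' c u := by
    apply ObjectProperty.hom_ext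
    apply ModuleCat.hom_ext
    ext g
    change preLin hfd (c • u) g = (algebraMap ℂ (End G0) c) • preLin hfd u g
    rw [preLin_apply, preLin_apply, tm_smul]
    congr 1
    change (c • u) ≫ fm hfd g = (u ≫ fm hfd g) ≫ (algebraMap ℂ (End G0) c : G0 ⟶ G0)
    rw [Algebra.algebraMap_eq_smul_one]
    change (c • u) ≫ fm hfd g = (u ≫ fm hfd g) ≫ (c • (𝟙 G0))
    simp

theorem preLinL_bijective (hG : SplitGen G0) (X Y : C) :
    Function.Bijective (preLinL (G0 := G0) hfd X Y) := by
  obtain ⟨m, a, b, hab⟩ := hG Y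
  constructor
  · rw [injective_iff_map_eq_zero]
    intro u hu
    have h1 : ∀ g : Y ⟶ G0, u ≫ g = 0 := fun g =>
      LinearMap.congr_fun (congrArg (fun k => k.hom.hom) hu) (tm hfd g)
    rw [← Category.comp_id u, ← hab, Preadditive.comp_sum]
    refine Finset.sum_eq_zero fun k _ => ?_
    rw [← Category.assoc, h1, zero_comp]
  · intro φ
    refine ⟨∑ k, fm hfd (φ.hom.hom (tm hfd (a k))) ≫ b k, ?_⟩
    apply ObjectProperty.hom_ext
    apply ModuleCat.hom_ext
    ext g
    rw [lin_eq_comb hfd hab _ φ.hom.hom]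
    change tm hfd ((∑ k, fm hfd (φ.hom.hom (tm hfd (a k))) ≫ b k) ≫ fm hfd g) = _
    rw [Preadditive.sum_comp, tm_sum]
    refine Finset.sum_congr rfl fun k _ => ?_
    rw [Category.assoc]
    rfl

/-- isomorphic objects have isomorphic modules -/
noncomputable def hobjIso {X Y : C} (e : X ≅ Y) : hobj G0 hfd X ≅ hobj G0 hfd Y where
  hom := agHom (preLin hfd e.inv)
  inv := agHom (preLin hfd e.hom)
  hom_inv_id := by
    apply ObjectProperty.hom_ext
    apply ModuleCat.hom_ext
    ext g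
    change tm hfd (e.hom ≫ e.inv ≫ fm hfd g) = g
    rw [Iso.hom_inv_id_assoc, tm_fm]
  inv_hom_id := by
    apply ObjectProperty.hom_ext
    apply ModuleCat.hom_ext
    ext g
    change tm hfd (e.inv ≫ e.hom ≫ fm hfd g) = g
    rw [Iso.inv_hom_id_assoc, tm_fm]

theorem isZero_hobj {X : C} (hX : IsZero X) : IsZero (hobj G0 hfd X) := by
  rw [IsZero.iff_id_eq_zero]
  apply ObjectProperty.hom_ext
  apply ModuleCat.hom_ext
  ext g
  change tm hfd (fm hfd g) = 0
  rw [hX.eq_of_src (fm hfd g) 0, tm_zero]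

include hfd in
theorem finrank_pos_of_ne_zero_split (hG : SplitGen G0) {X : C} (hX : ¬ IsZero X) :
    0 < Module.finrank ℂ (X ⟶ G0) := by
  obtain ⟨m, a, b, hab⟩ := hG X
  have := hfd X G0
  rw [Module.finrank_pos_iff_exists_ne_zero]
  by_contra! h
  apply hX
  rw [IsZero.iff_id_eq_zero, ← hab]
  exact Finset.sum_eq_zero fun k _ => by rw [h (a k), zero_comp]

include hfd in
theorem finrank_biprod (X Y : C) :
    Module.finrank ℂ (X ⊞ Y ⟶ G0) = Module.finrank ℂ (X ⟶ G0) + Module.finrank ℂ (Y ⟶ G0) := by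
  have := hfd X G0
  have := hfd Y G0
  let φ : (X ⊞ Y ⟶ G0) ≃ₗ[ℂ] ((X ⟶ G0) × (Y ⟶ G0)) :=
    { toFun := fun f => (biprod.inl ≫ f, biprod.inr ≫ f)
      invFun := fun p => biprod.desc p.1 p.2
      left_inv := fun f => by
        apply biprod.hom_ext' <;> simp
      right_inv := fun p => by simp
      map_add' := fun f g => by simp
      map_smul' := fun c f => by simp }
  rw [φ.finrank_eq, Module.finrank_prod]

section gen

variable (G : ObjectProperty (FDMod (End G0))) [G.IsClosedUnderIsomorphisms]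
  (hz : ∀ Z, IsZero Z → G Z)
  (h12 : ∀ S : ShortComplex (FDMod (End G0)), S.ShortExact → G S.X₁ → G S.X₂ → G S.X₃)
  (h13 : ∀ S : ShortComplex (FDMod (End G0)), S.ShortExact → G S.X₁ → G S.X₃ → G S.X₂)

include hz h13 in
theorem hobj_mem (hG : SplitGen G0)
    (hP : ∀ X : C, Indecomposable X → G (hobj G0 hfd X)) (X : C) : G (hobj G0 hfd X) := by
  obtain ⟨d, hd⟩ : ∃ d, Module.finrank ℂ (X ⟶ G0) = d := ⟨_, rfl⟩
  induction d using Nat.strong_induction_on generalizing X with
  | _ d ih =>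
    by_cases h0 : IsZero X
    · exact hz _ (isZero_hobj hfd h0)
    by_cases h1 : Indecomposable X
    · exact hP X h1
    have h2 : ∃ (Y Z : C) (_ : X ≅ Y ⊞ Z), ¬ IsZero Y ∧ ¬ IsZero Z := by
      by_contra! hcon
      apply h1
      refine ⟨h0, fun Y Z e => ?_⟩
      by_contra! h3
      exact h3.2 (hcon Y Z e h3.1)
    obtain ⟨Y, Z, e, hY, hZ⟩ := h2
    have hdim : Module.finrank ℂ (X ⟶ G0)
        = Module.finrank ℂ (Y ⟶ G0) + Module.finrank ℂ (Z ⟶ G0) := by
      rw [← finrank_biprod hfd]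
      exact (Linear.homCongr ℂ e (Iso.refl G0)).finrank_eq
    have hYp := finrank_pos_of_ne_zero_split hfd hG hY
    have hZp := finrank_pos_of_ne_zero_split hfd hG hZ
    have gY := ih _ (by omega) Y rfl
    have gZ := ih _ (by omega) Z rfl
    refine G.prop_of_iso (hobjIso hfd e).symm ?_
    obtain ⟨w, hw⟩ := ag_shortExact (preLin (G0 := G0) hfd (biprod.snd : Y ⊞ Z ⟶ Z))
      (preLin (G0 := G0) hfd (biprod.inl : Y ⟶ Y ⊞ Z)) (by
        intro g h e
        exact (cancel_epi (biprod.snd : Y ⊞ Z ⟶ Z)).1 (tm_inj hfd e)) (by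
        intro g
        refine ⟨tm hfd (biprod.fst ≫ fm hfd g), ?_⟩
        rw [preLin_apply, fm_tm, biprod.inl_fst_assoc, tm_fm]) (by
        intro g
        rw [preLin_apply]
        constructor
        · intro h
          have h' : (biprod.inl : Y ⟶ Y ⊞ Z) ≫ fm hfd g = 0 := tm_inj hfd h
          refine ⟨tm hfd (biprod.inr ≫ fm hfd g), ?_⟩
          rw [preLin_apply, fm_tm]
          have : (biprod.snd : Y ⊞ Z ⟶ Z) ≫ biprod.inr ≫ fm hfd g = fm hfd g := by
            apply biprod.hom_ext'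
            · rw [h']; simp
            · simp
          rw [this, tm_fm]
        · rintro ⟨x, rfl⟩
          rw [preLin_apply, fm_tm, ← Category.assoc, biprod.inl_snd, zero_comp, tm_zero])
    exact h13 _ hw gZ gY

theorem exists_cover (N : FDMod (End G0)) :
    ∃ (Y : C) (p : (hobj G0 hfd Y).obj →ₗ[End G0] N.obj), Function.Surjective p := by
  have hfin : Module.Finite (End G0) N.obj := by
    let _ : Module ℂ N.obj := ModuleCat.moduleOfAlgebraModule (k := ℂ) N.obj
    have h1 : Module.Finite ℂ N.obj := N.property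
    have h2 : IsScalarTower ℂ (End G0) N.obj :=
      ModuleCat.isScalarTower_of_algebra_moduleCat (k := ℂ) N.obj
    exact Module.Finite.of_restrictScalars_finite ℂ (End G0) N.obj
  obtain ⟨m, x, hx⟩ := Module.Finite.exists_fin (R := End G0) (M := N.obj)
  let F : Fin m → C := fun _ => G0
  refine ⟨⨁ F, combLin hfd N.obj (fun k => biproduct.ι F k) x, ?_⟩
  rw [← LinearMap.range_eq_top, eq_top_iff, ← hx, Submodule.span_le]
  rintro _ ⟨k, rfl⟩
  refine ⟨tm hfd (biproduct.π F k), ?_⟩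
  rw [combLin_apply, Finset.sum_eq_single k]
  · rw [fm_tm, biproduct.ι_π_self]
    exact one_smul _ _
  · intro l _ hl
    rw [fm_tm, biproduct.ι_π_ne F hl]
    exact zero_smul _ _
  · intro h; exact absurd (Finset.mem_univ k) h

/-- kernels in `FDMod` -/
noncomputable def kerObj {X Y : FDMod (End G0)} (p : X.obj →ₗ[End G0] Y.obj) : FDMod (End G0) :=
  ⟨ModuleCat.of (End G0) (LinearMap.ker p), by
    have : Mono (ModuleCat.ofHom (LinearMap.ker p).subtype) := by
      rw [ModuleCat.mono_iff_injective]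
      exact Subtype.val_injective
    exact (fdProp (End G0)).prop_of_mono (ModuleCat.ofHom (LinearMap.ker p).subtype) X.property⟩

include hz h12 h13 in
theorem gen_all (hG : SplitGen G0)
    (hP : ∀ X : C, Indecomposable X → G (hobj G0 hfd X)) (N : FDMod (End G0)) : G N := by
  have hall := hobj_mem hfd G hz h13 hG hP
  obtain ⟨Y0, p, hp⟩ := exists_cover hfd N
  let N' : FDMod (End G0) := kerObj p
  obtain ⟨Y1, p', hp'⟩ := exists_cover hfd N'
  let j : N'.obj →ₗ[End G0] (hobj G0 hfd Y0).obj := (LinearMap.ker p).subtype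
  obtain ⟨u, hu⟩ := (preLinL_bijective hfd hG Y0 Y1).2 (agHom (j ∘ₗ p'))
  have hu' : ∀ g, preLin hfd u g = j (p' g) := fun g =>
    LinearMap.congr_fun (congrArg (fun k => k.hom.hom) hu) g
  obtain ⟨w1, hw1⟩ := ag_shortExact (preLin (G0 := G0) hfd (cokernel.π u)) p' (by
      intro g h e
      exact (cancel_epi (cokernel.π u)).1 (tm_inj hfd e)) hp' (by
      intro g
      constructor
      · intro h
        have h1 : u ≫ fm hfd g = 0 := by
          apply tm_inj hfd
          rw [← preLin_apply, hu', h, map_zero, tm_zero]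
        refine ⟨tm hfd (cokernel.desc u (fm hfd g) h1), ?_⟩
        rw [preLin_apply, fm_tm, cokernel.π_desc, tm_fm]
      · rintro ⟨x, rfl⟩
        have hj : Function.Injective j := Subtype.val_injective
        apply hj
        rw [← hu', map_zero, preLin_apply, preLin_apply, fm_tm, ← Category.assoc,
          cokernel.condition, zero_comp, tm_zero])
  have gN' : G N' := h12 _ hw1 (hall _) (hall _)
  obtain ⟨w2, hw2⟩ := ag_shortExact j p Subtype.val_injective hp (by
    intro y
    constructor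
    · intro h
      exact ⟨⟨y, h⟩, rfl⟩
    · rintro ⟨x, rfl⟩
      exact x.2)
  exact h12 _ hw2 gN' (hall _)

end gen

end hX

variable {C : Type 1} [Category.{0} C] [Abelian C] [Linear ℂ C]

theorem splitGen_biproduct (hfd : ∀ X Y : C, FiniteDimensional ℂ (X ⟶ Y)) {ι : Type} [Finite ι]
    (M : ι → C) (hM : IsIndecList M) : SplitGen (⨁ M) := by
  classical
  intro X
  obtain ⟨n, Y, hY, ⟨e⟩⟩ := exists_decomp hfd X
  choose i hi using fun k => hM.complete (Y k) (hY k)
  refine ⟨n, fun k => e.hom ≫ biproduct.π Y k ≫ (hi k).some.hom ≫ biproduct.ι M (i k),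
    fun k => biproduct.π M (i k) ≫ (hi k).some.inv ≫ biproduct.ι Y k ≫ e.inv, ?_⟩
  have h1 : ∀ k, (e.hom ≫ biproduct.π Y k ≫ (hi k).some.hom ≫ biproduct.ι M (i k)) ≫
      (biproduct.π M (i k) ≫ (hi k).some.inv ≫ biproduct.ι Y k ≫ e.inv)
      = e.hom ≫ (biproduct.π Y k ≫ biproduct.ι Y k) ≫ e.inv := by
    intro k
    simp
  rw [Finset.sum_congr rfl (fun k _ => h1 k), ← Preadditive.comp_sum, ← Preadditive.sum_comp,
    biproduct.total, Category.id_comp, Iso.hom_inv_id]

theorem aus_family (hfd : ∀ X Y : C, FiniteDimensional ℂ (X ⟶ Y)) {ι : Type} [Finite ι]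
    (M : ι → C) (hM : IsIndecList M) :
    ∃ P : ι → FDMod (AusAlg M), (∀ i, Projective (P i)) ∧ AbGen P ∧
      (∀ i j, Nonempty ((P i ⟶ P j) ≃ₗ[ℂ] (M j ⟶ M i))) := by
  have hG := splitGen_biproduct hfd M hM
  refine ⟨fun i => hobj (⨁ M) hfd (M i), fun i => hobj_projective hfd hG _, ?_, ?_⟩
  · intro G _ hP hz h12 _ h13 N
    refine gen_all hfd G hz h12 h13 hG (fun X hX => ?_) N
    obtain ⟨i, ⟨e⟩⟩ := hM.complete X hX
    exact G.prop_of_iso (hobjIso hfd e).symm (hP i)
  · intro i j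
    exact ⟨(LinearEquiv.ofBijective _ (preLinL_bijective hfd hG (M j) (M i))).symm⟩

end MPdda
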