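import Pool.Agent.H.MP_dda0b9_al.DefsZ

/-!
# MP_dda0b9_al: the inverse of the Cartan matrix in type A (job J21)
-/

namespace MPdda

theorem typeA_inT_add {t : ℕ} {a : Fin 3 → ℤ} (h : InT t a) {p : Fin 3} (hp : 1 ≤ a p) :
    InT t (a + fv p) := by
  obtain ⟨h0, h1⟩ := h
  have e0 := h0 0
  have e1 := h0 1
  have e2 := h0 2
  fin_cases p <;> simp only [Fin.zero_eta, Fin.mk_one, Fin.reduceFinMk] at hp
  all_goals
    refine ⟨fun i => ?_, ?_⟩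
    · fin_cases i <;> simp [fv] <;> omega
    · simp [fv]
      omega

theorem typeA_inT_sub {t : ℕ} {a : Fin 3 → ℤ} (h : InT t a) {p : Fin 3} (hp : 1 ≤ a (p + 1)) :
    InT t (a - fv p) := by
  obtain ⟨h0, h1⟩ := h
  have e0 := h0 0
  have e1 := h0 1
  have e2 := h0 2
  fin_cases p <;> simp at hp
  all_goals
    refine ⟨fun i => ?_, ?_⟩
    · fin_cases i <;> simp [fv] <;> omega
    · simp [fv]
      omega

theorem typeA_mv_single (a y : Fin 3 → ℤ) (p : Fin 3) :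
    a + fv p + mv (y - Pi.single p 1) = a + mv y := by
  funext i
  fin_cases p <;> fin_cases i <;> simp [fv, mv] <;> ring

theorem typeA_mv_double (a y : Fin 3 → ℤ) (p : Fin 3) :
    a - fv p + mv (y - 1 + Pi.single p 1) = a + mv y := by
  funext i
  fin_cases p <;> fin_cases i <;> simp [fv, mv] <;> ring

/-- Monomials below `a` have nonnegative degree. -/
theorem typeA_nonneg (t : ℕ) (H : (Fin 3 → ℤ) → ℤ)
    (hH : ∀ a p, InT t a → InT t (a + fv p) →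
      H a - H (a + fv p) = 1 ∨ H a - H (a + fv p) = -2)
    (a y : Fin 3 → ℤ) (ha : InT t a) (hy : ∀ i, 0 ≤ y i ∧ y i ≤ a i) :
    InT t (a + mv y) ∧ H a - H (a + mv y) ≤ y 0 + y 1 + y 2 := by
  obtain ⟨n, hn⟩ : ∃ n : ℕ, y 0 + y 1 + y 2 = n := by
    have e0 := (hy 0).1
    have e1 := (hy 1).1
    have e2 := (hy 2).1
    exact ⟨(y 0 + y 1 + y 2).toNat, by omega⟩
  induction n generalizing a y with
  | zero =>
    have e0 := (hy 0).1
    have e1 := (hy 1).1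
    have e2 := (hy 2).1
    have hy0 : y = 0 := by
      funext i
      fin_cases i <;> simp <;> omega
    have hm : mv y = 0 := by
      funext i
      simp [mv, hy0]
    rw [hm, add_zero, hn]
    exact ⟨ha, by simp⟩
  | succ n ih =>
    have e0 := (hy 0).1
    have e1 := (hy 1).1
    have e2 := (hy 2).1
    obtain ⟨p, hp⟩ : ∃ p, 1 ≤ y p := by
      by_contra hcon
      push Not at hcon
      have c0 := hcon 0
      have c1 := hcon 1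
      have c2 := hcon 2
      omega
    have hb : InT t (a + fv p) := typeA_inT_add ha (hp.trans (hy p).2)
    have hy' : ∀ i, 0 ≤ (y - Pi.single p 1 : Fin 3 → ℤ) i ∧
        (y - Pi.single p 1 : Fin 3 → ℤ) i ≤ (a + fv p) i := by
      intro i
      have f0 := (hy 0).2
      have f1 := (hy 1).2
      have f2 := (hy 2).2
      fin_cases p <;> simp only [Fin.zero_eta, Fin.mk_one, Fin.reduceFinMk] at hp
      all_goals fin_cases i <;> simp [fv] <;> omega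
    have hn' : (y - Pi.single p 1 : Fin 3 → ℤ) 0 + (y - Pi.single p 1 : Fin 3 → ℤ) 1 +
        (y - Pi.single p 1 : Fin 3 → ℤ) 2 = n := by
      push_cast at hn
      fin_cases p <;> simp <;> omega
    have := ih (a + fv p) (y - Pi.single p 1) hb hy' hn'
    rw [typeA_mv_single, hn'] at this
    refine ⟨this.1, ?_⟩
    have h2 := this.2
    have h3 := hH a p ha hb
    push_cast at hn
    omega

/-- The first steps of a monomial of degree `0` have degree `0`. -/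
theorem typeA_step (t : ℕ) (H : (Fin 3 → ℤ) → ℤ)
    (hH : ∀ a p, InT t a → InT t (a + fv p) →
      H a - H (a + fv p) = 1 ∨ H a - H (a + fv p) = -2)
    (a x : Fin 3 → ℤ) (ha : InT t a) (hx : ∀ i, 0 ≤ x i ∧ x i ≤ a i)
    (hdeg : x 0 + x 1 + x 2 = H a - H (a + mv x)) (p : Fin 3) (hp : 1 ≤ x p) :
    InT t (a + fv p) ∧ H a - H (a + fv p) = 1 := by
  have hb : InT t (a + fv p) := typeA_inT_add ha (hp.trans (hx p).2)
  refine ⟨hb, ?_⟩
  have e0 := (hx 0).1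
  have e1 := (hx 1).1
  have e2 := (hx 2).1
  have hy' : ∀ i, 0 ≤ (x - Pi.single p 1 : Fin 3 → ℤ) i ∧
      (x - Pi.single p 1 : Fin 3 → ℤ) i ≤ (a + fv p) i := by
    intro i
    have f0 := (hx 0).2
    have f1 := (hx 1).2
    have f2 := (hx 2).2
    fin_cases p <;> simp only [Fin.zero_eta, Fin.mk_one, Fin.reduceFinMk] at hp
    all_goals fin_cases i <;> simp [fv] <;> omega
  have hn' : (x - Pi.single p 1 : Fin 3 → ℤ) 0 + (x - Pi.single p 1 : Fin 3 → ℤ) 1 +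
      (x - Pi.single p 1 : Fin 3 → ℤ) 2 = x 0 + x 1 + x 2 - 1 := by
    fin_cases p <;> simp <;> ring
  have h1 := (typeA_nonneg t H hH (a + fv p) (x - Pi.single p 1) hb hy').2
  rw [typeA_mv_single, hn'] at h1
  have h3 := hH a p ha hb
  omega

theorem typeA_ZZ_iff (H : (Fin 3 → ℤ) → ℤ) (a c x : Fin 3 → ℤ) (hx : a + mv x = c)
    (hs : x 0 + x 1 + x 2 = H a - H c) : ZZ H a c ↔ ∀ i, 0 ≤ x i ∧ x i ≤ a i := by
  constructor
  · rintro ⟨y, hy, hyc, hys⟩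
    have hm : mv y = mv x := by
      have := hyc.trans hx.symm
      exact add_left_cancel this
    have m0 := congrFun hm 0
    have m1 := congrFun hm 1
    have m2 := congrFun hm 2
    simp [mv] at m0 m1 m2
    have hyx : y = x := by
      funext i
      fin_cases i <;> simp <;> omega
    rw [← hyx]
    exact hy
  · intro h
    exact ⟨x, h, hx, hs⟩

theorem coreA (a0 a1 a2 x0 x1 x2 h p0 p1 p2 m0 m1 m2 : ℤ)
    (h0 : 0 ≤ a0) (h1 : 0 ≤ a1) (h2 : 0 ≤ a2)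
    (e0 : 1 ≤ a0 → h - p0 = 1 ∨ h - p0 = -2)
    (e1 : 1 ≤ a1 → h - p1 = 1 ∨ h - p1 = -2)
    (e2 : 1 ≤ a2 → h - p2 = 1 ∨ h - p2 = -2)
    (g0 : 1 ≤ a1 → m0 - h = 1 ∨ m0 - h = -2)
    (g1 : 1 ≤ a2 → m1 - h = 1 ∨ m1 - h = -2)
    (g2 : 1 ≤ a0 → m2 - h = 1 ∨ m2 - h = -2)
    (n0 : 1 ≤ x0 → x0 ≤ a0 → 0 ≤ x1 → x1 ≤ a1 + 1 → 0 ≤ x2 → x2 ≤ a2 → p0 - h ≤ -1)
    (n1 : 0 ≤ x0 → x0 ≤ a0 → 1 ≤ x1 → x1 ≤ a1 → 0 ≤ x2 → x2 ≤ a2 + 1 → p1 - h ≤ -1)
    (n2 : 0 ≤ x0 → x0 ≤ a0 + 1 → 0 ≤ x1 → x1 ≤ a1 → 1 ≤ x2 → x2 ≤ a2 → p2 - h ≤ -1)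
    (r0 : 0 ≤ x0 → x0 ≤ a0 + 1 → 1 ≤ x1 → x1 ≤ a1 → 1 ≤ x2 → x2 ≤ a2 + 1 → m0 - h ≤ -2)
    (r1 : 1 ≤ x0 → x0 ≤ a0 + 1 → 0 ≤ x1 → x1 ≤ a1 + 1 → 1 ≤ x2 → x2 ≤ a2 → m1 - h ≤ -2)
    (r2 : 1 ≤ x0 → x0 ≤ a0 → 1 ≤ x1 → x1 ≤ a1 + 1 → 0 ≤ x2 → x2 ≤ a2 + 1 → m2 - h ≤ -2)
    (kk : ¬ (1 ≤ x0 ∧ x0 ≤ a0 + 1 ∧ 1 ≤ x1 ∧ x1 ≤ a1 + 1 ∧ 1 ≤ x2 ∧ x2 ≤ a2 + 1)) :
    (if (0 ≤ x0 ∧ x0 ≤ a0) ∧ (0 ≤ x1 ∧ x1 ≤ a1) ∧ (0 ≤ x2 ∧ x2 ≤ a2) then (1 : ℤ) else 0)
    - ((if h - p0 = 1 ∧ (1 ≤ x0 ∧ x0 ≤ a0 ∧ 0 ≤ x1 ∧ x1 ≤ a1 + 1 ∧ 0 ≤ x2 ∧ x2 ≤ a2)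
        then (1 : ℤ) else 0)
      + (if h - p1 = 1 ∧ (0 ≤ x0 ∧ x0 ≤ a0 ∧ 1 ≤ x1 ∧ x1 ≤ a1 ∧ 0 ≤ x2 ∧ x2 ≤ a2 + 1)
        then (1 : ℤ) else 0)
      + (if h - p2 = 1 ∧ (0 ≤ x0 ∧ x0 ≤ a0 + 1 ∧ 0 ≤ x1 ∧ x1 ≤ a1 ∧ 1 ≤ x2 ∧ x2 ≤ a2)
        then (1 : ℤ) else 0))
    + ((if m0 - h = -2 ∧
          (0 ≤ x0 ∧ x0 ≤ a0 + 1 ∧ 1 ≤ x1 ∧ x1 ≤ a1 ∧ 1 ≤ x2 ∧ x2 ≤ a2 + 1)
        then (1 : ℤ) else 0)
      + (if m1 - h = -2 ∧
          (1 ≤ x0 ∧ x0 ≤ a0 + 1 ∧ 0 ≤ x1 ∧ x1 ≤ a1 + 1 ∧ 1 ≤ x2 ∧ x2 ≤ a2)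
        then (1 : ℤ) else 0)
      + (if m2 - h = -2 ∧
          (1 ≤ x0 ∧ x0 ≤ a0 ∧ 1 ≤ x1 ∧ x1 ≤ a1 + 1 ∧ 0 ≤ x2 ∧ x2 ≤ a2 + 1)
        then (1 : ℤ) else 0))
    = if x0 = 0 ∧ x1 = 0 ∧ x2 = 0 then 1 else 0 := by
  by_cases hn : x0 < 0 ∨ x1 < 0 ∨ x2 < 0
  · clear e0 e1 e2 g0 g1 g2 n0 n1 n2 r0 r1 r2 kk
    rw [if_neg (by omega), if_neg (by omega), if_neg (by omega), if_neg (by omega),
      if_neg (by omega), if_neg (by omega), if_neg (by omega), if_neg (by omega)]; norm_num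
  have y0 : x0 = 0 ∨ 1 ≤ x0 := by clear e0 e1 e2 g0 g1 g2 n0 n1 n2 r0 r1 r2 kk; omega
  have y1 : x1 = 0 ∨ 1 ≤ x1 := by clear e0 e1 e2 g0 g1 g2 n0 n1 n2 r0 r1 r2 kk; omega
  have y2 : x2 = 0 ∨ 1 ≤ x2 := by clear e0 e1 e2 g0 g1 g2 n0 n1 n2 r0 r1 r2 kk; omega
  clear hn
  rcases y0 with y0 | y0 <;> rcases y1 with y1 | y1 <;> rcases y2 with y2 | y2
  · clear e0 e1 e2 g0 g1 g2 n0 n1 n2 r0 r1 r2 kk
    rw [if_pos (by omega), if_neg (by omega), if_neg (by omega), if_neg (by omega),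
      if_neg (by omega), if_neg (by omega), if_neg (by omega), if_pos (by omega)]; norm_num
  · clear e0 e1 g0 g1 g2 n0 n1 r0 r1 r2 kk
    rw [if_neg (c := h - p0 = 1 ∧ _) (by omega),
      if_neg (c := h - p1 = 1 ∧ _) (by omega),
      if_neg (c := m0 - h = -2 ∧ _) (by omega),
      if_neg (c := m1 - h = -2 ∧ _) (by omega),
      if_neg (c := m2 - h = -2 ∧ _) (by omega),
      if_neg (c := x0 = 0 ∧ _) (by omega)]
    split_ifs <;> omega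
  · clear e0 e2 g0 g1 g2 n0 n2 r0 r1 r2 kk
    rw [if_neg (c := h - p0 = 1 ∧ _) (by omega),
      if_neg (c := h - p2 = 1 ∧ _) (by omega),
      if_neg (c := m0 - h = -2 ∧ _) (by omega),
      if_neg (c := m1 - h = -2 ∧ _) (by omega),
      if_neg (c := m2 - h = -2 ∧ _) (by omega),
      if_neg (c := x0 = 0 ∧ _) (by omega)]
    split_ifs <;> omega
  · clear e0 g1 g2 n0 r1 r2 kk
    rw [if_neg (c := h - p0 = 1 ∧ _) (by omega),
      if_neg (c := m1 - h = -2 ∧ _) (by omega),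
      if_neg (c := m2 - h = -2 ∧ _) (by omega),
      if_neg (c := x0 = 0 ∧ _) (by omega)]
    split_ifs <;> omega
  · clear e1 e2 g0 g1 g2 n1 n2 r0 r1 r2 kk
    rw [if_neg (c := h - p1 = 1 ∧ _) (by omega),
      if_neg (c := h - p2 = 1 ∧ _) (by omega),
      if_neg (c := m0 - h = -2 ∧ _) (by omega),
      if_neg (c := m1 - h = -2 ∧ _) (by omega),
      if_neg (c := m2 - h = -2 ∧ _) (by omega),
      if_neg (c := x0 = 0 ∧ _) (by omega)]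
    split_ifs <;> omega
  · clear e1 g0 g2 n1 r0 r2 kk
    rw [if_neg (c := h - p1 = 1 ∧ _) (by omega),
      if_neg (c := m0 - h = -2 ∧ _) (by omega),
      if_neg (c := m2 - h = -2 ∧ _) (by omega),
      if_neg (c := x0 = 0 ∧ _) (by omega)]
    split_ifs <;> omega
  · clear e2 g0 g1 n2 r0 r1 kk
    rw [if_neg (c := h - p2 = 1 ∧ _) (by omega),
      if_neg (c := m0 - h = -2 ∧ _) (by omega),
      if_neg (c := m1 - h = -2 ∧ _) (by omega),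
      if_neg (c := x0 = 0 ∧ _) (by omega)]
    split_ifs <;> omega
  · clear e0 e1 e2 g0 g1 g2 n0 n1 n2 r0 r1 r2
    rw [if_neg (by omega), if_neg (by omega), if_neg (by omega), if_neg (by omega),
      if_neg (by omega), if_neg (by omega), if_neg (by omega), if_neg (by omega)]; norm_num

open Classical in
theorem typeA_identity (t : ℕ) (H : (Fin 3 → ℤ) → ℤ)
    (hH : ∀ a p, InT t a → InT t (a + fv p) →
      H a - H (a + fv p) = 1 ∨ H a - H (a + fv p) = -2)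
    (a c : Fin 3 → ℤ) (ha : InT t a) (hc : InT t c) :
    (if ZZ H a c then (1 : ℤ) else 0) -
      (∑ p : Fin 3, if InT t (a + fv p) ∧ H a - H (a + fv p) = 1 ∧ ZZ H (a + fv p) c
        then (1 : ℤ) else 0) +
      (∑ p : Fin 3, if InT t (a - fv p) ∧ H (a - fv p) - H a = -2 ∧ ZZ H (a - fv p) c
        then (1 : ℤ) else 0) =
    if a = c then 1 else 0 := by
  by_cases hx : ∃ x : Fin 3 → ℤ, a + mv x = c ∧ x 0 + x 1 + x 2 = H a - H c
  · obtain ⟨x, hx, hs⟩ := hx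
    have ha0 := ha.1 0
    have ha1 := ha.1 1
    have ha2 := ha.1 2
    -- conditions for the neighbours
    have hadd : ∀ p, H a - H (a + fv p) = 1 → (ZZ H (a + fv p) c ↔
        ∀ i, 0 ≤ (x - Pi.single p 1 : Fin 3 → ℤ) i ∧
          (x - Pi.single p 1 : Fin 3 → ℤ) i ≤ (a + fv p) i) := by
      intro p hp
      refine typeA_ZZ_iff H _ c _ (by rw [typeA_mv_single, hx]) ?_
      have hn' : (x - Pi.single p 1 : Fin 3 → ℤ) 0 + (x - Pi.single p 1 : Fin 3 → ℤ) 1 +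
          (x - Pi.single p 1 : Fin 3 → ℤ) 2 = x 0 + x 1 + x 2 - 1 := by
        fin_cases p <;> simp <;> ring
      rw [hn']
      omega
    have hsub : ∀ p, H (a - fv p) - H a = -2 → (ZZ H (a - fv p) c ↔
        ∀ i, 0 ≤ (x - 1 + Pi.single p 1 : Fin 3 → ℤ) i ∧
          (x - 1 + Pi.single p 1 : Fin 3 → ℤ) i ≤ (a - fv p) i) := by
      intro p hp
      refine typeA_ZZ_iff H _ c _ (by rw [typeA_mv_double, hx]) ?_
      have hn' : (x - 1 + Pi.single p 1 : Fin 3 → ℤ) 0 + (x - 1 + Pi.single p 1 : Fin 3 → ℤ) 1 +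
          (x - 1 + Pi.single p 1 : Fin 3 → ℤ) 2 = x 0 + x 1 + x 2 - 2 := by
        fin_cases p <;> simp <;> ring
      rw [hn']
      omega
    -- nonnegativity
    have nadd : ∀ p, (∀ i, 0 ≤ (x - Pi.single p 1 : Fin 3 → ℤ) i ∧
          (x - Pi.single p 1 : Fin 3 → ℤ) i ≤ (a + fv p) i) → InT t (a + fv p) →
          H (a + fv p) - H a ≤ -1 := by
      intro p hp hT
      have hn' : (x - Pi.single p 1 : Fin 3 → ℤ) 0 + (x - Pi.single p 1 : Fin 3 → ℤ) 1 +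
          (x - Pi.single p 1 : Fin 3 → ℤ) 2 = x 0 + x 1 + x 2 - 1 := by
        fin_cases p <;> simp <;> ring
      have h1 := (typeA_nonneg t H hH (a + fv p) (x - Pi.single p 1) hT hp).2
      rw [typeA_mv_single, hn', hx] at h1
      omega
    have nsub : ∀ p, (∀ i, 0 ≤ (x - 1 + Pi.single p 1 : Fin 3 → ℤ) i ∧
          (x - 1 + Pi.single p 1 : Fin 3 → ℤ) i ≤ (a - fv p) i) → InT t (a - fv p) →
          H (a - fv p) - H a ≤ -2 := by
      intro p hp hT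
      have hn' : (x - 1 + Pi.single p 1 : Fin 3 → ℤ) 0 + (x - 1 + Pi.single p 1 : Fin 3 → ℤ) 1 +
          (x - 1 + Pi.single p 1 : Fin 3 → ℤ) 2 = x 0 + x 1 + x 2 - 2 := by
        fin_cases p <;> simp <;> ring
      have h1 := (typeA_nonneg t H hH (a - fv p) (x - 1 + Pi.single p 1) hT hp).2
      rw [typeA_mv_double, hn', hx] at h1
      omega
    have hkk : ¬ (1 ≤ x 0 ∧ x 0 ≤ a 0 + 1 ∧ 1 ≤ x 1 ∧ x 1 ≤ a 1 + 1 ∧ 1 ≤ x 2 ∧
        x 2 ≤ a 2 + 1) := by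
      intro hk
      have h1 := (typeA_nonneg t H hH a (x - 1) ha (by
        intro i
        fin_cases i <;> simp <;> omega)).2
      have h2 : mv (x - 1) = mv x := by
        funext i
        simp [mv]
      rw [h2, hx] at h1
      simp at h1
      omega
    have hT0 : ∀ p, 1 ≤ a p → InT t (a + fv p) := fun p hp => typeA_inT_add ha hp
    have hT1 : ∀ p, 1 ≤ a (p + 1) → InT t (a - fv p) := fun p hp => typeA_inT_sub ha hp
    have hS0 : ∀ p, InT t (a - fv p) →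
        H (a - fv p) - H a = 1 ∨ H (a - fv p) - H a = -2 := by
      intro p hp
      have := hH (a - fv p) p hp (by rw [sub_add_cancel]; exact ha)
      rwa [sub_add_cancel] at this
    have hac : a = c ↔ (x 0 = 0 ∧ x 1 = 0 ∧ x 2 = 0) := by
      constructor
      · intro hac
        have hm : mv x = 0 := by
          have : a + mv x = a + 0 := by rw [hx, add_zero, hac]
          exact add_left_cancel this
        have m0 := congrFun hm 0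
        have m1 := congrFun hm 1
        have m2 := congrFun hm 2
        simp [mv] at m0 m1 m2
        rw [hac] at hs
        omega
      · rintro ⟨q0, q1, q2⟩
        rw [← hx]
        have hx0 : x = 0 := by
          funext i
          fin_cases i
          · exact q0
          · exact q1
          · exact q2
        funext i
        simp [mv, hx0]
    have key := coreA (a 0) (a 1) (a 2) (x 0) (x 1) (x 2) (H a) (H (a + fv 0)) (H (a + fv 1))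
      (H (a + fv 2)) (H (a - fv 0)) (H (a - fv 1)) (H (a - fv 2)) ha0 ha1 ha2
      (fun h => hH a 0 ha (hT0 0 h)) (fun h => hH a 1 ha (hT0 1 h)) (fun h => hH a 2 ha (hT0 2 h))
      (fun h => hS0 0 (hT1 0 h)) (fun h => hS0 1 (hT1 1 h)) (fun h => hS0 2 (hT1 2 h))
      (fun q1 q2 q3 q4 q5 q6 => nadd 0 (by
        intro i
        fin_cases i <;> simp [fv] <;> omega) (hT0 0 (by omega)))
      (fun q1 q2 q3 q4 q5 q6 => nadd 1 (by
        intro i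
        fin_cases i <;> simp [fv] <;> omega) (hT0 1 (by omega)))
      (fun q1 q2 q3 q4 q5 q6 => nadd 2 (by
        intro i
        fin_cases i <;> simp [fv] <;> omega) (hT0 2 (by omega)))
      (fun q1 q2 q3 q4 q5 q6 => nsub 0 (by
        intro i
        fin_cases i <;> simp [fv] <;> omega) (hT1 0 (by simp; omega)))
      (fun q1 q2 q3 q4 q5 q6 => nsub 1 (by
        intro i
        fin_cases i <;> simp [fv] <;> omega) (hT1 1 (by simp; omega)))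
      (fun q1 q2 q3 q4 q5 q6 => nsub 2 (by
        intro i
        fin_cases i <;> simp [fv] <;> omega) (hT1 2 (by simp; omega)))
      hkk
    rw [Fin.sum_univ_three, Fin.sum_univ_three, if_congr hac rfl rfl, ← key]
    have c0 : ZZ H a c ↔ ((0 ≤ x 0 ∧ x 0 ≤ a 0) ∧ (0 ≤ x 1 ∧ x 1 ≤ a 1) ∧
        (0 ≤ x 2 ∧ x 2 ≤ a 2)) := by
      rw [typeA_ZZ_iff H a c x hx hs]
      exact Fin.forall_fin_succ.trans (and_congr Iff.rfl (Fin.forall_fin_two))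
    have cadd : ∀ p, (InT t (a + fv p) ∧ H a - H (a + fv p) = 1 ∧ ZZ H (a + fv p) c) ↔
        (H a - H (a + fv p) = 1 ∧ ∀ i, 0 ≤ (x - Pi.single p 1 : Fin 3 → ℤ) i ∧
          (x - Pi.single p 1 : Fin 3 → ℤ) i ≤ (a + fv p) i) := by
      intro p
      constructor
      · rintro ⟨h1, h2, h3⟩
        exact ⟨h2, (hadd p h2).1 h3⟩
      · rintro ⟨h2, h3⟩
        refine ⟨hT0 p ?_, h2, (hadd p h2).2 h3⟩
        have := h3 p
        simp [fv] at this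
        omega
    have csub : ∀ p, (InT t (a - fv p) ∧ H (a - fv p) - H a = -2 ∧ ZZ H (a - fv p) c) ↔
        (H (a - fv p) - H a = -2 ∧ ∀ i, 0 ≤ (x - 1 + Pi.single p 1 : Fin 3 → ℤ) i ∧
          (x - 1 + Pi.single p 1 : Fin 3 → ℤ) i ≤ (a - fv p) i) := by
      intro p
      constructor
      · rintro ⟨h1, h2, h3⟩
        exact ⟨h2, (hsub p h2).1 h3⟩
      · rintro ⟨h2, h3⟩
        refine ⟨hT1 p ?_, h2, (hsub p h2).2 h3⟩
        have := h3 (p + 1)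
        fin_cases p <;> simp [fv] at this <;> simp <;> omega
    have d0 : (∀ i, 0 ≤ (x - Pi.single 0 1 : Fin 3 → ℤ) i ∧
          (x - Pi.single 0 1 : Fin 3 → ℤ) i ≤ (a + fv 0) i) ↔
        (1 ≤ x 0 ∧ x 0 ≤ a 0 ∧ 0 ≤ x 1 ∧ x 1 ≤ a 1 + 1 ∧ 0 ≤ x 2 ∧ x 2 ≤ a 2) := by
      rw [Fin.forall_fin_succ, Fin.forall_fin_two]
      simp [fv]
      omega
    have d1 : (∀ i, 0 ≤ (x - Pi.single 1 1 : Fin 3 → ℤ) i ∧
          (x - Pi.single 1 1 : Fin 3 → ℤ) i ≤ (a + fv 1) i) ↔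
        (0 ≤ x 0 ∧ x 0 ≤ a 0 ∧ 1 ≤ x 1 ∧ x 1 ≤ a 1 ∧ 0 ≤ x 2 ∧ x 2 ≤ a 2 + 1) := by
      rw [Fin.forall_fin_succ, Fin.forall_fin_two]
      simp [fv]
      omega
    have d2 : (∀ i, 0 ≤ (x - Pi.single 2 1 : Fin 3 → ℤ) i ∧
          (x - Pi.single 2 1 : Fin 3 → ℤ) i ≤ (a + fv 2) i) ↔
        (0 ≤ x 0 ∧ x 0 ≤ a 0 + 1 ∧ 0 ≤ x 1 ∧ x 1 ≤ a 1 ∧ 1 ≤ x 2 ∧ x 2 ≤ a 2) := by
      rw [Fin.forall_fin_succ, Fin.forall_fin_two]
      simp [fv]
      omega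
    have g0 : (∀ i, 0 ≤ (x - 1 + Pi.single 0 1 : Fin 3 → ℤ) i ∧
          (x - 1 + Pi.single 0 1 : Fin 3 → ℤ) i ≤ (a - fv 0) i) ↔
        (0 ≤ x 0 ∧ x 0 ≤ a 0 + 1 ∧ 1 ≤ x 1 ∧ x 1 ≤ a 1 ∧ 1 ≤ x 2 ∧ x 2 ≤ a 2 + 1) := by
      rw [Fin.forall_fin_succ, Fin.forall_fin_two]
      simp [fv]
      omega
    have g1 : (∀ i, 0 ≤ (x - 1 + Pi.single 1 1 : Fin 3 → ℤ) i ∧
          (x - 1 + Pi.single 1 1 : Fin 3 → ℤ) i ≤ (a - fv 1) i) ↔
        (1 ≤ x 0 ∧ x 0 ≤ a 0 + 1 ∧ 0 ≤ x 1 ∧ x 1 ≤ a 1 + 1 ∧ 1 ≤ x 2 ∧ x 2 ≤ a 2) := by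
      rw [Fin.forall_fin_succ, Fin.forall_fin_two]
      simp [fv]
      omega
    have g2 : (∀ i, 0 ≤ (x - 1 + Pi.single 2 1 : Fin 3 → ℤ) i ∧
          (x - 1 + Pi.single 2 1 : Fin 3 → ℤ) i ≤ (a - fv 2) i) ↔
        (1 ≤ x 0 ∧ x 0 ≤ a 0 ∧ 1 ≤ x 1 ∧ x 1 ≤ a 1 + 1 ∧ 0 ≤ x 2 ∧ x 2 ≤ a 2 + 1) := by
      rw [Fin.forall_fin_succ, Fin.forall_fin_two]
      simp [fv]
      omega
    simp only [cadd, csub, c0, d0, d1, d2, g0, g1, g2]
  · -- no path at all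
    have hadd : ∀ p, ¬ (InT t (a + fv p) ∧ H a - H (a + fv p) = 1 ∧ ZZ H (a + fv p) c) := by
      rintro p ⟨-, h2, x, -, h4, h5⟩
      apply hx
      refine ⟨x + Pi.single p 1, ?_, ?_⟩
      · rw [← typeA_mv_single a (x + Pi.single p 1) p, add_sub_cancel_right, h4]
      · have hn' : (x + Pi.single p 1 : Fin 3 → ℤ) 0 + (x + Pi.single p 1 : Fin 3 → ℤ) 1 +
            (x + Pi.single p 1 : Fin 3 → ℤ) 2 = x 0 + x 1 + x 2 + 1 := by
          fin_cases p <;> simp <;> ring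
        rw [hn']
        omega
    have hsub : ∀ p, ¬ (InT t (a - fv p) ∧ H (a - fv p) - H a = -2 ∧ ZZ H (a - fv p) c) := by
      rintro p ⟨-, h2, x, -, h4, h5⟩
      apply hx
      refine ⟨x + 1 - Pi.single p 1, ?_, ?_⟩
      · rw [← typeA_mv_double a (x + 1 - Pi.single p 1) p]
        have : (x + 1 - Pi.single p 1 - 1 + Pi.single p 1 : Fin 3 → ℤ) = x := by
          ring
        rw [this, h4]
      · have hn' : (x + 1 - Pi.single p 1 : Fin 3 → ℤ) 0 + (x + 1 - Pi.single p 1 : Fin 3 → ℤ) 1 +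
            (x + 1 - Pi.single p 1 : Fin 3 → ℤ) 2 = x 0 + x 1 + x 2 + 2 := by
          fin_cases p <;> simp <;> ring
        rw [hn']
        omega
    have hz : ¬ ZZ H a c := by
      rintro ⟨x, -, h4, h5⟩
      exact hx ⟨x, h4, h5⟩
    have hac : a ≠ c := by
      intro hac
      apply hx
      refine ⟨0, ?_, ?_⟩
      · funext i
        simp [mv, hac]
      · rw [hac]
        simp
    simp only [hadd, hsub, hz, hac, if_false, Finset.sum_const_zero]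
    norm_num

end MPdda
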