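import Pool.Agent.H.MP_dda0b9_al.Comb
import Pool.Agent.H.MP_dda0b9_al.TypeA

/-!
# MP_dda0b9_al: the inverse of the Cartan matrix in type D (job J24)
-/

namespace MPdda

theorem cd_HT_rot {t : ℕ} (h : Vert t → ℤ) (k : Fin 3) {b : Fin 3 → ℤ} (hb : InT t b)
    (r : Fin 3) : HT t h k (rot r b) = HT t h k b := by
  unfold HT
  rw [vrt_rot k hb]

theorem cd_HT_X {t : ℕ} (h : Vert t → ℤ) (k : Fin 3) : HT t h k (cX t) = h (.inr k) := by
  unfold HT
  rw [vrt_cX]

theorem cd_HT_V {t : ℕ} (h : Vert t → ℤ) (k : Fin 3) (a : VV t) :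
    HT t h k a.1 = h (.inl a) := by
  unfold HT
  rw [vrt_of_inV]

theorem cd_HT_k {t : ℕ} (h : Vert t → ℤ) (k : Fin 3) {b : Fin 3 → ℤ} (hb : InT t b)
    (hX : b ≠ cX t) : HT t h k b = HT t h 0 b := by
  unfold HT
  rw [vrt_eq_inl k hb hX, vrt_eq_inl 0 hb hX]

theorem cd_X_add (t : ℕ) [NeZero t] (p : Fin 3) : cX t + fv p = rot (2 - p) (vS t).1 := by
  change cX t + fv p = rot (2 - p) (cX t + fv 2)
  rw [rot_add', rot_cX, rot_fv]
  congr 2
  abel

theorem cd_X_sub (t : ℕ) [NeZero t] (p : Fin 3) : cX t - fv p = rot (-p) (vP t).1 := by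
  change cX t - fv p = rot (-p) (cX t - fv 0)
  have e : rot (-p) (cX t - fv 0) = rot (-p) (cX t) - rot (-p) (fv 0) := rfl
  rw [e, rot_cX, rot_fv]
  congr 2
  abel

open Classical in
theorem cd_step_al {t : ℕ} [NeZero t] {C : Set (Arr t)} {h : Vert t → ℤ} (hh : IsHeight C h)
    (k : Fin 3) {b : Fin 3 → ℤ} {p : Fin 3} {x : AlArr t} (hx : AT t b p = some x) :
    HT t h k b - HT t h k (b + fv p) = if Arr.al x ∈ C then -2 else 1 := by
  unfold HT
  rw [← AT_src hx k, ← AT_tgt hx k]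
  exact hh (.al x)

open Classical in
theorem cd_step_fromX {t : ℕ} [NeZero t] {C : Set (Arr t)} {h : Vert t → ℤ}
    (hh : IsHeight C h) (k : Fin 3) (p : Fin 3) :
    HT t h k (cX t) - HT t h k (cX t + fv p) = if Arr.ga k ∈ C then -2 else 1 := by
  rw [cd_X_add, cd_HT_rot h k (vS t).2.inT, cd_HT_V, cd_HT_X]
  exact hh (.ga k)

open Classical in
theorem cd_step_toX {t : ℕ} [NeZero t] {C : Set (Arr t)} {h : Vert t → ℤ}
    (hh : IsHeight C h) (k : Fin 3) (p : Fin 3) (b : Fin 3 → ℤ) (hb : b + fv p = cX t) :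
    HT t h k b - HT t h k (b + fv p) = if Arr.be k ∈ C then -2 else 1 := by
  have e : b = rot (-p) (vP t).1 := by
    rw [← cd_X_sub, ← hb, add_sub_cancel_right]
  rw [hb, e, cd_HT_rot h k (vP t).2.inT, cd_HT_V, cd_HT_X]
  exact hh (.be k)

theorem cd_hH {t : ℕ} [NeZero t] {C : Set (Arr t)} {h : Vert t → ℤ} (hh : IsHeight C h)
    (k : Fin 3) (a : Fin 3 → ℤ) (p : Fin 3) (h0 : InT t a) (h1 : InT t (a + fv p)) :
    HT t h k a - HT t h k (a + fv p) = 1 ∨ HT t h k a - HT t h k (a + fv p) = -2 := by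
  by_cases c0 : a = cX t
  · rw [c0, cd_step_fromX hh]
    split_ifs
    · exact Or.inr rfl
    · exact Or.inl rfl
  by_cases c1 : a + fv p = cX t
  · rw [cd_step_toX hh k p a c1]
    split_ifs
    · exact Or.inr rfl
    · exact Or.inl rfl
  obtain ⟨x, hx⟩ := Option.isSome_iff_exists.1 ((AT_isSome a p).2 ⟨h0, h1, c0, c1⟩)
  rw [cd_step_al hh k hx]
  split_ifs
  · exact Or.inr rfl
  · exact Or.inl rfl

theorem cd_inT_of_le {t : ℕ} {a x b : Fin 3 → ℤ} (ha : InT t a) (hb : InT t b)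
    (_ : a + mv x = b) : InT t a ∧ InT t b := ⟨ha, hb⟩

theorem cd_ZZ_rot {t : ℕ} (h : Vert t → ℤ) (k : Fin 3) {a b : Fin 3 → ℤ} (ha : InT t a)
    (hb : InT t b) (r : Fin 3) :
    ZZ (HT t h k) (rot r a) (rot r b) ↔ ZZ (HT t h k) a b := by
  have key : ∀ (r : Fin 3) {a b : Fin 3 → ℤ}, InT t a → InT t b →
      ZZ (HT t h k) a b → ZZ (HT t h k) (rot r a) (rot r b) := by
    intro r a b ha hb
    rintro ⟨x, h1, h2, h3⟩
    refine ⟨rot r x, fun i => h1 (i + r), ?_, ?_⟩
    · rw [← h2, rot_add', rot_mv]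
    · rw [cd_HT_rot h k ha, cd_HT_rot h k hb, ← h3]
      match r with
      | 0 => rfl
      | 1 =>
        change x 1 + x 2 + x 0 = _
        ring
      | 2 =>
        change x 2 + x 0 + x 1 = _
        ring
  constructor
  · intro hz
    have := key (-r) ((inT_rot r).2 ha) ((inT_rot r).2 hb) hz
    rwa [rot_rot, rot_rot, neg_add_cancel, rot_zero, rot_zero] at this
  · exact key r ha hb

theorem cd_ZZ_k {t : ℕ} (h : Vert t → ℤ) (k : Fin 3) {a b : Fin 3 → ℤ} (ha : InT t a)
    (hb : InT t b) (haX : a ≠ cX t) (hbX : b ≠ cX t) :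
    ZZ (HT t h k) a b ↔ ZZ (HT t h 0) a b := by
  unfold ZZ
  rw [cd_HT_k h k ha haX, cd_HT_k h k hb hbX]

open Classical in
/-- the sum over the rotations of the target -/
noncomputable def cdD (t : ℕ) (h : Vert t → ℤ) (k : Fin 3) (b c : Fin 3 → ℤ) : ℤ :=
  ∑ r : Fin 3, if ZZ (HT t h k) b (rot r c) then (1 : ℤ) else 0

theorem cdD_rot {t : ℕ} (h : Vert t → ℤ) (k : Fin 3) {b c : Fin 3 → ℤ} (hb : InT t b)
    (hc : InT t c) (q : Fin 3) : cdD t h k (rot q b) c = cdD t h k b c := by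
  unfold cdD
  rw [← Equiv.sum_comp (Equiv.addLeft q)]
  refine Finset.sum_congr rfl fun r _ => ?_
  rw [Equiv.coe_addLeft, ← rot_rot]
  rw [propext (cd_ZZ_rot h k hb ((inT_rot r).2 hc) q)]

theorem cdD_V {t : ℕ} (h : Vert t → ℤ) (k : Fin 3) (a c : VV t) :
    cdD t h k a.1 c.1 = cD t h (.inl a) (.inl c) := by
  unfold cdD
  change _ = ∑ r : Fin 3, _
  refine Finset.sum_congr rfl fun r _ => ?_
  have h1 : a.1 ≠ cX t := by
    intro e
    have := a.2
    rw [e] at this
    exact not_inV_cX t this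
  have h2 : c.1 ≠ cX t := by
    intro e
    have := c.2
    rw [e] at this
    exact not_inV_cX t this
  rw [propext (cd_ZZ_k h k a.2.inT ((inT_rot r).2 c.2.inT) h1 (rot_ne_cX h2 r))]

theorem cdD_pt {t : ℕ} (h : Vert t → ℤ) (k : Fin 3) {b : Fin 3 → ℤ} (hb : InT t b)
    (hX : b ≠ cX t) (c : VV t) :
    cdD t h k b c.1 = cD t h (vrt t 0 b) (.inl c) := by
  rw [vrt_eq_inl 0 hb hX, ← cdD_V h k, cdD_rot h k hb c.2.inT]

open Classical in
theorem cdD_X {t : ℕ} (h : Vert t → ℤ) (k : Fin 3) (c : VV t) :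
    cdD t h k (cX t) c.1 = 3 * cD t h (.inr k) (.inl c) := by
  unfold cdD
  have h1 : ∀ r : Fin 3, (ZZ (HT t h k) (cX t) (rot r c.1) ↔ ZZ (HT t h k) (cX t) c.1) := by
    intro r
    have := cd_ZZ_rot h k (inT_cX t) c.2.inT r
    rwa [rot_cX] at this
  have h2 : ∀ r : Fin 3, (if ZZ (HT t h k) (cX t) (rot r c.1) then (1 : ℤ) else 0) =
      if ZZ (HT t h k) (cX t) c.1 then 1 else 0 := fun r => by rw [propext (h1 r)]
  rw [Finset.sum_congr rfl fun r _ => h2 r, Finset.sum_const]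
  simp [cD]

theorem cd_ne_X {t : ℕ} (a : VV t) : a.1 ≠ cX t := by
  intro e
  have := a.2
  rw [e] at this
  exact not_inV_cX t this

theorem cd_vP_X (t : ℕ) [NeZero t] : (vP t).1 + fv 0 = cX t := by
  change cX t - fv 0 + fv 0 = cX t
  rw [sub_add_cancel]

theorem cd_toX {t : ℕ} [NeZero t] {a : VV t} {p : Fin 3} (h : a.1 + fv p = cX t) :
    a = vP t ∧ p = 0 := by
  have e : a.1 = rot (-p) (vP t).1 := by
    rw [← cd_X_sub, ← h, add_sub_cancel_right]
  have h1 : InV t (rot (-p) (vP t).1) := by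
    rw [← e]
    exact a.2
  have h2 := inV_rot_unique h1
  rw [qi_of_inV (vP t).2] at h2
  have h3 : p = 0 := by
    rw [← neg_neg p, h2]
    rfl
  refine ⟨?_, h3⟩
  apply Subtype.ext
  rw [e, h2, rot_zero]

theorem cd_fromX {t : ℕ} [NeZero t] {a : VV t} {p : Fin 3} (h : a.1 - fv p = cX t) :
    a = vS t ∧ p = 2 := by
  have e : a.1 = rot (2 - p) (vS t).1 := by
    rw [← cd_X_add, ← h, sub_add_cancel]
  have h1 : InV t (rot (2 - p) (vS t).1) := by
    rw [← e]
    exact a.2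
  have h2 := inV_rot_unique h1
  rw [qi_of_inV (vS t).2] at h2
  have h3 : p = 2 := by
    have : p = 2 - (2 - p) := by abel
    rw [this, h2]
    rfl
  refine ⟨?_, h3⟩
  apply Subtype.ext
  rw [e, h2, rot_zero]

open Classical in
theorem cd_out_term {t : ℕ} [NeZero t] {C : Set (Arr t)} {h : Vert t → ℤ} (hh : IsHeight C h)
    (k : Fin 3) (a : VV t) (G : (Fin 3 → ℤ) → ℤ) (g : Vert t → ℤ)
    (hG : ∀ b, InT t b → b ≠ cX t → G b = g (vrt t 0 b)) (p : Fin 3) :
    (if InT t (a.1 + fv p) ∧ HT t h k a.1 - HT t h k (a.1 + fv p) = 1 then G (a.1 + fv p)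
        else 0) =
      (AT t a.1 p).elim 0 (fun x => if Arr.al x ∈ C then 0 else g (tgt (.al x))) +
      (if (a = vP t ∧ p = 0) ∧ Arr.be k ∉ C then G (cX t) else 0) := by
  by_cases h1 : InT t (a.1 + fv p)
  · by_cases h2 : a.1 + fv p = cX t
    · obtain ⟨h3, h4⟩ := cd_toX h2
      have h5 : AT t a.1 p = none := by
        by_contra hcon
        exact ((AT_isSome a.1 p).1 (Option.isSome_iff_ne_none.2 hcon)).2.2.2 h2
      rw [h5, Option.elim_none, zero_add, cd_step_toX hh k p a.1 h2, h2]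
      by_cases h6 : Arr.be k ∈ C
      · rw [if_neg, if_neg]
        · rintro ⟨-, h7⟩
          exact h7 h6
        · rintro ⟨-, h7⟩
          rw [if_pos h6] at h7
          omega
      · rw [if_pos, if_pos]
        · exact ⟨⟨h3, h4⟩, h6⟩
        · refine ⟨inT_cX t, ?_⟩
          rw [if_neg h6]
    · obtain ⟨x, hx⟩ := Option.isSome_iff_exists.1
        ((AT_isSome a.1 p).2 ⟨a.2.inT, h1, cd_ne_X a, h2⟩)
      rw [hx, Option.elim_some, cd_step_al hh k hx]
      have h7 : ¬ ((a = vP t ∧ p = 0) ∧ Arr.be k ∉ C) := by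
        rintro ⟨⟨h3, h4⟩, -⟩
        apply h2
        rw [h3, h4, cd_vP_X]
      rw [if_neg h7, add_zero, AT_tgt hx 0, ← hG _ h1 h2]
      by_cases h6 : Arr.al x ∈ C
      · rw [if_neg, if_pos h6]
        rintro ⟨-, h7⟩
        rw [if_pos h6] at h7
        omega
      · rw [if_pos, if_neg h6]
        refine ⟨h1, ?_⟩
        rw [if_neg h6]
  · have h5 : AT t a.1 p = none := by
      by_contra hcon
      exact h1 ((AT_isSome a.1 p).1 (Option.isSome_iff_ne_none.2 hcon)).2.1
    rw [h5, Option.elim_none, zero_add, if_neg, if_neg]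
    · rintro ⟨⟨h3, h4⟩, -⟩
      apply h1
      rw [h3, h4, cd_vP_X]
      exact inT_cX t
    · rintro ⟨h7, -⟩
      exact h1 h7

open Classical in
theorem cd_in_term {t : ℕ} [NeZero t] {C : Set (Arr t)} {h : Vert t → ℤ} (hh : IsHeight C h)
    (k : Fin 3) (a : VV t) (G : (Fin 3 → ℤ) → ℤ) (g : Vert t → ℤ)
    (hG : ∀ b, InT t b → b ≠ cX t → G b = g (vrt t 0 b)) (p : Fin 3) :
    (if InT t (a.1 - fv p) ∧ HT t h k (a.1 - fv p) - HT t h k a.1 = -2 then G (a.1 - fv p)
        else 0) =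
      (AT t (a.1 - fv p) p).elim 0 (fun x => if Arr.al x ∈ C then g (src (.al x)) else 0) +
      (if (a = vS t ∧ p = 2) ∧ Arr.ga k ∈ C then G (cX t) else 0) := by
  by_cases h1 : InT t (a.1 - fv p)
  · by_cases h2 : a.1 - fv p = cX t
    · obtain ⟨h3, h4⟩ := cd_fromX h2
      have h5 : AT t (a.1 - fv p) p = none := by
        by_contra hcon
        exact ((AT_isSome _ p).1 (Option.isSome_iff_ne_none.2 hcon)).2.2.1 h2
      have h8 := cd_step_fromX hh k p
      have h9 : cX t + fv p = a.1 := by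
        rw [← h2, sub_add_cancel]
      rw [h9] at h8
      rw [h5, Option.elim_none, zero_add, h2, h8]
      by_cases h6 : Arr.ga k ∈ C
      · rw [if_pos, if_pos]
        · exact ⟨⟨h3, h4⟩, h6⟩
        · refine ⟨inT_cX t, ?_⟩
          rw [if_pos h6]
      · rw [if_neg, if_neg]
        · rintro ⟨-, h7⟩
          exact h6 h7
        · rintro ⟨-, h7⟩
          rw [if_neg h6] at h7
          omega
    · have h10 : a.1 - fv p + fv p = a.1 := sub_add_cancel _ _
      obtain ⟨x, hx⟩ := Option.isSome_iff_exists.1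
        ((AT_isSome (a.1 - fv p) p).2 ⟨h1, by rw [h10]; exact a.2.inT, h2,
          by rw [h10]; exact cd_ne_X a⟩)
      have h8 := cd_step_al hh k hx
      rw [h10] at h8
      rw [hx, Option.elim_some, h8]
      have h7 : ¬ ((a = vS t ∧ p = 2) ∧ Arr.ga k ∈ C) := by
        rintro ⟨⟨h3, h4⟩, -⟩
        apply h2
        rw [h3, h4]
        change cX t + fv 2 - fv 2 = cX t
        rw [add_sub_cancel_right]
      rw [if_neg h7, add_zero, AT_src hx 0, ← hG _ h1 h2]
      by_cases h6 : Arr.al x ∈ C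
      · rw [if_pos, if_pos h6]
        refine ⟨h1, ?_⟩
        rw [if_pos h6]
      · rw [if_neg, if_neg h6]
        rintro ⟨-, h7⟩
        rw [if_neg h6] at h7
        omega
  · have h5 : AT t (a.1 - fv p) p = none := by
      by_contra hcon
      exact h1 ((AT_isSome _ p).1 (Option.isSome_iff_ne_none.2 hcon)).1
    rw [h5, Option.elim_none, zero_add, if_neg, if_neg]
    · rintro ⟨⟨h3, h4⟩, -⟩
      apply h1
      rw [h3, h4]
      change InT t (cX t + fv 2 - fv 2)
      rw [add_sub_cancel_right]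
      exact inT_cX t
    · rintro ⟨h7, -⟩
      exact h1 h7

open Classical in
theorem cd_sum_out {t : ℕ} [NeZero t] (C : Set (Arr t)) (g : Vert t → ℤ) (a : VV t) :
    (∑ x : Arr t with src x = .inl a ∧ x ∉ C, g (tgt x)) =
      (∑ p : Fin 3, (AT t a.1 p).elim 0
        (fun x => if Arr.al x ∈ C then 0 else g (tgt (.al x)))) +
      ∑ k : Fin 3, if a = vP t ∧ Arr.be k ∉ C then g (.inr k) else 0 := by
  rw [Finset.sum_filter, sum_arr, ← sum_src a]
  have h1 : (∑ x : AlArr t, if src (Arr.al x) = Sum.inl a ∧ Arr.al x ∉ C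
      then g (tgt (Arr.al x)) else 0) =
      ∑ x : AlArr t with x.1.1 = a, if Arr.al x ∈ C then 0 else g (tgt (.al x)) := by
    rw [Finset.sum_filter]
    refine Finset.sum_congr rfl fun x _ => ?_
    have h2 : src (Arr.al x) = Sum.inl a ↔ x.1.1 = a := by
      constructor
      · intro h
        exact Sum.inl_injective h
      · intro h
        exact congrArg Sum.inl h
    by_cases h3 : x.1.1 = a
    · by_cases h4 : Arr.al x ∈ C
      · rw [if_neg (fun h => h.2 h4), if_pos h3, if_pos h4]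
      · rw [if_pos ⟨h2.2 h3, h4⟩, if_pos h3, if_neg h4]
    · rw [if_neg (fun h => h3 (h2.1 h.1)), if_neg h3]
  have h2 : (∑ k : Fin 3, if src (Arr.ga k : Arr t) = Sum.inl a ∧ Arr.ga k ∉ C
      then g (tgt (Arr.ga k)) else 0) = 0 := by
    refine Finset.sum_eq_zero fun k _ => ?_
    rw [if_neg]
    rintro ⟨h, -⟩
    exact absurd h (by simp [src])
  have h3 : (∑ k : Fin 3, if src (Arr.be k : Arr t) = Sum.inl a ∧ Arr.be k ∉ C
      then g (tgt (Arr.be k)) else 0) =
      ∑ k : Fin 3, if a = vP t ∧ Arr.be k ∉ C then g (.inr k) else 0 := by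
    refine Finset.sum_congr rfl fun k _ => ?_
    by_cases h3 : a = vP t
    · by_cases h4 : Arr.be k ∈ C
      · rw [if_neg (fun h => h.2 h4), if_neg (fun h => h.2 h4)]
      · have h5 : src (Arr.be k : Arr t) = Sum.inl a := by
          rw [h3]
          rfl
        rw [if_pos ⟨h5, h4⟩, if_pos ⟨h3, h4⟩]
        rfl
    · rw [if_neg (fun h => h3 (Sum.inl_injective h.1).symm), if_neg (fun h => h3 h.1)]
  rw [h1, h2, h3, add_zero]

open Classical in
theorem cd_sum_in {t : ℕ} [NeZero t] (C : Set (Arr t)) (g : Vert t → ℤ) (a : VV t) :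
    (∑ x : Arr t with tgt x = .inl a ∧ x ∈ C, g (src x)) =
      (∑ p : Fin 3, (AT t (a.1 - fv p) p).elim 0
        (fun x => if Arr.al x ∈ C then g (src (.al x)) else 0)) +
      ∑ k : Fin 3, if a = vS t ∧ Arr.ga k ∈ C then g (.inr k) else 0 := by
  rw [Finset.sum_filter, sum_arr, ← sum_tgt a]
  have h1 : (∑ x : AlArr t, if tgt (Arr.al x) = Sum.inl a ∧ Arr.al x ∈ C
      then g (src (Arr.al x)) else 0) =
      ∑ x : AlArr t with tgt (.al x) = .inl a, if Arr.al x ∈ C then g (src (.al x)) else 0 := by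
    rw [Finset.sum_filter]
    refine Finset.sum_congr rfl fun x _ => ?_
    by_cases h3 : tgt (Arr.al x) = Sum.inl a
    · by_cases h4 : Arr.al x ∈ C
      · rw [if_pos ⟨h3, h4⟩, if_pos h3, if_pos h4]
      · rw [if_neg (fun h => h4 h.2), if_pos h3, if_neg h4]
    · rw [if_neg (fun h => h3 h.1), if_neg h3]
  have h2 : (∑ k : Fin 3, if tgt (Arr.be k : Arr t) = Sum.inl a ∧ Arr.be k ∈ C
      then g (src (Arr.be k)) else 0) = 0 := by
    refine Finset.sum_eq_zero fun k _ => ?_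
    rw [if_neg]
    rintro ⟨h, -⟩
    exact absurd h (by simp [tgt])
  have h3 : (∑ k : Fin 3, if tgt (Arr.ga k : Arr t) = Sum.inl a ∧ Arr.ga k ∈ C
      then g (src (Arr.ga k)) else 0) =
      ∑ k : Fin 3, if a = vS t ∧ Arr.ga k ∈ C then g (.inr k) else 0 := by
    refine Finset.sum_congr rfl fun k _ => ?_
    by_cases h3 : a = vS t
    · by_cases h4 : Arr.ga k ∈ C
      · have h5 : tgt (Arr.ga k : Arr t) = Sum.inl a := by
          rw [h3]
          rfl
        rw [if_pos ⟨h5, h4⟩, if_pos ⟨h3, h4⟩]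
        rfl
      · rw [if_neg (fun h => h4 h.2), if_neg (fun h => h4 h.2)]
    · rw [if_neg (fun h => h3 (Sum.inl_injective h.1).symm), if_neg (fun h => h3 h.1)]
  rw [h1, h2, h3, add_zero]

open Classical in
/-- the identity at the vertex `a` of `V`, for the height `HT t h k` -/
theorem cd_identity_k {t : ℕ} [NeZero t] {C : Set (Arr t)} {h : Vert t → ℤ} (hh : IsHeight C h)
    (k : Fin 3) (a : VV t) (G : (Fin 3 → ℤ) → ℤ) (g : Vert t → ℤ)
    (hG : ∀ b, InT t b → b ≠ cX t → G b = g (vrt t 0 b)) (R : ℤ)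
    (hid : G a.1 -
      (∑ p : Fin 3, if InT t (a.1 + fv p) ∧ HT t h k a.1 - HT t h k (a.1 + fv p) = 1
        then G (a.1 + fv p) else 0) +
      (∑ p : Fin 3, if InT t (a.1 - fv p) ∧ HT t h k (a.1 - fv p) - HT t h k a.1 = -2
        then G (a.1 - fv p) else 0) = R) :
    g (.inl a) - ((∑ p : Fin 3, (AT t a.1 p).elim 0
        (fun x => if Arr.al x ∈ C then 0 else g (tgt (.al x)))) +
        if a = vP t ∧ Arr.be k ∉ C then G (cX t) else 0) +
      ((∑ p : Fin 3, (AT t (a.1 - fv p) p).elim 0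
        (fun x => if Arr.al x ∈ C then g (src (.al x)) else 0)) +
        if a = vS t ∧ Arr.ga k ∈ C then G (cX t) else 0) = R := by
  rw [Finset.sum_congr rfl fun p _ => cd_out_term hh k a G g hG p,
    Finset.sum_congr rfl fun p _ => cd_in_term hh k a G g hG p,
    Finset.sum_add_distrib, Finset.sum_add_distrib, hG a.1 a.2.inT (cd_ne_X a),
    vrt_of_inV] at hid
  have h1 : (∑ p : Fin 3, if (a = vP t ∧ p = 0) ∧ Arr.be k ∉ C then G (cX t) else 0) =
      if a = vP t ∧ Arr.be k ∉ C then G (cX t) else 0 := by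
    rw [Finset.sum_eq_single 0]
    · simp
    · intro p _ hp
      simp [hp]
    · intro h
      exact absurd (Finset.mem_univ _) h
  have h2 : (∑ p : Fin 3, if (a = vS t ∧ p = 2) ∧ Arr.ga k ∈ C then G (cX t) else 0) =
      if a = vS t ∧ Arr.ga k ∈ C then G (cX t) else 0 := by
    rw [Finset.sum_eq_single 2]
    · simp
    · intro p _ hp
      simp [hp]
    · intro h
      exact absurd (Finset.mem_univ _) h
  rw [h1, h2] at hid
  exact hid

theorem cd_ZZ_XX {t : ℕ} (h : Vert t → ℤ) (k : Fin 3) : ZZ (HT t h k) (cX t) (cX t) := by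
  refine ⟨0, fun i => ⟨le_rfl, ?_⟩, ?_, by simp⟩
  · simp [cX]
  · funext i
    simp [mv]

open Classical in
/-- case `v = inl a`, `w = inl c` -/
theorem cd_inverse_ll {t : ℕ} [NeZero t] {C : Set (Arr t)} {h : Vert t → ℤ}
    (hh : IsHeight C h) (a c : VV t) :
    cD t h (.inl a) (.inl c) - (∑ x : Arr t with src x = .inl a ∧ x ∉ C, cD t h (tgt x) (.inl c)) +
      (∑ x : Arr t with tgt x = .inl a ∧ x ∈ C, cD t h (src x) (.inl c)) =
      if a = c then 1 else 0 := by
  rw [cd_sum_out C (fun v => cD t h v (.inl c)) a, cd_sum_in C (fun v => cD t h v (.inl c)) a]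
  have key : ∀ k : Fin 3, _ := fun k => cd_identity_k hh k a (fun b => cdD t h k b c.1)
    (fun v => cD t h v (.inl c)) (fun b hb hX => cdD_pt h k hb hX c) (if a = c then 1 else 0) (by
      have h1 : ∀ r : Fin 3, _ := fun r => typeA_identity t (HT t h k) (cd_hH hh k) a.1
        (rot r c.1) a.2.inT ((inT_rot r).2 c.2.inT)
      have h2 := Finset.sum_congr (rfl : (Finset.univ : Finset (Fin 3)) = Finset.univ)
        (fun r _ => h1 r)
      rw [Finset.sum_add_distrib, Finset.sum_sub_distrib, Finset.sum_comm] at h2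
      have h3 : (∑ r : Fin 3, if a.1 = rot r c.1 then (1 : ℤ) else 0) =
          if a = c then 1 else 0 := by
        by_cases hac : a = c
        · rw [if_pos hac, Finset.sum_eq_single 0]
          · rw [if_pos]
            rw [rot_zero, hac]
          · intro r _ hr
            rw [if_neg]
            intro h4
            apply hr
            have h5 : InV t (rot r c.1) := by
              rw [← h4]
              exact a.2
            rw [inV_rot_unique h5, qi_of_inV c.2]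
          · intro h4
            exact absurd (Finset.mem_univ _) h4
        · rw [if_neg hac]
          refine Finset.sum_eq_zero fun r _ => ?_
          rw [if_neg]
          intro h4
          apply hac
          have h5 : InV t (rot r c.1) := by
            rw [← h4]
            exact a.2
          have h6 := inV_rot_unique h5
          rw [qi_of_inV c.2] at h6
          rw [h6, rot_zero] at h4
          exact Subtype.ext h4
      rw [h3] at h2
      rw [← h2]
      congr 1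
      · congr 1
        refine Finset.sum_congr rfl fun p _ => ?_
        by_cases h4 : InT t (a.1 + fv p) ∧ HT t h k a.1 - HT t h k (a.1 + fv p) = 1
        · rw [if_pos h4]
          refine Finset.sum_congr rfl fun r _ => ?_
          by_cases h5 : ZZ (HT t h k) (a.1 + fv p) (rot r c.1)
          · rw [if_pos h5, if_pos ⟨h4.1, h4.2, h5⟩]
          · rw [if_neg h5, if_neg (fun h6 => h5 h6.2.2)]
        · rw [if_neg h4]
          symm
          refine Finset.sum_eq_zero fun r _ => ?_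
          rw [if_neg (fun h6 => h4 ⟨h6.1, h6.2.1⟩)]
      · rw [Finset.sum_comm]
        refine Finset.sum_congr rfl fun p _ => ?_
        by_cases h4 : InT t (a.1 - fv p) ∧ HT t h k (a.1 - fv p) - HT t h k a.1 = -2
        · rw [if_pos h4]
          refine Finset.sum_congr rfl fun r _ => ?_
          by_cases h5 : ZZ (HT t h k) (a.1 - fv p) (rot r c.1)
          · rw [if_pos h5, if_pos ⟨h4.1, h4.2, h5⟩]
          · rw [if_neg h5, if_neg (fun h6 => h5 h6.2.2)]
        · rw [if_neg h4]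
          symm
          refine Finset.sum_eq_zero fun r _ => ?_
          rw [if_neg (fun h6 => h4 ⟨h6.1, h6.2.1⟩)])
  have k0 := key 0
  have k1 := key 1
  have k2 := key 2
  simp only [cdD_X] at k0 k1 k2
  rw [Fin.sum_univ_three (fun k => if a = vP t ∧ Arr.be k ∉ C then cD t h (.inr k) (.inl c) else 0),
    Fin.sum_univ_three (fun k => if a = vS t ∧ Arr.ga k ∈ C then cD t h (.inr k) (.inl c) else 0)]
  have e3 : ∀ (P : Prop) [Decidable P] (z : ℤ), (if P then 3 * z else 0) = 3 * (if P then z else 0) := by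
    intro P _ z
    split_ifs <;> ring
  rw [e3, e3] at k0 k1 k2
  linarith

open Classical in
/-- case `v = inl a`, `w = inr l` -/
theorem cd_inverse_lr {t : ℕ} [NeZero t] {C : Set (Arr t)} {h : Vert t → ℤ}
    (hh : IsHeight C h) (a : VV t) (l : Fin 3) :
    cD t h (.inl a) (.inr l) - (∑ x : Arr t with src x = .inl a ∧ x ∉ C, cD t h (tgt x) (.inr l)) +
      (∑ x : Arr t with tgt x = .inl a ∧ x ∈ C, cD t h (src x) (.inr l)) = 0 := by
  rw [cd_sum_out C (fun v => cD t h v (.inr l)) a, cd_sum_in C (fun v => cD t h v (.inr l)) a]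
  have hG : ∀ b, InT t b → b ≠ cX t → (if ZZ (HT t h l) b (cX t) then (1 : ℤ) else 0) =
      cD t h (vrt t 0 b) (.inr l) := by
    intro b hb hX
    rw [vrt_eq_inl 0 hb hX]
    change _ = if ZZ (HT t h l) (rot (qi t b) b) (cX t) then (1 : ℤ) else 0
    have h1 := cd_ZZ_rot h l hb (inT_cX t) (qi t b)
    rw [rot_cX] at h1
    rw [propext h1]
  have h1 := typeA_identity t (HT t h l) (cd_hH hh l) a.1 (cX t) a.2.inT (inT_cX t)
  rw [if_neg (cd_ne_X a)] at h1
  have key := cd_identity_k hh l a (fun b => if ZZ (HT t h l) b (cX t) then (1 : ℤ) else 0)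
    (fun v => cD t h v (.inr l)) hG 0 (by
      refine Eq.trans ?_ h1
      congr 1
      · congr 1
        refine Finset.sum_congr rfl fun p _ => ?_
        by_cases h4 : InT t (a.1 + fv p) ∧ HT t h l a.1 - HT t h l (a.1 + fv p) = 1
        · rw [if_pos h4]
          by_cases h5 : ZZ (HT t h l) (a.1 + fv p) (cX t)
          · rw [if_pos h5, if_pos ⟨h4.1, h4.2, h5⟩]
          · rw [if_neg h5, if_neg (fun h6 => h5 h6.2.2)]
        · rw [if_neg h4, if_neg (fun h6 => h4 ⟨h6.1, h6.2.1⟩)]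
      · refine Finset.sum_congr rfl fun p _ => ?_
        by_cases h4 : InT t (a.1 - fv p) ∧ HT t h l (a.1 - fv p) - HT t h l a.1 = -2
        · rw [if_pos h4]
          by_cases h5 : ZZ (HT t h l) (a.1 - fv p) (cX t)
          · rw [if_pos h5, if_pos ⟨h4.1, h4.2, h5⟩]
          · rw [if_neg h5, if_neg (fun h6 => h5 h6.2.2)]
        · rw [if_neg h4, if_neg (fun h6 => h4 ⟨h6.1, h6.2.1⟩)])
  simp only [if_pos (cd_ZZ_XX h l)] at key
  have e1 : (∑ k : Fin 3, if a = vP t ∧ Arr.be k ∉ C then cD t h (.inr k) (.inr l) else 0) =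
      if a = vP t ∧ Arr.be l ∉ C then 1 else 0 := by
    rw [Finset.sum_eq_single l]
    · simp [cD]
    · intro k _ hk
      simp [cD, hk]
    · intro h4
      exact absurd (Finset.mem_univ _) h4
  have e2 : (∑ k : Fin 3, if a = vS t ∧ Arr.ga k ∈ C then cD t h (.inr k) (.inr l) else 0) =
      if a = vS t ∧ Arr.ga l ∈ C then 1 else 0 := by
    rw [Finset.sum_eq_single l]
    · simp [cD]
    · intro k _ hk
      simp [cD, hk]
    · intro h4
      exact absurd (Finset.mem_univ _) h4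
  rw [e1, e2]
  exact key

open Classical in
theorem cd_sum_outX {t : ℕ} [NeZero t] (C : Set (Arr t)) (g : Vert t → ℤ) (l : Fin 3) :
    (∑ x : Arr t with src x = .inr l ∧ x ∉ C, g (tgt x)) =
      if Arr.ga l ∈ C then 0 else g (.inl (vS t)) := by
  rw [Finset.sum_filter, sum_arr]
  have h1 : (∑ x : AlArr t, if src (Arr.al x) = Sum.inr l ∧ Arr.al x ∉ C
      then g (tgt (Arr.al x)) else 0) = 0 := by
    refine Finset.sum_eq_zero fun k _ => ?_
    rw [if_neg]
    rintro ⟨h, -⟩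
    exact absurd h (by simp [src])
  have h2 : (∑ k : Fin 3, if src (Arr.be k : Arr t) = Sum.inr l ∧ Arr.be k ∉ C
      then g (tgt (Arr.be k)) else 0) = 0 := by
    refine Finset.sum_eq_zero fun k _ => ?_
    rw [if_neg]
    rintro ⟨h, -⟩
    exact absurd h (by simp [src])
  rw [h1, h2, zero_add, zero_add, Finset.sum_eq_single l]
  · by_cases h4 : Arr.ga l ∈ C
    · rw [if_neg (fun h => h.2 h4), if_pos h4]
    · rw [if_pos ⟨rfl, h4⟩, if_neg h4]
      rfl
  · intro k _ hk
    rw [if_neg (fun h => hk (Sum.inr_injective h.1))]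
  · intro h4
    exact absurd (Finset.mem_univ _) h4

open Classical in
theorem cd_sum_inX {t : ℕ} [NeZero t] (C : Set (Arr t)) (g : Vert t → ℤ) (l : Fin 3) :
    (∑ x : Arr t with tgt x = .inr l ∧ x ∈ C, g (src x)) =
      if Arr.be l ∈ C then g (.inl (vP t)) else 0 := by
  rw [Finset.sum_filter, sum_arr]
  have h1 : (∑ x : AlArr t, if tgt (Arr.al x) = Sum.inr l ∧ Arr.al x ∈ C
      then g (src (Arr.al x)) else 0) = 0 := by
    refine Finset.sum_eq_zero fun k _ => ?_
    rw [if_neg]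
    rintro ⟨h, -⟩
    exact absurd h (by simp [tgt])
  have h2 : (∑ k : Fin 3, if tgt (Arr.ga k : Arr t) = Sum.inr l ∧ Arr.ga k ∈ C
      then g (src (Arr.ga k)) else 0) = 0 := by
    refine Finset.sum_eq_zero fun k _ => ?_
    rw [if_neg]
    rintro ⟨h, -⟩
    exact absurd h (by simp [tgt])
  rw [h1, h2, zero_add, add_zero, Finset.sum_eq_single l]
  · by_cases h4 : Arr.be l ∈ C
    · rw [if_pos ⟨rfl, h4⟩, if_pos h4]
      rfl
    · rw [if_neg (fun h => h4 h.2), if_neg h4]
  · intro k _ hk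
    rw [if_neg (fun h => hk (Sum.inr_injective h.1))]
  · intro h4
    exact absurd (Finset.mem_univ _) h4

theorem cd_sum_shift {t : ℕ} (h : Vert t → ℤ) (k : Fin 3) (b : VV t) (c : VV t)
    (σ : Fin 3 ≃ Fin 3) :
    open Classical in
    (∑ p : Fin 3, if ZZ (HT t h k) (rot (σ p) b.1) c.1 then (1 : ℤ) else 0) =
      cD t h (.inl b) (.inl c) := by
  classical
  rw [← cdD_V h k b c]
  unfold cdD
  rw [← Equiv.sum_comp (σ.trans (Equiv.neg (Fin 3)))
    (fun r => if ZZ (HT t h k) b.1 (rot r c.1) then (1 : ℤ) else 0)]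
  refine Finset.sum_congr rfl fun p _ => ?_
  have h1 := cd_ZZ_rot h k b.2.inT ((inT_rot (-σ p)).2 c.2.inT) (σ p)
  rw [rot_rot, add_neg_cancel, rot_zero] at h1
  rw [propext h1]
  rfl

open Classical in
/-- case `v = inr l`, `w = inl c` -/
theorem cd_inverse_rl {t : ℕ} [NeZero t] {C : Set (Arr t)} {h : Vert t → ℤ}
    (hh : IsHeight C h) (l : Fin 3) (c : VV t) :
    cD t h (.inr l) (.inl c) - (∑ x : Arr t with src x = .inr l ∧ x ∉ C, cD t h (tgt x) (.inl c)) +
      (∑ x : Arr t with tgt x = .inr l ∧ x ∈ C, cD t h (src x) (.inl c)) = 0 := by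
  rw [cd_sum_outX C (fun v => cD t h v (.inl c)) l, cd_sum_inX C (fun v => cD t h v (.inl c)) l]
  have h1 := typeA_identity t (HT t h l) (cd_hH hh l) (cX t) c.1 (inT_cX t) c.2.inT
  rw [if_neg (cd_ne_X c).symm] at h1
  refine Eq.trans ?_ h1
  have e1 : ∀ p : Fin 3, (if InT t (cX t + fv p) ∧ HT t h l (cX t) - HT t h l (cX t + fv p) = 1 ∧
      ZZ (HT t h l) (cX t + fv p) c.1 then (1 : ℤ) else 0) =
      if Arr.ga l ∈ C then 0 else
        if ZZ (HT t h l) (rot (Equiv.subLeft 2 p) (vS t).1) c.1 then (1 : ℤ) else 0 := by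
    intro p
    rw [cd_step_fromX hh l p]
    have h2 : InT t (cX t + fv p) := by
      rw [cd_X_add]
      exact (inT_rot _).2 (vS t).2.inT
    have h3 : rot (Equiv.subLeft 2 p) (vS t).1 = cX t + fv p := (cd_X_add t p).symm
    rw [h3]
    by_cases h4 : Arr.ga l ∈ C
    · rw [if_pos h4, if_pos h4, if_neg]
      rintro ⟨-, h5, -⟩
      omega
    · rw [if_neg h4, if_neg h4]
      by_cases h5 : ZZ (HT t h l) (cX t + fv p) c.1
      · rw [if_pos h5, if_pos ⟨h2, rfl, h5⟩]
      · rw [if_neg h5, if_neg (fun h6 => h5 h6.2.2)]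
  have e2 : ∀ p : Fin 3, (if InT t (cX t - fv p) ∧ HT t h l (cX t - fv p) - HT t h l (cX t) = -2 ∧
      ZZ (HT t h l) (cX t - fv p) c.1 then (1 : ℤ) else 0) =
      if Arr.be l ∈ C then
        (if ZZ (HT t h l) (rot (Equiv.neg (Fin 3) p) (vP t).1) c.1 then (1 : ℤ) else 0) else 0 := by
    intro p
    have h7 := cd_step_toX hh l p (cX t - fv p) (sub_add_cancel _ _)
    rw [sub_add_cancel] at h7
    rw [h7]
    have h2 : InT t (cX t - fv p) := by
      rw [cd_X_sub]
      exact (inT_rot _).2 (vP t).2.inT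
    have h3 : rot (Equiv.neg (Fin 3) p) (vP t).1 = cX t - fv p := (cd_X_sub t p).symm
    rw [h3]
    by_cases h4 : Arr.be l ∈ C
    · rw [if_pos h4, if_pos h4]
      by_cases h5 : ZZ (HT t h l) (cX t - fv p) c.1
      · rw [if_pos h5, if_pos ⟨h2, rfl, h5⟩]
      · rw [if_neg h5, if_neg (fun h6 => h5 h6.2.2)]
    · rw [if_neg h4, if_neg h4, if_neg]
      rintro ⟨-, h5, -⟩
      omega
  rw [Finset.sum_congr rfl fun p _ => e1 p, Finset.sum_congr rfl fun p _ => e2 p]
  have f1 := cd_sum_shift h l (vS t) c (Equiv.subLeft 2)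
  have f2 := cd_sum_shift h l (vP t) c (Equiv.neg (Fin 3))
  rw [← f1, ← f2]
  have f3 : cD t h (.inr l) (.inl c) = if ZZ (HT t h l) (cX t) c.1 then 1 else 0 := rfl
  rw [f3]
  congr 1
  · congr 1
    by_cases h4 : Arr.ga l ∈ C
    · simp [h4]
    · simp [h4]
  · by_cases h4 : Arr.be l ∈ C
    · simp [h4]
    · simp [h4]

theorem cd_vS_eq (t : ℕ) [NeZero t] : (vS t).1 + fv 1 = (vP t).1 := by
  have h3 : cX t - fv 0 + fv 0 + fv 2 + fv 1 = cX t - fv 0 := by
    have h4 : fv 0 + fv 2 + fv 1 = 0 := by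
      decide
    rw [add_assoc, add_assoc, ← add_assoc (fv 0), h4, add_zero]
  rw [sub_add_cancel] at h3
  exact h3

theorem cd_weights {t : ℕ} [NeZero t] {C : Set (Arr t)} {h : Vert t → ℤ}
    (hh : IsHeight C h) : h (.inl (vS t)) - h (.inl (vP t)) = 1 ∨
      h (.inl (vS t)) - h (.inl (vP t)) = -2 := by
  have h1 := cd_hH hh 0 (vS t).1 1 (vS t).2.inT (by rw [cd_vS_eq]; exact (vP t).2.inT)
  rw [cd_vS_eq, cd_HT_V, cd_HT_V] at h1
  exact h1

theorem cd_ZZ_vP {t : ℕ} [NeZero t] {C : Set (Arr t)} {h : Vert t → ℤ}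
    (hh : IsHeight C h) (l : Fin 3) :
    ZZ (HT t h l) (vP t).1 (cX t) ↔ h (.inl (vP t)) - h (.inr l) = 1 := by
  have ht : 1 ≤ (t : ℤ) := by
    have : 1 ≤ t := NeZero.one_le
    omega
  have hw : h (.inl (vP t)) - h (.inr l) = 1 ∨ h (.inl (vP t)) - h (.inr l) = -2 := by
    have h1 := cd_hH hh l (vP t).1 0 (vP t).2.inT (by rw [cd_vP_X]; exact inT_cX t)
    rw [cd_vP_X, cd_HT_V, cd_HT_X] at h1
    exact h1
  constructor
  · rintro ⟨x, h1, h2, h3⟩
    rw [cd_HT_V, cd_HT_X] at h3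
    have a0 := (h1 0).1
    have a1 := (h1 1).1
    have a2 := (h1 2).1
    omega
  · intro h0
    refine ⟨fun i => if i = 0 then 1 else 0, ?_, ?_, ?_⟩
    · intro i
      fin_cases i <;> simp [vP, cX, fv] <;> omega
    · funext i
      fin_cases i <;> simp [vP, cX, fv, mv]
    · rw [cd_HT_V, cd_HT_X, h0]
      simp

theorem cd_ZZ_vS {t : ℕ} [NeZero t] {C : Set (Arr t)} {h : Vert t → ℤ}
    (hh : IsHeight C h) (l : Fin 3) :
    ZZ (HT t h l) (vS t).1 (cX t) ↔ (h (.inl (vP t)) - h (.inr l) = 1 ∧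
      h (.inl (vS t)) - h (.inl (vP t)) = 1) := by
  have ht : 1 ≤ (t : ℤ) := by
    have : 1 ≤ t := NeZero.one_le
    omega
  have hw : h (.inl (vP t)) - h (.inr l) = 1 ∨ h (.inl (vP t)) - h (.inr l) = -2 := by
    have h1 := cd_hH hh l (vP t).1 0 (vP t).2.inT (by rw [cd_vP_X]; exact inT_cX t)
    rw [cd_vP_X, cd_HT_V, cd_HT_X] at h1
    exact h1
  have hw2 := cd_weights hh
  constructor
  · rintro ⟨x, h1, h2, h3⟩
    rw [cd_HT_V, cd_HT_X] at h3
    have a0 := (h1 0).1
    have a1 := (h1 1).1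
    have a2 := (h1 2).1
    omega
  · rintro ⟨h0, h4⟩
    refine ⟨fun i => if i = 2 then 0 else 1, ?_, ?_, ?_⟩
    · intro i
      fin_cases i <;> simp [vS, cX, fv] <;> omega
    · funext i
      fin_cases i <;> simp [vS, cX, fv, mv]
    · rw [cd_HT_V, cd_HT_X]
      simp
      omega

open Classical in
/-- case `v = inr k`, `w = inr l` -/
theorem cd_inverse_rr {t : ℕ} [NeZero t] {C : Set (Arr t)} {h : Vert t → ℤ}
    (hh : IsHeight C h) (k l : Fin 3) :
    cD t h (.inr k) (.inr l) - (∑ x : Arr t with src x = .inr k ∧ x ∉ C, cD t h (tgt x) (.inr l)) +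
      (∑ x : Arr t with tgt x = .inr k ∧ x ∈ C, cD t h (src x) (.inr l)) =
      if k = l then 1 else 0 := by
  rw [cd_sum_outX C (fun v => cD t h v (.inr l)) k, cd_sum_inX C (fun v => cD t h v (.inr l)) k]
  have f1 : cD t h (.inl (vS t)) (.inr l) =
      if ZZ (HT t h l) (vS t).1 (cX t) then (1 : ℤ) else 0 := rfl
  have f2 : cD t h (.inl (vP t)) (.inr l) =
      if ZZ (HT t h l) (vP t).1 (cX t) then (1 : ℤ) else 0 := rfl
  have f3 : cD t h (.inr k) (.inr l) = if k = l then 1 else 0 := rfl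
  rw [f1, f2, f3, propext (cd_ZZ_vP hh l), propext (cd_ZZ_vS hh l)]
  have g1 := hh (.be k)
  have g2 := hh (.ga k)
  have g3 := cd_weights hh
  have e1 : src (.be k : Arr t) = .inl (vP t) := rfl
  have e2 : tgt (.be k : Arr t) = .inr k := rfl
  have e3 : src (.ga k : Arr t) = .inr k := rfl
  have e4 : tgt (.ga k : Arr t) = .inl (vS t) := rfl
  rw [e1, e2] at g1
  rw [e3, e4] at g2
  generalize h (.inl (vP t)) = P at *
  generalize h (.inl (vS t)) = S at *
  generalize h (.inr k) = K at *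
  generalize h (.inr l) = L at *
  by_cases b1 : Arr.be k ∈ C <;> by_cases b2 : Arr.ga k ∈ C <;>
    simp only [b1, b2, if_true, if_false] at g1 g2 ⊢ <;> split_ifs <;> omega

open Classical in
theorem cD_inverse (t : ℕ) [NeZero t] (C : Set (Arr t)) (h : Vert t → ℤ) (hh : IsHeight C h)
    (v w : Vert t) :
    cD t h v w - (∑ x : Arr t with src x = v ∧ x ∉ C, cD t h (tgt x) w) +
      (∑ x : Arr t with tgt x = v ∧ x ∈ C, cD t h (src x) w) = if v = w then 1 else 0 := by
  rcases v with a | k <;> rcases w with c | l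
  · rw [cd_inverse_ll hh a c]
    by_cases hac : a = c
    · rw [if_pos hac, if_pos (by rw [hac])]
    · rw [if_neg hac, if_neg (fun h => hac (Sum.inl_injective h))]
  · rw [cd_inverse_lr hh a l, if_neg (by simp)]
  · rw [cd_inverse_rl hh k c, if_neg (by simp)]
  · rw [cd_inverse_rr hh k l]
    by_cases hac : k = l
    · rw [if_pos hac, if_pos (by rw [hac])]
    · rw [if_neg hac, if_neg (fun h => hac (Sum.inr_injective h))]

theorem cd_ZZ_zero {H : (Fin 3 → ℤ) → ℤ} {a b : Fin 3 → ℤ} (h : ZZ H a b) :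
    H b ≤ H a ∧ (H a = H b → a = b) := by
  obtain ⟨x, h1, h2, h3⟩ := h
  have a0 := (h1 0).1
  have a1 := (h1 1).1
  have a2 := (h1 2).1
  refine ⟨by omega, fun h4 => ?_⟩
  have hx : x = 0 := by
    funext i
    fin_cases i <;> simp <;> omega
  rw [← h2, hx]
  funext i
  simp [mv]

theorem cd_ZZ_refl {t : ℕ} (H : (Fin 3 → ℤ) → ℤ) {a : Fin 3 → ℤ} (ha : InT t a) : ZZ H a a := by
  refine ⟨0, fun i => ⟨le_rfl, ha.1 i⟩, ?_, by simp⟩
  funext i
  simp [mv]

/-- Acyclicity and `c_vv = 1`. -/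
theorem cD_self (t : ℕ) (h : Vert t → ℤ) (v : Vert t) : cD t h v v = 1 := by
  classical
  rcases v with a | k
  · change (∑ r : Fin 3, if ZZ (HT t h 0) a.1 (rot r a.1) then (1 : ℤ) else 0) = 1
    rw [Finset.sum_eq_single 0]
    · rw [rot_zero, if_pos (cd_ZZ_refl _ a.2.inT)]
    · intro r _ hr
      rw [if_neg]
      intro hz
      have h1 := (cd_ZZ_zero hz).2 (cd_HT_rot h 0 a.2.inT r).symm
      apply hr
      have h2 : InV t (rot r a.1) := by
        rw [← h1]
        exact a.2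
      rw [inV_rot_unique h2, qi_of_inV a.2]
    · intro h4
      exact absurd (Finset.mem_univ _) h4
  · simp [cD]

theorem cD_acyclic (t : ℕ) (h : Vert t → ℤ) (v w : Vert t) (hvw : v ≠ w)
    (hc : cD t h v w ≠ 0) : h w < h v := by
  classical
  rcases v with a | k <;> rcases w with c | l
  · have hc' : (∑ r : Fin 3, if ZZ (HT t h 0) a.1 (rot r c.1) then (1 : ℤ) else 0) ≠ 0 := hc
    obtain ⟨r, -, hr⟩ := Finset.exists_ne_zero_of_sum_ne_zero hc'
    have hz : ZZ (HT t h 0) a.1 (rot r c.1) := by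
      by_contra hcon
      exact hr (if_neg hcon)
    obtain ⟨h1, h2⟩ := cd_ZZ_zero hz
    rw [cd_HT_rot h 0 c.2.inT, cd_HT_V, cd_HT_V] at h1 h2
    refine lt_of_le_of_ne h1 fun h3 => ?_
    have h4 := h2 h3.symm
    have h5 : InV t (rot r c.1) := by
      rw [← h4]
      exact a.2
    have h6 := inV_rot_unique h5
    rw [qi_of_inV c.2] at h6
    rw [h6, rot_zero] at h4
    exact hvw (congrArg Sum.inl (Subtype.ext h4))
  · have hz : ZZ (HT t h l) a.1 (cX t) := by
      by_contra hcon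
      exact hc (if_neg hcon)
    obtain ⟨h1, h2⟩ := cd_ZZ_zero hz
    rw [cd_HT_V, cd_HT_X] at h1 h2
    refine lt_of_le_of_ne h1 fun h3 => ?_
    exact cd_ne_X a (h2 h3.symm)
  · have hz : ZZ (HT t h k) (cX t) c.1 := by
      by_contra hcon
      exact hc (if_neg hcon)
    obtain ⟨h1, h2⟩ := cd_ZZ_zero hz
    rw [cd_HT_V, cd_HT_X] at h1 h2
    refine lt_of_le_of_ne h1 fun h3 => ?_
    exact cd_ne_X c (h2 h3.symm).symm
  · exfalso
    apply hc
    change (if k = l then (1 : ℤ) else 0) = 0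
    rw [if_neg]
    intro h1
    exact hvw (congrArg Sum.inr h1)

end MPdda
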