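import Pool.Agent.H.MP_dda0b9_al.DefsTri

/-!
# MP_dda0b9_al: properties of the Euler form `chi` (job J1)
-/

namespace MPdda

open CategoryTheory CategoryTheory.Limits CategoryTheory.Pretriangulated

universe v u

set_option linter.unusedSectionVars false
set_option linter.style.haveILetI false
set_option linter.deprecated false

/-! ### numerical lemmas -/

lemma chi_finsum_shift (F : ℤ → ℤ) (n : ℤ) :
    ∑ᶠ m : ℤ, ((m.negOnePow : ℤˣ) : ℤ) * F (n + m)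
      = ((n.negOnePow : ℤˣ) : ℤ) * ∑ᶠ m : ℤ, ((m.negOnePow : ℤˣ) : ℤ) * F m := by
  have h1 : ∑ᶠ m : ℤ, ((m.negOnePow : ℤˣ) : ℤ) * F m
      = ∑ᶠ m : ℤ, (((n + m).negOnePow : ℤˣ) : ℤ) * F (n + m) :=
    (finsum_comp_equiv (Equiv.addLeft n) (f := fun m : ℤ => ((m.negOnePow : ℤˣ) : ℤ) * F m)).symm
  rw [h1]
  rcases Int.even_or_odd n with hn | hn
  · rw [Int.negOnePow_even n hn]
    simp only [Units.val_one, one_mul]
    refine finsum_congr fun m => ?_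
    rw [Int.negOnePow_add, Int.negOnePow_even n hn, one_mul]
  · rw [Int.negOnePow_odd n hn]
    simp only [Units.val_neg, Units.val_one, neg_mul, one_mul]
    rw [← finsum_neg_distrib]
    refine finsum_congr fun m => ?_
    rw [Int.negOnePow_add, Int.negOnePow_odd n hn]
    simp

lemma chi_num {b c k a : ℤ → ℕ} {s t : ℤ → ℕ} {e : ℤ} (he : Odd e)
    (h : ∀ n, b n + k n = c n + s n + t n)
    (hk : ∀ n, k n = a (e + n)) (ht : ∀ n, t n = s (e + n))
    (ha : {n | a n ≠ 0}.Finite) (hb : {n | b n ≠ 0}.Finite) (hc : {n | c n ≠ 0}.Finite)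
    (hs : {n | s n ≠ 0}.Finite) :
    ∑ᶠ n : ℤ, ((n.negOnePow : ℤˣ) : ℤ) * (b n : ℤ)
      = ∑ᶠ n : ℤ, ((n.negOnePow : ℤˣ) : ℤ) * (c n : ℤ)
        + ∑ᶠ n : ℤ, ((n.negOnePow : ℤˣ) : ℤ) * (a n : ℤ) := by
  have hfin : ∀ u : ℤ → ℕ, {n | u n ≠ 0}.Finite →
      (Function.support fun n : ℤ => ((n.negOnePow : ℤˣ) : ℤ) * (u n : ℤ)).Finite := by
    intro u hu
    refine hu.subset fun n hn => ?_
    simp only [Function.mem_support, ne_eq, mul_eq_zero, Units.ne_zero, false_or,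
      Int.natCast_eq_zero] at hn
    exact hn
  have hshift : ∀ u : ℤ → ℕ, {n | u n ≠ 0}.Finite → {n | u (e + n) ≠ 0}.Finite := by
    intro u hu
    exact hu.preimage (f := fun n => e + n) (fun x _ y _ hxy => by simpa using hxy)
  have hk' : {n | k n ≠ 0}.Finite := by
    refine (hshift a ha).subset fun n hn => ?_
    simp only [Set.mem_setOf_eq] at hn ⊢
    rwa [← hk]
  have ht' : {n | t n ≠ 0}.Finite := by
    refine (hshift s hs).subset fun n hn => ?_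
    simp only [Set.mem_setOf_eq] at hn ⊢
    rwa [← ht]
  have h1 : ∑ᶠ n : ℤ, ((n.negOnePow : ℤˣ) : ℤ) * (b n : ℤ)
      + ∑ᶠ n : ℤ, ((n.negOnePow : ℤˣ) : ℤ) * (k n : ℤ)
      = ∑ᶠ n : ℤ, ((n.negOnePow : ℤˣ) : ℤ) * (c n : ℤ)
      + ∑ᶠ n : ℤ, ((n.negOnePow : ℤˣ) : ℤ) * (s n : ℤ)
      + ∑ᶠ n : ℤ, ((n.negOnePow : ℤˣ) : ℤ) * (t n : ℤ) := by
    rw [← finsum_add_distrib (hfin b hb) (hfin k hk'),
      ← finsum_add_distrib (hfin c hc) (hfin s hs),
      ← finsum_add_distrib _ (hfin t ht')]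
    · refine finsum_congr fun n => ?_
      have := h n
      have h2 : (b n : ℤ) + k n = c n + s n + t n := by exact_mod_cast this
      rw [← mul_add, ← mul_add, ← mul_add, h2]
    · refine ((hfin c hc).union (hfin s hs)).subset ?_
      exact Function.support_add _ _
  have h2 := chi_finsum_shift (fun n => (a n : ℤ)) e
  have h3 := chi_finsum_shift (fun n => (s n : ℤ)) e
  rw [Int.negOnePow_odd e he] at h2 h3
  simp only [Units.val_neg, Units.val_one, neg_mul, one_mul] at h2 h3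
  have h4 : ∑ᶠ n : ℤ, ((n.negOnePow : ℤˣ) : ℤ) * (k n : ℤ)
      = ∑ᶠ n : ℤ, ((n.negOnePow : ℤˣ) : ℤ) * (a (e + n) : ℤ) :=
    finsum_congr fun n => by rw [hk]
  have h5 : ∑ᶠ n : ℤ, ((n.negOnePow : ℤˣ) : ℤ) * (t n : ℤ)
      = ∑ᶠ n : ℤ, ((n.negOnePow : ℤˣ) : ℤ) * (s (e + n) : ℤ) :=
    finsum_congr fun n => by rw [ht]
  rw [h4, h5, h2, h3] at h1
  linarith

variable {T : Type u} [Category.{v} T] [HasZeroObject T] [HasShift T ℤ] [Preadditive T]
  [∀ n : ℤ, (shiftFunctor T n).Additive] [Pretriangulated T] [Linear ℂ T]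
  [∀ n : ℤ, (shiftFunctor T n).Linear ℂ]

/-! ### comparison of Hom spaces -/

/-- iso on both sides -/
noncomputable def homEq {X X' Y Y' : T} (e : X ≅ X') (e' : Y ≅ Y') (n : ℤ) :
    (X ⟶ Y⟦n⟧) ≃ₗ[ℂ] (X' ⟶ Y'⟦n⟧) :=
  Linear.homCongr ℂ e ((shiftFunctor T n).mapIso e')

/-- shift on the right -/
noncomputable def homShR (X Y : T) (n m : ℤ) :
    (X ⟶ (Y⟦n⟧)⟦m⟧) ≃ₗ[ℂ] (X ⟶ Y⟦n + m⟧) :=
  Linear.homCongr ℂ (Iso.refl X) ((shiftFunctorAdd T n m).app Y).symm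

/-- shift on both sides -/
noncomputable def homShB (X Y : T) (n : ℤ) : (X ⟶ Y) ≃ₗ[ℂ] (X⟦n⟧ ⟶ Y⟦n⟧) :=
  LinearEquiv.ofBijective ((shiftFunctor T n).mapLinearMap ℂ)
    ⟨fun f g h => (shiftFunctor T n).map_injective (by simpa using h),
     fun f => by
      obtain ⟨g, hg⟩ := (shiftFunctor T n).map_surjective f
      exact ⟨g, by simpa using hg⟩⟩

/-- shift on the left -/
noncomputable def homShL (X Y : T) (n m k : ℤ) (h : m + n = k) :
    (X ⟶ Y⟦m⟧) ≃ₗ[ℂ] (X⟦n⟧ ⟶ Y⟦k⟧) :=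
  (homShB X (Y⟦m⟧) n).trans
    (Linear.homCongr ℂ (Iso.refl (X⟦n⟧)) ((shiftFunctorAdd' T m n k h).app Y).symm)

lemma exists_ne_zero_iff {V W : Type*} [AddCommGroup V] [AddCommGroup W] [Module ℂ V]
    [Module ℂ W] (e : V ≃ₗ[ℂ] W) : (∃ f : V, f ≠ 0) ↔ ∃ f : W, f ≠ 0 := by
  constructor
  · rintro ⟨f, hf⟩
    exact ⟨e f, fun h => hf (by simpa using h)⟩
  · rintro ⟨f, hf⟩
    exact ⟨e.symm f, fun h => hf (by simpa using h)⟩

theorem hfin_iso {X X' Y Y' : T} (e : X ≅ X') (e' : Y ≅ Y') (h : HFin X Y) : HFin X' Y' := by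
  refine ⟨fun n => ?_, ?_⟩
  · haveI := h.1 n
    exact (homEq e e' n).finiteDimensional
  · refine h.2.subset fun n hn => ?_
    exact (exists_ne_zero_iff (homEq e e' n)).2 hn

theorem chi_iso {X X' Y Y' : T} (e : X ≅ X') (e' : Y ≅ Y') : chi X Y = chi X' Y' := by
  unfold chi
  refine finsum_congr fun n => ?_
  rw [(homEq e e' n).finrank_eq]

theorem hfin_zero_left {X Y : T} (h : IsZero X) : HFin X Y := by
  have h0 : ∀ n : ℤ, ∀ f : X ⟶ Y⟦n⟧, f = 0 := fun n f => h.eq_of_src _ _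
  refine ⟨fun n => ?_, ?_⟩
  · haveI : Subsingleton (X ⟶ Y⟦n⟧) := ⟨fun f g => by rw [h0 n f, h0 n g]⟩
    infer_instance
  · refine Set.finite_empty.subset fun n hn => ?_
    obtain ⟨f, hf⟩ := hn
    exact (hf (h0 n f)).elim

theorem hfin_zero_right {X Y : T} (h : IsZero Y) : HFin X Y := by
  have h0 : ∀ n : ℤ, ∀ f : X ⟶ Y⟦n⟧, f = 0 := fun n f =>
    ((shiftFunctor T n).map_isZero h).eq_of_tgt _ _
  refine ⟨fun n => ?_, ?_⟩
  · haveI : Subsingleton (X ⟶ Y⟦n⟧) := ⟨fun f g => by rw [h0 n f, h0 n g]⟩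
    infer_instance
  · refine Set.finite_empty.subset fun n hn => ?_
    obtain ⟨f, hf⟩ := hn
    exact (hf (h0 n f)).elim

theorem chi_zero_left {X Y : T} (h : IsZero X) : chi X Y = 0 := by
  have h0 : ∀ n : ℤ, ∀ f : X ⟶ Y⟦n⟧, f = 0 := fun n f => h.eq_of_src _ _
  unfold chi
  rw [← finsum_zero (α := ℤ)]
  refine finsum_congr fun n => ?_
  haveI : Subsingleton (X ⟶ Y⟦n⟧) := ⟨fun f g => by rw [h0 n f, h0 n g]⟩
  rw [Module.finrank_zero_of_subsingleton]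
  simp

theorem chi_zero_right {X Y : T} (h : IsZero Y) : chi X Y = 0 := by
  have h0 : ∀ n : ℤ, ∀ f : X ⟶ Y⟦n⟧, f = 0 := fun n f =>
    ((shiftFunctor T n).map_isZero h).eq_of_tgt _ _
  unfold chi
  rw [← finsum_zero (α := ℤ)]
  refine finsum_congr fun n => ?_
  haveI : Subsingleton (X ⟶ Y⟦n⟧) := ⟨fun f g => by rw [h0 n f, h0 n g]⟩
  rw [Module.finrank_zero_of_subsingleton]
  simp

theorem hfin_shift_right {X Y : T} (n : ℤ) (h : HFin X Y) : HFin X (Y⟦n⟧) := by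
  refine ⟨fun m => ?_, ?_⟩
  · haveI := h.1 (n + m)
    exact (homShR X Y n m).symm.finiteDimensional
  · refine (h.2.preimage (f := fun m => n + m) (fun x _ y _ hxy => by simpa using hxy)).subset
      fun m hm => ?_
    exact (exists_ne_zero_iff (homShR X Y n m)).1 hm

theorem hfin_shift_left {X Y : T} (n : ℤ) (h : HFin X Y) : HFin (X⟦n⟧) Y := by
  refine ⟨fun m => ?_, ?_⟩
  · haveI := h.1 (m - n)
    exact (homShL X Y n (m - n) m (by omega)).finiteDimensional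
  · refine (h.2.preimage (f := fun m => m - n) (fun x _ y _ hxy => by simpa using hxy)).subset
      fun m hm => ?_
    exact (exists_ne_zero_iff (homShL X Y n (m - n) m (by omega))).2 hm

theorem chi_shift_right {X Y : T} (n : ℤ) :
    chi X (Y⟦n⟧) = ((n.negOnePow : ℤˣ) : ℤ) * chi X Y := by
  unfold chi
  rw [← chi_finsum_shift (fun m => (Module.finrank ℂ (X ⟶ Y⟦m⟧) : ℤ)) n]
  refine finsum_congr fun m => ?_
  rw [(homShR X Y n m).finrank_eq]

theorem chi_shift_left {X Y : T} (n : ℤ) :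
    chi (X⟦n⟧) Y = ((n.negOnePow : ℤˣ) : ℤ) * chi X Y := by
  unfold chi
  have h1 := chi_finsum_shift (fun m => (Module.finrank ℂ (X ⟶ Y⟦m⟧) : ℤ)) (-n)
  have h2 : ∑ᶠ m : ℤ, ((m.negOnePow : ℤˣ) : ℤ) * (Module.finrank ℂ (X⟦n⟧ ⟶ Y⟦m⟧) : ℤ)
      = ∑ᶠ m : ℤ, ((m.negOnePow : ℤˣ) : ℤ) * (Module.finrank ℂ (X ⟶ Y⟦(-n) + m⟧) : ℤ) := by
    refine finsum_congr fun m => ?_
    rw [(homShL X Y n (-n + m) m (by omega)).finrank_eq]
  rw [h2, h1, Int.negOnePow_neg]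

/-! ### ranks of maps between Hom spaces -/

/-- the rank of the map `u ↦ u ≫ f` -/
noncomputable def rkR (X : T) {Y Z : T} (f : Y ⟶ Z) : ℕ :=
  Module.finrank ℂ (LinearMap.range (Linear.rightComp ℂ X f))

/-- the rank of the map `u ↦ f ≫ u` -/
noncomputable def rkL (X : T) {Y Z : T} (f : Y ⟶ Z) : ℕ :=
  Module.finrank ℂ (LinearMap.range (Linear.leftComp ℂ X f))

lemma finrank_range_congr {V V' W W' : Type*} [AddCommGroup V] [AddCommGroup V']
    [AddCommGroup W] [AddCommGroup W'] [Module ℂ V] [Module ℂ V'] [Module ℂ W] [Module ℂ W']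
    (e : V ≃ₗ[ℂ] V') (e' : W ≃ₗ[ℂ] W') (f : V →ₗ[ℂ] W) (f' : V' →ₗ[ℂ] W')
    (h : ∀ v, e' (f v) = f' (e v)) :
    Module.finrank ℂ (LinearMap.range f) = Module.finrank ℂ (LinearMap.range f') := by
  have h1 : LinearMap.range f' = (LinearMap.range f).map (e' : W →ₗ[ℂ] W') := by
    ext w
    constructor
    · rintro ⟨v', rfl⟩
      refine ⟨f (e.symm v'), ⟨e.symm v', rfl⟩, ?_⟩
      simp only [LinearEquiv.coe_coe]
      rw [h, LinearEquiv.apply_symm_apply]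
    · rintro ⟨_, ⟨v, rfl⟩, rfl⟩
      exact ⟨e v, (h v).symm⟩
  rw [h1]
  exact (LinearEquiv.finrank_map_eq e' _).symm

lemma rkR_congr (X : T) {Y Z Y' Z' : T} (f : Y ⟶ Z) (f' : Y' ⟶ Z') (e : Y ≅ Y') (e' : Z ≅ Z')
    (h : f ≫ e'.hom = e.hom ≫ f') : rkR X f = rkR X f' := by
  refine finrank_range_congr (Linear.homCongr ℂ (Iso.refl X) e)
    (Linear.homCongr ℂ (Iso.refl X) e') _ _ fun v => ?_
  simp [Linear.homCongr_apply, h]

lemma rkL_congr (X : T) {Y Z Y' Z' : T} (f : Y ⟶ Z) (f' : Y' ⟶ Z') (e : Y ≅ Y') (e' : Z ≅ Z')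
    (h : f ≫ e'.hom = e.hom ≫ f') : rkL X f = rkL X f' := by
  refine finrank_range_congr (Linear.homCongr ℂ e' (Iso.refl X))
    (Linear.homCongr ℂ e (Iso.refl X)) _ _ fun v => ?_
  have h2 : e.inv ≫ f = f' ≫ e'.inv := by
    rw [Iso.inv_comp_eq, ← Category.assoc, ← h]; simp
  simp only [Linear.homCongr_apply, Linear.leftComp_apply, Iso.refl_hom, Category.comp_id]
  rw [← Category.assoc, ← Category.assoc, h2]

lemma rkR_neg (X : T) {Y Z : T} (f : Y ⟶ Z) : rkR X (-f) = rkR X f := by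
  have h : Linear.rightComp ℂ X (-f) = -Linear.rightComp ℂ X f := by
    ext u; simp
  unfold rkR
  rw [h, LinearMap.range_neg]

lemma rkL_neg (X : T) {Y Z : T} (f : Y ⟶ Z) : rkL X (-f) = rkL X f := by
  have h : Linear.leftComp ℂ X (-f) = -Linear.leftComp ℂ X f := by
    ext u; simp
  unfold rkL
  rw [h, LinearMap.range_neg]

lemma rkR_units (X : T) {Y Z : T} (u : ℤˣ) (f : Y ⟶ Z) : rkR X (u • f) = rkR X f := by
  rcases Int.units_eq_one_or u with rfl | rfl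
  · rw [one_smul]
  · rw [Units.neg_smul, one_smul, rkR_neg]

/-! ### exact sequences -/

lemma fd_of_exact {U V W : Type*} [AddCommGroup U] [AddCommGroup V] [AddCommGroup W]
    [Module ℂ U] [Module ℂ V] [Module ℂ W] [FiniteDimensional ℂ U] [FiniteDimensional ℂ W]
    (f : U →ₗ[ℂ] V) (g : V →ₗ[ℂ] W) (h : LinearMap.ker g = LinearMap.range f) :
    FiniteDimensional ℂ V := by
  have h1 : Module.Finite ℂ (LinearMap.ker g) := by
    rw [h]
    infer_instance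
  have h2 : Module.Finite ℂ (V ⧸ LinearMap.ker g) :=
    Module.Finite.equiv g.quotKerEquivRange.symm
  exact Module.Finite.of_submodule_quotient (LinearMap.ker g)

lemma num_of_exact {A B C K L : Type*} [AddCommGroup A] [AddCommGroup B] [AddCommGroup C]
    [AddCommGroup K] [AddCommGroup L] [Module ℂ A] [Module ℂ B] [Module ℂ C] [Module ℂ K]
    [Module ℂ L] [FiniteDimensional ℂ B] [FiniteDimensional ℂ C] [FiniteDimensional ℂ K]
    (f : A →ₗ[ℂ] B) (g : B →ₗ[ℂ] C) (h : C →ₗ[ℂ] K) (f' : K →ₗ[ℂ] L)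
    (h1 : LinearMap.ker g = LinearMap.range f) (h2 : LinearMap.ker h = LinearMap.range g)
    (h3 : LinearMap.ker f' = LinearMap.range h) :
    Module.finrank ℂ B + Module.finrank ℂ K = Module.finrank ℂ C
      + Module.finrank ℂ (LinearMap.range f) + Module.finrank ℂ (LinearMap.range f') := by
  have e1 := g.finrank_range_add_finrank_ker
  have e2 := h.finrank_range_add_finrank_ker
  have e3 := f'.finrank_range_add_finrank_ker
  rw [h1] at e1
  rw [h2] at e2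
  rw [h3] at e3
  omega

lemma num_of_exact' {A B C K L : Type*} [AddCommGroup A] [AddCommGroup B] [AddCommGroup C]
    [AddCommGroup K] [AddCommGroup L] [Module ℂ A] [Module ℂ B] [Module ℂ C] [Module ℂ K]
    [Module ℂ L] [FiniteDimensional ℂ B] [FiniteDimensional ℂ C] [FiniteDimensional ℂ K]
    (f' : L →ₗ[ℂ] K) (h : K →ₗ[ℂ] C) (g : C →ₗ[ℂ] B) (f : B →ₗ[ℂ] A)
    (h1 : LinearMap.ker f = LinearMap.range g) (h2 : LinearMap.ker g = LinearMap.range h)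
    (h3 : LinearMap.ker h = LinearMap.range f') :
    Module.finrank ℂ B + Module.finrank ℂ K = Module.finrank ℂ C
      + Module.finrank ℂ (LinearMap.range f) + Module.finrank ℂ (LinearMap.range f') := by
  have e1 := f.finrank_range_add_finrank_ker
  have e2 := g.finrank_range_add_finrank_ker
  have e3 := h.finrank_range_add_finrank_ker
  rw [h1] at e1
  rw [h2] at e2
  rw [h3] at e3
  omega

section Right

variable (X : T) (D : Triangle T) (hD : D ∈ distTriang T)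
include hD

lemma exR2 : LinearMap.ker (Linear.rightComp ℂ X D.mor₂)
    = LinearMap.range (Linear.rightComp ℂ X D.mor₁) := by
  ext u
  rw [LinearMap.mem_ker, LinearMap.mem_range]
  simp only [Linear.rightComp_apply]
  constructor
  · intro h
    obtain ⟨w, hw⟩ := Triangle.coyoneda_exact₂ D hD u h
    exact ⟨w, hw.symm⟩
  · rintro ⟨w, rfl⟩
    rw [Category.assoc, comp_distTriang_mor_zero₁₂ D hD, comp_zero]

lemma exR3 : LinearMap.ker (Linear.rightComp ℂ X D.mor₃)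
    = LinearMap.range (Linear.rightComp ℂ X D.mor₂) := by
  ext u
  rw [LinearMap.mem_ker, LinearMap.mem_range]
  simp only [Linear.rightComp_apply]
  constructor
  · intro h
    obtain ⟨w, hw⟩ := Triangle.coyoneda_exact₃ D hD u h
    exact ⟨w, hw.symm⟩
  · rintro ⟨w, rfl⟩
    rw [Category.assoc, comp_distTriang_mor_zero₂₃ D hD, comp_zero]

lemma exR1 : LinearMap.ker (Linear.rightComp ℂ X (D.mor₁⟦(1 : ℤ)⟧'))
    = LinearMap.range (Linear.rightComp ℂ X D.mor₃) := by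
  ext u
  rw [LinearMap.mem_ker, LinearMap.mem_range]
  simp only [Linear.rightComp_apply]
  constructor
  · intro h
    obtain ⟨w, hw⟩ := Triangle.coyoneda_exact₁ D hD u h
    exact ⟨w, hw.symm⟩
  · rintro ⟨w, rfl⟩
    rw [Category.assoc, comp_distTriang_mor_zero₃₁ D hD, comp_zero]

lemma exL2 : LinearMap.ker (Linear.leftComp ℂ X D.mor₁)
    = LinearMap.range (Linear.leftComp ℂ X D.mor₂) := by
  ext u
  rw [LinearMap.mem_ker, LinearMap.mem_range]
  simp only [Linear.leftComp_apply]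
  constructor
  · intro h
    obtain ⟨w, hw⟩ := Triangle.yoneda_exact₂ D hD u h
    exact ⟨w, hw.symm⟩
  · rintro ⟨w, rfl⟩
    rw [← Category.assoc, comp_distTriang_mor_zero₁₂ D hD, zero_comp]

lemma exL3 : LinearMap.ker (Linear.leftComp ℂ X D.mor₂)
    = LinearMap.range (Linear.leftComp ℂ X D.mor₃) := by
  ext u
  rw [LinearMap.mem_ker, LinearMap.mem_range]
  simp only [Linear.leftComp_apply]
  constructor
  · intro h
    obtain ⟨w, hw⟩ := Triangle.yoneda_exact₃ D hD u h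
    exact ⟨w, hw.symm⟩
  · rintro ⟨w, rfl⟩
    rw [← Category.assoc, comp_distTriang_mor_zero₂₃ D hD, zero_comp]

lemma exL1 : LinearMap.ker (Linear.leftComp ℂ X D.mor₃)
    = LinearMap.range (Linear.leftComp ℂ X (D.mor₁⟦(1 : ℤ)⟧')) := by
  ext u
  rw [LinearMap.mem_ker, LinearMap.mem_range]
  simp only [Linear.leftComp_apply]
  constructor
  · intro h
    obtain ⟨w, hw⟩ := Triangle.yoneda_exact₃ D.rotate (rot_of_distTriang D hD) u h
    have hw' : ∃ w' : D.obj₂⟦(1 : ℤ)⟧ ⟶ X, u = (-D.mor₁⟦(1 : ℤ)⟧') ≫ w' := ⟨w, hw⟩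
    obtain ⟨w', hw'⟩ := hw'
    exact ⟨-w', by rw [hw', Preadditive.comp_neg, Preadditive.neg_comp]⟩
  · rintro ⟨w, rfl⟩
    rw [← Category.assoc, comp_distTriang_mor_zero₃₁ D hD, zero_comp]

end Right

/-- the shifted triangle -/
noncomputable abbrev Dsh (D : Triangle T) (n : ℤ) : Triangle T := (Triangle.shiftFunctor T n).obj D

lemma rkR_shift_one (X : T) {A B : T} (f : A ⟶ B) (n : ℤ) :
    rkR X (((n.negOnePow • f⟦n⟧') : A⟦n⟧ ⟶ B⟦n⟧)⟦(1 : ℤ)⟧') = rkR X (f⟦1 + n⟧') := by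
  have h1 : ((n.negOnePow • f⟦n⟧') : A⟦n⟧ ⟶ B⟦n⟧)⟦(1 : ℤ)⟧' = n.negOnePow • (f⟦n⟧')⟦(1 : ℤ)⟧' :=
    Functor.map_units_smul (F := shiftFunctor T (1 : ℤ)) _ _
  rw [h1, rkR_units, add_comm 1 n]
  refine rkR_congr X _ _ ((shiftFunctorAdd T n 1).app A).symm
    ((shiftFunctorAdd T n 1).app B).symm ?_
  simp only [Iso.symm_hom, Iso.app_inv]
  exact (shiftFunctorAdd T n 1).inv.naturality f

lemma rkR_Dsh (X : T) (D : Triangle T) (n : ℤ) :
    rkR X (Dsh D n).mor₁ = rkR X (D.mor₁⟦n⟧') :=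
  rkR_units X _ _

lemma rkL_shift_one (Y : T) {A B : T} (f : A ⟶ B) (n : ℤ) :
    rkL (Y⟦n⟧) (f⟦(1 : ℤ)⟧') = rkL (Y⟦(-1 + n : ℤ)⟧) f := by
  symm
  refine finrank_range_congr (homShL B Y 1 (-1 + n) n (by omega))
    (homShL A Y 1 (-1 + n) n (by omega)) _ _ fun v => ?_
  simp [homShL, homShB, Linear.homCongr_apply, LinearEquiv.trans_apply]

theorem hfin_tri_right (X : T) (D : Triangle T) (hD : D ∈ distTriang T)
    (h₁ : HFin X D.obj₁) (h₃ : HFin X D.obj₃) : HFin X D.obj₂ := by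
  refine ⟨fun n => ?_, ?_⟩
  · haveI : FiniteDimensional ℂ (X ⟶ (Dsh D n).obj₁) := h₁.1 n
    haveI : FiniteDimensional ℂ (X ⟶ (Dsh D n).obj₃) := h₃.1 n
    exact fd_of_exact _ _ (exR2 X (Dsh D n) (Triangle.shift_distinguished D hD n))
  · refine (h₁.2.union h₃.2).subset fun n hn => ?_
    by_contra hc
    rw [Set.mem_union, not_or] at hc
    obtain ⟨u, hu⟩ := hn
    apply hu
    have e1 : ∀ f : X ⟶ D.obj₁⟦n⟧, f = 0 := by
      intro f
      by_contra hf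
      exact hc.1 ⟨f, hf⟩
    have e3 : ∀ f : X ⟶ D.obj₃⟦n⟧, f = 0 := by
      intro f
      by_contra hf
      exact hc.2 ⟨f, hf⟩
    obtain ⟨w, hw⟩ := Triangle.coyoneda_exact₂ (Dsh D n) (Triangle.shift_distinguished D hD n) u
      (e3 _)
    have hw0 : w = 0 := e1 w
    rw [hw, hw0]
    exact zero_comp

theorem hfin_tri_left (Y : T) (D : Triangle T) (hD : D ∈ distTriang T)
    (h₁ : HFin D.obj₁ Y) (h₃ : HFin D.obj₃ Y) : HFin D.obj₂ Y := by
  refine ⟨fun n => ?_, ?_⟩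
  · haveI := h₁.1 n
    haveI := h₃.1 n
    exact fd_of_exact _ _ (exL2 (Y⟦n⟧) D hD)
  · refine (h₁.2.union h₃.2).subset fun n hn => ?_
    by_contra hc
    rw [Set.mem_union, not_or] at hc
    obtain ⟨u, hu⟩ := hn
    apply hu
    have e1 : ∀ f : D.obj₁ ⟶ Y⟦n⟧, f = 0 := by
      intro f
      by_contra hf
      exact hc.1 ⟨f, hf⟩
    have e3 : ∀ f : D.obj₃ ⟶ Y⟦n⟧, f = 0 := by
      intro f
      by_contra hf
      exact hc.2 ⟨f, hf⟩
    obtain ⟨w, hw⟩ := Triangle.yoneda_exact₂ D hD u (e1 _)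
    rw [hw, e3 w, comp_zero]

lemma finrank_ne_zero_set {X Y : T} :
    {n : ℤ | Module.finrank ℂ (X ⟶ Y⟦n⟧) ≠ 0} ⊆ {n : ℤ | ∃ f : X ⟶ Y⟦n⟧, f ≠ 0} := by
  intro n hn
  by_contra hc
  apply hn
  haveI : Subsingleton (X ⟶ Y⟦n⟧) := by
    refine ⟨fun f g => ?_⟩
    have e : ∀ f : X ⟶ Y⟦n⟧, f = 0 := by
      intro f
      by_contra hf
      exact hc ⟨f, hf⟩
    rw [e f, e g]
  exact Module.finrank_zero_of_subsingleton

theorem chi_tri_right (X : T) (D : Triangle T) (hD : D ∈ distTriang T)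
    (h₁ : HFin X D.obj₁) (h₃ : HFin X D.obj₃) :
    chi X D.obj₂ = chi X D.obj₁ + chi X D.obj₃ := by
  have h₂ := hfin_tri_right X D hD h₁ h₃
  rw [add_comm]
  unfold chi
  refine chi_num (e := 1) (k := fun n => Module.finrank ℂ (X ⟶ (D.obj₁⟦n⟧)⟦(1 : ℤ)⟧))
    (s := fun n => rkR X (D.mor₁⟦n⟧')) (t := fun n => rkR X (D.mor₁⟦1 + n⟧'))
    (by decide) ?_ ?_ (fun n => rfl) (h₁.2.subset finrank_ne_zero_set)
    (h₂.2.subset finrank_ne_zero_set) (h₃.2.subset finrank_ne_zero_set) ?_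
  · intro n
    haveI := h₁.1 (n + 1)
    haveI : FiniteDimensional ℂ (X ⟶ (Dsh D n).obj₂) := h₂.1 n
    haveI : FiniteDimensional ℂ (X ⟶ (Dsh D n).obj₃) := h₃.1 n
    haveI : FiniteDimensional ℂ (X ⟶ (Dsh D n).obj₁⟦(1 : ℤ)⟧) :=
      (homShR X D.obj₁ n 1).symm.finiteDimensional
    have hDn := Triangle.shift_distinguished D hD n
    have h := num_of_exact _ _ _ _ (exR2 X (Dsh D n) hDn) (exR3 X (Dsh D n) hDn)
      (exR1 X (Dsh D n) hDn)
    have e1 : Module.finrank ℂ (LinearMap.range (Linear.rightComp ℂ X (Dsh D n).mor₁))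
        = rkR X (D.mor₁⟦n⟧') := rkR_Dsh X D n
    have e2 : Module.finrank ℂ (LinearMap.range (Linear.rightComp ℂ X
        ((Dsh D n).mor₁⟦(1 : ℤ)⟧'))) = rkR X (D.mor₁⟦1 + n⟧') := rkR_shift_one X D.mor₁ n
    rw [e1, e2] at h
    exact h
  · intro n
    rw [(homShR X D.obj₁ n 1).finrank_eq, add_comm n 1]
  · refine (h₁.2.subset finrank_ne_zero_set).subset fun n hn => ?_
    intro h0
    apply hn
    haveI := h₁.1 n
    have h1 : rkR X (D.mor₁⟦n⟧') ≤ Module.finrank ℂ (X ⟶ D.obj₁⟦n⟧) :=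
      LinearMap.finrank_range_le _
    omega

theorem chi_tri_left (Y : T) (D : Triangle T) (hD : D ∈ distTriang T)
    (h₁ : HFin D.obj₁ Y) (h₃ : HFin D.obj₃ Y) :
    chi D.obj₂ Y = chi D.obj₁ Y + chi D.obj₃ Y := by
  have h₂ := hfin_tri_left Y D hD h₁ h₃
  rw [add_comm]
  unfold chi
  refine chi_num (e := -1) (k := fun n => Module.finrank ℂ (D.obj₁⟦(1 : ℤ)⟧ ⟶ Y⟦n⟧))
    (s := fun n => rkL (Y⟦n⟧) D.mor₁) (t := fun n => rkL (Y⟦n⟧) (D.mor₁⟦(1 : ℤ)⟧'))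
    (by decide) ?_ ?_ (fun n => rkL_shift_one Y D.mor₁ n) (h₁.2.subset finrank_ne_zero_set)
    (h₂.2.subset finrank_ne_zero_set) (h₃.2.subset finrank_ne_zero_set) ?_
  · intro n
    haveI := h₁.1 (-1 + n)
    haveI := h₂.1 n
    haveI := h₃.1 n
    haveI : FiniteDimensional ℂ (D.obj₁⟦(1 : ℤ)⟧ ⟶ Y⟦n⟧) :=
      (homShL D.obj₁ Y 1 (-1 + n) n (by omega)).finiteDimensional
    exact num_of_exact' _ _ _ _ (exL2 (Y⟦n⟧) D hD) (exL3 (Y⟦n⟧) D hD) (exL1 (Y⟦n⟧) D hD)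
  · intro n
    rw [(homShL D.obj₁ Y 1 (-1 + n) n (by omega)).finrank_eq]
  · refine (h₂.2.subset finrank_ne_zero_set).subset fun n hn => ?_
    intro h0
    apply hn
    haveI := h₂.1 n
    have h1 : rkL (Y⟦n⟧) D.mor₁ ≤ Module.finrank ℂ (D.obj₂ ⟶ Y⟦n⟧) :=
      LinearMap.finrank_range_le _
    omega

end MPdda
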