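import Pool.Agent.H.MP_dda0b9_al.DefsZ

/-!
# MP_dda0b9_al: combinatorics of rotations, representatives and arrows (job J18)
-/

namespace MPdda

theorem comb_cases {P : Fin 3 → Prop} (h0 : P 0) (h1 : P 1) (h2 : P 2) (q : Fin 3) : P q := by
  match q with
  | 0 => exact h0
  | 1 => exact h1
  | 2 => exact h2

theorem rot_zero (a : Fin 3 → ℤ) : rot 0 a = a := by
  funext i
  simp [rot]

theorem rot_rot (q r : Fin 3) (a : Fin 3 → ℤ) : rot q (rot r a) = rot (q + r) a := by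
  funext i
  simp only [rot]
  rw [add_assoc]

theorem rot_add' (q : Fin 3) (a b : Fin 3 → ℤ) : rot q (a + b) = rot q a + rot q b := by
  rfl

theorem rot_fv (q p : Fin 3) : rot q (fv p) = fv (p - q) := by
  funext i
  have h : ∀ q p i : Fin 3, rot q (fv p) i = fv (p - q) i := by decide
  exact h q p i

theorem rot_cX (t : ℕ) (q : Fin 3) : rot q (cX t) = cX t := by
  rfl

theorem rot_mv (q : Fin 3) (x : Fin 3 → ℤ) : rot q (mv x) = mv (rot q x) := by
  funext i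
  simp only [rot, mv]
  rw [add_right_comm]

theorem fv_sum : fv 0 + fv 1 + fv 2 = 0 := by
  funext i
  have h : ∀ i : Fin 3, (fv 0 + fv 1 + fv 2) i = (0 : Fin 3 → ℤ) i := by decide
  exact h i

theorem inT_iff {t : ℕ} {a : Fin 3 → ℤ} :
    InT t a ↔ (0 ≤ a 0 ∧ 0 ≤ a 1 ∧ 0 ≤ a 2) ∧ a 0 + a 1 + a 2 = 3 * t := by
  constructor
  · rintro ⟨h, h'⟩
    exact ⟨⟨h 0, h 1, h 2⟩, h'⟩
  · rintro ⟨⟨h0, h1, h2⟩, h'⟩
    exact ⟨comb_cases h0 h1 h2, h'⟩

theorem inT_rot {t : ℕ} {a : Fin 3 → ℤ} (q : Fin 3) : InT t (rot q a) ↔ InT t a := by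
  rw [inT_iff, inT_iff]
  induction q using comb_cases with
  | h0 => rw [rot_zero]
  | h1 =>
    change (0 ≤ a 1 ∧ 0 ≤ a 2 ∧ 0 ≤ a 0) ∧ a 1 + a 2 + a 0 = 3 * t ↔ _
    constructor <;> rintro ⟨⟨h0, h1, h2⟩, h'⟩ <;> refine ⟨⟨?_, ?_, ?_⟩, ?_⟩ <;> omega
  | h2 =>
    change (0 ≤ a 2 ∧ 0 ≤ a 0 ∧ 0 ≤ a 1) ∧ a 2 + a 0 + a 1 = 3 * t ↔ _
    constructor <;> rintro ⟨⟨h0, h1, h2⟩, h'⟩ <;> refine ⟨⟨?_, ?_, ?_⟩, ?_⟩ <;> omega

theorem inT_cX (t : ℕ) : InT t (cX t) := by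
  rw [inT_iff]
  refine ⟨⟨?_, ?_, ?_⟩, ?_⟩ <;> simp only [cX] <;> omega

theorem InV.inT {t : ℕ} {a : Fin 3 → ℤ} (h : InV t a) : InT t a := by
  exact ⟨h.1, h.2.1⟩

theorem inV_iff {t : ℕ} {a : Fin 3 → ℤ} :
    InV t a ↔ InT t a ∧
      (a 1 < a 0 ∨ (a 1 = a 0 ∧ (a 2 < a 1 ∨ (a 2 = a 1 ∧ a 0 < a 2)))) ∧
      (a 2 < a 0 ∨ (a 2 = a 0 ∧ (a 0 < a 1 ∨ (a 0 = a 1 ∧ a 1 < a 2)))) := by
  constructor
  · rintro ⟨h1, h2, h3, h4⟩
    exact ⟨⟨h1, h2⟩, h3, h4⟩
  · rintro ⟨⟨h1, h2⟩, h3, h4⟩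
    exact ⟨h1, h2, h3, h4⟩

theorem not_inV_cX (t : ℕ) : ¬ InV t (cX t) := by
  rw [inV_iff]
  rintro ⟨-, h, -⟩
  simp only [cX] at h
  omega

theorem ne_cX_iff {t : ℕ} {b : Fin 3 → ℤ} :
    b ≠ cX t ↔ ¬ (b 0 = t ∧ b 1 = t ∧ b 2 = t) := by
  rw [not_iff_not]
  constructor
  · intro h
    rw [h]
    exact ⟨rfl, rfl, rfl⟩
  · rintro ⟨h0, h1, h2⟩
    funext i
    induction i using comb_cases with
    | h0 => exact h0
    | h1 => exact h1
    | h2 => exact h2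

/-- A step in direction `p` stays in `T` iff the coordinate `p` is positive. -/
theorem inT_add_fv {t : ℕ} {a : Fin 3 → ℤ} (h : InT t a) (p : Fin 3) :
    InT t (a + fv p) ↔ 1 ≤ a p := by
  rw [inT_iff] at h ⊢
  obtain ⟨⟨h0, h1, h2⟩, h'⟩ := h
  induction p using comb_cases with
  | h0 =>
    change (0 ≤ a 0 + -1 ∧ 0 ≤ a 1 + 1 ∧ 0 ≤ a 2 + 0) ∧ a 0 + -1 + (a 1 + 1) + (a 2 + 0) = 3 * t ↔ _
    constructor
    · rintro ⟨⟨h0, h1, h2⟩, h'⟩
      omega
    · intro h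
      refine ⟨⟨?_, ?_, ?_⟩, ?_⟩ <;> omega
  | h1 =>
    change (0 ≤ a 0 + 0 ∧ 0 ≤ a 1 + -1 ∧ 0 ≤ a 2 + 1) ∧ a 0 + 0 + (a 1 + -1) + (a 2 + 1) = 3 * t ↔ _
    constructor
    · rintro ⟨⟨h0, h1, h2⟩, h'⟩
      omega
    · intro h
      refine ⟨⟨?_, ?_, ?_⟩, ?_⟩ <;> omega
  | h2 =>
    change (0 ≤ a 0 + 1 ∧ 0 ≤ a 1 + 0 ∧ 0 ≤ a 2 + -1) ∧ a 0 + 1 + (a 1 + 0) + (a 2 + -1) = 3 * t ↔ _
    constructor
    · rintro ⟨⟨h0, h1, h2⟩, h'⟩
      omega
    · intro h
      refine ⟨⟨?_, ?_, ?_⟩, ?_⟩ <;> omega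

theorem inT_sub_fv {t : ℕ} {a : Fin 3 → ℤ} (h : InT t a) (p : Fin 3) :
    InT t (a - fv p) ↔ 1 ≤ a (p + 1) := by
  rw [inT_iff] at h ⊢
  obtain ⟨⟨h0, h1, h2⟩, h'⟩ := h
  induction p using comb_cases with
  | h0 =>
    change (0 ≤ a 0 - -1 ∧ 0 ≤ a 1 - 1 ∧ 0 ≤ a 2 - 0) ∧
      a 0 - -1 + (a 1 - 1) + (a 2 - 0) = 3 * t ↔ 1 ≤ a 1
    constructor
    · rintro ⟨⟨h0, h1, h2⟩, h'⟩
      omega
    · intro h
      refine ⟨⟨?_, ?_, ?_⟩, ?_⟩ <;> omega
  | h1 =>
    change (0 ≤ a 0 - 0 ∧ 0 ≤ a 1 - -1 ∧ 0 ≤ a 2 - 1) ∧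
      a 0 - 0 + (a 1 - -1) + (a 2 - 1) = 3 * t ↔ 1 ≤ a 2
    constructor
    · rintro ⟨⟨h0, h1, h2⟩, h'⟩
      omega
    · intro h
      refine ⟨⟨?_, ?_, ?_⟩, ?_⟩ <;> omega
  | h2 =>
    change (0 ≤ a 0 - 1 ∧ 0 ≤ a 1 - 0 ∧ 0 ≤ a 2 - -1) ∧
      a 0 - 1 + (a 1 - 0) + (a 2 - -1) = 3 * t ↔ 1 ≤ a 0
    constructor
    · rintro ⟨⟨h0, h1, h2⟩, h'⟩
      omega
    · intro h
      refine ⟨⟨?_, ?_, ?_⟩, ?_⟩ <;> omega

/-- Each point of `T` different from `X` has a representative in `V`. -/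
theorem inV_rot_qi {t : ℕ} {b : Fin 3 → ℤ} (h : InT t b) (hb : b ≠ cX t) :
    InV t (rot (qi t b) b) := by
  unfold qi
  split_ifs with h1 h2
  · rw [rot_zero]
    exact h1
  · exact h2
  · rw [inV_iff, inT_rot] at h2 ⊢
    rw [inV_iff] at h1
    rw [ne_cX_iff] at hb
    refine ⟨h, ?_⟩
    rw [inT_iff] at h
    change (b 0 < b 2 ∨ (b 0 = b 2 ∧ (b 1 < b 0 ∨ (b 1 = b 0 ∧ b 2 < b 1)))) ∧
      (b 1 < b 2 ∨ (b 1 = b 2 ∧ (b 2 < b 0 ∨ (b 2 = b 0 ∧ b 0 < b 1))))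
    change ¬ (InT t b ∧ (b 2 < b 1 ∨ (b 2 = b 1 ∧ (b 0 < b 2 ∨ (b 0 = b 2 ∧ b 1 < b 0)))) ∧
      (b 0 < b 1 ∨ (b 0 = b 1 ∧ (b 1 < b 2 ∨ (b 1 = b 2 ∧ b 2 < b 0))))) at h2
    rw [inT_iff] at h1 h2
    omega

theorem inV_rot_unique {t : ℕ} {b : Fin 3 → ℤ} {q : Fin 3} (h : InV t (rot q b)) :
    q = qi t b := by
  have hT : InT t b := (inT_rot q).1 h.inT
  have key : ∀ q r : Fin 3, InV t (rot q b) → InV t (rot r b) → q = r := by
    intro q r hq hr
    rw [inV_iff, inT_rot] at hq hr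
    obtain ⟨-, hq⟩ := hq
    obtain ⟨-, hr⟩ := hr
    have e0 : ∀ i, rot 0 b i = b i := fun i => by rw [rot_zero]
    have e10 : rot 1 b 0 = b 1 := rfl
    have e11 : rot 1 b 1 = b 2 := rfl
    have e12 : rot 1 b 2 = b 0 := rfl
    have e20 : rot 2 b 0 = b 2 := rfl
    have e21 : rot 2 b 1 = b 0 := rfl
    have e22 : rot 2 b 2 = b 1 := rfl
    induction q using comb_cases with
    | h0 =>
      induction r using comb_cases with
      | h0 => rfl
      | h1 => simp only [e0, e10, e11, e12] at hq hr; omega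
      | h2 => simp only [e0, e20, e21, e22] at hq hr; omega
    | h1 =>
      induction r using comb_cases with
      | h0 => simp only [e0, e10, e11, e12] at hq hr; omega
      | h1 => rfl
      | h2 => simp only [e10, e11, e12, e20, e21, e22] at hq hr; omega
    | h2 =>
      induction r using comb_cases with
      | h0 => simp only [e0, e20, e21, e22] at hq hr; omega
      | h1 => simp only [e10, e11, e12, e20, e21, e22] at hq hr; omega
      | h2 => rfl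
  refine key q _ h (inV_rot_qi hT ?_)
  intro hb
  rw [hb, rot_cX] at h
  exact not_inV_cX t h

theorem inV_rot_qi_iff {t : ℕ} {b : Fin 3 → ℤ} :
    InV t (rot (qi t b) b) ↔ InT t b ∧ b ≠ cX t := by
  constructor
  · intro h
    refine ⟨(inT_rot _).1 h.inT, ?_⟩
    intro hb
    rw [hb, rot_cX] at h
    exact not_inV_cX t h
  · rintro ⟨h, hb⟩
    exact inV_rot_qi h hb

theorem qi_of_inV {t : ℕ} {b : Fin 3 → ℤ} (h : InV t b) : qi t b = 0 := by
  unfold qi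
  rw [if_pos h]

theorem qi_rot {t : ℕ} {b : Fin 3 → ℤ} (h : InT t b) (hb : b ≠ cX t) (r : Fin 3) :
    qi t (rot r b) = qi t b - r := by
  symm
  apply inV_rot_unique
  rw [rot_rot, sub_add_cancel]
  exact inV_rot_qi h hb

theorem vrt_cX (t : ℕ) (k : Fin 3) : vrt t k (cX t) = Sum.inr k := by
  unfold vrt
  rw [dif_neg]
  rw [rot_cX]
  exact not_inV_cX t

theorem vrt_of_inV {t : ℕ} (k : Fin 3) (a : VV t) : vrt t k a.1 = Sum.inl a := by
  have e : rot (qi t a.1) a.1 = a.1 := by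
    rw [qi_of_inV a.2, rot_zero]
  unfold vrt
  rw [dif_pos (by rw [e]; exact a.2)]
  congr 1
  exact Subtype.ext e

theorem vrt_eq_inl {t : ℕ} (k : Fin 3) {b : Fin 3 → ℤ} (h : InT t b) (hb : b ≠ cX t) :
    vrt t k b = Sum.inl ⟨rot (qi t b) b, inV_rot_qi h hb⟩ := by
  unfold vrt
  rw [dif_pos]

theorem rot_ne_cX {t : ℕ} {b : Fin 3 → ℤ} (hb : b ≠ cX t) (r : Fin 3) : rot r b ≠ cX t := by
  intro h
  apply hb
  have h2 : rot (-r) (rot r b) = rot (-r) (cX t) := by rw [h]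
  rw [rot_rot, neg_add_cancel, rot_zero, rot_cX] at h2
  exact h2

theorem rot_qi_rot {t : ℕ} {b : Fin 3 → ℤ} (h : InT t b) (hb : b ≠ cX t) (r : Fin 3) :
    rot (qi t (rot r b)) (rot r b) = rot (qi t b) b := by
  rw [qi_rot h hb, rot_rot, sub_add_cancel]

theorem vrt_rot {t : ℕ} (k : Fin 3) {b : Fin 3 → ℤ} (h : InT t b) (r : Fin 3) :
    vrt t k (rot r b) = vrt t k b := by
  by_cases hb : b = cX t
  · rw [hb, rot_cX]
  · rw [vrt_eq_inl k h hb, vrt_eq_inl k ((inT_rot r).2 h) (rot_ne_cX hb r)]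
    congr 1
    exact Subtype.ext (rot_qi_rot h hb r)

theorem vrt_eq_iff {t : ℕ} (k : Fin 3) {b : Fin 3 → ℤ} (c : VV t) :
    vrt t k b = Sum.inl c ↔ ∃ r : Fin 3, b = rot r c.1 := by
  constructor
  · intro h
    unfold vrt at h
    split_ifs at h with h1
    have h2 : (⟨rot (qi t b) b, h1⟩ : VV t) = c := Sum.inl_injective h
    refine ⟨- qi t b, ?_⟩
    rw [← h2]
    change b = rot (- qi t b) (rot (qi t b) b)
    rw [rot_rot, neg_add_cancel, rot_zero]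
  · rintro ⟨r, rfl⟩
    rw [vrt_rot k c.2.inT, vrt_of_inV]

theorem at_rot_eq {t : ℕ} (b : Fin 3 → ℤ) (p : Fin 3) :
    rot (qi t (b + fv p) - qi t b) (rot (qi t b) b) + fv (p - qi t (b + fv p)) =
      rot (qi t (b + fv p)) (b + fv p) := by
  rw [rot_rot, sub_add_cancel, rot_add', rot_fv]

theorem AT_isSome {t : ℕ} (b : Fin 3 → ℤ) (p : Fin 3) :
    (AT t b p).isSome = true ↔ InT t b ∧ InT t (b + fv p) ∧ b ≠ cX t ∧ b + fv p ≠ cX t := by
  unfold AT
  split_ifs with h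
  · rw [at_rot_eq, inV_rot_qi_iff, inV_rot_qi_iff] at h
    simp only [Option.isSome_some, true_iff]
    exact ⟨h.1.1, h.2.1, h.1.2, h.2.2⟩
  · rw [at_rot_eq, inV_rot_qi_iff, inV_rot_qi_iff] at h
    simp only [Option.isSome_none, false_iff, Bool.false_eq_true]
    rintro ⟨h1, h2, h3, h4⟩
    exact h ⟨⟨h1, h3⟩, h2, h4⟩

theorem AT_eq_some {t : ℕ} {b : Fin 3 → ℤ} {p : Fin 3} {x : AlArr t}
    (h : AT t b p = some x) :
    x.1.1.1 = rot (qi t b) b ∧ x.1.2.1 = p - qi t (b + fv p) ∧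
      x.1.2.2 = qi t (b + fv p) - qi t b := by
  unfold AT at h
  split_ifs at h with h1
  have h2 := Option.some_injective _ h
  rw [← h2]
  exact ⟨rfl, rfl, rfl⟩

theorem AT_ext {t : ℕ} {x y : AlArr t} (h1 : x.1.1.1 = y.1.1.1) (h2 : x.1.2.1 = y.1.2.1)
    (h3 : x.1.2.2 = y.1.2.2) : x = y := by
  apply Subtype.ext
  apply Prod.ext
  · exact Subtype.ext h1
  · exact Prod.ext h2 h3

theorem AT_src {t : ℕ} [NeZero t] {b : Fin 3 → ℤ} {p : Fin 3} {x : AlArr t}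
    (h : AT t b p = some x) (k : Fin 3) : src (.al x) = vrt t k b := by
  have h1 := (AT_isSome b p).1 (by rw [h]; rfl)
  rw [vrt_eq_inl k h1.1 h1.2.2.1]
  change Sum.inl x.1.1 = _
  congr 1
  exact Subtype.ext (AT_eq_some h).1

theorem AT_tgt {t : ℕ} [NeZero t] {b : Fin 3 → ℤ} {p : Fin 3} {x : AlArr t}
    (h : AT t b p = some x) (k : Fin 3) : tgt (.al x) = vrt t k (b + fv p) := by
  have h1 := (AT_isSome b p).1 (by rw [h]; rfl)
  rw [vrt_eq_inl k h1.2.1 h1.2.2.2]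
  change Sum.inl _ = _
  congr 1
  apply Subtype.ext
  change rot x.1.2.2 x.1.1.1 + fv x.1.2.1 = _
  obtain ⟨e1, e2, e3⟩ := AT_eq_some h
  rw [e1, e2, e3, at_rot_eq]

theorem AT_rot {t : ℕ} (b : Fin 3 → ℤ) (p r : Fin 3) :
    AT t (rot r b) (p - r) = AT t b p := by
  have e : rot r b + fv (p - r) = rot r (b + fv p) := by
    rw [rot_add', rot_fv]
  have hiff : (AT t (rot r b) (p - r)).isSome = true ↔ (AT t b p).isSome = true := by
    rw [AT_isSome, AT_isSome, e, inT_rot, inT_rot]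
    constructor
    · rintro ⟨h1, h2, h3, h4⟩
      refine ⟨h1, h2, ?_, ?_⟩
      · intro h
        exact h3 (by rw [h, rot_cX])
      · intro h
        exact h4 (by rw [h, rot_cX])
    · rintro ⟨h1, h2, h3, h4⟩
      exact ⟨h1, h2, rot_ne_cX h3 r, rot_ne_cX h4 r⟩
  rcases hb : AT t b p with - | y
  · rw [hb] at hiff
    rw [← Option.isNone_iff_eq_none, ← Option.not_isSome_iff_eq_none.trans
      Option.isNone_iff_eq_none.symm, hiff]
    simp
  · rcases hc : AT t (rot r b) (p - r) with - | x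
    · rw [hb, hc] at hiff
      simp at hiff
    · have h1 := (AT_isSome b p).1 (by rw [hb]; rfl)
      obtain ⟨e1, e2, e3⟩ := AT_eq_some hb
      obtain ⟨f1, f2, f3⟩ := AT_eq_some hc
      rw [e] at f2 f3
      rw [qi_rot h1.2.1 h1.2.2.2] at f2 f3
      rw [rot_qi_rot h1.1 h1.2.2.1] at f1
      rw [qi_rot h1.1 h1.2.2.1] at f3
      congr 1
      apply AT_ext
      · rw [e1, f1]
      · rw [e2, f2]
        abel
      · rw [e3, f3]
        abel

theorem AT_self {t : ℕ} (x : AlArr t) :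
    AT t x.1.1.1 (x.1.2.1 + x.1.2.2) = some x := by
  obtain ⟨⟨⟨a, ha⟩, p, q⟩, hx⟩ := x
  change InV t (rot q a + fv p) at hx
  change AT t a (p + q) = _
  have e : rot q (a + fv (p + q)) = rot q a + fv p := by
    rw [rot_add', rot_fv, add_sub_cancel_right]
  have hq : q = qi t (a + fv (p + q)) := by
    apply inV_rot_unique
    rw [e]
    exact hx
  have hs : (AT t a (p + q)).isSome = true := by
    rw [AT_isSome]
    have h2 : InV t (rot (qi t (a + fv (p + q))) (a + fv (p + q))) := by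
      rw [← hq, e]
      exact hx
    rw [inV_rot_qi_iff] at h2
    refine ⟨ha.inT, h2.1, ?_, h2.2⟩
    rintro rfl
    exact not_inV_cX t ha
  obtain ⟨y, hy⟩ := Option.isSome_iff_exists.1 hs
  rw [hy]
  congr 1
  obtain ⟨e1, e2, e3⟩ := AT_eq_some hy
  rw [← hq] at e2 e3
  rw [qi_of_inV ha] at e1 e3
  rw [rot_zero] at e1
  apply AT_ext
  · exact e1
  · rw [e2]
    change p + q - q = p
    abel
  · rw [e3]
    change q - 0 = q
    abel

/-- Sums over the arrows `α` which start at `a`. -/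
theorem sum_src {t : ℕ} [DecidableEq (VV t)] [Fintype (AlArr t)] (a : VV t) (F : AlArr t → ℤ) :
    ∑ x : AlArr t with x.1.1 = a, F x = ∑ d : Fin 3, (AT t a.1 d).elim 0 F := by
  rw [← Finset.sum_fiberwise _ (fun x : AlArr t => x.1.2.1 + x.1.2.2)]
  refine Finset.sum_congr rfl fun d _ => ?_
  have hself : ∀ x : AlArr t, x.1.1 = a → x.1.2.1 + x.1.2.2 = d → AT t a.1 d = some x := by
    rintro x rfl rfl
    exact AT_self x
  rcases hd : AT t a.1 d with - | y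
  · rw [Option.elim_none]
    apply Finset.sum_eq_zero
    intro x hx
    simp only [Finset.mem_filter, Finset.mem_univ, true_and] at hx
    have := hself x hx.1 hx.2
    rw [hd] at this
    exact absurd this (by simp)
  · rw [Option.elim_some]
    obtain ⟨e1, e2, e3⟩ := AT_eq_some hd
    rw [qi_of_inV a.2] at e1 e3
    rw [rot_zero] at e1
    rw [Finset.sum_eq_single y]
    · intro x hx hxy
      simp only [Finset.mem_filter, Finset.mem_univ, true_and] at hx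
      have := hself x hx.1 hx.2
      rw [hd] at this
      exact absurd (Option.some_injective _ this).symm hxy
    · intro hy
      exfalso
      apply hy
      simp only [Finset.mem_filter, Finset.mem_univ, true_and]
      refine ⟨Subtype.ext e1, ?_⟩
      rw [e2, e3]
      abel

/-- Sums over the arrows `α` which end at `c`. -/
theorem sum_tgt {t : ℕ} [NeZero t] [DecidableEq (Vert t)] [Fintype (AlArr t)] (c : VV t)
    (F : AlArr t → ℤ) :
    ∑ x : AlArr t with tgt (.al x) = .inl c, F x =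
      ∑ d : Fin 3, (AT t (c.1 - fv d) d).elim 0 F := by
  rw [← Finset.sum_fiberwise _ (fun x : AlArr t => x.1.2.1)]
  refine Finset.sum_congr rfl fun d _ => ?_
  have hself : ∀ x : AlArr t, tgt (.al x) = .inl c → x.1.2.1 = d →
      AT t (c.1 - fv d) d = some x := by
    rintro x hx rfl
    have h1 : (⟨rot x.1.2.2 x.1.1.1 + fv x.1.2.1, x.2⟩ : VV t) = c := Sum.inl_injective hx
    have h2 : c.1 - fv x.1.2.1 = rot x.1.2.2 x.1.1.1 := by
      rw [← h1]
      change rot x.1.2.2 x.1.1.1 + fv x.1.2.1 - fv x.1.2.1 = _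
      rw [add_sub_cancel_right]
    rw [h2]
    have h3 := AT_rot (t := t) x.1.1.1 (x.1.2.1 + x.1.2.2) x.1.2.2
    rw [add_sub_cancel_right] at h3
    rw [h3]
    exact AT_self x
  rcases hd : AT t (c.1 - fv d) d with - | y
  · rw [Option.elim_none]
    apply Finset.sum_eq_zero
    intro x hx
    simp only [Finset.mem_filter, Finset.mem_univ, true_and] at hx
    have := hself x hx.1 hx.2
    rw [hd] at this
    exact absurd this (by simp)
  · rw [Option.elim_some]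
    have ht := AT_tgt hd 0
    rw [sub_add_cancel, vrt_of_inV] at ht
    obtain ⟨e1, e2, e3⟩ := AT_eq_some hd
    rw [sub_add_cancel, qi_of_inV c.2, sub_zero] at e2
    rw [Finset.sum_eq_single y]
    · intro x hx hxy
      simp only [Finset.mem_filter, Finset.mem_univ, true_and] at hx
      have := hself x hx.1 hx.2
      rw [hd] at this
      exact absurd (Option.some_injective _ this).symm hxy
    · intro hy
      exfalso
      apply hy
      simp only [Finset.mem_filter, Finset.mem_univ, true_and]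
      exact ⟨ht, e2⟩

/-- The arrows as a sum type. -/
def arrEquiv (t : ℕ) : Arr t ≃ (AlArr t ⊕ Fin 3) ⊕ Fin 3 where
  toFun x := match x with
    | .al x => .inl (.inl x)
    | .be k => .inl (.inr k)
    | .ga k => .inr k
  invFun x := match x with
    | .inl (.inl x) => .al x
    | .inl (.inr k) => .be k
    | .inr k => .ga k
  left_inv x := by cases x <;> rfl
  right_inv x := by
    rcases x with (x | k) | k <;> rfl

/-- Sums over all arrows. -/
theorem sum_arr {t : ℕ} [Fintype (AlArr t)] {R : Type} [AddCommMonoid R] (F : Arr t → R) :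
    ∑ x : Arr t, F x = (∑ x : AlArr t, F (.al x)) + (∑ k : Fin 3, F (.be k)) +
      ∑ k : Fin 3, F (.ga k) := by
  rw [Fintype.sum_equiv (arrEquiv t) F (fun y => F ((arrEquiv t).symm y))
    (fun x => by rw [Equiv.symm_apply_apply]), Fintype.sum_sum_type, Fintype.sum_sum_type]
  rfl

end MPdda
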