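import Pool.Agent.H.MP_dda0b9_al.DWExpl

/-!
# MP_dda0b9_al: the arrows `A(b,p)` of the triangle `T` as elements of `Λ_C`; they commute
(job J22a)
-/

namespace MPdda

variable {t : ℕ} [NeZero t]

open Classical in
/-- The element `A(b,p)` of `Λ_C` for a step `b → b + f_p` in `T`.  If `b = X` it is
`∑_k ζ^{k(2-p)} γ_k`, if `b + f_p = X` it is `∑_k ζ^{kp} β_k`, and it is `0` if `b` or
`b + f_p` is not in `T`. -/
noncomputable def aT (C : Set (Arr t)) (b : Fin 3 → ℤ) (p : Fin 3) : Lam C :=
  if b = cX t then ∑ k : Fin 3, (zeta ^ ((k : ℕ) * ((2 - p : Fin 3) : ℕ))) • aL C (.ga k)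
  else if b + fv p = cX t then ∑ k : Fin 3, (zeta ^ ((k : ℕ) * (p : ℕ))) • aL C (.be k)
  else (AT t b p).elim 0 (fun x => aL C (.al x))

theorem zeta_pow_three : zeta ^ 3 = 1 := by
  have h := (Complex.isPrimitiveRoot_exp 3 (by norm_num)).pow_eq_one
  simpa [zeta] using h

theorem zeta_ne_one : zeta ≠ 1 := by
  have h := (Complex.isPrimitiveRoot_exp 3 (by norm_num)).ne_one (by norm_num)
  simpa [zeta] using h

theorem rel_eq (C : Set (Arr t)) {a b : FA t} (h : Rel C a b) :
    RingQuot.mkAlgHom ℂ (Rel C) a = RingQuot.mkAlgHom ℂ (Rel C) b :=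
  RingQuot.mkAlgHom_rel ℂ h

/-- `e_v` are complete orthogonal idempotents of `Λ_C`. -/
theorem eL_complete (C : Set (Arr t)) : CompleteOrthogonalIdempotents (eL C) where
  idem v := by
    have h := rel_eq C (Rel.idem v)
    rw [map_mul] at h
    exact h
  ortho v w hvw := by
    have h := rel_eq C (Rel.orth v w hvw)
    rw [map_mul, map_zero] at h
    exact h
  complete := by
    have h := rel_eq C (Rel.one)
    rw [map_sum, map_one] at h
    exact h

theorem eL_src_mul (C : Set (Arr t)) (x : Arr t) : eL C (src x) * aL C x = aL C x := by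
  have h := rel_eq C (Rel.left x)
  rw [map_mul] at h
  exact h

theorem aL_mul_tgt (C : Set (Arr t)) (x : Arr t) : aL C x * eL C (tgt x) = aL C x := by
  have h := rel_eq C (Rel.right x)
  rw [map_mul] at h
  exact h

theorem aL_cut (C : Set (Arr t)) (x : Arr t) (hx : x ∈ C) : aL C x = 0 := by
  have h := rel_eq C (Rel.cut x hx)
  rw [map_zero] at h
  exact h

theorem aT_eq_zero (C : Set (Arr t)) (b : Fin 3 → ℤ) (p : Fin 3)
    (h : ¬ (InT t b ∧ InT t (b + fv p))) : aT C b p = 0 := by
  have ht : (1 : ℤ) ≤ t := by exact_mod_cast (NeZero.one_le : 1 ≤ t)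
  unfold aT
  split_ifs with h1 h2
  · exfalso
    subst h1
    exact h ⟨inT_cX t, (inT_add_fv (inT_cX t) p).2 ht⟩
  · exfalso
    have h3 : b = cX t - fv p := by rw [← h2, add_sub_cancel_right]
    refine h ⟨?_, by rw [h2]; exact inT_cX t⟩
    rw [h3]
    exact (inT_sub_fv (inT_cX t) p).2 ht
  · have h3 : AT t b p = none := by
      rw [← Option.not_isSome_iff_eq_none, AT_isSome]
      tauto
    rw [h3]
    rfl

/-- `Λ_C` is spanned by products of arrows: any subspace which contains the `e_v` and is stable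
under left multiplication by the arrows is everything. -/
theorem span_of_stable (C : Set (Arr t)) (U : Submodule ℂ (Lam C)) (h1 : ∀ v, eL C v ∈ U)
    (h2 : ∀ x, ∀ u ∈ U, aL C x * u ∈ U) : U = ⊤ := by
  classical
  -- words
  let S : Set (Lam C) := {u | ∃ (l : List (Arr t)) (v : Vert t),
    u = (l.map (aL C)).prod * eL C v}
  have hS1 : Submodule.span ℂ S ≤ U := by
    rw [Submodule.span_le]
    rintro u ⟨l, v, rfl⟩
    induction l with
    | nil => simpa using h1 v
    | cons x l ih =>
      rw [List.map_cons, List.prod_cons, mul_assoc]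
      exact h2 x _ ih
  have hS2 : ∀ x : Arr t, ∀ u ∈ Submodule.span ℂ S, aL C x * u ∈ Submodule.span ℂ S := by
    intro x u hu
    induction hu using Submodule.span_induction with
    | mem u hu =>
      obtain ⟨l, v, rfl⟩ := hu
      refine Submodule.subset_span ⟨x :: l, v, ?_⟩
      rw [List.map_cons, List.prod_cons, mul_assoc]
    | zero => rw [mul_zero]; exact Submodule.zero_mem _
    | add u v _ _ h3 h4 => rw [mul_add]; exact Submodule.add_mem _ h3 h4
    | smul c u _ h3 => rw [mul_smul_comm]; exact Submodule.smul_mem _ _ h3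
  have hS3 : ∀ w : Vert t, ∀ u ∈ Submodule.span ℂ S, eL C w * u ∈ Submodule.span ℂ S := by
    intro w u hu
    induction hu using Submodule.span_induction with
    | mem u hu =>
      obtain ⟨l, v, rfl⟩ := hu
      cases l with
      | nil =>
        by_cases hwv : w = v
        · subst hwv
          refine Submodule.subset_span ⟨[], w, ?_⟩
          simp only [List.map_nil, List.prod_nil, one_mul]
          exact (eL_complete C).idem w
        · simp only [List.map_nil, List.prod_nil, one_mul]
          rw [(eL_complete C).ortho hwv]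
          exact Submodule.zero_mem _
      | cons x l =>
        rw [List.map_cons, List.prod_cons, mul_assoc, ← mul_assoc (eL C w)]
        by_cases hwx : w = src x
        · rw [hwx, eL_src_mul]
          refine Submodule.subset_span ⟨x :: l, v, ?_⟩
          rw [List.map_cons, List.prod_cons, mul_assoc]
        · rw [← eL_src_mul C x, ← mul_assoc (eL C w), (eL_complete C).ortho hwx, zero_mul,
            zero_mul]
          exact Submodule.zero_mem _
    | zero => rw [mul_zero]; exact Submodule.zero_mem _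
    | add u v _ _ h3 h4 => rw [mul_add]; exact Submodule.add_mem _ h3 h4
    | smul c u _ h3 => rw [mul_smul_comm]; exact Submodule.smul_mem _ _ h3
  have hone : (1 : Lam C) ∈ Submodule.span ℂ S := by
    rw [← (eL_complete C).complete]
    refine Submodule.sum_mem _ fun v _ => Submodule.subset_span ⟨[], v, ?_⟩
    simp
  have key : ∀ z : FA t, ∀ u ∈ Submodule.span ℂ S,
      RingQuot.mkAlgHom ℂ (Rel C) z * u ∈ Submodule.span ℂ S := by
    intro z
    refine FreeAlgebra.induction ℂ (Vert t ⊕ Arr t)
      (motive := fun z => ∀ u ∈ Submodule.span ℂ S,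
        RingQuot.mkAlgHom ℂ (Rel C) z * u ∈ Submodule.span ℂ S) ?_ ?_ ?_ ?_ z
    · intro c u hu
      rw [AlgHom.commutes, ← Algebra.smul_def]
      exact Submodule.smul_mem _ _ hu
    · rintro (v | x) u hu
      · exact hS3 v u hu
      · exact hS2 x u hu
    · intro a b ha hb u hu
      rw [map_mul, mul_assoc]
      exact ha _ (hb _ hu)
    · intro a b ha hb u hu
      rw [map_add, add_mul]
      exact Submodule.add_mem _ (ha _ hu) (hb _ hu)
  rw [eq_top_iff]
  intro z _
  obtain ⟨z', rfl⟩ := RingQuot.mkAlgHom_surjective ℂ (Rel C) z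
  have := key z' 1 hone
  rw [mul_one] at this
  exact hS1 this

/-! ### commutation -/

theorem tgt_alphaC1 : tgt (.al (alpha1 t)) = .inl (vP t) := by
  have e : rot 0 (vS t).1 + fv 1 = (vP t).1 := by
    funext i
    fin_cases i
    · simp [vS, vP, rot, cX, fv]
    · simp [vS, vP, rot, cX, fv]
      ring
    · simp [vS, vP, rot, cX, fv]
  exact congrArg Sum.inl (Subtype.ext e)

theorem tgt_alphaC21 : tgt (.al (alpha21 t)) = .inl (vP t) := by
  have e : rot 1 (vS t).1 + fv 2 = (vP t).1 := by
    funext i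
    fin_cases i
    · simp [vS, vP, rot, cX, fv]
    · simp [vS, vP, rot, cX, fv]
      ring
    · simp [vS, vP, rot, cX, fv]
  exact congrArg Sum.inl (Subtype.ext e)

theorem AT_near_one (r : Fin 3) : AT t (cX t + fv r) (r + 1) = some (alpha21 t) := by
  have h := AT_self (alpha21 t)
  have h1 : (alpha21 t).1.2.1 + (alpha21 t).1.2.2 = 0 := by
    change (2 : Fin 3) + 1 = 0
    rfl
  rw [h1] at h
  have h2 := AT_rot (t := t) (cX t + fv r) (r + 1) (r - 2)
  have h3 : rot (r - 2) (cX t + fv r) = (alpha21 t).1.1.1 := by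
    rw [rot_add', rot_cX, rot_fv, sub_sub_cancel]
    rfl
  have h4 : r + 1 - (r - 2) = 0 := by
    have : (1 : Fin 3) + 2 = 0 := rfl
    rw [← this]
    abel
  rw [h3, h4] at h2
  rw [← h2, h]

theorem AT_near_two (r : Fin 3) : AT t (cX t + fv r) (r + 2) = some (alpha1 t) := by
  have h := AT_self (alpha1 t)
  have h1 : (alpha1 t).1.2.1 + (alpha1 t).1.2.2 = 1 := rfl
  rw [h1] at h
  have h2 := AT_rot (t := t) (cX t + fv r) (r + 2) (r - 2)
  have h3 : rot (r - 2) (cX t + fv r) = (alpha1 t).1.1.1 := by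
    rw [rot_add', rot_cX, rot_fv, sub_sub_cancel]
    rfl
  have h4 : r + 2 - (r - 2) = 1 := by
    have : (2 : Fin 3) + 2 = 1 := rfl
    rw [← this]
    abel
  rw [h3, h4] at h2
  rw [← h2, h]

theorem pow_zeta_congr {m n : ℕ} (h : m % 3 = n % 3) : zeta ^ m = zeta ^ n := by
  have key : ∀ m : ℕ, zeta ^ m = zeta ^ (m % 3) := by
    intro m
    conv_lhs => rw [← Nat.div_add_mod m 3]
    rw [pow_add, pow_mul, zeta_pow_three, one_pow, one_mul]
  rw [key m, key n, h]

theorem be_ga_ne (C : Set (Arr t)) {k l : Fin 3} (h : k ≠ l) :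
    aL C (.be k) * aL C (.ga l) = 0 := by
  rw [← aL_mul_tgt C (.be k), ← eL_src_mul C (.ga l), mul_assoc, ← mul_assoc (eL C _),
    (eL_complete C).ortho (by simpa [src, tgt] using h), zero_mul, mul_zero]

theorem sum_be_ga (C : Set (Arr t)) (u v : Fin 3 → ℂ) :
    (∑ k, u k • aL C (.be k)) * (∑ k, v k • aL C (.ga k)) =
      ∑ k, (u k * v k) • (aL C (.be k) * aL C (.ga k)) := by
  rw [Finset.sum_mul]
  refine Finset.sum_congr rfl fun k _ => ?_
  rw [Finset.mul_sum, Finset.sum_eq_single k]
  · rw [smul_mul_assoc, mul_smul_comm, smul_smul]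
  · intro l _ hl
    rw [smul_mul_assoc, mul_smul_comm, be_ga_ne C hl.symm, smul_zero, smul_zero]
  · simp

theorem rel_be (C : Set (Arr t)) (k : Fin 3) :
    aL C (.ga k) * aL C (.al (alpha1 t)) =
      zeta ^ (k : ℕ) • (aL C (.ga k) * aL C (.al (alpha21 t))) := by
  have h := rel_eq C (Rel.pot (.be k))
  rw [dW_be, map_zero, map_mul, map_sub, map_smul, mul_sub, mul_smul_comm, sub_eq_zero] at h
  exact h.symm

theorem rel_ga (C : Set (Arr t)) (k : Fin 3) :
    aL C (.al (alpha1 t)) * aL C (.be k) =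
      zeta ^ (k : ℕ) • (aL C (.al (alpha21 t)) * aL C (.be k)) := by
  have h := rel_eq C (Rel.pot (.ga k))
  rw [dW_ga, map_zero, map_mul, map_sub, map_smul, sub_mul, smul_mul_assoc, sub_eq_zero] at h
  exact h.symm

theorem aT_X (C : Set (Arr t)) (p : Fin 3) :
    aT C (cX t) p = ∑ k : Fin 3, (zeta ^ ((k : ℕ) * ((2 - p : Fin 3) : ℕ))) • aL C (.ga k) := by
  rw [aT, if_pos rfl]

theorem fv_ne (p : Fin 3) : fv p ≠ 0 := by
  intro h
  have := congrFun h p
  simp [fv] at this

theorem aT_to_X (C : Set (Arr t)) (b : Fin 3 → ℤ) (p : Fin 3) (h : b + fv p = cX t) :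
    aT C b p = ∑ k : Fin 3, (zeta ^ ((k : ℕ) * (p : ℕ))) • aL C (.be k) := by
  have h1 : b ≠ cX t := by
    rintro rfl
    exact fv_ne p (by simpa using h)
  rw [aT, if_neg h1, if_pos h]

theorem aT_AT (C : Set (Arr t)) (b : Fin 3 → ℤ) (p : Fin 3) (x : AlArr t)
    (h : AT t b p = some x) : aT C b p = aL C (.al x) := by
  have h4 := (AT_isSome b p).1 (by rw [h]; rfl)
  rw [aT, if_neg h4.2.2.1, if_neg h4.2.2.2, h]
  rfl

/-- The image of `gT` in `Λ_C`. -/
theorem mk_gT (C : Set (Arr t)) (b : Fin 3 → ℤ) (p : Fin 3) (hb : b ≠ cX t)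
    (hc : b + fv p ≠ cX t) : RingQuot.mkAlgHom ℂ (Rel C) (gT t b p) = aT C b p := by
  rw [aT, if_neg hb, if_neg hc, gT]
  cases AT t b p with
  | none => simp
  | some x => rfl

omit [NeZero t] in
theorem gT_eq_zero (b : Fin 3 → ℤ) (p : Fin 3) (h : b = cX t ∨ b + fv p = cX t) :
    gT t b p = 0 := by
  have h3 : AT t b p = none := by
    rw [← Option.not_isSome_iff_eq_none, AT_isSome]
    tauto
  rw [gT, h3]
  rfl

theorem add_two_sub (r : Fin 3) : r + 1 + 1 = r + 2 := by
  rw [add_assoc]; rfl

theorem add_two_two (r : Fin 3) : r + 2 + 2 = r + 1 := by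
  rw [add_assoc]; rfl

theorem fv_cycle (r : Fin 3) : fv r + fv (r + 1) + fv (r + 2) = 0 := by
  fin_cases r
  · exact fv_sum
  · have h := fv_sum
    change fv 1 + fv 2 + fv 0 = 0
    rw [← h]; abel
  · have h := fv_sum
    change fv 2 + fv 0 + fv 1 = 0
    rw [← h]; abel

/-- Commutation in the form: directions `r+1`, `r+2`. -/
theorem aT_comm_aux (C : Set (Arr t)) (b : Fin 3 → ℤ) (hb : InT t b) (r : Fin 3) :
    aT C b (r + 1) * aT C (b + fv (r + 1)) (r + 2) =
      aT C b (r + 2) * aT C (b + fv (r + 2)) (r + 1) := by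
  have hcyc := fv_cycle r
  by_cases hc : InT t (b - fv r)
  swap
  · -- both products vanish
    rw [inT_sub_fv hb] at hc
    rw [aT_eq_zero C b (r + 1) (fun h => hc ((inT_add_fv hb _).1 h.2)), zero_mul]
    by_cases h1 : InT t (b + fv (r + 2))
    · rw [aT_eq_zero C (b + fv (r + 2)) (r + 1), mul_zero]
      rintro ⟨-, h2⟩
      rw [inT_add_fv h1] at h2
      apply hc
      have h3 : fv (r + 2) (r + 1) = 0 := by
        fin_cases r <;> rfl
      rw [Pi.add_apply, h3, add_zero] at h2
      exact h2
    · rw [aT_eq_zero C b (r + 2) (fun h => h1 h.2), zero_mul]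
  by_cases hbX : b = cX t
  · -- `b = X`
    subst hbX
    rw [aT_X, aT_X]
    have e1 := AT_near_one (t := t) (r + 1)
    rw [add_two_sub] at e1
    have e2 := AT_near_two (t := t) (r + 2)
    rw [add_two_two] at e2
    rw [aT_AT C _ _ _ e1, aT_AT C _ _ _ e2, Finset.sum_mul, Finset.sum_mul]
    refine Finset.sum_congr rfl fun k _ => ?_
    rw [smul_mul_assoc, smul_mul_assoc, rel_be, smul_smul, ← pow_add]
    congr 1
    apply pow_zeta_congr
    fin_cases k <;> fin_cases r <;> rfl
  by_cases hcX : b - fv r = cX t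
  · -- `b = X + f_r`
    have hb2 : b = cX t + fv r := by rw [← hcX, sub_add_cancel]
    subst hb2
    have e1 := AT_near_one (t := t) r
    have e2 := AT_near_two (t := t) r
    have e3 : cX t + fv r + fv (r + 1) + fv (r + 2) = cX t := by
      rw [add_assoc, add_assoc, ← add_assoc (fv r), hcyc, add_zero]
    have e4 : cX t + fv r + fv (r + 2) + fv (r + 1) = cX t := by
      rw [add_right_comm]; exact e3
    rw [aT_AT C _ _ _ e1, aT_AT C _ _ _ e2, aT_to_X C _ _ e3, aT_to_X C _ _ e4,
      Finset.mul_sum, Finset.mul_sum]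
    refine Finset.sum_congr rfl fun k _ => ?_
    rw [mul_smul_comm, mul_smul_comm, rel_ga, smul_smul, ← pow_add]
    congr 1
    apply pow_zeta_congr
    fin_cases k <;> fin_cases r <;> rfl
  -- general case: use the arrow from `c = b - f_r` to `b`
  have hcb : b - fv r + fv r = b := sub_add_cancel _ _
  have hsome : (AT t (b - fv r) r).isSome = true := by
    rw [AT_isSome, hcb]
    exact ⟨hc, hb, hcX, hbX⟩
  obtain ⟨x, hx⟩ := Option.isSome_iff_exists.1 hsome
  obtain ⟨f1, f2, f3⟩ := AT_eq_some hx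
  rw [hcb] at f2 f3
  set Q := qi t (b - fv r) with hQ
  have hd : x.1.2.1 + x.1.2.2 = r - Q := by
    rw [f2, f3]
    abel
  have hpt : x.1.1.1 + fv (x.1.2.1 + x.1.2.2) = rot Q b := by
    rw [f1, hd, ← rot_fv, ← rot_add', hcb]
  have hg : ∀ (c : Fin 3 → ℤ) (p : Fin 3), gT t (rot Q c) (p - Q) = gT t c p := by
    intro c p
    rw [gT, gT, AT_rot]
  have hdW := rel_eq C (Rel.pot (.al x))
  rw [dW_al, hpt, hd] at hdW
  have i1 : r - Q + 1 = (r + 1) - Q := by abel
  have i2 : r - Q + 2 = (r + 2) - Q := by abel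
  rw [i1, i2, ← rot_fv, ← rot_fv, ← rot_add', ← rot_add', hg, hg, hg, hg] at hdW
  rw [map_zero, map_add, map_add, map_sub, map_mul, map_mul] at hdW
  by_cases hm1 : b + fv (r + 1) = cX t
  · -- the first path passes through `X`; the arrow is `alpha21`
    have hc2 : b - fv r = cX t + fv (r + 2) := by
      rw [← hm1]
      have : fv (r + 1) + fv (r + 2) = - fv r := by
        rw [eq_neg_iff_add_eq_zero, ← hcyc]; abel
      rw [add_assoc, this]; abel
    have hx2 : x = alpha21 t := by
      have e1 := AT_near_one (t := t) (r + 2)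
      have i3 : r + 2 + 1 = r := by rw [add_assoc]; exact add_zero r
      rw [i3, ← hc2, hx] at e1
      exact Option.some_injective _ e1
    have hm2 : b + fv (r + 2) ≠ cX t := by
      intro h
      have h1 : fv (r + 1) = fv (r + 2) := add_left_cancel (hm1.trans h.symm)
      have h2 := congrFun h1 (r + 1)
      fin_cases r <;> simp [fv] at h2
    have hne : alpha21 t ≠ alpha1 t := by
      intro h
      have h1 : (2 : Fin 3) = 1 := congrArg (fun y : AlArr t => y.1.2.1) h
      exact absurd h1 (by decide)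
    rw [gT_eq_zero b (r + 1) (Or.inr hm1), map_zero, zero_mul, zero_sub, if_neg (hx2 ▸ hne),
      map_zero, add_zero, if_pos hx2, mk_gT C _ _ hbX hm2, mk_gT C _ _ hm2 ?_] at hdW
    · rw [neg_add_eq_zero] at hdW
      rw [hdW, hm1, aT_to_X C _ _ hm1, aT_X, sum_be_ga, map_sum]
      refine Finset.sum_congr rfl fun k _ => ?_
      rw [map_smul, map_mul, ← pow_add]
      change _ = zeta ^ (k : ℕ) • (aL C (.be k) * aL C (.ga k))
      congr 1
      apply pow_zeta_congr
      fin_cases k <;> fin_cases r <;> rfl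
    · intro h
      rw [add_right_comm, hm1] at h
      exact fv_ne _ (by simpa using h)
  by_cases hm2 : b + fv (r + 2) = cX t
  · -- the second path passes through `X`; the arrow is `alpha1`
    have hc2 : b - fv r = cX t + fv (r + 1) := by
      rw [← hm2]
      have : fv (r + 2) + fv (r + 1) = - fv r := by
        rw [eq_neg_iff_add_eq_zero, ← hcyc]; abel
      rw [add_assoc, this]; abel
    have hx2 : x = alpha1 t := by
      have e1 := AT_near_two (t := t) (r + 1)
      have i3 : r + 1 + 2 = r := by rw [add_assoc]; exact add_zero r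
      rw [i3, ← hc2, hx] at e1
      exact Option.some_injective _ e1
    have hne : alpha1 t ≠ alpha21 t := by
      intro h
      have h1 : (1 : Fin 3) = 2 := congrArg (fun y : AlArr t => y.1.2.1) h
      exact absurd h1 (by decide)
    rw [gT_eq_zero b (r + 2) (Or.inr hm2), map_zero, zero_mul, sub_zero, if_pos hx2,
      if_neg (hx2 ▸ hne), map_zero, add_zero, mk_gT C _ _ hbX hm1, mk_gT C _ _ hm1 ?_,
      map_neg, ← sub_eq_add_neg, sub_eq_zero] at hdW
    · rw [hdW, hm2, aT_to_X C _ _ hm2, aT_X, sum_be_ga, map_sum]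
      refine Finset.sum_congr rfl fun k _ => ?_
      rw [map_mul, ← pow_add]
      have e5 : zeta ^ ((k : ℕ) * ((r + 2 : Fin 3) : ℕ) +
          (k : ℕ) * ((2 - (r + 1) : Fin 3) : ℕ)) = 1 := by
        rw [← pow_zero zeta]
        apply pow_zeta_congr
        fin_cases k <;> fin_cases r <;> rfl
      rw [e5, one_smul]
      rfl
    · intro h
      rw [add_right_comm, hm2] at h
      exact fv_ne _ (by simpa using h)
  · -- no path passes through `X`
    have hmid1 : b + fv (r + 1) + fv (r + 2) ≠ cX t := by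
      have : b + fv (r + 1) + fv (r + 2) = b - fv r := by
        have : fv (r + 1) + fv (r + 2) = - fv r := by
          rw [eq_neg_iff_add_eq_zero, ← hcyc]; abel
        rw [add_assoc, this]; abel
      rw [this]
      exact hcX
    have hmid2 : b + fv (r + 2) + fv (r + 1) ≠ cX t := by
      rw [add_right_comm]; exact hmid1
    -- the arrow is neither `alpha1` nor `alpha21`
    have hvP : src (.al x) = .inl (vS t) → tgt (.al x) ≠ .inl (vP t) := by
      intro h0 h
      rw [AT_tgt hx 0, hcb] at h
      rw [AT_src hx 0] at h0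
      obtain ⟨s', hs'⟩ := (vrt_eq_iff 0 (vS t)).1 h0
      have hs3 : b = cX t + fv (2 - s') + fv r := by
        have e0 : b - fv r = cX t + fv (2 - s') := by
          rw [hs']
          change rot s' (cX t + fv 2) = _
          rw [rot_add', rot_cX, rot_fv]
        rw [← e0, sub_add_cancel]
      obtain ⟨s, hs⟩ := (vrt_eq_iff 0 (vP t)).1 h
      have hs2 : b + fv (-s) = cX t := by
        rw [hs]
        change rot s (cX t - fv 0) + fv (-s) = cX t
        have e0 : rot s (cX t - fv 0) + rot s (fv 0) = cX t := by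
          rw [← rot_add', sub_add_cancel, rot_cX]
        rw [rot_fv, zero_sub] at e0
        exact e0
      have h3 : -s = r ∨ -s = r + 1 ∨ -s = r + 2 := by
        generalize -s = u
        fin_cases u <;> fin_cases r <;> decide
      rcases h3 with h3 | h3 | h3
      · -- `b + f_r = X`, so `f_u + 2 f_r = 0`: impossible
        rw [h3, hs3] at hs2
        generalize 2 - s' = u at hs2
        have h4 := congrFun hs2 r
        simp only [Pi.add_apply] at h4
        have h5 : fv r r = -1 := by simp [fv]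
        rw [h5] at h4
        have h6 : fv u r ≤ 1 := by
          fin_cases u <;> fin_cases r <;> decide
        omega
      · rw [h3] at hs2
        exact hm1 hs2
      · rw [h3] at hs2
        exact hm2 hs2
    rw [if_neg, if_neg, map_zero, add_zero, add_zero, mk_gT C _ _ hbX hm1,
      mk_gT C _ _ hm1 hmid1, mk_gT C _ _ hbX hm2, mk_gT C _ _ hm2 hmid2, sub_eq_zero] at hdW
    · exact hdW
    · rintro rfl
      exact hvP rfl tgt_alphaC21
    · rintro rfl
      exact hvP rfl tgt_alphaC1

/-- Commutation of consecutive steps of the triangle. -/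
theorem aT_comm (C : Set (Arr t)) (b : Fin 3 → ℤ) (hb : InT t b) (p q : Fin 3) :
    aT C b p * aT C (b + fv p) q = aT C b q * aT C (b + fv q) p := by
  by_cases hpq : p = q
  · subst hpq
    rfl
  have key : ∃ r : Fin 3, (p = r + 1 ∧ q = r + 2) ∨ (p = r + 2 ∧ q = r + 1) := by
    revert hpq
    revert p q
    decide
  obtain ⟨r, ⟨rfl, rfl⟩ | ⟨rfl, rfl⟩⟩ := key
  · exact aT_comm_aux C b hb r
  · exact (aT_comm_aux C b hb r).symm

end MPdda
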