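import Pool.Agent.H.MP_dda0b9_al.DefsRep

/-!
# MP_dda0b9_al: the map `delta` (job J11)
-/

namespace MPdda

open CategoryTheory CategoryTheory.Limits

attribute [local instance] Abelian.hasFiniteBiproducts

variable {n : ℕ} {hn : 4 ≤ n} {o : Fin (n - 1) → Bool}

namespace Dl

/-- The linear map of a morphism at a vertex. -/
noncomputable def ap {V W : DRep n hn o} (φ : V ⟶ W) (x : Fin n) :
    V.obj (pv n hn o x) →ₗ[ℂ] W.obj (pv n hn o x) :=
  (φ.app (pv n hn o x)).hom.hom

theorem ap_comp {V W Z : DRep n hn o} (φ : V ⟶ W) (ψ : W ⟶ Z) (x : Fin n) :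
    ap (φ ≫ ψ) x = ap ψ x ∘ₗ ap φ x := rfl

theorem ap_id (V : DRep n hn o) (x : Fin n) : ap (𝟙 V) x = LinearMap.id := rfl

theorem ap_add {V W : DRep n hn o} (φ ψ : V ⟶ W) (x : Fin n) :
    ap (φ + ψ) x = ap φ x + ap ψ x := rfl

theorem ap_sub {V W : DRep n hn o} (φ ψ : V ⟶ W) (x : Fin n) :
    ap (φ - ψ) x = ap φ x - ap ψ x := rfl

theorem ap_smul {V W : DRep n hn o} (c : ℂ) (φ : V ⟶ W) (x : Fin n) :
    ap (c • φ) x = c • ap φ x := rfl

theorem ap_zero {V W : DRep n hn o} (x : Fin n) : ap (0 : V ⟶ W) x = 0 := rfl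

theorem hom_ext {V W : DRep n hn o} {φ ψ : V ⟶ W} (h : ∀ x, ap φ x = ap ψ x) : φ = ψ := by
  apply NatTrans.ext
  funext X
  exact FGModuleCat.hom_ext (h X.val)

theorem ap_dmap {V W : DRep n hn o} (φ : V ⟶ W) (k : Fin (n - 1)) :
    dmap W k ∘ₗ ap φ (dSrc n hn o k) = ap φ (dTgt n hn o k) ∘ₗ dmap V k := by
  have h := φ.naturality (pa n hn o k)
  have h' := congrArg (fun f => f.hom.hom) h
  exact h'.symm

theorem delta_apply {V W : DRep n hn o}
    (f : ∀ x : Fin n, V.obj (pv n hn o x) →ₗ[ℂ] W.obj (pv n hn o x)) (k : Fin (n - 1)) :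
    delta V W f k = (dmap W k) ∘ₗ f (dSrc n hn o k) - f (dTgt n hn o k) ∘ₗ (dmap V k) := rfl

theorem delta_ap {V W : DRep n hn o} (φ : V ⟶ W) : delta V W (ap φ) = 0 := by
  funext k
  rw [delta_apply, ap_dmap, sub_self]
  rfl

/-- Naturality on a path category follows from naturality for the arrows. -/
theorem nat_of_arrows {Q : Type} [Quiver.{0} Q] {C : Type 1} [Category.{0} C] (F G : Paths Q ⥤ C)
    (g : ∀ X : Paths Q, F.obj X ⟶ G.obj X)
    (h : ∀ {u v : Q} (q : u ⟶ v), F.map ((Paths.of Q).map q) ≫ g ((Paths.of Q).obj v)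
      = g ((Paths.of Q).obj u) ≫ G.map ((Paths.of Q).map q))
    {X Y : Paths Q} (p : X ⟶ Y) : F.map p ≫ g Y = g X ≫ G.map p := by
  refine Paths.induction (V := Q) (fun {X Y} p => F.map p ≫ g Y = g X ≫ G.map p) ?_ ?_ p
  · intro v
    rw [F.map_id, G.map_id, Category.id_comp, Category.comp_id]
  · intro u v w p q hp
    rw [F.map_comp, G.map_comp, Category.assoc, h q, ← Category.assoc, hp, Category.assoc]

/-- The morphism given by a family commuting with the arrows. -/
noncomputable def mkHom {V W : DRep n hn o}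
    (f : ∀ x : Fin n, V.obj (pv n hn o x) →ₗ[ℂ] W.obj (pv n hn o x))
    (h : delta V W f = 0) : V ⟶ W where
  app X := ObjectProperty.homMk (ModuleCat.ofHom (f X.val))
  naturality {X Y} p := by
    refine nat_of_arrows V W (fun X => ObjectProperty.homMk (ModuleCat.ofHom (f X.val))) ?_ p
    intro v w q
    obtain ⟨v⟩ := v
    obtain ⟨w⟩ := w
    obtain ⟨k, hs, ht⟩ := q
    dsimp only at hs ht
    subst hs
    subst ht
    have hk := congrFun h k
    rw [delta_apply] at hk
    have hk' : dmap W k ∘ₗ f (dSrc n hn o k) = f (dTgt n hn o k) ∘ₗ dmap V k :=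
      sub_eq_zero.1 hk
    exact FGModuleCat.hom_ext hk'.symm

theorem ap_mkHom {V W : DRep n hn o}
    (f : ∀ x : Fin n, V.obj (pv n hn o x) →ₗ[ℂ] W.obj (pv n hn o x))
    (h : delta V W f = 0) (x : Fin n) : ap (mkHom f h) x = f x := rfl

/-- Morphisms are the kernel of `delta`. -/
noncomputable def homEquiv (V W : DRep n hn o) : (V ⟶ W) ≃ₗ[ℂ] LinearMap.ker (delta V W) where
  toFun φ := ⟨ap φ, delta_ap φ⟩
  map_add' _ _ := rfl
  map_smul' _ _ := rfl
  invFun f := mkHom f.1 f.2
  left_inv _ := hom_ext fun _ => rfl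
  right_inv _ := rfl

/-- Evaluation at a vertex, as a functor to modules. -/
noncomputable def ev (n : ℕ) (hn : 4 ≤ n) (o : Fin (n - 1) → Bool) (x : Fin n) :
    DRep n hn o ⥤ ModuleCat.{0} ℂ :=
  (evaluation _ _).obj (pv n hn o x) ⋙ forget₂ (FGModuleCat.{0} ℂ) (ModuleCat.{0} ℂ)

theorem ev_shortExact (S : ShortComplex (DRep n hn o)) (hS : S.ShortExact) (x : Fin n) :
    (S.map ((evaluation _ _).obj (pv n hn o x) ⋙
      forget₂ (FGModuleCat.{0} ℂ) (ModuleCat.{0} ℂ))).ShortExact :=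
  hS.map_of_exact _

theorem ap_injective (S : ShortComplex (DRep n hn o)) (hS : S.ShortExact) (x : Fin n) :
    Function.Injective (ap S.f x) :=
  (ev_shortExact S hS x).moduleCat_injective_f

theorem ap_surjective (S : ShortComplex (DRep n hn o)) (hS : S.ShortExact) (x : Fin n) :
    Function.Surjective (ap S.g x) :=
  (ev_shortExact S hS x).moduleCat_surjective_g

theorem ap_exact (S : ShortComplex (DRep n hn o)) (hS : S.ShortExact) (x : Fin n) :
    Function.Exact (ap S.f x) (ap S.g x) :=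
  (ShortComplex.ShortExact.moduleCat_exact_iff_function_exact _).1 (ev_shortExact S hS x).exact

theorem ap_injective_of_mono {V W : DRep n hn o} (i : V ⟶ W) [Mono i] (x : Fin n) :
    Function.Injective (ap i x) := by
  have h : Mono (((evaluation _ _).obj (pv n hn o x) ⋙
      forget₂ (FGModuleCat.{0} ℂ) (ModuleCat.{0} ℂ)).map i) := inferInstance
  exact (ModuleCat.mono_iff_injective _).1 h

/-- A linear map vanishing on the kernel of a surjective map factors through it. -/
theorem factor_surj {A B W : Type} [AddCommGroup A] [Module ℂ A] [AddCommGroup B] [Module ℂ B]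
    [AddCommGroup W] [Module ℂ W] (p : A →ₗ[ℂ] B) (hp : Function.Surjective p) (d : A →ₗ[ℂ] W)
    (hd : ∀ a, p a = 0 → d a = 0) : ∃ c : B →ₗ[ℂ] W, c ∘ₗ p = d := by
  obtain ⟨s, hs⟩ := LinearMap.exists_rightInverse_of_surjective p (LinearMap.range_eq_top.2 hp)
  refine ⟨d ∘ₗ s, ?_⟩
  ext a
  have h1 : p (s (p a) - a) = 0 := by
    have h2 : p (s (p a)) = p a := DFunLike.congr_fun hs (p a)
    rw [map_sub, h2, sub_self]
  have h3 := hd _ h1
  rw [map_sub, sub_eq_zero] at h3
  exact h3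

/-- A linear map extends along an injective map. -/
theorem extend_inj {A B W : Type} [AddCommGroup A] [Module ℂ A] [AddCommGroup B] [Module ℂ B]
    [AddCommGroup W] [Module ℂ W] (i : A →ₗ[ℂ] B) (hi : Function.Injective i) (f : A →ₗ[ℂ] W) :
    ∃ g : B →ₗ[ℂ] W, g ∘ₗ i = f := by
  obtain ⟨l, hl⟩ := LinearMap.exists_leftInverse_of_injective i (LinearMap.ker_eq_bot.2 hi)
  refine ⟨f ∘ₗ l, ?_⟩
  rw [LinearMap.comp_assoc, hl, LinearMap.comp_id]

end Dl

open Dl

/-- Morphisms of representations are the families in the kernel of `delta`. -/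
theorem hom_equiv_ker (V W : DRep n hn o) :
    Nonempty ((V ⟶ W) ≃ₗ[ℂ] LinearMap.ker (delta V W)) :=
  ⟨homEquiv V W⟩

theorem drep_hom_fd (V W : DRep n hn o) : FiniteDimensional ℂ (V ⟶ W) :=
  Module.Finite.equiv (homEquiv V W).symm

/-- Euler form: `dim Hom(V, W) - dim Ext¹(V, W)`. -/
theorem euler_delta (V W : DRep n hn o) :
    (Module.finrank ℂ (V ⟶ W) : ℤ) -
      Module.finrank ℂ ((∀ k : Fin (n - 1), V.obj (pv n hn o (dSrc n hn o k)) →ₗ[ℂ]
        W.obj (pv n hn o (dTgt n hn o k))) ⧸ LinearMap.range (delta V W)) =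
      eform n hn o (fun x => (dimV V x : ℤ)) (fun x => (dimV W x : ℤ)) := by
  have h1 := LinearMap.finrank_range_add_finrank_ker (delta V W)
  have h2 := Submodule.finrank_quotient_add_finrank (LinearMap.range (delta V W))
  have h3 := (homEquiv V W).finrank_eq
  have h4 : Module.finrank ℂ (∀ x : Fin n, V.obj (pv n hn o x) →ₗ[ℂ] W.obj (pv n hn o x))
      = ∑ x, dimV V x * dimV W x := by
    rw [Module.finrank_pi_fintype]
    refine Finset.sum_congr rfl fun x _ => ?_
    rw [Module.finrank_linearMap]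
    rfl
  have h5 : Module.finrank ℂ (∀ k : Fin (n - 1), V.obj (pv n hn o (dSrc n hn o k)) →ₗ[ℂ]
        W.obj (pv n hn o (dTgt n hn o k)))
      = ∑ k, dimV V (dSrc n hn o k) * dimV W (dTgt n hn o k) := by
    rw [Module.finrank_pi_fintype]
    refine Finset.sum_congr rfl fun x _ => ?_
    rw [Module.finrank_linearMap]
    rfl
  rw [h4] at h1
  rw [h5] at h2
  unfold eform
  have h1' : ((∑ x, dimV V x * dimV W x : ℕ) : ℤ) = ∑ x, (dimV V x : ℤ) * (dimV W x : ℤ) := by
    push_cast
    rfl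
  have h2' : ((∑ k, dimV V (dSrc n hn o k) * dimV W (dTgt n hn o k) : ℕ) : ℤ)
      = ∑ k, (dimV V (dSrc n hn o k) : ℤ) * (dimV W (dTgt n hn o k) : ℤ) := by
    push_cast
    rfl
  rw [← h1', ← h2', h3]
  omega

/-- If `Ext¹(Z, W) = 0` then morphisms to `W` extend along monomorphisms with cokernel `Z`. -/
theorem extend_of_surjective (W : DRep n hn o) (S : ShortComplex (DRep n hn o))
    (hS : S.ShortExact) (h : Function.Surjective (delta S.X₃ W)) (f : S.X₁ ⟶ W) :
    ∃ g : S.X₂ ⟶ W, S.f ≫ g = f := by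
  have h1 : ∀ x, ∃ g : S.X₂.obj (pv n hn o x) →ₗ[ℂ] W.obj (pv n hn o x),
      g ∘ₗ ap S.f x = ap f x := fun x => extend_inj _ (ap_injective S hS x) _
  choose g hg using h1
  have h2 : ∀ k, ∃ c : S.X₃.obj (pv n hn o (dSrc n hn o k)) →ₗ[ℂ]
      W.obj (pv n hn o (dTgt n hn o k)),
      c ∘ₗ ap S.g (dSrc n hn o k) = delta S.X₂ W g k := by
    intro k
    refine factor_surj _ (ap_surjective S hS _) _ fun a ha => ?_
    obtain ⟨b, rfl⟩ := (ap_exact S hS _ a).1 ha
    have e1 := DFunLike.congr_fun (ap_dmap f k) b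
    have e2 := DFunLike.congr_fun (ap_dmap S.f k) b
    have e3 := DFunLike.congr_fun (hg (dSrc n hn o k)) b
    have e4 := DFunLike.congr_fun (hg (dTgt n hn o k)) (dmap S.X₁ k b)
    simp only [LinearMap.comp_apply] at e1 e2 e3 e4
    rw [delta_apply, LinearMap.sub_apply, LinearMap.comp_apply, LinearMap.comp_apply, e3, e2, e4,
      e1, sub_self]
  choose c hc using h2
  obtain ⟨u, hu⟩ := h c
  have h3 : delta S.X₂ W (fun x => g x - u x ∘ₗ ap S.g x) = 0 := by
    funext k
    ext a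
    have e1 := DFunLike.congr_fun (hc k) a
    have e2 := DFunLike.congr_fun (congrFun hu k) (ap S.g (dSrc n hn o k) a)
    have e3 := DFunLike.congr_fun (ap_dmap S.g k) a
    rw [delta_apply] at e1 e2
    simp only [LinearMap.comp_apply, LinearMap.sub_apply] at e1 e2 e3
    rw [delta_apply]
    simp only [LinearMap.comp_apply, LinearMap.sub_apply, map_sub, Pi.zero_apply,
      LinearMap.zero_apply]
    rw [← e3]
    rw [e1] at e2
    rw [sub_sub_sub_comm, ← e2, sub_self]
  refine ⟨mkHom _ h3, hom_ext fun x => ?_⟩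
  rw [ap_comp, ap_mkHom]
  have h4 : ap S.g x ∘ₗ ap S.f x = 0 := by
    rw [← ap_comp, S.zero, ap_zero]
  rw [LinearMap.sub_comp, hg, LinearMap.comp_assoc, h4, LinearMap.comp_zero, sub_zero]

/-- Hereditary: `Ext¹(V', W) = 0` implies `Ext¹(V, W) = 0` for a subobject `V` of `V'`. -/
theorem surjective_of_mono {V V' : DRep n hn o} (W : DRep n hn o) (i : V ⟶ V') [Mono i]
    (h : Function.Surjective (delta V' W)) : Function.Surjective (delta V W) := by
  intro g
  have h1 : ∀ k, ∃ g' : V'.obj (pv n hn o (dSrc n hn o k)) →ₗ[ℂ]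
      W.obj (pv n hn o (dTgt n hn o k)), g' ∘ₗ ap i (dSrc n hn o k) = g k :=
    fun k => extend_inj _ (ap_injective_of_mono i _) _
  choose g' hg' using h1
  obtain ⟨f', hf'⟩ := h g'
  refine ⟨fun x => f' x ∘ₗ ap i x, ?_⟩
  funext k
  ext a
  have e1 := DFunLike.congr_fun (hg' k) a
  have e2 := DFunLike.congr_fun (congrFun hf' k) (ap i (dSrc n hn o k) a)
  have e3 := DFunLike.congr_fun (ap_dmap i k) a
  rw [delta_apply] at e2
  rw [delta_apply]
  simp only [LinearMap.comp_apply, LinearMap.sub_apply] at e1 e2 e3 ⊢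
  rw [← e1, ← e2, e3]

/-- Additivity of the dimension at a vertex. -/
theorem dimV_shortExact (S : ShortComplex (DRep n hn o)) (hS : S.ShortExact) (x : Fin n) :
    dimV S.X₂ x = dimV S.X₁ x + dimV S.X₃ x := by
  have h1 := LinearMap.finrank_range_add_finrank_ker (ap S.g x)
  rw [LinearMap.range_eq_top.2 (ap_surjective S hS x), finrank_top,
    LinearMap.exact_iff.1 (ap_exact S hS x),
    LinearMap.finrank_range_of_inj (ap_injective S hS x)] at h1
  unfold dimV
  rw [← h1, add_comm]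

/-- A representation with all spaces zero is a zero object and conversely. -/
theorem isZero_iff_dimV (V : DRep n hn o) : IsZero V ↔ ∀ x, dimV V x = 0 := by
  constructor
  · intro h x
    have h1 : 𝟙 V = 0 := (IsZero.iff_id_eq_zero V).1 h
    have h2 : ap (𝟙 V) x = 0 := by rw [h1, ap_zero]
    rw [ap_id] at h2
    unfold dimV
    rw [Module.finrank_eq_zero_iff_of_free]
    refine ⟨fun a b => ?_⟩
    have ha := DFunLike.congr_fun h2 a
    have hb := DFunLike.congr_fun h2 b
    simp only [LinearMap.id_apply, LinearMap.zero_apply] at ha hb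
    rw [ha, hb]
  · intro h
    rw [IsZero.iff_id_eq_zero]
    refine hom_ext fun x => ?_
    have h1 := h x
    unfold dimV at h1
    rw [Module.finrank_eq_zero_iff_of_free] at h1
    ext a
    exact Subsingleton.elim _ _

end MPdda
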