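import Pool.Agent.H.MP_dda0b9_al.DefsProj
import Pool.Agent.H.MP_dda0b9_al.Delta
import Pool.Agent.H.MP_dda0b9_al.AlmostSplit

/-!
# MP_dda0b9_al: the contribution of one indecomposable to the trace (job J15)
-/

namespace MPdda

open CategoryTheory CategoryTheory.Limits

attribute [local instance] Abelian.hasFiniteBiproducts

variable {n : ℕ} {hn : 4 ≤ n} {o : Fin (n - 1) → Bool}

theorem contrib_nonproj (D : ProjData n hn o) {E X : DRep n hn o} (f : E ⟶ X) (hf : RAS f)
    (hX : Indecomposable X) (hnp : ∀ x, ¬ Nonempty (X ≅ D.PP x))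
    (hrigid : Function.Surjective (delta X X)) :
    (Module.finrank ℂ (X ⟶ X) : ℤ) - Module.finrank ℂ (E ⟶ X) +
      Module.finrank ℂ (kernel f ⟶ X) = 0 := by
  have hepi : Epi f := D.epi_of_lift f fun x φ =>
    hf.lift (D.PP x) φ (D.indec x) fun hiso => hnp x ⟨(asIso φ).symm⟩
  let S : ShortComplex (DRep n hn o) := ShortComplex.mk (kernel.ι f) f (kernel.condition f)
  have hSe : S.Exact := ShortComplex.exact_of_f_is_kernel S (kernelIsKernel f)
  have hS : S.ShortExact := { exact := hSe, mono_f := inferInstanceAs (Mono (kernel.ι f)),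
                              epi_g := hepi }
  have hfd := drep_hom_fd E X
  have h1 := LinearMap.finrank_range_add_finrank_ker (Linear.leftComp ℂ X (kernel.ι f))
  have hr : LinearMap.range (Linear.leftComp ℂ X (kernel.ι f)) = ⊤ := by
    rw [LinearMap.range_eq_top]
    intro k
    obtain ⟨g, hg⟩ := extend_of_surjective X S hS hrigid k
    exact ⟨g, hg⟩
  let φ : (X ⟶ X) →ₗ[ℂ] LinearMap.ker (Linear.leftComp ℂ X (kernel.ι f)) :=
    { toFun := fun g => ⟨f ≫ g, by simp⟩
      map_add' := fun g h => by
        apply Subtype.ext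
        simp
      map_smul' := fun c g => by
        apply Subtype.ext
        simp }
  have hφ : Function.Bijective φ := by
    constructor
    · intro g h hgh
      have := congrArg Subtype.val hgh
      exact (cancel_epi f).1 this
    · rintro ⟨g, hg⟩
      rw [LinearMap.mem_ker, Linear.leftComp_apply] at hg
      refine ⟨hSe.desc g hg, ?_⟩
      apply Subtype.ext
      exact hSe.g_desc g hg
  have h2 := (LinearEquiv.ofBijective φ hφ).finrank_eq
  rw [hr, finrank_top, ← h2] at h1
  rw [← h1]
  push_cast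
  ring

/-- dimension of the morphisms from a finite direct sum -/
theorem finrank_from_biproduct' {κ : Type} [Fintype κ] (Y : κ → DRep n hn o)
    (Z : DRep n hn o) :
    Module.finrank ℂ (⨁ Y ⟶ Z) = ∑ k, Module.finrank ℂ (Y k ⟶ Z) := by
  have hfd := drep_hom_fd (n := n) (hn := hn) (o := o)
  let φ : (⨁ Y ⟶ Z) ≃ₗ[ℂ] (∀ k, Y k ⟶ Z) :=
    { toFun := fun f k => biproduct.ι Y k ≫ f
      invFun := fun g => biproduct.desc g
      left_inv := fun f => by
        apply biproduct.hom_ext'
        intro k
        simp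
      right_inv := fun g => by
        funext k
        simp
      map_add' := fun f g => by
        funext k
        simp
      map_smul' := fun c f => by
        funext k
        simp }
  rw [φ.finrank_eq, Module.finrank_pi_fintype]

theorem contrib_proj_aux (D : ProjData n hn o) {E : DRep n hn o} (x : Fin n)
    (f : E ⟶ D.PP x) (hf : RAS f) :
    (Module.finrank ℂ (D.PP x ⟶ D.PP x) : ℤ) - Module.finrank ℂ (E ⟶ D.PP x) +
      Module.finrank ℂ (kernel f ⟶ D.PP x) =
    1 - (Finset.card {k : Fin (n - 1) | dSrc n hn o k = x} : ℤ) := by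
  have hproj := D.proj x
  have hmono := D.mono_r x
  have ha : Module.finrank ℂ (D.PP x ⟶ D.PP x) = 1 := by rw [D.finrank_hom, D.dim_self]
  have hb : ¬ Epi f := by
    intro hepi
    exact hf.not_split (Projective.factorThru (𝟙 _) f) (Projective.factorThru_comp _ _)
  obtain ⟨f', hf'⟩ := D.factor x E f hb
  obtain ⟨e⟩ := D.R_iso x
  have hlift : ∀ k : {k : Fin (n - 1) // dSrc n hn o k = x},
      ∃ h : D.PP (dTgt n hn o k) ⟶ E,
        h ≫ f = (biproduct.ι (fun k : {k : Fin (n - 1) // dSrc n hn o k = x} =>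
          D.PP (dTgt n hn o k)) k ≫ e.inv) ≫ D.r x := by
    intro k
    refine hf.lift _ _ (D.indec _) fun hiso => ?_
    exact D.not_epi_r x (epi_of_epi (biproduct.ι (fun k : {k : Fin (n - 1) //
      dSrc n hn o k = x} => D.PP (dTgt n hn o k)) k ≫ e.inv) (D.r x))
  choose h hh using hlift
  let s : D.R x ⟶ E := e.hom ≫ biproduct.desc h
  have hs : s ≫ f = D.r x := by
    have h1 : biproduct.desc h ≫ f = e.inv ≫ D.r x := by
      apply biproduct.hom_ext'
      intro k
      rw [biproduct.ι_desc_assoc, hh k, Category.assoc]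
    simp only [s, Category.assoc]
    rw [h1, Iso.hom_inv_id_assoc]
  have hsf : s ≫ f' = 𝟙 _ := by
    rw [← cancel_mono (D.r x), Category.assoc, hf', hs, Category.id_comp]
  have hιf' : kernel.ι f ≫ f' = 0 := by
    rw [← cancel_mono (D.r x), Category.assoc, hf', kernel.condition, zero_comp]
  let p : E ⟶ kernel f := kernel.lift f (𝟙 E - f' ≫ s) (by
    rw [Preadditive.sub_comp, Category.id_comp, Category.assoc, hs, hf', sub_self])
  have hpι : p ≫ kernel.ι f = 𝟙 E - f' ≫ s := kernel.lift_ι _ _ _
  have hιp : kernel.ι f ≫ p = 𝟙 _ := by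
    rw [← cancel_mono (kernel.ι f), Category.assoc, hpι, Preadditive.comp_sub,
      Category.comp_id, ← Category.assoc, hιf', zero_comp, sub_zero, Category.id_comp]
  have hfd := drep_hom_fd E (D.PP x)
  have h1 := LinearMap.finrank_range_add_finrank_ker (Linear.leftComp ℂ (D.PP x) (kernel.ι f))
  have hr : LinearMap.range (Linear.leftComp ℂ (D.PP x) (kernel.ι f)) = ⊤ := by
    rw [LinearMap.range_eq_top]
    intro k
    refine ⟨p ≫ k, ?_⟩
    rw [Linear.leftComp_apply, ← Category.assoc, hιp, Category.id_comp]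
  let φ : (D.R x ⟶ D.PP x) ≃ₗ[ℂ] LinearMap.ker (Linear.leftComp ℂ (D.PP x) (kernel.ι f)) :=
    { toFun := fun g => ⟨f' ≫ g, by
        rw [LinearMap.mem_ker, Linear.leftComp_apply, ← Category.assoc, hιf', zero_comp]⟩
      invFun := fun g => s ≫ g.1
      left_inv := fun g => by
        change s ≫ f' ≫ g = g
        rw [← Category.assoc, hsf, Category.id_comp]
      right_inv := fun g => by
        apply Subtype.ext
        change f' ≫ s ≫ g.1 = g.1
        have h2 := g.2
        rw [LinearMap.mem_ker, Linear.leftComp_apply] at h2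
        have h3 : (𝟙 E - f' ≫ s) ≫ g.1 = 0 := by
          rw [← hpι, Category.assoc, h2, comp_zero]
        rw [Preadditive.sub_comp, Category.id_comp, Category.assoc, sub_eq_zero] at h3
        exact h3.symm
      map_add' := fun g h => by
        apply Subtype.ext
        simp
      map_smul' := fun c g => by
        apply Subtype.ext
        simp }
  have h2 : Module.finrank ℂ (D.R x ⟶ D.PP x)
      = Finset.card {k : Fin (n - 1) | dSrc n hn o k = x} := by
    rw [(Linear.homCongr ℂ e (Iso.refl (D.PP x))).finrank_eq, finrank_from_biproduct']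
    have h3 : ∀ k : {k : Fin (n - 1) // dSrc n hn o k = x},
        Module.finrank ℂ (D.PP (dTgt n hn o k) ⟶ D.PP x) = 1 := by
      rintro ⟨k, rfl⟩
      rw [D.finrank_hom, D.dim_arrow]
    rw [Finset.sum_congr rfl (fun k _ => h3 k), Finset.sum_const, smul_eq_mul, mul_one,
      Finset.card_univ, Fintype.card_subtype]
  rw [hr, finrank_top, ← φ.finrank_eq, h2] at h1
  rw [ha, ← h1]
  push_cast
  ring

theorem contrib_proj (D : ProjData n hn o) {E X : DRep n hn o} (f : E ⟶ X) (hf : RAS f)
    (x : Fin n) (e : X ≅ D.PP x) :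
    (Module.finrank ℂ (X ⟶ X) : ℤ) - Module.finrank ℂ (E ⟶ X) +
      Module.finrank ℂ (kernel f ⟶ X) =
    1 - (Finset.card {k : Fin (n - 1) | dSrc n hn o k = x} : ℤ) := by
  have hf2 : RAS (f ≫ e.hom) := by
    constructor
    · intro s hs
      refine hf.not_split (e.hom ≫ s) ?_
      have h1 : (e.hom ≫ s) ≫ f = e.hom ≫ (s ≫ f ≫ e.hom) ≫ e.inv := by simp
      rw [h1, hs]
      simp
    · intro Z g hZ hg
      have hg' : ¬ IsIso (g ≫ e.inv) := by
        intro hiso
        apply hg
        have : g = (g ≫ e.inv) ≫ e.hom := by simp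
        rw [this]
        infer_instance
      obtain ⟨h, hh⟩ := hf.lift Z _ hZ hg'
      refine ⟨h, ?_⟩
      rw [← Category.assoc, hh]
      simp
  have h1 := contrib_proj_aux D x (f ≫ e.hom) hf2
  rw [← h1, (Linear.homCongr ℂ e e).finrank_eq, (Linear.homCongr ℂ (Iso.refl E) e).finrank_eq,
    (Linear.homCongr ℂ (kernelCompMono f e.hom).symm e).finrank_eq]

end MPdda
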