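import Pool.Agent.H.MP_dda0b9_al.Comb

/-!
# MP_dda0b9_al: explicit form of the cyclic derivatives (job J19)
-/

namespace MPdda

variable {t : ℕ} [NeZero t]

omit [NeZero t] in
theorem dwe_noloop_aux {a : Fin 3 → ℤ} (h : a 0 + a 1 + a 2 = 3 * t) (p q : Fin 3) :
    rot q a + fv p ≠ a := by
  intro he
  have e0 : rot q a 0 + fv p 0 = a 0 := congrFun he 0
  have e1 : rot q a 1 + fv p 1 = a 1 := congrFun he 1
  have e2 : rot q a 2 + fv p 2 = a 2 := congrFun he 2
  have f00 : fv 0 0 = -1 := rfl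
  have f01 : fv 0 1 = 1 := rfl
  have f02 : fv 0 2 = 0 := rfl
  have f10 : fv 1 0 = 0 := rfl
  have f11 : fv 1 1 = -1 := rfl
  have f12 : fv 1 2 = 1 := rfl
  have f20 : fv 2 0 = 1 := rfl
  have f21 : fv 2 1 = 0 := rfl
  have f22 : fv 2 2 = -1 := rfl
  have g0 : ∀ i, rot 0 a i = a i := fun i => by rw [rot_zero]
  have g10 : rot 1 a 0 = a 1 := rfl
  have g11 : rot 1 a 1 = a 2 := rfl
  have g12 : rot 1 a 2 = a 0 := rfl
  have g20 : rot 2 a 0 = a 2 := rfl
  have g21 : rot 2 a 1 = a 0 := rfl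
  have g22 : rot 2 a 2 = a 1 := rfl
  induction p using comb_cases with
  | h0 =>
    rw [f00] at e0
    rw [f01] at e1
    rw [f02] at e2
    induction q using comb_cases with
    | h0 =>
      rw [g0] at e0
      omega
    | h1 =>
      rw [g10] at e0
      rw [g11] at e1
      rw [g12] at e2
      omega
    | h2 =>
      rw [g20] at e0
      rw [g21] at e1
      rw [g22] at e2
      omega
  | h1 =>
    rw [f10] at e0
    rw [f11] at e1
    rw [f12] at e2
    induction q using comb_cases with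
    | h0 =>
      rw [g0] at e1
      omega
    | h1 =>
      rw [g10] at e0
      rw [g11] at e1
      rw [g12] at e2
      omega
    | h2 =>
      rw [g20] at e0
      rw [g21] at e1
      rw [g22] at e2
      omega
  | h2 =>
    rw [f20] at e0
    rw [f21] at e1
    rw [f22] at e2
    induction q using comb_cases with
    | h0 =>
      rw [g0] at e0
      omega
    | h1 =>
      rw [g10] at e0
      rw [g11] at e1
      rw [g12] at e2
      omega
    | h2 =>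
      rw [g20] at e0
      rw [g21] at e1
      rw [g22] at e2
      omega

theorem dwe_noloop (x : AlArr t) : tgt (.al x) ≠ src (.al x) := by
  intro h
  have h1 : (⟨rot x.1.2.2 x.1.1.1 + fv x.1.2.1, x.2⟩ : VV t) = x.1.1 := Sum.inl_injective h
  have h2 : rot x.1.2.2 x.1.1.1 + fv x.1.2.1 = x.1.1.1 := congrArg Subtype.val h1
  exact dwe_noloop_aux x.1.1.2.2.1 _ _ h2

/-- the cycle condition in terms of directions -/
def DCyc (x y z : AlArr t) (e1 e2 : Fin 3) : Prop :=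
  AT t (x.1.1.1 + fv (x.1.2.1 + x.1.2.2)) e1 = some y ∧
    AT t (x.1.1.1 + fv (x.1.2.1 + x.1.2.2) + fv e1) e2 = some z

theorem dwe_of_closed {x y z : AlArr t} (h1 : tgt (.al x) = src (.al y))
    (h2 : tgt (.al y) = src (.al z)) (hq : x.1.2.2 + y.1.2.2 + z.1.2.2 = 0) :
    DCyc x y z (y.1.2.1 - z.1.2.2) z.1.2.1 := by
  have e1 : rot x.1.2.2 x.1.1.1 + fv x.1.2.1 = y.1.1.1 :=
    congrArg Subtype.val (Sum.inl_injective h1)
  have e2 : rot y.1.2.2 y.1.1.1 + fv y.1.2.1 = z.1.1.1 :=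
    congrArg Subtype.val (Sum.inl_injective h2)
  have e3 : rot x.1.2.2 (x.1.1.1 + fv (x.1.2.1 + x.1.2.2)) = y.1.1.1 := by
    rw [rot_add', rot_fv, add_sub_cancel_right]
    exact e1
  have d1 : y.1.2.1 - z.1.2.2 = y.1.2.1 + y.1.2.2 + x.1.2.2 := by
    have : z.1.2.2 = - (x.1.2.2 + y.1.2.2) := by
      rw [eq_neg_iff_add_eq_zero, add_comm]
      exact hq
    rw [this]
    abel
  have e4 : rot (x.1.2.2 + y.1.2.2)
      (x.1.1.1 + fv (x.1.2.1 + x.1.2.2) + fv (y.1.2.1 - z.1.2.2)) = z.1.1.1 := by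
    rw [← e2, ← e3, rot_rot, rot_add' _ _ (fv (y.1.2.1 - z.1.2.2)), rot_fv, d1,
      add_comm y.1.2.2 x.1.2.2]
    congr 2
    abel
  refine ⟨?_, ?_⟩
  · rw [← AT_rot _ _ x.1.2.2, e3, d1, add_sub_cancel_right]
    exact AT_self y
  · rw [← AT_rot _ _ (x.1.2.2 + y.1.2.2), e4]
    have d2 : z.1.2.1 - (x.1.2.2 + y.1.2.2) = z.1.2.1 + z.1.2.2 := by
      have : z.1.2.2 = - (x.1.2.2 + y.1.2.2) := by
        rw [eq_neg_iff_add_eq_zero, add_comm]
        exact hq
      rw [this]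
      abel
    rw [d2]
    exact AT_self z

theorem dwe_fv_sum : ∀ d e1 e2 : Fin 3, (e1 = d + 1 ∧ e2 = d + 2 ∨ e1 = d + 2 ∧ e2 = d + 1) →
    ∀ i, fv d i + fv e1 i + fv e2 i = 0 := by
  decide

theorem dwe_closed {x y z : AlArr t} {e1 e2 : Fin 3}
    (he : e1 = x.1.2.1 + x.1.2.2 + 1 ∧ e2 = x.1.2.1 + x.1.2.2 + 2 ∨
      e1 = x.1.2.1 + x.1.2.2 + 2 ∧ e2 = x.1.2.1 + x.1.2.2 + 1)
    (h : DCyc x y z e1 e2) :
    (tgt (.al x) = src (.al y) ∧ tgt (.al y) = src (.al z) ∧ tgt (.al z) = src (.al x)) ∧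
      x.1.2.2 + y.1.2.2 + z.1.2.2 = 0 ∧ y.1.2.1 - z.1.2.2 = e1 ∧ z.1.2.1 = e2 := by
  obtain ⟨hy, hz⟩ := h
  have hx := AT_self x
  have hb : x.1.1.1 + fv (x.1.2.1 + x.1.2.2) + fv e1 + fv e2 = x.1.1.1 := by
    funext i
    have := dwe_fv_sum _ _ _ he i
    change x.1.1.1 i + fv (x.1.2.1 + x.1.2.2) i + fv e1 i + fv e2 i = x.1.1.1 i
    omega
  obtain ⟨-, x2, x3⟩ := AT_eq_some hx
  obtain ⟨-, y2, y3⟩ := AT_eq_some hy
  obtain ⟨-, z2, z3⟩ := AT_eq_some hz
  rw [hb, qi_of_inV x.1.1.2] at z2 z3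
  rw [qi_of_inV x.1.1.2] at x3
  refine ⟨⟨?_, ?_, ?_⟩, ?_, ?_, ?_⟩
  · rw [AT_tgt hx 0, AT_src hy 0]
  · rw [AT_tgt hy 0, AT_src hz 0]
  · rw [AT_tgt hz 0, AT_src hx 0, hb]
  · rw [x3, y3, z3]
    abel
  · rw [y2, z3]
    abel
  · rw [z2, sub_zero]

theorem dwe_roteq1 (d0 d1 d2 : Fin 3) : RotEq (d0, d1, d2) (0, 1, 2) ↔
    (d1 = d0 + 1 ∧ d2 = d0 + 2) := by
  unfold RotEq
  revert d0 d1 d2
  decide

theorem dwe_roteq2 (d0 d1 d2 : Fin 3) : RotEq (d0, d1, d2) (0, 2, 1) ↔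
    (d1 = d0 + 2 ∧ d2 = d0 + 1) := by
  unfold RotEq
  revert d0 d1 d2
  decide

open Classical in
theorem lamA_eq (x y z : AlArr t) : lamA x y z =
    (if DCyc x y z (x.1.2.1 + x.1.2.2 + 1) (x.1.2.1 + x.1.2.2 + 2) then 1 else 0) -
    (if DCyc x y z (x.1.2.1 + x.1.2.2 + 2) (x.1.2.1 + x.1.2.2 + 1) then 1 else 0) := by
  by_cases hc : (tgt (.al x) = src (.al y) ∧ tgt (.al y) = src (.al z) ∧
      tgt (.al z) = src (.al x)) ∧ x.1.2.2 + y.1.2.2 + z.1.2.2 = 0
  · obtain ⟨hc, hq⟩ := hc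
    have hxy : x ≠ y := by
      rintro rfl
      exact dwe_noloop x hc.1
    have hyz : y ≠ z := by
      rintro rfl
      exact dwe_noloop y hc.2.1
    have hzx : z ≠ x := by
      rintro rfl
      exact dwe_noloop z hc.2.2
    have hD := dwe_of_closed hc.1 hc.2.1 hq
    have hiff1 : DCyc x y z (x.1.2.1 + x.1.2.2 + 1) (x.1.2.1 + x.1.2.2 + 2) ↔
        RotEq (x.1.2.1 + x.1.2.2, y.1.2.1 - z.1.2.2, z.1.2.1) (0, 1, 2) := by
      rw [dwe_roteq1]
      constructor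
      · intro h
        exact (dwe_closed (Or.inl ⟨rfl, rfl⟩) h).2.2
      · rintro ⟨h1, h2⟩
        rw [← h1, ← h2]
        exact hD
    have hiff2 : DCyc x y z (x.1.2.1 + x.1.2.2 + 2) (x.1.2.1 + x.1.2.2 + 1) ↔
        RotEq (x.1.2.1 + x.1.2.2, y.1.2.1 - z.1.2.2, z.1.2.1) (0, 2, 1) := by
      rw [dwe_roteq2]
      constructor
      · intro h
        exact (dwe_closed (Or.inr ⟨rfl, rfl⟩) h).2.2
      · rintro ⟨h1, h2⟩
        rw [← h1, ← h2]
        exact hD
    unfold lamA IsCyc AllEq AllNe sgn3 pI qI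
    rw [if_pos hc, if_neg (fun h => hxy h.1), if_pos ⟨hxy, hyz, hzx, hq⟩]
    simp only [hiff1, hiff2]
    by_cases h1 : RotEq (x.1.2.1 + x.1.2.2, y.1.2.1 - z.1.2.2, z.1.2.1) (0, 1, 2)
    · have h2 : ¬ RotEq (x.1.2.1 + x.1.2.2, y.1.2.1 - z.1.2.2, z.1.2.1) (0, 2, 1) := by
        rw [dwe_roteq2]
        rw [dwe_roteq1] at h1
        rintro ⟨h3, -⟩
        rw [h1.1] at h3
        have : (1 : Fin 3) = 2 := add_left_cancel h3
        exact absurd this (by decide)
      rw [if_pos h1, if_pos h1, if_neg h2, sub_zero]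
    · rw [if_neg h1, if_neg h1]
      split_ifs <;> simp
  · have h1 : ¬ DCyc x y z (x.1.2.1 + x.1.2.2 + 1) (x.1.2.1 + x.1.2.2 + 2) := by
      intro h
      have := dwe_closed (Or.inl ⟨rfl, rfl⟩) h
      exact hc ⟨this.1, this.2.1⟩
    have h2 : ¬ DCyc x y z (x.1.2.1 + x.1.2.2 + 2) (x.1.2.1 + x.1.2.2 + 1) := by
      intro h
      have := dwe_closed (Or.inr ⟨rfl, rfl⟩) h
      exact hc ⟨this.1, this.2.1⟩
    rw [if_neg h1, if_neg h2, sub_zero]
    unfold lamA IsCyc AllEq AllNe sgn3 pI qI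
    by_cases hc1 : tgt (.al x) = src (.al y) ∧ tgt (.al y) = src (.al z) ∧
      tgt (.al z) = src (.al x)
    · have hxy : x ≠ y := by
        rintro rfl
        exact dwe_noloop x hc1.1
      rw [if_pos hc1, if_neg (fun h => hxy h.1), if_neg (fun h => hc ⟨hc1, h.2.2.2⟩)]
    · rw [if_neg hc1]

theorem lamA_self (x z : AlArr t) : lamA x x z = 0 := by
  unfold lamA IsCyc
  rw [if_neg]
  rintro ⟨h, -⟩
  exact dwe_noloop x h

theorem dwe_eq_alpha1 (x : AlArr t) : x = alpha1 t ↔ x.1.1 = vS t ∧ x.1.2 = (1, 0) := by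
  constructor
  · rintro rfl
    exact ⟨rfl, rfl⟩
  · rintro ⟨h1, h2⟩
    exact Subtype.ext (Prod.ext h1 h2)

theorem dwe_eq_alpha21 (x : AlArr t) : x = alpha21 t ↔ x.1.1 = vS t ∧ x.1.2 = (2, 1) := by
  constructor
  · rintro rfl
    exact ⟨rfl, rfl⟩
  · rintro ⟨h1, h2⟩
    exact Subtype.ext (Prod.ext h1 h2)

open Classical in
theorem lamC_eq (x : AlArr t) (k k' : Fin 3) : lamC x k k' =
    if k = k' then ((if x = alpha1 t then -1 else 0) +
      (if x = alpha21 t then zeta ^ (k : ℕ) else 0)) else 0 := by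
  unfold lamC
  simp only [dwe_eq_alpha1, dwe_eq_alpha21]
  by_cases hk : k = k'
  · by_cases hv : x.1.1 = vS t
    · rw [if_pos ⟨hk, hv⟩, if_pos hk]
      by_cases h1 : x.1.2 = (1, 0)
      · have h2 : ¬ x.1.2 = (2, 1) := by
          rw [h1]
          decide
        rw [if_pos h1, if_pos ⟨hv, h1⟩, if_neg (fun h => h2 h.2), add_zero]
      · by_cases h2 : x.1.2 = (2, 1)
        · rw [if_neg h1, if_pos h2,
            if_neg (fun h : x.1.1 = vS t ∧ x.1.2 = (1, 0) => h1 h.2),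
            if_pos ⟨hv, h2⟩, zero_add]
        · rw [if_neg h1, if_neg h2,
            if_neg (fun h : x.1.1 = vS t ∧ x.1.2 = (1, 0) => h1 h.2),
            if_neg (fun h : x.1.1 = vS t ∧ x.1.2 = (2, 1) => h2 h.2), zero_add]
    · rw [if_neg (fun h : k = k' ∧ x.1.1 = vS t => hv h.2), if_pos hk,
        if_neg (fun h : x.1.1 = vS t ∧ x.1.2 = (1, 0) => hv h.1),
        if_neg (fun h : x.1.1 = vS t ∧ x.1.2 = (2, 1) => hv h.1), add_zero]
  · rw [if_neg (fun h => hk h.1), if_neg hk]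

open Classical in
omit [NeZero t] in
theorem dwe_sum_opt (o1 o2 : Option (AlArr t)) :
    ∑ y : AlArr t, ∑ z : AlArr t,
      (if o1 = some y ∧ o2 = some z then (1 : ℂ) else 0) • (gA (.al y) * gA (.al z) : FA t) =
    (o1.elim 0 (fun x => gA (.al x))) * (o2.elim 0 (fun x => gA (.al x))) := by
  rcases o1 with - | y0
  · simp
  · rcases o2 with - | z0
    · simp
    · rw [Finset.sum_eq_single y0]
      · rw [Finset.sum_eq_single z0]
        · simp
        · intro z _ hz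
          rw [if_neg, zero_smul]
          rintro ⟨-, h⟩
          exact hz (Option.some_injective _ h).symm
        · intro h
          exact absurd (Finset.mem_univ _) h
      · intro y _ hy
        apply Finset.sum_eq_zero
        intro z _
        rw [if_neg, zero_smul]
        rintro ⟨h, -⟩
        exact hy (Option.some_injective _ h).symm
      · intro h
        exact absurd (Finset.mem_univ _) h

open Classical in
theorem dW_al (x : AlArr t) :
    dW (.al x) =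
      gT t (x.1.1.1 + fv (x.1.2.1 + x.1.2.2)) (x.1.2.1 + x.1.2.2 + 1) *
          gT t (x.1.1.1 + fv (x.1.2.1 + x.1.2.2) + fv (x.1.2.1 + x.1.2.2 + 1))
            (x.1.2.1 + x.1.2.2 + 2) -
        gT t (x.1.1.1 + fv (x.1.2.1 + x.1.2.2)) (x.1.2.1 + x.1.2.2 + 2) *
          gT t (x.1.1.1 + fv (x.1.2.1 + x.1.2.2) + fv (x.1.2.1 + x.1.2.2 + 2))
            (x.1.2.1 + x.1.2.2 + 1) +
        (if x = alpha1 t then - ∑ k : Fin 3, gA (.be k) * gA (.ga k) else 0) +
        (if x = alpha21 t then ∑ k : Fin 3, (zeta ^ (k : ℕ)) • (gA (.be k) * gA (.ga k))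
          else 0) := by
  have hAA : ∀ y z : AlArr t,
      ((if Arr.al x = Arr.al y ∧ Arr.al y = Arr.al z then 3 else 1) *
        lam (.al x) (.al y) (.al z) : ℂ) • (gA (.al y) * gA (.al z) : FA t) =
      (if AT t (x.1.1.1 + fv (x.1.2.1 + x.1.2.2)) (x.1.2.1 + x.1.2.2 + 1) = some y ∧
        AT t (x.1.1.1 + fv (x.1.2.1 + x.1.2.2) + fv (x.1.2.1 + x.1.2.2 + 1))
          (x.1.2.1 + x.1.2.2 + 2) = some z then (1 : ℂ) else 0) •
          (gA (.al y) * gA (.al z) : FA t) -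
      (if AT t (x.1.1.1 + fv (x.1.2.1 + x.1.2.2)) (x.1.2.1 + x.1.2.2 + 2) = some y ∧
        AT t (x.1.1.1 + fv (x.1.2.1 + x.1.2.2) + fv (x.1.2.1 + x.1.2.2 + 2))
          (x.1.2.1 + x.1.2.2 + 1) = some z then (1 : ℂ) else 0) •
          (gA (.al y) * gA (.al z) : FA t) := by
    intro y z
    rw [← sub_smul]
    congr 1
    have h1 : (if Arr.al x = Arr.al y ∧ Arr.al y = Arr.al z then 3 else 1) *
        lam (.al x) (.al y) (.al z) = lamA x y z := by
      change _ * lamA x y z = lamA x y z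
      by_cases hxy : x = y
      · rw [← hxy, lamA_self, mul_zero]
      · rw [if_neg, one_mul]
        rintro ⟨h, -⟩
        exact hxy (Arr.al.inj h)
    rw [h1, lamA_eq]
    rfl
  unfold dW
  rw [sum_arr]
  simp only [sum_arr]
  have hS1 : ∑ y : AlArr t, (∑ z : AlArr t,
        ((if Arr.al x = Arr.al y ∧ Arr.al y = Arr.al z then 3 else 1) *
        lam (.al x) (.al y) (.al z) : ℂ) • (gA (.al y) * gA (.al z) : FA t) +
      ∑ k : Fin 3, ((if Arr.al x = Arr.al y ∧ Arr.al y = Arr.be k then 3 else 1) *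
        lam (.al x) (.al y) (.be k) : ℂ) • (gA (.al y) * gA (.be k) : FA t) +
      ∑ k : Fin 3, ((if Arr.al x = Arr.al y ∧ Arr.al y = Arr.ga k then 3 else 1) *
        lam (.al x) (.al y) (.ga k) : ℂ) • (gA (.al y) * gA (.ga k) : FA t)) =
      gT t (x.1.1.1 + fv (x.1.2.1 + x.1.2.2)) (x.1.2.1 + x.1.2.2 + 1) *
          gT t (x.1.1.1 + fv (x.1.2.1 + x.1.2.2) + fv (x.1.2.1 + x.1.2.2 + 1))
            (x.1.2.1 + x.1.2.2 + 2) -
        gT t (x.1.1.1 + fv (x.1.2.1 + x.1.2.2)) (x.1.2.1 + x.1.2.2 + 2) *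
          gT t (x.1.1.1 + fv (x.1.2.1 + x.1.2.2) + fv (x.1.2.1 + x.1.2.2 + 2))
            (x.1.2.1 + x.1.2.2 + 1) := by
    have hz1 : ∀ (y : AlArr t) (k : Fin 3), lam (.al x) (.al y) (.be k) = 0 := fun y k => rfl
    have hz2 : ∀ (y : AlArr t) (k : Fin 3), lam (.al x) (.al y) (.ga k) = 0 := fun y k => rfl
    simp only [hz1, hz2, mul_zero, zero_smul, Finset.sum_const_zero, add_zero]
    simp only [hAA, Finset.sum_sub_distrib]
    rw [dwe_sum_opt, dwe_sum_opt]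
    rfl
  have hS2 : ∑ k : Fin 3, (∑ z : AlArr t,
        ((if Arr.al x = Arr.be k ∧ Arr.be k = Arr.al z then 3 else 1) *
        lam (.al x) (.be k) (.al z) : ℂ) • (gA (.be k) * gA (.al z) : FA t) +
      ∑ k' : Fin 3, ((if Arr.al x = Arr.be k ∧ (Arr.be k : Arr t) = Arr.be k' then 3 else 1) *
        lam (.al x) (.be k) (.be k') : ℂ) • (gA (.be k) * gA (.be k') : FA t) +
      ∑ k' : Fin 3, ((if Arr.al x = Arr.be k ∧ (Arr.be k : Arr t) = Arr.ga k' then 3 else 1) *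
        lam (.al x) (.be k) (.ga k') : ℂ) • (gA (.be k) * gA (.ga k') : FA t)) =
      (if x = alpha1 t then - ∑ k : Fin 3, gA (.be k) * gA (.ga k) else 0) +
        (if x = alpha21 t then ∑ k : Fin 3, (zeta ^ (k : ℕ)) • (gA (.be k) * gA (.ga k))
          else 0) := by
    have hz1 : ∀ (k : Fin 3) (z : AlArr t), lam (.al x) (.be k) (.al z) = 0 := fun k z => rfl
    have hz2 : ∀ (k k' : Fin 3), lam (.al x) (.be k) (.be k') = 0 := fun k k' => rfl
    have hz3 : ∀ (k k' : Fin 3), lam (.al x) (.be k) (.ga k') = lamC x k k' := fun k k' => rfl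
    have hne : ∀ (k k' : Fin 3), ¬ (Arr.al x = Arr.be k ∧ (Arr.be k : Arr t) = Arr.ga k') := by
      rintro k k' ⟨h, -⟩
      cases h
    simp only [hz1, hz2, hz3, mul_zero, zero_smul, Finset.sum_const_zero, zero_add, hne,
      if_false, one_mul, lamC_eq]
    simp only [ite_smul, zero_smul, Finset.sum_ite_eq, Finset.mem_univ, if_true, add_smul,
      Finset.sum_add_distrib]
    congr 1
    · split_ifs with h
      · simp
      · simp
    · split_ifs with h
      · rfl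
      · simp
  have hS3 : ∑ k : Fin 3, (∑ z : AlArr t,
        ((if Arr.al x = Arr.ga k ∧ Arr.ga k = Arr.al z then 3 else 1) *
        lam (.al x) (.ga k) (.al z) : ℂ) • (gA (.ga k) * gA (.al z) : FA t) +
      ∑ k' : Fin 3, ((if Arr.al x = Arr.ga k ∧ (Arr.ga k : Arr t) = Arr.be k' then 3 else 1) *
        lam (.al x) (.ga k) (.be k') : ℂ) • (gA (.ga k) * gA (.be k') : FA t) +
      ∑ k' : Fin 3, ((if Arr.al x = Arr.ga k ∧ (Arr.ga k : Arr t) = Arr.ga k' then 3 else 1) *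
        lam (.al x) (.ga k) (.ga k') : ℂ) • (gA (.ga k) * gA (.ga k') : FA t)) = 0 := by
    have hz1 : ∀ (k : Fin 3) (z : AlArr t), lam (.al x) (.ga k) (.al z) = 0 := fun k z => rfl
    have hz2 : ∀ (k k' : Fin 3), lam (.al x) (.ga k) (.be k') = 0 := fun k k' => rfl
    have hz3 : ∀ (k k' : Fin 3), lam (.al x) (.ga k) (.ga k') = 0 := fun k k' => rfl
    simp only [hz1, hz2, hz3, mul_zero, zero_smul, Finset.sum_const_zero, add_zero]
  rw [hS1, hS2, hS3, add_zero, ← add_assoc]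

theorem dW_be (k : Fin 3) :
    dW (t := t) (.be k) =
      gA (.ga k) * ((zeta ^ (k : ℕ)) • gA (.al (alpha21 t)) - gA (.al (alpha1 t))) := by
  classical
  unfold dW
  rw [sum_arr]
  simp only [sum_arr]
  have hz1 : ∀ (y z : AlArr t), lam (.be k) (.al y) (.al z) = 0 := fun _ _ => rfl
  have hz2 : ∀ (y : AlArr t) (l : Fin 3), lam (.be k) (.al y) (.be l) = 0 := fun _ _ => rfl
  have hz3 : ∀ (y : AlArr t) (l : Fin 3), lam (.be k) (.al y) (.ga l) = 0 := fun _ _ => rfl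
  have hz4 : ∀ (l : Fin 3) (y : AlArr t), lam (.be k) (.be l) (.al y) = 0 := fun _ _ => rfl
  have hz5 : ∀ (l m : Fin 3), lam (t := t) (.be k) (.be l) (.be m) = 0 := fun _ _ => rfl
  have hz6 : ∀ (l m : Fin 3), lam (t := t) (.be k) (.be l) (.ga m) = 0 := fun _ _ => rfl
  have hz7 : ∀ (l : Fin 3) (y : AlArr t), lam (.be k) (.ga l) (.al y) = lamC y k l :=
    fun _ _ => rfl
  have hz8 : ∀ (l m : Fin 3), lam (t := t) (.be k) (.ga l) (.be m) = 0 := fun _ _ => rfl
  have hz9 : ∀ (l m : Fin 3), lam (t := t) (.be k) (.ga l) (.ga m) = 0 := fun _ _ => rfl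
  have hne : ∀ (l : Fin 3) (y : AlArr t), ¬ ((Arr.be k : Arr t) = Arr.ga l ∧ Arr.ga l = Arr.al y) := by
    rintro l y ⟨h, -⟩
    cases h
  simp only [hz1, hz2, hz3, hz4, hz5, hz6, hz7, hz8, hz9, mul_zero, zero_smul,
    Finset.sum_const_zero, add_zero, zero_add, hne, if_false, one_mul]
  rw [Finset.sum_eq_single k]
  · simp only [lamC_eq, if_true, add_smul, ite_smul, zero_smul, Finset.sum_add_distrib,
      Finset.sum_ite_eq', Finset.mem_univ]
    rw [mul_sub, mul_smul_comm, neg_one_smul, sub_eq_add_neg, add_comm]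
  · intro l _ hl
    apply Finset.sum_eq_zero
    intro y _
    rw [lamC_eq, if_neg (Ne.symm hl), zero_smul]
  · intro h
    exact absurd (Finset.mem_univ _) h

theorem dW_ga (k : Fin 3) :
    dW (t := t) (.ga k) =
      ((zeta ^ (k : ℕ)) • gA (.al (alpha21 t)) - gA (.al (alpha1 t))) * gA (.be k) := by
  classical
  unfold dW
  rw [sum_arr]
  simp only [sum_arr]
  have hz1 : ∀ (y z : AlArr t), lam (.ga k) (.al y) (.al z) = 0 := fun _ _ => rfl
  have hz2 : ∀ (y : AlArr t) (l : Fin 3), lam (.ga k) (.al y) (.be l) = lamC y l k :=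
    fun _ _ => rfl
  have hz3 : ∀ (y : AlArr t) (l : Fin 3), lam (.ga k) (.al y) (.ga l) = 0 := fun _ _ => rfl
  have hz4 : ∀ (l : Fin 3) (y : AlArr t), lam (.ga k) (.be l) (.al y) = 0 := fun _ _ => rfl
  have hz5 : ∀ (l m : Fin 3), lam (t := t) (.ga k) (.be l) (.be m) = 0 := fun _ _ => rfl
  have hz6 : ∀ (l m : Fin 3), lam (t := t) (.ga k) (.be l) (.ga m) = 0 := fun _ _ => rfl
  have hz7 : ∀ (l : Fin 3) (y : AlArr t), lam (.ga k) (.ga l) (.al y) = 0 := fun _ _ => rfl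
  have hz8 : ∀ (l m : Fin 3), lam (t := t) (.ga k) (.ga l) (.be m) = 0 := fun _ _ => rfl
  have hz9 : ∀ (l m : Fin 3), lam (t := t) (.ga k) (.ga l) (.ga m) = 0 := fun _ _ => rfl
  have hne : ∀ (y : AlArr t) (l : Fin 3), ¬ (Arr.ga k = Arr.al y ∧ Arr.al y = Arr.be l) := by
    rintro y l ⟨h, -⟩
    cases h
  simp only [hz1, hz2, hz3, hz4, hz5, hz6, hz7, hz8, hz9, mul_zero, zero_smul,
    Finset.sum_const_zero, add_zero, zero_add, hne, if_false, one_mul]
  have h1 : ∀ y : AlArr t, ∑ l : Fin 3, lamC y l k • (gA (.al y) * gA (.be l) : FA t) =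
      ((if y = alpha1 t then (-1 : ℂ) else 0) + (if y = alpha21 t then zeta ^ (k : ℕ) else 0)) •
        (gA (.al y) * gA (.be k)) := by
    intro y
    rw [Finset.sum_eq_single k]
    · rw [lamC_eq, if_pos rfl]
    · intro l _ hl
      rw [lamC_eq, if_neg hl, zero_smul]
    · intro h
      exact absurd (Finset.mem_univ _) h
  simp only [h1, add_smul, ite_smul, zero_smul, Finset.sum_add_distrib,
      Finset.sum_ite_eq', Finset.mem_univ, if_true]
  rw [sub_mul, smul_mul_assoc, neg_one_smul, sub_eq_add_neg, add_comm]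

/-- The 3-cycles over the small triangles of `T` which avoid `X` have nonzero coefficient. -/
theorem lam_triangle_ne_zero (b : Fin 3 → ℤ) (p e : Fin 3) (he : e ≠ 0) (x y z : AlArr t)
    (hx : AT t b p = some x) (hy : AT t (b + fv p) (p + e) = some y)
    (hz : AT t (b + fv p + fv (p + e)) (p + e + e) = some z) :
    lam (.al x) (.al y) (.al z) ≠ 0 := by
  change lamA x y z ≠ 0
  obtain ⟨x1, x2, x3⟩ := AT_eq_some hx
  have hd : x.1.2.1 + x.1.2.2 = p - qi t b := by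
    rw [x2, x3]
    abel
  have e1 : x.1.1.1 + fv (x.1.2.1 + x.1.2.2) = rot (qi t b) (b + fv p) := by
    rw [hd, x1, rot_add', rot_fv]
  have e2 : x.1.1.1 + fv (x.1.2.1 + x.1.2.2) + fv (x.1.2.1 + x.1.2.2 + e) =
      rot (qi t b) (b + fv p + fv (p + e)) := by
    rw [e1, rot_add' _ (b + fv p), rot_fv, hd]
    congr 2
    abel
  have hD : DCyc x y z (x.1.2.1 + x.1.2.2 + e) (x.1.2.1 + x.1.2.2 + e + e) := by
    refine ⟨?_, ?_⟩
    · have h3 : x.1.2.1 + x.1.2.2 + e = (p + e) - qi t b := by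
        rw [hd]
        abel
      rw [e1, h3, AT_rot]
      exact hy
    · have h3 : x.1.2.1 + x.1.2.2 + e + e = (p + e + e) - qi t b := by
        rw [hd]
        abel
      rw [e2, h3, AT_rot]
      exact hz
  have hcases : e = 1 ∨ e = 2 := by
    have hall : ∀ e : Fin 3, e ≠ 0 → e = 1 ∨ e = 2 := by decide
    exact hall e he
  have hex : ∀ d : Fin 3, d + 1 + 1 = d + 2 := by decide
  have hex2 : ∀ d : Fin 3, d + 2 + 2 = d + 1 := by decide
  rw [lamA_eq]
  rcases hcases with rfl | rfl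
  · rw [hex] at hD
    have hnot : ¬ DCyc x y z (x.1.2.1 + x.1.2.2 + 2) (x.1.2.1 + x.1.2.2 + 1) := by
      intro h
      have h1 := (dwe_closed (Or.inr ⟨rfl, rfl⟩) h).2.2.2
      have h2 := (dwe_closed (Or.inl ⟨rfl, rfl⟩) hD).2.2.2
      rw [h1] at h2
      have : (1 : Fin 3) = 2 := add_left_cancel h2
      exact absurd this (by decide)
    rw [if_pos hD, if_neg hnot]
    simp
  · rw [hex2] at hD
    have hnot : ¬ DCyc x y z (x.1.2.1 + x.1.2.2 + 1) (x.1.2.1 + x.1.2.2 + 2) := by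
      intro h
      have h1 := (dwe_closed (Or.inl ⟨rfl, rfl⟩) h).2.2.2
      have h2 := (dwe_closed (Or.inr ⟨rfl, rfl⟩) hD).2.2.2
      rw [h1] at h2
      have : (2 : Fin 3) = 1 := add_left_cancel h2
      exact absurd this (by decide)
    rw [if_pos hD, if_neg hnot]
    simp

theorem lam_center_one (k : Fin 3) : lam (.al (alpha1 t)) (.be k) (.ga k) ≠ 0 := by
  change lamC (alpha1 t) k k ≠ 0
  have h : lamC (alpha1 t) k k = -1 := by
    have h1 : (alpha1 t).1.2 = (1, 0) := rfl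
    unfold lamC
    rw [if_pos ⟨rfl, rfl⟩, if_pos h1]
  rw [h]
  simp

theorem lam_center_two (k : Fin 3) : lam (.al (alpha21 t)) (.be k) (.ga k) ≠ 0 := by
  change lamC (alpha21 t) k k ≠ 0
  have h : lamC (alpha21 t) k k = zeta ^ (k : ℕ) := by
    have h1 : (alpha21 t).1.2 = (2, 1) := rfl
    unfold lamC
    rw [if_pos ⟨rfl, rfl⟩, if_neg, if_pos h1]
    rw [h1]
    decide
  rw [h]
  apply pow_ne_zero
  unfold zeta
  exact Complex.exp_ne_zero _

end MPdda
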