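import Pool.Agent.H.MP_dda0b9_al.DefsTri

/-!
# MP_dda0b9_al: generation of the bounded derived category (job J3)
-/

namespace MPdda

open CategoryTheory CategoryTheory.Limits CategoryTheory.Pretriangulated

universe w v u

set_option linter.unusedSectionVars false

section image

variable {T T' : Type*} [Category T] [HasZeroObject T] [HasShift T ℤ] [Preadditive T]
  [∀ n : ℤ, (shiftFunctor T n).Additive] [Pretriangulated T]
  [Category T'] [HasZeroObject T'] [HasShift T' ℤ] [Preadditive T']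
  [∀ n : ℤ, (shiftFunctor T' n).Additive] [Pretriangulated T']

/-- The essential image of a class of objects. -/
def Img (F : T ⥤ T') (G : ObjectProperty T) : ObjectProperty T' :=
  fun Y => ∃ X, G X ∧ Nonempty (F.obj X ≅ Y)

theorem img_iso (F : T ⥤ T') (G : ObjectProperty T) {Y Y' : T'} (e : Y ≅ Y') (h : Img F G Y) :
    Img F G Y' := by
  obtain ⟨X, hX, ⟨e'⟩⟩ := h
  exact ⟨X, hX, ⟨e' ≪≫ e⟩⟩

theorem img_shift (F : T ⥤ T') [F.CommShift ℤ] (G : ObjectProperty T) [G.IsStableUnderShift ℤ]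
    {Y : T'} (n : ℤ) (h : Img F G Y) : Img F G (Y⟦n⟧) := by
  obtain ⟨X, hX, ⟨e⟩⟩ := h
  exact ⟨X⟦n⟧, G.le_shift n _ hX, ⟨(F.commShiftIso n).app _ ≪≫ (shiftFunctor T' n).mapIso e⟩⟩

set_option backward.defeqAttrib.useBackward true in
theorem img_two (F : T ⥤ T') [F.CommShift ℤ] [F.IsTriangulated] [F.Full] (G : ObjectProperty T)
    [G.IsTriangulatedClosed₂] [G.IsClosedUnderIsomorphisms] (S : Triangle T')
    (hS : S ∈ distTriang T') (h₁ : Img F G S.obj₁) (h₃ : Img F G S.obj₃) : Img F G S.obj₂ := by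
  obtain ⟨X₁, hX₁, ⟨e₁⟩⟩ := h₁
  obtain ⟨X₃, hX₃, ⟨e₃⟩⟩ := h₃
  have ⟨h, hh⟩ := F.map_surjective (e₃.hom ≫ S.mor₃ ≫ e₁.inv⟦1⟧' ≫
    (F.commShiftIso (1 : ℤ)).inv.app X₁)
  obtain ⟨X₂, f, g, H⟩ := distinguished_cocone_triangle₂ h
  exact ⟨X₂, G.ext_of_isTriangulatedClosed₂ _ H hX₁ hX₃, ⟨Triangle.π₂.mapIso
      (isoTriangleOfIso₁₃ _ _ (F.map_distinguished _ H) hS e₁ e₃
        (by simp [hh, ← Functor.map_comp]))⟩⟩

theorem img_one (F : T ⥤ T') [F.CommShift ℤ] [F.IsTriangulated] [F.Full] (G : ObjectProperty T)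
    [G.IsTriangulated] [G.IsClosedUnderIsomorphisms] (S : Triangle T')
    (hS : S ∈ distTriang T') (h₂ : Img F G S.obj₂) (h₃ : Img F G S.obj₃) : Img F G S.obj₁ :=
  img_two F G S.invRotate (inv_rot_of_distTriang _ hS) (img_shift F G (-1) h₃) h₂

theorem img_three (F : T ⥤ T') [F.CommShift ℤ] [F.IsTriangulated] [F.Full] (G : ObjectProperty T)
    [G.IsTriangulated] [G.IsClosedUnderIsomorphisms] (S : Triangle T')
    (hS : S ∈ distTriang T') (h₁ : Img F G S.obj₁) (h₂ : Img F G S.obj₂) : Img F G S.obj₃ :=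
  img_two F G S.rotate (rot_of_distTriang _ hS) h₂ (img_shift F G 1 h₁)

end image

section gen

variable {C : Type u} [Category.{v} C] [Abelian C] [HasDerivedCategory.{w} C]

open DerivedCategory DerivedCategory.TStructure

theorem img_single (G : ObjectProperty (DerivedCategory.Bounded C)) [G.IsTriangulated]
    [G.IsClosedUnderIsomorphisms] (h : ∀ Y : C, Img (Bounded.ι (C := C)) G
      ((singleFunctor C 0).obj Y)) (X : DerivedCategory C) (n : ℤ) [X.IsGE n] [X.IsLE n] :
    Img (Bounded.ι (C := C)) G X := by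
  obtain ⟨Y, ⟨e⟩⟩ := exists_iso_singleFunctor_obj_of_isGE_of_isLE X n
  have e' : ((singleFunctor C 0).obj Y)⟦-n⟧ ≅ (singleFunctor C n).obj Y :=
    ((singleFunctors C).shiftIso (-n) n 0 (by lia)).app Y
  exact img_iso _ _ (e' ≪≫ e.symm) (img_shift _ _ (-n) (h Y))

theorem img_bounded (G : ObjectProperty (DerivedCategory.Bounded C)) [G.IsTriangulated]
    [G.IsClosedUnderIsomorphisms] (h : ∀ Y : C, Img (Bounded.ι (C := C)) G
      ((singleFunctor C 0).obj Y)) (n : ℕ) : ∀ (X : DerivedCategory C) (a b : ℤ),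
      b < a + n → X.IsGE a → X.IsLE b → Img (Bounded.ι (C := C)) G X := by
  induction n with
  | zero =>
    intro X a b hab hX1 hX2
    have hz : IsZero X := t.isZero X b a (by lia)
    obtain ⟨Z, hZ, hG⟩ := G.exists_prop_of_containsZero
    exact ⟨Z, hG, ⟨IsZero.iso ((Bounded.ι (C := C)).map_isZero hZ) hz⟩⟩
  | succ n ih =>
    intro X a b hab hX1 hX2
    have h1 : Img (Bounded.ι (C := C)) G ((t.truncLE a).obj X) := by
      have i1 : t.IsGE ((t.truncLE a).obj X) a := inferInstance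
      have i2 : t.IsLE ((t.truncLE a).obj X) a := inferInstance
      exact img_single G h _ a
    have h2 : Img (Bounded.ι (C := C)) G ((t.truncGE (a + 1)).obj X) := by
      have i1 : t.IsGE ((t.truncGE (a + 1)).obj X) (a + 1) := inferInstance
      have i2 : t.IsLE ((t.truncGE (a + 1)).obj X) b := inferInstance
      exact ih _ (a + 1) b (by push_cast at hab; lia) i1 i2
    exact img_two _ G _ (t.triangleLEGE_distinguished a (a + 1) rfl X) h1 h2

end gen

theorem gen_of_abGen {C : Type u} [Category.{v} C] [Abelian C] [HasDerivedCategory.{w} C]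
    {I : Type} (P : I → C) (h : AbGen P) : Gen (fun i => (sgl C).obj (P i)) := by
  intro G _ _ hG
  have hs : ∀ Y : C, Img (DerivedCategory.Bounded.ι (C := C)) G
      ((DerivedCategory.singleFunctor C 0).obj Y) := by
    let Q : ObjectProperty C := fun Y => Img (DerivedCategory.Bounded.ι (C := C)) G
      ((DerivedCategory.singleFunctor C 0).obj Y)
    have : Q.IsClosedUnderIsomorphisms :=
      ⟨fun e hX => img_iso _ _ ((DerivedCategory.singleFunctor C 0).mapIso e) hX⟩
    refine h Q (fun i => ⟨_, hG i, ⟨Iso.refl _⟩⟩) ?_ ?_ ?_ ?_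
    · intro Z hZ
      obtain ⟨Z', hZ', hG'⟩ := G.exists_prop_of_containsZero
      exact ⟨Z', hG', ⟨IsZero.iso ((DerivedCategory.Bounded.ι (C := C)).map_isZero hZ')
        ((DerivedCategory.singleFunctor C 0).map_isZero hZ)⟩⟩
    · intro S hS h1 h2
      exact img_three _ G _ hS.singleTriangle_distinguished h1 h2
    · intro S hS h2 h3
      exact img_one _ G _ hS.singleTriangle_distinguished h2 h3
    · intro S hS h1 h3
      exact img_two _ G _ hS.singleTriangle_distinguished h1 h3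
  intro X
  obtain ⟨⟨a, ha⟩, ⟨b, hb⟩⟩ := X.property
  have ha' : DerivedCategory.IsGE X.obj a := ha
  have hb' : DerivedCategory.IsLE X.obj b := hb
  obtain ⟨Y, hY, ⟨e⟩⟩ := img_bounded G hs (b - a + 1).toNat X.obj a b (by lia) ha' hb'
  exact G.prop_of_iso ((DerivedCategory.TStructure.t (C := C)).bounded.fullyFaithfulι.preimageIso e)
    hY

end MPdda
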