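import Pool.Agent.H.MP_dda0b9_al.DefsTri

/-!
# MP_dda0b9_al: morphisms between the single complexes in the bounded derived category, out of
a projective object (job J4)
-/

namespace MPdda

open CategoryTheory CategoryTheory.Limits CategoryTheory.Pretriangulated

universe w v u

variable {C : Type u} [Category.{v} C] [Abelian C] [HasDerivedCategory.{w} C]

theorem subsingleton_hom_single (P Y : C) [Projective P] (n : ℤ) (hn : n ≠ 0) :
    Subsingleton ((DerivedCategory.singleFunctor C 0).obj P ⟶
      (DerivedCategory.singleFunctor C (-n)).obj Y) := by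
  refine subsingleton_of_forall_eq 0 fun φ => ?_
  rcases lt_or_gt_of_ne hn with h | h
  · exact DerivedCategory.TStructure.t.zero_of_isLE_of_isGE φ 0 (-n) (by lia) inferInstance
      inferInstance
  · exact DerivedCategory.from_singleFunctor_obj_eq_zero_of_projective (i := 0)
      (L := (CochainComplex.singleFunctor C (-n)).obj Y) φ (-n) (by lia)

theorem subsingleton_hom_sgl (P Y : C) [Projective P] (n : ℤ) (hn : n ≠ 0) :
    Subsingleton ((sgl C).obj P ⟶ ((sgl C).obj Y)⟦n⟧) := by
  have h := subsingleton_hom_single P Y n hn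
  refine ⟨fun f g => ?_⟩
  apply (DerivedCategory.Bounded.ι (C := C)).map_injective
  rw [← cancel_mono (((DerivedCategory.Bounded.ι (C := C)).commShiftIso n).hom.app
    ((sgl C).obj Y))]
  exact (cancel_mono (((DerivedCategory.singleFunctors C).shiftIso n (-n) 0
    (by lia)).hom.app Y)).mp (h.elim _ _)

variable [Linear ℂ C]

instance shift_linear_bounded (n : ℤ) :
    (shiftFunctor (DerivedCategory.Bounded C) n).Linear ℂ where
  map_smul {X Y} f r := by
    apply (DerivedCategory.Bounded.ι (C := C)).map_injective
    rw [← cancel_mono (((DerivedCategory.Bounded.ι (C := C)).commShiftIso n).hom.app Y)]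
    have h1 := ((DerivedCategory.Bounded.ι (C := C)).commShiftIso n).hom.naturality (r • f)
    have h2 := ((DerivedCategory.Bounded.ι (C := C)).commShiftIso n).hom.naturality f
    simp only [Functor.comp_map] at h1 h2
    rw [h1, Functor.map_smul, Functor.map_smul, Functor.map_smul, Linear.smul_comp, h2,
      Linear.comp_smul]

theorem hom_sgl_zero (P Y : C) :
    Nonempty ((P ⟶ Y) ≃ₗ[ℂ] ((sgl C).obj P ⟶ ((sgl C).obj Y)⟦(0 : ℤ)⟧)) := by
  let L : (P ⟶ Y) →ₗ[ℂ] ((sgl C).obj P ⟶ ((sgl C).obj Y)⟦(0 : ℤ)⟧) :=
    { toFun := fun f => (sgl C).map f ≫ (shiftFunctorZero _ ℤ).inv.app ((sgl C).obj Y)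
      map_add' := by
        intro f g
        have h : (sgl C).map (f + g) = (sgl C).map f + (sgl C).map g := by
          apply (DerivedCategory.Bounded.ι (C := C)).map_injective
          rw [(DerivedCategory.Bounded.ι (C := C)).map_add]
          exact (DerivedCategory.singleFunctor C 0).map_add
        rw [h, Preadditive.add_comp]
      map_smul' := by
        intro r f
        have h : (sgl C).map (r • f) = r • (sgl C).map f := by
          apply (DerivedCategory.Bounded.ι (C := C)).map_injective
          rw [(DerivedCategory.Bounded.ι (C := C)).map_smul]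
          exact (DerivedCategory.singleFunctor C 0).map_smul r f
        rw [h, Linear.smul_comp]; rfl }
  refine ⟨LinearEquiv.ofBijective L ⟨?_, ?_⟩⟩
  · intro f g hfg
    have h1 : (sgl C).map f ≫ (shiftFunctorZero _ ℤ).inv.app ((sgl C).obj Y) =
      (sgl C).map g ≫ (shiftFunctorZero _ ℤ).inv.app ((sgl C).obj Y) := hfg
    rw [cancel_mono] at h1
    apply (DerivedCategory.singleFunctor C 0).map_injective
    exact congrArg (fun z => (DerivedCategory.Bounded.ι (C := C)).map z) h1
  · intro g
    obtain ⟨f, hf⟩ := (DerivedCategory.singleFunctor C 0).map_surjective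
      ((DerivedCategory.Bounded.ι (C := C)).map
        (g ≫ (shiftFunctorZero _ ℤ).hom.app ((sgl C).obj Y)))
    refine ⟨f, ?_⟩
    show (sgl C).map f ≫ (shiftFunctorZero _ ℤ).inv.app ((sgl C).obj Y) = g
    have h1 : (sgl C).map f = g ≫ (shiftFunctorZero _ ℤ).hom.app ((sgl C).obj Y) := by
      apply (DerivedCategory.Bounded.ι (C := C)).map_injective
      exact hf
    rw [h1, Category.assoc, Iso.hom_inv_id_app, Category.comp_id]

theorem hfin_sgl (P Y : C) [Projective P] [FiniteDimensional ℂ (P ⟶ Y)] :
    HFin ((sgl C).obj P) ((sgl C).obj Y) := by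
  constructor
  · intro n
    by_cases hn : n = 0
    · subst hn
      obtain ⟨e⟩ := hom_sgl_zero P Y
      exact Module.Finite.equiv e
    · have := subsingleton_hom_sgl P Y n hn
      infer_instance
  · refine (Set.finite_singleton (0 : ℤ)).subset ?_
    rintro n ⟨f, hf⟩
    by_contra hn
    have := subsingleton_hom_sgl P Y n hn
    exact hf (Subsingleton.elim _ _)

theorem chi_sgl (P Y : C) [Projective P] :
    chi ((sgl C).obj P) ((sgl C).obj Y) = (Module.finrank ℂ (P ⟶ Y) : ℤ) := by
  unfold chi
  rw [finsum_eq_single _ 0]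
  · obtain ⟨e⟩ := hom_sgl_zero P Y
    rw [← e.finrank_eq]
    simp
  · intro n hn
    have := subsingleton_hom_sgl P Y n hn
    rw [Module.finrank_zero_of_subsingleton]
    simp

end MPdda
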