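import Mathlib

/-!
# MP_dda0b9_al: definitions, part 1: finite-dimensional modules, bounded derived categories,
derived equivalence
-/

namespace MPdda

open CategoryTheory CategoryTheory.Limits

open scoped ModuleCat

/-- The property of being finite-dimensional over `ℂ`, for left modules over a
`ℂ`-algebra `A`. -/
def fdProp (A : Type) [Ring A] [Algebra ℂ A] : ObjectProperty (ModuleCat.{0} A) :=
  fun M => FiniteDimensional ℂ M

instance (A : Type) [Ring A] [Algebra ℂ A] : (fdProp A).ContainsZero where
  exists_zero := ⟨ModuleCat.of A PUnit, ModuleCat.isZero_of_subsingleton _, by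
    unfold fdProp; infer_instance⟩

instance (A : Type) [Ring A] [Algebra ℂ A] : (fdProp A).IsClosedUnderSubobjects where
  prop_of_mono {M N} f hf hN := by
    have h : FiniteDimensional ℂ N := hN
    have hinj := (ModuleCat.mono_iff_injective f).1 hf
    exact Module.Finite.of_injective (f.hom.restrictScalars ℂ) hinj

instance (A : Type) [Ring A] [Algebra ℂ A] : (fdProp A).IsClosedUnderQuotients where
  prop_of_epi {M N} f hf hM := by
    have h : FiniteDimensional ℂ M := hM
    have hsur := (ModuleCat.epi_iff_surjective f).1 hf
    exact Module.Finite.of_surjective (f.hom.restrictScalars ℂ) hsur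

instance (A : Type) [Ring A] [Algebra ℂ A] : (fdProp A).IsClosedUnderFiniteProducts where
  isClosedUnderLimitsOfShape J _ :=
    { limitsOfShape_le := by
        classical
        rintro X ⟨pres⟩
        have hfd : ∀ j : J, FiniteDimensional ℂ (pres.diag.obj (Discrete.mk j)) :=
          fun j => pres.prop_diag_obj (Discrete.mk j)
        have := Fintype.ofFinite J
        let φ : X →ₗ[ℂ] (∀ j : J, pres.diag.obj (Discrete.mk j)) :=
          LinearMap.pi fun j => (pres.π.app (Discrete.mk j)).hom.restrictScalars ℂ
        refine Module.Finite.of_injective φ ?_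
        rw [← LinearMap.ker_eq_bot, LinearMap.ker_eq_bot']
        intro x hx
        let g : ModuleCat.of A A ⟶ X := ModuleCat.ofHom (LinearMap.toSpanSingleton A X x)
        have hg : g = 0 := by
          refine pres.isLimit.hom_ext fun j => ?_
          obtain ⟨j⟩ := j
          ext
          have := congrFun hx j
          change (pres.π.app (Discrete.mk j)).hom x = 0 at this
          simpa [g] using this
        have := congrArg (fun h => h.hom (1 : A)) hg
        simpa [g] using this }

/-- The category of finite-dimensional left modules over the `ℂ`-algebra `A`. -/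
abbrev FDMod (A : Type) [Ring A] [Algebra ℂ A] : Type 1 := (fdProp A).FullSubcategory

/-- `FDMod A` is an abelian category. -/
noncomputable instance (A : Type) [Ring A] [Algebra ℂ A] : Abelian (FDMod A) := inferInstance

/-- The bounded derived category `D^b(mod A)` of the abelian category `mod A` of
finite-dimensional left `A`-modules. -/
noncomputable abbrev Db (A : Type) [Ring A] [Algebra ℂ A]
    [HasDerivedCategory.{1} (FDMod A)] : Type 1 := DerivedCategory.Bounded (FDMod A)

/-- The triangulated categories `T₁` and `T₂` are equivalent: there is a triangulated functor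
`T₁ ⥤ T₂` which is an equivalence of categories. -/
def TriangleEquivalent (T₁ T₂ : Type 1) [Category.{1} T₁] [Category.{1} T₂]
    [HasZeroObject T₁] [HasZeroObject T₂] [Preadditive T₁] [Preadditive T₂]
    [HasShift T₁ ℤ] [HasShift T₂ ℤ]
    [∀ n : ℤ, (shiftFunctor T₁ n).Additive] [∀ n : ℤ, (shiftFunctor T₂ n).Additive]
    [Pretriangulated T₁] [Pretriangulated T₂] : Prop :=
  ∃ (F : T₁ ⥤ T₂) (_ : F.CommShift ℤ), F.IsTriangulated ∧ F.IsEquivalence

/-- The bounded derived categories of the abelian categories `C₁` and `C₂` are equivalent as
triangulated categories. -/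
def BoundedDerivedEquivalent (C₁ C₂ : Type 1) [Category.{0} C₁] [Category.{0} C₂]
    [Abelian C₁] [Abelian C₂] : Prop :=
  letI := HasDerivedCategory.standard C₁
  letI := HasDerivedCategory.standard C₂
  TriangleEquivalent (DerivedCategory.Bounded C₁) (DerivedCategory.Bounded C₂)

/-- `A` and `B` are derived equivalent: there is a triangulated functor
`D^b(mod A) ⥤ D^b(mod B)` which is an equivalence of categories, where `mod` denotes the category
of finite-dimensional left modules. -/
def DerivedEquivalent (A B : Type) [Ring A] [Algebra ℂ A] [Ring B] [Algebra ℂ B] : Prop :=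
  BoundedDerivedEquivalent (FDMod A) (FDMod B)

end MPdda
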