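import Mathlib

/-!
# MP_dda0b9_al: definitions, part 3: the quiver `D^s`, `s = 3t+1`, its potential, cuts and the
truncated algebras `Λ_C`
-/

namespace MPdda

open CategoryTheory

/-- `ρ^q`, where `ρ (a,b,c) = (b,c,a)` is the cyclic shift. -/
def rot (q : Fin 3) (a : Fin 3 → ℤ) : Fin 3 → ℤ := fun i => a (i + q)

/-- `f_0 = (-1,1,0)`, `f_1 = (0,-1,1)`, `f_2 = (1,0,-1)`. -/
def fv (p : Fin 3) : Fin 3 → ℤ := fun i => if i = p then -1 else if i = p + 1 then 1 else 0

/-- `a ≻ b`: strict lexicographic order. -/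
def LexGT (a b : Fin 3 → ℤ) : Prop :=
  b 0 < a 0 ∨ (b 0 = a 0 ∧ (b 1 < a 1 ∨ (b 1 = a 1 ∧ b 2 < a 2)))

/-- Membership in the set `V`. -/
def InV (t : ℕ) (a : Fin 3 → ℤ) : Prop :=
  (∀ i, 0 ≤ a i) ∧ a 0 + a 1 + a 2 = 3 * t ∧ LexGT a (rot 1 a) ∧ LexGT a (rot 2 a)

/-- The set `V` as a type. -/
abbrev VV (t : ℕ) : Type := {a : Fin 3 → ℤ // InV t a}

instance (t : ℕ) : Finite (VV t) := by
  have h : ∀ (a : VV t) (i : Fin 3), a.1 i ∈ Finset.Icc (0 : ℤ) (3 * t) := by
    intro a i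
    obtain ⟨a, h0, h1, -⟩ := a
    have e0 := h0 0
    have e1 := h0 1
    have e2 := h0 2
    rw [Finset.mem_Icc]
    refine ⟨h0 i, ?_⟩
    change a i ≤ _
    fin_cases i
    · change a 0 ≤ _
      omega
    · change a 1 ≤ _
      omega
    · change a 2 ≤ _
      omega
  refine Finite.of_injective
    (fun (a : VV t) (i : Fin 3) => (⟨a.1 i, h a i⟩ : Finset.Icc (0 : ℤ) (3 * t))) ?_
  intro a b hab
  ext i
  simpa using congrArg Subtype.val (congrFun hab i)

/-- The vertices of `D^s`: the elements of `V` and the three extra vertices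
`X_0, X_1, X_2` (`Sum.inr k` is `X_k`). -/
abbrev Vert (t : ℕ) : Type := VV t ⊕ Fin 3

noncomputable instance (t : ℕ) : Fintype (VV t) := Fintype.ofFinite _

/-- The point `X = (t,t,t)`. -/
def cX (t : ℕ) : Fin 3 → ℤ := fun _ => (t : ℤ)

/-- The vertex `X - f_0`, an element of `V`. -/
def vP (t : ℕ) [NeZero t] : VV t := ⟨cX t - fv 0, by
  have : 1 ≤ t := NeZero.one_le
  refine ⟨?_, ?_, ?_, ?_⟩
  · intro i; fin_cases i <;> simp [cX, fv]
    · omega
    · omega
  · simp [cX, fv]; ring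
  · simp [LexGT, cX, fv, rot]
  · simp [LexGT, cX, fv, rot]⟩

/-- The vertex `X + f_2`, an element of `V`. -/
def vS (t : ℕ) [NeZero t] : VV t := ⟨cX t + fv 2, by
  have : 1 ≤ t := NeZero.one_le
  refine ⟨?_, ?_, ?_, ?_⟩
  · intro i; fin_cases i <;> simp [cX, fv]
    · omega
    · omega
  · simp [cX, fv]; ring
  · simp [LexGT, cX, fv, rot]
  · simp [LexGT, cX, fv, rot]⟩

/-- The arrows `α_{p,q}` starting at `a`: triples `(a, p, q)` with `a ∈ V` and
`ρ^q(a) + f_p ∈ V`. -/
abbrev AlArr (t : ℕ) : Type := {x : VV t × Fin 3 × Fin 3 // InV t (rot x.2.2 x.1.1 + fv x.2.1)}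

/-- The arrows of `D^s`: `al x` is an arrow `α_{p,q}`, `be k` is `β_k : X - f_0 → X_k` and
`ga k` is `γ_k : X_k → X + f_2`. -/
inductive Arr (t : ℕ) : Type
  | al (x : AlArr t) : Arr t
  | be (k : Fin 3) : Arr t
  | ga (k : Fin 3) : Arr t

instance (t : ℕ) : Finite (Arr t) := by
  refine Finite.of_surjective
    (fun x : AlArr t ⊕ Fin 3 ⊕ Fin 3 => match x with
      | .inl x => Arr.al x
      | .inr (.inl k) => Arr.be k
      | .inr (.inr k) => Arr.ga k) ?_
  rintro (x | k | k)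
  · exact ⟨.inl x, rfl⟩
  · exact ⟨.inr (.inl k), rfl⟩
  · exact ⟨.inr (.inr k), rfl⟩

noncomputable instance (t : ℕ) : Fintype (Arr t) := Fintype.ofFinite _

/-- Start vertex of an arrow. -/
def src {t : ℕ} [NeZero t] : Arr t → Vert t
  | .al x => .inl x.1.1
  | .be _ => .inl (vP t)
  | .ga k => .inr k

/-- End vertex of an arrow. -/
def tgt {t : ℕ} [NeZero t] : Arr t → Vert t
  | .al x => .inl ⟨rot x.1.2.2 x.1.1.1 + fv x.1.2.1, x.2⟩
  | .be k => .inr k
  | .ga _ => .inl (vS t)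

/-- `u ∼ v`: `v` is a cyclic rotation of `u`. -/
def RotEq (u v : Fin 3 × Fin 3 × Fin 3) : Prop :=
  v = u ∨ v = (u.2.1, u.2.2, u.1) ∨ v = (u.2.2, u.1, u.2.1)

/-- The number `p` of an arrow `α_{p,q}`. -/
def pI {t : ℕ} (x : AlArr t) : Fin 3 := x.1.2.1

/-- The number `q` of an arrow `α_{p,q}`. -/
def qI {t : ℕ} (x : AlArr t) : Fin 3 := x.1.2.2

/-- `x y z` is a (based) 3-cycle. -/
def IsCyc {t : ℕ} [NeZero t] (x y z : Arr t) : Prop :=
  tgt x = src y ∧ tgt y = src z ∧ tgt z = src x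

/-- The three arrows are equal. -/
def AllEq {t : ℕ} (x y z : AlArr t) : Prop := x = y ∧ y = z

/-- The three arrows are distinct and the sum of their numbers `q` is `0` modulo 3. -/
def AllNe {t : ℕ} (x y z : AlArr t) : Prop :=
  x ≠ y ∧ y ≠ z ∧ z ≠ x ∧ qI x + qI y + qI z = 0

open Classical in
/-- It is `1` for a triple `∼ (0,1,2)`, `-1` for a triple `∼ (0,2,1)` and `0` otherwise. -/
noncomputable def sgn3 (u : Fin 3 × Fin 3 × Fin 3) : ℂ :=
  if RotEq u (0, 1, 2) then 1 else if RotEq u (0, 2, 1) then -1 else 0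

open Classical in
/-- The coefficient `λ(c)` for `c = α_{p₀,q₀} α_{p₁,q₁} α_{p₂,q₂}` (zero if this is not a
3-cycle). -/
noncomputable def lamA {t : ℕ} [NeZero t] (x y z : AlArr t) : ℂ :=
  if IsCyc (.al x) (.al y) (.al z) then
    if AllEq x y z then sgn3 (pI x + qI x, pI x - qI x, pI x) / 3
    else if AllNe x y z then sgn3 (pI x + qI x, pI y - qI z, pI z)
    else 0
  else 0

/-- `ζ = exp(2πi/3)`. -/
noncomputable def zeta : ℂ := Complex.exp (2 * Real.pi * Complex.I / 3)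

open Classical in
/-- The coefficient `λ(c)` for `c = α β_k γ_{k'}`: it is `-1` for `α_1 β_k γ_k` and `ζ^k` for
`α_{2,1} β_k γ_k`, where `α_1 = α_{1,0}` and `α_{2,1}` start at `X + f_2`; it is `0` in all
other cases. -/
noncomputable def lamC {t : ℕ} [NeZero t] (x : AlArr t) (k k' : Fin 3) : ℂ :=
  if k = k' ∧ x.1.1 = vS t then
    if x.1.2 = (1, 0) then -1 else if x.1.2 = (2, 1) then zeta ^ (k : ℕ) else 0
  else 0

/-- The coefficient `λ(c)` of the (based) cycle `c = x y z` in the potential `W`. -/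
noncomputable def lam {t : ℕ} [NeZero t] : Arr t → Arr t → Arr t → ℂ
  | .al x, .al y, .al z => lamA x y z
  | .al x, .be k, .ga k' => lamC x k k'
  | .be k, .ga k', .al x => lamC x k k'
  | .ga k', .al x, .be k => lamC x k k'
  | _, _, _ => 0

open Classical in
/-- `C` is a cut: each 3-cycle that occurs in `W` (with nonzero coefficient) contains exactly
one arrow from `C` (counted with multiplicity), i.e. `W` is homogeneous of degree 1. -/
def IsCut {t : ℕ} [NeZero t] (C : Set (Arr t)) : Prop :=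
  ∀ x y z : Arr t, lam x y z ≠ 0 →
    (if x ∈ C then 1 else 0) + (if y ∈ C then 1 else 0) + (if z ∈ C then 1 else 0) = 1

/-- The free algebra on the vertices (idempotents) and arrows. -/
abbrev FA (t : ℕ) : Type := FreeAlgebra ℂ (Vert t ⊕ Arr t)

/-- The generator `e_v`. -/
def gV {t : ℕ} (v : Vert t) : FA t := FreeAlgebra.ι ℂ (Sum.inl v)

/-- The generator given by an arrow. -/
def gA {t : ℕ} (x : Arr t) : FA t := FreeAlgebra.ι ℂ (Sum.inr x)

open Classical in
/-- The cyclic derivative `∂_x W`, where `W` is the sum of `λ(c) c` over all 3-cycles `c` up to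
rotation.  A 3-cycle `x y z` consisting of distinct arrows contributes `λ y z`; a 3-cycle
`x x x` contributes `3 λ x x`. -/
noncomputable def dW {t : ℕ} [NeZero t] (x : Arr t) : FA t :=
  ∑ y : Arr t, ∑ z : Arr t,
    ((if x = y ∧ y = z then 3 else 1) * lam x y z : ℂ) • (gA y * gA z)

/-- The relations of `Λ_C`: those of the path algebra of `D^s` (paths are composed from left to
right), the cyclic derivatives of `W`, and the arrows in `C`. -/
inductive Rel {t : ℕ} [NeZero t] (C : Set (Arr t)) : FA t → FA t → Prop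
  | idem (v : Vert t) : Rel C (gV v * gV v) (gV v)
  | orth (v w : Vert t) (h : v ≠ w) : Rel C (gV v * gV w) 0
  | one : Rel C (∑ v : Vert t, gV v) 1
  | left (x : Arr t) : Rel C (gV (src x) * gA x) (gA x)
  | right (x : Arr t) : Rel C (gA x * gV (tgt x)) (gA x)
  | pot (x : Arr t) : Rel C (dW x) 0
  | cut (x : Arr t) (h : x ∈ C) : Rel C (gA x) 0

/-- The algebra `Λ_C = Π / ⟨C⟩`. -/
abbrev Lam {t : ℕ} [NeZero t] (C : Set (Arr t)) : Type := RingQuot (Rel C)

end MPdda
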