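import Mathlib

/-!
# MP_dda0b9_al: definitions for the Euler form in a `ℂ`-linear pretriangulated category and for
generation of triangulated and abelian categories
-/

namespace MPdda

open CategoryTheory CategoryTheory.Limits

universe v u w

section Tri

variable {T : Type u} [Category.{v} T] [HasZeroObject T] [HasShift T ℤ] [Preadditive T]
  [∀ n : ℤ, (shiftFunctor T n).Additive] [Pretriangulated T]

/-- Total finiteness of the morphisms from `X` to the shifts of `Y`. -/
def HFin [Linear ℂ T] (X Y : T) : Prop :=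
  (∀ n : ℤ, FiniteDimensional ℂ (X ⟶ Y⟦n⟧)) ∧ {n : ℤ | ∃ f : X ⟶ Y⟦n⟧, f ≠ 0}.Finite

/-- The Euler form `∑ (-1)^n dim Hom(X, Y⟦n⟧)`. -/
noncomputable def chi [Linear ℂ T] (X Y : T) : ℤ :=
  ∑ᶠ n : ℤ, ((n.negOnePow : ℤˣ) : ℤ) * (Module.finrank ℂ (X ⟶ Y⟦n⟧) : ℤ)

/-- The family `P` generates `T`: the only strictly full triangulated subcategory of `T`
containing all `P i` is `T` itself. -/
def Gen {I : Type} (P : I → T) : Prop :=
  ∀ (G : ObjectProperty T) [G.IsTriangulated] [G.IsClosedUnderIsomorphisms],
    (∀ i, G (P i)) → ∀ X, G X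

end Tri

section Ab

variable {C : Type u} [Category.{v} C] [Abelian C]

/-- The family `P` generates the abelian category `C` with respect to the two-out-of-three
property in short exact sequences. -/
def AbGen {I : Type} (P : I → C) : Prop :=
  ∀ (G : ObjectProperty C) [G.IsClosedUnderIsomorphisms],
    (∀ i, G (P i)) → (∀ Z, IsZero Z → G Z) →
    (∀ S : ShortComplex C, S.ShortExact → G S.X₁ → G S.X₂ → G S.X₃) →
    (∀ S : ShortComplex C, S.ShortExact → G S.X₂ → G S.X₃ → G S.X₁) →
    (∀ S : ShortComplex C, S.ShortExact → G S.X₁ → G S.X₃ → G S.X₂) → ∀ X, G X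

variable (C) [HasDerivedCategory.{w} C]

/-- The functor from `C` to its bounded derived category which sends an object to the
corresponding complex concentrated in degree `0`. -/
noncomputable def sgl : C ⥤ DerivedCategory.Bounded C :=
  ObjectProperty.lift _ (DerivedCategory.singleFunctor C 0) fun X =>
    ⟨⟨0, ⟨(inferInstance : ((DerivedCategory.singleFunctor C 0).obj X).IsGE 0).ge⟩⟩,
      ⟨0, ⟨(inferInstance : ((DerivedCategory.singleFunctor C 0).obj X).IsLE 0).le⟩⟩⟩

end Ab

end MPdda
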