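import Pool.Agent.H.MP_dda0b9_al.DefsCat
import Pool.Agent.H.MP_dda0b9_al.DefsTri

/-!
# MP_dda0b9_al: the projective modules `A e`, the spaces `e A f`
-/

namespace MPdda

open CategoryTheory CategoryTheory.Limits

variable {A : Type} [Ring A] [Algebra ℂ A]

theorem fdProp_of (M : Type) [AddCommGroup M] [Module ℂ M] [Module A M] [IsScalarTower ℂ A M]
    [hM : FiniteDimensional ℂ M] : fdProp A (ModuleCat.of A M) := by
  have h : ModuleCat.moduleOfAlgebraModule (k := ℂ) (ModuleCat.of A M) =
      (inferInstance : Module ℂ M) := by
    refine Module.ext' _ _ fun c x => ?_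
    change (algebraMap ℂ A c) • (x : M) = c • (x : M)
    rw [algebraMap_smul]
  unfold fdProp
  rw [h]
  exact hM

/-- The space `e A f`. -/
noncomputable def peirce (e f : A) : Submodule ℂ A :=
  LinearMap.range ((LinearMap.mulLeft ℂ e).comp (LinearMap.mulRight ℂ f))

/-- The left module `A e`, as a finite-dimensional module. -/
noncomputable def projMod [FiniteDimensional ℂ A] (e : A) : FDMod A :=
  ⟨ModuleCat.of A (Submodule.span A {e}),
    @fdProp_of A _ _ (Submodule.span A {e}) _ _ _ _
      (Module.Finite.of_injective ((Submodule.span A {e}).subtype.restrictScalars ℂ)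
        Subtype.val_injective)⟩

end MPdda
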