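import Pool.Agent.H.MP_dda0b9_al.DefsRep

/-!
# MP_dda0b9_al: the data of the indecomposable projective representations `PP x` and of their
radicals `R x`
-/

namespace MPdda

open CategoryTheory CategoryTheory.Limits

attribute [local instance] Abelian.hasFiniteBiproducts

/-- The indecomposable projective representations and their radicals, with the properties that
we need. -/
structure ProjData (n : ℕ) (hn : 4 ≤ n) (o : Fin (n - 1) → Bool) where
  PP : Fin n → DRep n hn o
  R : Fin n → DRep n hn o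
  r : ∀ x, R x ⟶ PP x
  indec : ∀ x, Indecomposable (PP x)
  noniso : ∀ x y, Nonempty (PP x ≅ PP y) → x = y
  proj : ∀ x, Projective (PP x)
  finrank_hom : ∀ x (Y : DRep n hn o), Module.finrank ℂ (PP x ⟶ Y) = dimV Y x
  epi_of_lift : ∀ {E X : DRep n hn o} (g : E ⟶ X),
    (∀ x (φ : PP x ⟶ X), ∃ h : PP x ⟶ E, h ≫ g = φ) → Epi g
  mono_r : ∀ x, Mono (r x)
  not_epi_r : ∀ x, ¬ Epi (r x)
  factor : ∀ x (Z : DRep n hn o) (g : Z ⟶ PP x), ¬ Epi g → ∃ g' : Z ⟶ R x, g' ≫ r x = g
  R_iso : ∀ x, Nonempty (R x ≅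
    ⨁ (fun k : {k : Fin (n - 1) // dSrc n hn o k = x} => PP (dTgt n hn o k)))
  dim_self : ∀ x, dimV (PP x) x = 1
  dim_arrow : ∀ k : Fin (n - 1), dimV (PP (dSrc n hn o k)) (dTgt n hn o k) = 1

end MPdda
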