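import Mathlib

/-!
# MP_dda0b9_al: definitions, part 2: quivers of type `D_n`, their representations,
complete lists of indecomposables
-/

namespace MPdda

open CategoryTheory CategoryTheory.Limits

attribute [local instance] Abelian.hasFiniteBiproducts

/-- One end of the edge number `k` of the Dynkin diagram `D_n` (vertices `0, …, n-1`, edges
`0, …, n-2`): the edge `k` joins `min k (n-3)` and `k+1`.  So the edges are
`0 — 1 — ⋯ — n-3`, `n-3 — n-2` and `n-3 — n-1`. -/
def dEnd₁ (n : ℕ) (hn : 4 ≤ n) (k : Fin (n - 1)) : Fin n := ⟨min k.1 (n - 3), by omega⟩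

/-- The other end of the edge number `k` of the Dynkin diagram `D_n`. -/
def dEnd₂ (n : ℕ) (hn : 4 ≤ n) (k : Fin (n - 1)) : Fin n := ⟨k.1 + 1, by omega⟩

/-- The quiver of type `D_n` with orientation `o`: the arrow `k` goes from `dEnd₁ k` to
`dEnd₂ k` if `o k = true` and from `dEnd₂ k` to `dEnd₁ k` otherwise. -/
structure DQuiver (n : ℕ) (hn : 4 ≤ n) (o : Fin (n - 1) → Bool) : Type where
  /-- the underlying vertex -/
  val : Fin n

/-- Source of the arrow `k`. -/
def dSrc (n : ℕ) (hn : 4 ≤ n) (o : Fin (n - 1) → Bool) (k : Fin (n - 1)) : Fin n :=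
  if o k then dEnd₁ n hn k else dEnd₂ n hn k

/-- Target of the arrow `k`. -/
def dTgt (n : ℕ) (hn : 4 ≤ n) (o : Fin (n - 1) → Bool) (k : Fin (n - 1)) : Fin n :=
  if o k then dEnd₂ n hn k else dEnd₁ n hn k

instance (n : ℕ) (hn : 4 ≤ n) (o : Fin (n - 1) → Bool) : Quiver.{0} (DQuiver n hn o) where
  Hom x y := {k : Fin (n - 1) // dSrc n hn o k = x.val ∧ dTgt n hn o k = y.val}

/-- The category of finite-dimensional complex representations of the type `D_n` quiver,
i.e. of functors from the free category on the quiver to finite-dimensional vector spaces.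
It is (equivalent to) the category of finite-dimensional modules over the path algebra. -/
abbrev DRep (n : ℕ) (hn : 4 ≤ n) (o : Fin (n - 1) → Bool) : Type 1 :=
  Paths (DQuiver n hn o) ⥤ FGModuleCat.{0} ℂ

noncomputable example (n : ℕ) (hn : 4 ≤ n) (o : Fin (n - 1) → Bool) : Abelian (DRep n hn o) :=
  inferInstance
noncomputable example (n : ℕ) (hn : 4 ≤ n) (o : Fin (n - 1) → Bool) : Linear ℂ (DRep n hn o) :=
  inferInstance

/-- `M : ι → C` is a complete irredundant list of the indecomposable objects of `C`. -/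
structure IsIndecList {C : Type 1} [Category.{0} C] [Abelian C] {ι : Type} (M : ι → C) :
    Prop where
  indec : ∀ i, Indecomposable (M i)
  irredundant : ∀ i j, Nonempty (M i ≅ M j) → i = j
  complete : ∀ X : C, Indecomposable X → ∃ i, Nonempty (X ≅ M i)

/-- The Auslander algebra `End(⨁ M i)`. -/
abbrev AusAlg {C : Type 1} [Category.{0} C] [Abelian C] [Linear ℂ C] {ι : Type} [Finite ι]
    (M : ι → C) : Type := End (⨁ M)

end MPdda
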