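import Pool.Agent.H.MP_dda0b9_al.DefsQ

/-!
# MP_dda0b9_al: representations of type `D_n` quivers: spaces, maps, the map `delta` computing
`Hom` and `Ext¹`, the Tits form
-/

namespace MPdda

open CategoryTheory CategoryTheory.Limits

attribute [local instance] Abelian.hasFiniteBiproducts

variable {n : ℕ} {hn : 4 ≤ n} {o : Fin (n - 1) → Bool}

/-- The vertex `x` as an object of the path category. -/
def pv (n : ℕ) (hn : 4 ≤ n) (o : Fin (n - 1) → Bool) (x : Fin n) : Paths (DQuiver n hn o) :=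
  (Paths.of (DQuiver n hn o)).obj ⟨x⟩

/-- The arrow `k` as a morphism of the path category. -/
def pa (n : ℕ) (hn : 4 ≤ n) (o : Fin (n - 1) → Bool) (k : Fin (n - 1)) :
    pv n hn o (dSrc n hn o k) ⟶ pv n hn o (dTgt n hn o k) :=
  (Paths.of (DQuiver n hn o)).map ⟨k, rfl, rfl⟩

/-- The linear map attached to the arrow `k`. -/
noncomputable def dmap (V : DRep n hn o) (k : Fin (n - 1)) :
    V.obj (pv n hn o (dSrc n hn o k)) →ₗ[ℂ] V.obj (pv n hn o (dTgt n hn o k)) :=
  (V.map (pa n hn o k)).hom.hom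

/-- Dimension at a vertex. -/
noncomputable def dimV (V : DRep n hn o) (x : Fin n) : ℕ :=
  Module.finrank ℂ (V.obj (pv n hn o x))

/-- The linear map whose kernel is `Hom(V, W)` and whose cokernel is `Ext¹(V, W)`. -/
noncomputable def delta (V W : DRep n hn o) :
    (∀ x : Fin n, V.obj (pv n hn o x) →ₗ[ℂ] W.obj (pv n hn o x)) →ₗ[ℂ]
    (∀ k : Fin (n - 1), V.obj (pv n hn o (dSrc n hn o k)) →ₗ[ℂ]
      W.obj (pv n hn o (dTgt n hn o k))) where
  toFun f k := (dmap W k) ∘ₗ f (dSrc n hn o k) - f (dTgt n hn o k) ∘ₗ (dmap V k)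
  map_add' f g := by
    ext k v
    simp [LinearMap.comp_add, LinearMap.add_comp]
    abel
  map_smul' c f := by
    ext k v
    simp [smul_sub]

/-- The bilinear form `∑_x d_x e_x - ∑_k d_{src k} e_{tgt k}`. -/
def eform (n : ℕ) (hn : 4 ≤ n) (o : Fin (n - 1) → Bool) (d e : Fin n → ℤ) : ℤ :=
  ∑ x, d x * e x - ∑ k, d (dSrc n hn o k) * e (dTgt n hn o k)

end MPdda
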