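import Pool.Agent.H.MP_dda0b9_al.DefsL

/-!
# MP_dda0b9_al: auxiliary combinatorial definitions: the triangle `T`, rotation indices,
heights, the Cartan numbers `cD`
-/

namespace MPdda

/-- The triangle `T` of lattice points: `a ≥ 0`, `a_0 + a_1 + a_2 = 3t`. -/
def InT (t : ℕ) (a : Fin 3 → ℤ) : Prop := (∀ i, 0 ≤ a i) ∧ a 0 + a 1 + a 2 = 3 * t

open Classical in
/-- The rotation index of a point `b ≠ X` of `T`: `rot (qi t b) b ∈ V`. -/
noncomputable def qi (t : ℕ) (b : Fin 3 → ℤ) : Fin 3 :=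
  if InV t b then 0 else if InV t (rot 1 b) then 1 else 2

open Classical in
/-- The vertex of `D^s` over a point `b` of `T`; for `b = X` this is `X_k`. -/
noncomputable def vrt (t : ℕ) (k : Fin 3) (b : Fin 3 → ℤ) : Vert t :=
  if h : InV t (rot (qi t b) b) then Sum.inl ⟨rot (qi t b) b, h⟩ else Sum.inr k

open Classical in
/-- The arrow `α_{p',q'}` of `D^s` over the step `b → b + f_p` (if both points are in `T` and
different from `X`). -/
noncomputable def AT (t : ℕ) (b : Fin 3 → ℤ) (p : Fin 3) : Option (AlArr t) :=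
  if h : InV t (rot (qi t b) b) ∧
      InV t (rot (qi t (b + fv p) - qi t b) (rot (qi t b) b) + fv (p - qi t (b + fv p))) then
    some ⟨(⟨rot (qi t b) b, h.1⟩, p - qi t (b + fv p), qi t (b + fv p) - qi t b), h.2⟩
  else none

/-- The element of the free algebra given by `AT t b p` (zero if there is no such arrow). -/
noncomputable def gT (t : ℕ) (b : Fin 3 → ℤ) (p : Fin 3) : FA t :=
  (AT t b p).elim 0 (fun x => gA (.al x))

/-- The arrow `α_1 = α_{1,0}` starting at `X + f_2`. -/
def alpha1 (t : ℕ) [NeZero t] : AlArr t := ⟨(vS t, 1, 0), by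
  have h := (vP t).2
  have e : rot 0 (vS t).1 + fv 1 = (vP t).1 := by
    funext i
    fin_cases i
    · simp [vS, vP, rot, cX, fv]
    · simp [vS, vP, rot, cX, fv]
      ring
    · simp [vS, vP, rot, cX, fv]
  rw [← e] at h
  exact h⟩

/-- The arrow `α_{2,1}` starting at `X + f_2`. -/
def alpha21 (t : ℕ) [NeZero t] : AlArr t := ⟨(vS t, 2, 1), by
  have h := (vP t).2
  have e : rot 1 (vS t).1 + fv 2 = (vP t).1 := by
    funext i
    fin_cases i
    · simp [vS, vP, rot, cX, fv]
    · simp [vS, vP, rot, cX, fv]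
      ring
    · simp [vS, vP, rot, cX, fv]
  rw [← e] at h
  exact h⟩

/-- `∑_p x_p f_p`. -/
def mv (x : Fin 3 → ℤ) : Fin 3 → ℤ := fun i => x (i + 2) - x i

/-- There is a monomial `x` (with `0 ≤ x ≤ a`) from `a` to `b` of degree `0` with respect to the
height function `H`. -/
def ZZ (H : (Fin 3 → ℤ) → ℤ) (a b : Fin 3 → ℤ) : Prop :=
  ∃ x : Fin 3 → ℤ, (∀ i, 0 ≤ x i ∧ x i ≤ a i) ∧ a + mv x = b ∧ x 0 + x 1 + x 2 = H a - H b

/-- The height function on points which is induced by a height function on vertices. -/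
noncomputable def HT (t : ℕ) (h : Vert t → ℤ) (k : Fin 3) (b : Fin 3 → ℤ) : ℤ := h (vrt t k b)

open Classical in
/-- The Cartan numbers. -/
noncomputable def cD (t : ℕ) (h : Vert t → ℤ) : Vert t → Vert t → ℤ
  | .inl a, .inl c => ∑ r : Fin 3, if ZZ (HT t h 0) a.1 (rot r c.1) then 1 else 0
  | .inl a, .inr k => if ZZ (HT t h k) a.1 (cX t) then 1 else 0
  | .inr k, .inl c => if ZZ (HT t h k) (cX t) c.1 then 1 else 0
  | .inr k, .inr l => if k = l then 1 else 0

open Classical in
/-- `h` is a height function for the cut `C`: it drops by `1` along the arrows outside `C` and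
increases by `2` along the arrows in `C`. -/
def IsHeight {t : ℕ} [NeZero t] (C : Set (Arr t)) (h : Vert t → ℤ) : Prop :=
  ∀ x : Arr t, h (src x) - h (tgt x) = if x ∈ C then -2 else 1

/-- The idempotent `e_v` in `Λ_C`. -/
noncomputable def eL {t : ℕ} [NeZero t] (C : Set (Arr t)) (v : Vert t) : Lam C :=
  RingQuot.mkAlgHom ℂ (Rel C) (gV v)

/-- The arrow `x` in `Λ_C`. -/
noncomputable def aL {t : ℕ} [NeZero t] (C : Set (Arr t)) (x : Arr t) : Lam C :=
  RingQuot.mkAlgHom ℂ (Rel C) (gA x)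

end MPdda
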