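import Pool.Agent.H.MP_dda0b9_al.GramTrace
import Pool.Agent.H.MP_dda0b9_al.DbGen
import Pool.Agent.H.MP_dda0b9_al.DbHom

/-!
# MP_dda0b9_al: the trace is a derived invariant (job J5)
-/

namespace MPdda

open CategoryTheory CategoryTheory.Limits CategoryTheory.Pretriangulated

universe w v u w' v' u'

/-- An additive equivalence (not assumed to be linear) preserves the dimension of the morphism
spaces out of an object `X` with `End X = ℂ`. -/
theorem finrank_hom_of_equivalence {T : Type u} [Category.{v} T] [Preadditive T] [Linear ℂ T]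
    {T' : Type u'} [Category.{v'} T'] [Preadditive T'] [Linear ℂ T']
    (F : T ⥤ T') [F.Additive] [F.Full] [F.Faithful] (X Y : T)
    (hX : Module.finrank ℂ (X ⟶ X) = 1)
    (hfd : FiniteDimensional ℂ (F.obj X ⟶ F.obj X)) :
    Module.finrank ℂ (F.obj X ⟶ F.obj Y) = Module.finrank ℂ (X ⟶ Y) := by
  have hne : (𝟙 X : X ⟶ X) ≠ 0 := by
    intro h0
    have hsub : Subsingleton (X ⟶ X) := ⟨fun f g => by
      rw [← Category.id_comp f, ← Category.id_comp g, h0, zero_comp, zero_comp]⟩
    rw [Module.finrank_zero_of_subsingleton] at hX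
    exact zero_ne_one hX
  have hsc : ∀ f : X ⟶ X, ∃ c : ℂ, c • (𝟙 X) = f := (finrank_eq_one_iff_of_nonzero' _ hne).1 hX
  have hne' : (𝟙 (F.obj X)) ≠ 0 := by
    intro h0
    apply hne
    apply F.map_injective
    rw [F.map_id, F.map_zero, h0]
  -- every nonzero endomorphism of `F X` is invertible
  have hunit : ∀ g : End (F.obj X), g ≠ 0 → IsUnit g := by
    intro g hg
    obtain ⟨f, rfl⟩ := F.map_surjective (X := X) (Y := X) g
    obtain ⟨c, rfl⟩ := hsc f
    have hc : c ≠ 0 := by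
      rintro rfl
      apply hg
      rw [zero_smul, F.map_zero]
    refine ⟨⟨F.map (c • 𝟙 X), F.map (c⁻¹ • 𝟙 X), ?_, ?_⟩, rfl⟩
    · change F.map (c⁻¹ • 𝟙 X) ≫ F.map (c • 𝟙 X) = 𝟙 _
      rw [← F.map_comp]
      simp [smul_smul, hc]
    · change F.map (c • 𝟙 X) ≫ F.map (c⁻¹ • 𝟙 X) = 𝟙 _
      rw [← F.map_comp]
      simp [smul_smul, hc]
  have hnt : Nontrivial (End (F.obj X)) := ⟨⟨(1 : End (F.obj X)), 0, hne'⟩⟩
  have hfd' : FiniteDimensional ℂ (End (F.obj X)) := hfd
  have hsc' : ∀ g : F.obj X ⟶ F.obj X, ∃ d : ℂ, d • (𝟙 (F.obj X)) = g := by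
    intro g
    have key : ∀ g' : End (F.obj X), ∃ d : ℂ, d • (1 : End (F.obj X)) = g' := by
      intro g'
      obtain ⟨d, hd⟩ := spectrum.nonempty_of_isAlgClosed_of_finiteDimensional ℂ g'
      refine ⟨d, ?_⟩
      rw [spectrum.mem_iff] at hd
      by_contra hg
      refine hd (hunit _ ?_)
      rw [sub_ne_zero, Algebra.algebraMap_eq_smul_one]
      exact hg
    exact key g
  have hφ : ∀ c : ℂ, ∃ d : ℂ, d • (𝟙 (F.obj X)) = F.map (c • 𝟙 X) := fun c => hsc' _
  choose φ hφ using hφ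
  have hbij : Function.Bijective φ := by
    constructor
    · intro a b hab
      have h1 : F.map (a • 𝟙 X) = F.map (b • 𝟙 X) := by rw [← hφ a, ← hφ b, hab]
      have h2 := F.map_injective h1
      exact smul_left_injective ℂ hne h2
    · intro d
      obtain ⟨f, hf⟩ := F.map_surjective (X := X) (Y := X) (d • 𝟙 (F.obj X))
      obtain ⟨c, rfl⟩ := hsc f
      refine ⟨c, smul_left_injective ℂ hne' ?_⟩
      change φ c • _ = d • _
      rw [hφ c, hf]
  let j : (X ⟶ Y) ≃+ (F.obj X ⟶ F.obj Y) :=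
    AddEquiv.ofBijective F.mapAddHom ⟨F.map_injective, F.map_surjective⟩
  have h := lift_rank_eq_of_equiv_equiv φ j hbij (by
    intro c m
    change F.map (c • m) = φ c • F.map m
    calc F.map (c • m) = F.map ((c • 𝟙 X) ≫ m) := by simp
      _ = (φ c • 𝟙 (F.obj X)) ≫ F.map m := by rw [F.map_comp, hφ c]
      _ = φ c • F.map m := by simp)
  have h' := congrArg Cardinal.toNat h
  rw [Cardinal.toNat_lift, Cardinal.toNat_lift] at h'
  exact h'.symm

/-- Transport of generation along a triangulated equivalence. -/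
theorem gen_map {T : Type u} [Category.{v} T] [HasZeroObject T] [HasShift T ℤ] [Preadditive T]
    [∀ n : ℤ, (shiftFunctor T n).Additive] [Pretriangulated T]
    {T' : Type u'} [Category.{v'} T'] [HasZeroObject T'] [HasShift T' ℤ] [Preadditive T']
    [∀ n : ℤ, (shiftFunctor T' n).Additive] [Pretriangulated T']
    (F : T ⥤ T') [F.CommShift ℤ] [F.IsTriangulated] [F.IsEquivalence]
    {I : Type} (P : I → T) (h : Gen P) : Gen (fun i => F.obj (P i)) := by
  intro G _ _ hG Y
  have h1 : ∀ X, (G.inverseImage F) X := h (G.inverseImage F) hG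
  exact G.prop_of_iso (F.objObjPreimageIso Y) (h1 _)
open Matrix in
theorem derived_trace {C : Type u} [Category.{v} C] [Abelian C] [Linear ℂ C]
    [HasDerivedCategory.{w} C] {D : Type u'} [Category.{v'} D] [Abelian D] [Linear ℂ D]
    [HasDerivedCategory.{w'} D]
    (F : DerivedCategory.Bounded C ⥤ DerivedCategory.Bounded D)
    [F.CommShift ℤ] [F.IsTriangulated] [F.IsEquivalence]
    {I J : Type} [Fintype I] [Fintype J] [DecidableEq I] [DecidableEq J]
    (P : I → C) (Q : J → D) (hPproj : ∀ i, Projective (P i)) (hQproj : ∀ j, Projective (Q j))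
    (hPgen : AbGen P) (hQgen : AbGen Q)
    (hPend : ∀ i, Module.finrank ℂ (P i ⟶ P i) = 1)
    (hQfin : ∀ j j', FiniteDimensional ℂ (Q j ⟶ Q j'))
    (CP NP : Matrix I I ℤ) (CQ NQ : Matrix J J ℤ)
    (hCP : ∀ i i', CP i i' = (Module.finrank ℂ (P i ⟶ P i') : ℤ))
    (hCQ : ∀ j j', CQ j j' = (Module.finrank ℂ (Q j ⟶ Q j') : ℤ))
    (hNP : NP * CP = 1) (hNQ : NQ * CQ = 1) :
    (NPᵀ * CP).trace = (NQᵀ * CQ).trace := by
  have hadd : F.Additive := inferInstance
  have gP := gen_map F _ (gen_of_abGen P hPgen)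
  have gQ := gen_of_abGen Q hQgen
  have hQ : ∀ j j', HFin ((sgl D).obj (Q j)) ((sgl D).obj (Q j')) := fun j j' => by
    have := hQproj j
    have := hQfin j j'
    exact hfin_sgl _ _
  have hall := hfin_of_gen _ gQ hQ
  refine gram_trace_eq _ _ gP gQ hQ CP NP CQ NQ ?_ ?_ hNP hNQ
  · intro i i'
    have := hPproj i
    rw [hCP, ← chi_sgl (P i) (P i')]
    unfold chi
    refine finsum_congr fun n => ?_
    congr 2
    have e1 : Module.finrank ℂ (F.obj ((sgl C).obj (P i)) ⟶ (F.obj ((sgl C).obj (P i')))⟦n⟧)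
        = Module.finrank ℂ (F.obj ((sgl C).obj (P i)) ⟶ F.obj (((sgl C).obj (P i'))⟦n⟧)) :=
      LinearEquiv.finrank_eq
        (Linear.homCongr ℂ (Iso.refl _) ((F.commShiftIso n).app ((sgl C).obj (P i')))).symm
    rw [e1]
    refine (finrank_hom_of_equivalence F _ _ ?_ ?_).symm
    · obtain ⟨l⟩ := hom_sgl_zero (P i) (P i)
      rw [← hPend i, l.finrank_eq]
      exact LinearEquiv.finrank_eq
        (Linear.homCongr ℂ (Iso.refl _) ((shiftFunctorZero _ ℤ).app ((sgl C).obj (P i)))).symm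
    · have h0 := (hall (F.obj ((sgl C).obj (P i))) (F.obj ((sgl C).obj (P i)))).1 0
      exact Module.Finite.equiv
        (Linear.homCongr ℂ (Iso.refl _)
          ((shiftFunctorZero _ ℤ).app (F.obj ((sgl C).obj (P i)))))
  · intro j j'
    have := hQproj j
    rw [hCQ, chi_sgl]

end MPdda
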