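import Pool.Agent.H.MP_dda0b9_al.LambdaFinal
import Pool.Agent.H.MP_dda0b9_al.AusD
import Pool.Agent.H.MP_dda0b9_al.AusGen
import Pool.Agent.H.MP_dda0b9_al.DerTrace

/-!
# MP_dda0b9_al: final theorem
-/

namespace MPdda

open CategoryTheory CategoryTheory.Limits Matrix

attribute [local instance] Abelian.hasFiniteBiproducts

theorem final (t : ℕ) [NeZero t] (C : Set (Arr t)) (hC : IsCut C) (n : ℕ) (hn : 4 ≤ n)
    (o : Fin (n - 1) → Bool) (ι : Type) [Finite ι] (M : ι → DRep n hn o)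
    (hM : IsIndecList M) : ¬ DerivedEquivalent (Lam C) (AusAlg M) := by
  classical
  have := Fintype.ofFinite ι
  rintro ⟨F, hF, hF1, hF2⟩
  have hfd : ∀ X Y : DRep n hn o, FiniteDimensional ℂ (X ⟶ Y) := drep_hom_fd
  obtain ⟨P, CP, NP, hP1, hP2, hP3, hP4, hP5, hP6⟩ := lambda_family t C hC
  obtain ⟨Q, hQ1, hQ2, hQ3⟩ := aus_family hfd M hM
  obtain ⟨r, hr1, hr2⟩ := ausD_matrix M hM
  have hQfin : ∀ i j, FiniteDimensional ℂ (Q i ⟶ Q j) := fun i j => by
    obtain ⟨e⟩ := hQ3 i j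
    exact Module.Finite.equiv e.symm
  let H : Matrix ι ι ℤ := Matrix.of (fun i j => (Module.finrank ℂ (M i ⟶ M j) : ℤ))
  have hN : rᵀ * Hᵀ = 1 := by
    rw [← Matrix.transpose_mul, hr1, Matrix.transpose_one]
  letI := HasDerivedCategory.standard (FDMod (Lam C))
  letI := HasDerivedCategory.standard (FDMod (AusAlg M))
  have key := derived_trace F P Q hP1 hQ1 hP2 hQ2 hP3 hQfin CP NP Hᵀ rᵀ hP4
    (fun i j => by
      obtain ⟨e⟩ := hQ3 i j
      simp only [H, Matrix.transpose_apply, Matrix.of_apply]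
      rw [e.finrank_eq]) hP5 hN
  rw [hP6] at key
  have h2 : (rᵀᵀ * Hᵀ).trace = 1 := by
    rw [← hr2, Matrix.trace]
    rw [Finset.sum_comm]
    refine Finset.sum_congr rfl fun i _ => ?_
    rw [Matrix.diag_apply, Matrix.mul_apply]
    rfl
  rw [h2] at key
  split_ifs at key <;> omega

end MPdda
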