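import Pool.Agent.H.MP_dda0b9_al.Chi

/-!
# MP_dda0b9_al: coefficients with respect to a generating family, invariance of the trace
(job J2)
-/

namespace MPdda

open CategoryTheory CategoryTheory.Limits CategoryTheory.Pretriangulated

universe v u

variable {T : Type u} [Category.{v} T] [HasZeroObject T] [HasShift T ℤ] [Preadditive T]
  [∀ n : ℤ, (shiftFunctor T n).Additive] [Pretriangulated T] [Linear ℂ T]
  [∀ n : ℤ, (shiftFunctor T n).Linear ℂ]

omit [Linear ℂ T] [∀ n : ℤ, (shiftFunctor T n).Linear ℂ] in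
/-- Induction along a generating family. -/
theorem gen_induct {I : Type} {P : I → T} (hgen : Gen P) (G : T → Prop)
    (hiso : ∀ X Y : T, (X ≅ Y) → G X → G Y) (hz : ∀ Z : T, IsZero Z → G Z)
    (hs : ∀ (X : T) (n : ℤ), G X → G (X⟦n⟧))
    (ht : ∀ D : Triangle T, D ∈ distTriang T → G D.obj₁ → G D.obj₃ → G D.obj₂)
    (hP : ∀ i, G (P i)) (X : T) : G X := by
  let Q : ObjectProperty T := G
  have i1 : Q.IsClosedUnderIsomorphisms := ⟨fun e h => hiso _ _ e h⟩
  have i2 : Q.ContainsZero := by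
    obtain ⟨Z, hZ⟩ := HasZeroObject.zero (C := T)
    exact ⟨⟨Z, hZ, hz _ hZ⟩⟩
  have i3 : Q.IsStableUnderShift ℤ := ⟨fun n => ⟨fun Y hY => hs Y n hY⟩⟩
  have i4 : Q.IsTriangulatedClosed₂ := .mk' fun D hD h1 h3 => ht D hD h1 h3
  have i5 : Q.IsTriangulated := {}
  exact hgen Q hP X

theorem hfin_of_gen {I : Type} (P : I → T) (hgen : Gen P) (h : ∀ i j, HFin (P i) (P j))
    (X Y : T) : HFin X Y := by
  have h1 : ∀ i (Y : T), HFin (P i) Y := by
    intro i
    refine gen_induct hgen (fun Y => HFin (P i) Y) ?_ ?_ ?_ ?_ ?_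
    · intro X Y e h
      exact hfin_iso (Iso.refl _) e h
    · intro Z hZ
      exact hfin_zero_right hZ
    · intro X n h
      exact hfin_shift_right n h
    · intro D hD h1 h3
      exact hfin_tri_right _ D hD h1 h3
    · intro j
      exact h i j
  refine gen_induct hgen (fun X => HFin X Y) ?_ ?_ ?_ ?_ ?_ X
  · intro X X' e h
    exact hfin_iso e (Iso.refl _) h
  · intro Z hZ
    exact hfin_zero_left hZ
  · intro X n h
    exact hfin_shift_left n h
  · intro D hD h1 h3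
    exact hfin_tri_left _ D hD h1 h3
  · intro j
    exact h1 j Y

theorem exists_coeff {I : Type} [Fintype I] (P : I → T) (hgen : Gen P)
    (hfin : ∀ X Y : T, HFin X Y) (X : T) :
    ∃ r : I → ℤ, (∀ Y, chi X Y = ∑ i, r i * chi (P i) Y) ∧
      (∀ Y, chi Y X = ∑ i, r i * chi Y (P i)) := by
  classical
  refine gen_induct hgen (fun X => ∃ r : I → ℤ, (∀ Y, chi X Y = ∑ i, r i * chi (P i) Y) ∧
      (∀ Y, chi Y X = ∑ i, r i * chi Y (P i))) ?_ ?_ ?_ ?_ ?_ X
  · rintro X Y e ⟨r, h1, h2⟩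
    refine ⟨r, fun Z => ?_, fun Z => ?_⟩
    · rw [← h1 Z]; exact (chi_iso e (Iso.refl _)).symm
    · rw [← h2 Z]; exact (chi_iso (Iso.refl _) e).symm
  · intro Z hZ
    refine ⟨0, fun Y => ?_, fun Y => ?_⟩
    · simp [chi_zero_left hZ]
    · simp [chi_zero_right hZ]
  · rintro X n ⟨r, h1, h2⟩
    refine ⟨fun i => ((n.negOnePow : ℤˣ) : ℤ) * r i, fun Y => ?_, fun Y => ?_⟩
    · rw [chi_shift_left, h1 Y, Finset.mul_sum]
      exact Finset.sum_congr rfl fun i _ => by ring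
    · rw [chi_shift_right, h2 Y, Finset.mul_sum]
      exact Finset.sum_congr rfl fun i _ => by ring
  · rintro D hD ⟨r, h1, h2⟩ ⟨s, h3, h4⟩
    refine ⟨fun i => r i + s i, fun Y => ?_, fun Y => ?_⟩
    · rw [chi_tri_left Y D hD (hfin _ _) (hfin _ _), h1, h3, ← Finset.sum_add_distrib]
      exact Finset.sum_congr rfl fun i _ => by ring
    · rw [chi_tri_right Y D hD (hfin _ _) (hfin _ _), h2, h4, ← Finset.sum_add_distrib]
      exact Finset.sum_congr rfl fun i _ => by ring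
  · intro i
    refine ⟨Pi.single i 1, fun Y => ?_, fun Y => ?_⟩
    · simp [Pi.single_apply]
    · simp [Pi.single_apply]

open Matrix in
theorem trace_gram {I J : Type} [Fintype I] [Fintype J] [DecidableEq I] [DecidableEq J]
    (CP NP : Matrix I I ℤ) (CQ NQ : Matrix J J ℤ) (R : Matrix I J ℤ) (S : Matrix J I ℤ)
    (hP : NP * CP = 1) (hQ : NQ * CQ = 1)
    (h1 : CP = R * CQ * Rᵀ) (h2 : CQ = S * CP * Sᵀ) (h3 : CQ * Rᵀ = S * CP)
    (h4 : R * CQ = CP * Sᵀ) :
    (NPᵀ * CP).trace = (NQᵀ * CQ).trace := by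
  have hQ' : CQ * NQ = 1 := mul_eq_one_comm.1 hQ
  -- `Rᵀ * Sᵀ = 1`
  have hRS : Rᵀ * Sᵀ = 1 := by
    have e : CQ * (Rᵀ * Sᵀ) = CQ := by
      rw [← Matrix.mul_assoc, h3, ← h2]
    calc Rᵀ * Sᵀ = NQ * CQ * (Rᵀ * Sᵀ) := by rw [hQ, Matrix.one_mul]
      _ = NQ * (CQ * (Rᵀ * Sᵀ)) := Matrix.mul_assoc _ _ _
      _ = NQ * CQ := by rw [e]
      _ = 1 := hQ
  have hN : Rᵀ * NP * R = NQ := by
    have e : Rᵀ * NP * R * CQ = 1 := by
      calc Rᵀ * NP * R * CQ = Rᵀ * NP * (R * CQ) := Matrix.mul_assoc _ _ _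
        _ = Rᵀ * NP * (CP * Sᵀ) := by rw [h4]
        _ = Rᵀ * (NP * CP) * Sᵀ := by simp only [Matrix.mul_assoc]
        _ = 1 := by rw [hP, Matrix.mul_one, hRS]
    calc Rᵀ * NP * R = Rᵀ * NP * R * (CQ * NQ) := by rw [hQ', Matrix.mul_one]
      _ = (Rᵀ * NP * R * CQ) * NQ := by simp only [Matrix.mul_assoc]
      _ = NQ := by rw [e, Matrix.one_mul]
  calc (NPᵀ * CP).trace = (NPᵀ * (R * CQ * Rᵀ)).trace := by rw [← h1]
    _ = ((NPᵀ * R * CQ) * Rᵀ).trace := by simp only [Matrix.mul_assoc]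
    _ = (Rᵀ * (NPᵀ * R * CQ)).trace := Matrix.trace_mul_comm _ _
    _ = ((Rᵀ * NP * R)ᵀ * CQ).trace := by
        rw [Matrix.transpose_mul, Matrix.transpose_mul, Matrix.transpose_transpose]
        simp only [Matrix.mul_assoc]
    _ = _ := by rw [hN]

open Matrix in
theorem gram_trace_eq {I J : Type} [Fintype I] [Fintype J] [DecidableEq I] [DecidableEq J]
    (P : I → T) (Q : J → T) (hP : Gen P) (hQ : Gen Q) (hfin : ∀ j j', HFin (Q j) (Q j'))
    (CP NP : Matrix I I ℤ) (CQ NQ : Matrix J J ℤ)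
    (hCP : ∀ i i', CP i i' = chi (P i) (P i')) (hCQ : ∀ j j', CQ j j' = chi (Q j) (Q j'))
    (hNP : NP * CP = 1) (hNQ : NQ * CQ = 1) :
    (NPᵀ * CP).trace = (NQᵀ * CQ).trace := by
  have hf : ∀ X Y : T, HFin X Y := hfin_of_gen Q hQ hfin
  choose R hR1 hR2 using fun i => exists_coeff Q hQ hf (P i)
  choose S hS1 hS2 using fun j => exists_coeff P hP hf (Q j)
  refine trace_gram CP NP CQ NQ (Matrix.of R) (Matrix.of S) hNP hNQ ?_ ?_ ?_ ?_
  · ext i i'
    rw [hCP, hR1 i (P i'), Matrix.mul_assoc, Matrix.mul_apply]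
    refine Finset.sum_congr rfl fun j _ => ?_
    rw [Matrix.of_apply, hR2 i' (Q j), Matrix.mul_apply]
    congr 1
    refine Finset.sum_congr rfl fun j' _ => ?_
    rw [hCQ, Matrix.transpose_apply, Matrix.of_apply, mul_comm]
  · ext j j'
    rw [hCQ, hS1 j (Q j'), Matrix.mul_assoc, Matrix.mul_apply]
    refine Finset.sum_congr rfl fun i _ => ?_
    rw [Matrix.of_apply, hS2 j' (P i), Matrix.mul_apply]
    congr 1
    refine Finset.sum_congr rfl fun i' _ => ?_
    rw [hCP, Matrix.transpose_apply, Matrix.of_apply, mul_comm]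
  · ext j i
    rw [Matrix.mul_apply, Matrix.mul_apply]
    have e1 : ∑ j', CQ j j' * (Matrix.of R)ᵀ j' i = chi (Q j) (P i) := by
      rw [hR2 i (Q j)]
      refine Finset.sum_congr rfl fun j' _ => ?_
      rw [hCQ, Matrix.transpose_apply, Matrix.of_apply, mul_comm]
    have e2 : ∑ i', Matrix.of S j i' * CP i' i = chi (Q j) (P i) := by
      rw [hS1 j (P i)]
      refine Finset.sum_congr rfl fun i' _ => ?_
      rw [hCP, Matrix.of_apply]
    rw [e1, e2]
  · ext i j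
    rw [Matrix.mul_apply, Matrix.mul_apply]
    have e1 : ∑ j', Matrix.of R i j' * CQ j' j = chi (P i) (Q j) := by
      rw [hR1 i (Q j)]
      refine Finset.sum_congr rfl fun j' _ => ?_
      rw [hCQ, Matrix.of_apply]
    have e2 : ∑ i', CP i i' * (Matrix.of S)ᵀ i' j = chi (P i) (Q j) := by
      rw [hS2 j (P i)]
      refine Finset.sum_congr rfl fun i' _ => ?_
      rw [hCP, Matrix.transpose_apply, Matrix.of_apply, mul_comm]
    rw [e1, e2]

end MPdda
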