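import Pool.Agent.H.MP_dda0b9_al.DWExpl

/-!
# MP_dda0b9_al: every cut has a height function (discrete Poincaré lemma) (job J20)
-/

namespace MPdda

open Classical in
/-- weight of an arrow -/
noncomputable def hgtW {t : ℕ} (C : Set (Arr t)) (x : Arr t) : ℤ := if x ∈ C then -2 else 1

/-- weight of a step -/
noncomputable def hgtS (t : ℕ) (C : Set (Arr t)) (b : Fin 3 → ℤ) (p : Fin 3) : ℤ :=
  open Classical in
  match AT t b p with
  | some x => hgtW C (.al x)
  | none => if b = cX t then hgtW C (.ga 0) else hgtW C (.be 0)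

theorem hgtS_some {t : ℕ} (C : Set (Arr t)) {b : Fin 3 → ℤ} {p : Fin 3} {x : AlArr t}
    (h : AT t b p = some x) : hgtS t C b p = hgtW C (.al x) := by
  unfold hgtS
  rw [h]

theorem hgtS_X {t : ℕ} (C : Set (Arr t)) (p : Fin 3) :
    hgtS t C (cX t) p = hgtW C (.ga 0) := by
  have h : AT t (cX t) p = none := by
    by_contra hcon
    have := (AT_isSome (cX t) p).1 (Option.isSome_iff_ne_none.2 hcon)
    exact this.2.2.1 rfl
  unfold hgtS
  rw [h]
  simp

theorem fv_ne_zero (p : Fin 3) : fv p ≠ 0 := by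
  intro h
  have := congrFun h p
  simp [fv] at this

theorem hgtS_toX {t : ℕ} (C : Set (Arr t)) (b : Fin 3 → ℤ) (p : Fin 3) (hb : b + fv p = cX t) :
    hgtS t C b p = hgtW C (.be 0) := by
  have h : AT t b p = none := by
    by_contra hcon
    have := (AT_isSome b p).1 (Option.isSome_iff_ne_none.2 hcon)
    exact this.2.2.2 hb
  have hne : b ≠ cX t := by
    intro h2
    rw [h2] at hb
    exact fv_ne_zero p (add_eq_left.1 hb)
  unfold hgtS
  rw [h]
  simp [hne]

theorem hgtS_rot {t : ℕ} (C : Set (Arr t)) (b : Fin 3 → ℤ) (p r : Fin 3) :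
    hgtS t C (rot r b) (p - r) = hgtS t C b p := by
  unfold hgtS
  rw [AT_rot]
  have : rot r b = cX t ↔ b = cX t := by
    constructor
    · intro h
      by_contra hb
      exact rot_ne_cX hb r h
    · intro h
      rw [h, rot_cX]
  simp only [this]

theorem hgtW_tri {t : ℕ} [NeZero t] {C : Set (Arr t)} (hC : IsCut C) (x y z : Arr t)
    (h : lam x y z ≠ 0) : hgtW C x + hgtW C y + hgtW C z = 0 := by
  have := hC x y z h
  unfold hgtW
  split_ifs at this ⊢ <;> omega

theorem hgt_AT_vS1 (t : ℕ) [NeZero t] : AT t (vS t).1 1 = some (alpha1 t) :=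
  AT_self (alpha1 t)

theorem hgt_AT_vS0 (t : ℕ) [NeZero t] : AT t (vS t).1 0 = some (alpha21 t) := by
  have h := AT_self (alpha21 t)
  have e : (alpha21 t).1.2.1 + (alpha21 t).1.2.2 = (0 : Fin 3) := by
    change (2 : Fin 3) + 1 = 0
    decide
  rw [e] at h
  exact h

theorem hgt_X_add (t : ℕ) [NeZero t] (p : Fin 3) : cX t + fv p = rot (2 - p) (vS t).1 := by
  change cX t + fv p = rot (2 - p) (cX t + fv 2)
  rw [rot_add', rot_cX, rot_fv]
  congr 2
  abel

/-- The triangle relation at `X`. -/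
theorem hgtS_triX {t : ℕ} [NeZero t] {C : Set (Arr t)} (hC : IsCut C) (p e : Fin 3)
    (he : e ≠ 0) :
    hgtS t C (cX t) p + hgtS t C (cX t + fv p) (p + e) +
      hgtS t C (cX t + fv p + fv (p + e)) (p + e + e) = 0 := by
  have hsum : cX t + fv p + fv (p + e) + fv (p + e + e) = cX t := by
    have h3 : ∀ p e : Fin 3, e ≠ 0 → fv p + fv (p + e) + fv (p + e + e) = 0 := by
      decide
    rw [add_assoc (cX t + fv p), add_assoc (cX t), ← add_assoc (fv p), h3 p e he, add_zero]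
  rw [hgtS_X, hgtS_toX C _ _ hsum]
  have hcases : e = 1 ∨ e = 2 := by
    have hall : ∀ e : Fin 3, e ≠ 0 → e = 1 ∨ e = 2 := by decide
    exact hall e he
  have hmid : hgtS t C (cX t + fv p) (p + e) = hgtS t C (vS t).1 (e + 2) := by
    rw [hgt_X_add]
    have : p + e = (e + 2) - (2 - p) := by abel
    rw [this, hgtS_rot]
  rw [hmid]
  rcases hcases with rfl | rfl
  · have h1 := hgtW_tri hC _ _ _ (lam_center_two (t := t) 0)
    have h2 : hgtS t C (vS t).1 (1 + 2) = hgtW C (.al (alpha21 t)) :=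
      hgtS_some C (hgt_AT_vS0 t)
    rw [h2]
    omega
  · have h1 := hgtW_tri hC _ _ _ (lam_center_one (t := t) 0)
    have h2 : hgtS t C (vS t).1 (2 + 2) = hgtW C (.al (alpha1 t)) :=
      hgtS_some C (hgt_AT_vS1 t)
    rw [h2]
    omega

theorem hgt_fv3 (p e : Fin 3) (he : e ≠ 0) : fv p + fv (p + e) + fv (p + e + e) = 0 := by
  have h3 : ∀ p e : Fin 3, e ≠ 0 → fv p + fv (p + e) + fv (p + e + e) = 0 := by
    decide
  exact h3 p e he

theorem hgt_fv3' (b : Fin 3 → ℤ) (p e : Fin 3) (he : e ≠ 0) :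
    b + fv p + fv (p + e) + fv (p + e + e) = b := by
  rw [add_assoc (b + fv p), add_assoc b, ← add_assoc (fv p), hgt_fv3 p e he, add_zero]

theorem hgt_e3 (p e : Fin 3) : p + e + e + e = p := by
  have h3 : ∀ p e : Fin 3, p + e + e + e = p := by
    decide
  exact h3 p e

/-- The triangle relation. -/
theorem hgtS_tri {t : ℕ} [NeZero t] {C : Set (Arr t)} (hC : IsCut C) (b : Fin 3 → ℤ)
    (p e : Fin 3) (he : e ≠ 0) (h0 : InT t b) (h1 : InT t (b + fv p))
    (h2 : InT t (b + fv p + fv (p + e))) :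
    hgtS t C b p + hgtS t C (b + fv p) (p + e) +
      hgtS t C (b + fv p + fv (p + e)) (p + e + e) = 0 := by
  by_cases c0 : b = cX t
  · rw [c0]
    exact hgtS_triX hC p e he
  by_cases c1 : b + fv p = cX t
  · have key := hgtS_triX hC (p + e) e he
    rw [← c1, hgt_fv3' b p e he, hgt_e3] at key
    omega
  by_cases c2 : b + fv p + fv (p + e) = cX t
  · have key := hgtS_triX hC (p + e + e) e he
    rw [← c2, hgt_fv3' b p e he, hgt_e3] at key
    omega
  have s0 : (AT t b p).isSome = true := (AT_isSome b p).2 ⟨h0, h1, c0, c1⟩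
  have s1 : (AT t (b + fv p) (p + e)).isSome = true := (AT_isSome _ _).2 ⟨h1, h2, c1, c2⟩
  have s2 : (AT t (b + fv p + fv (p + e)) (p + e + e)).isSome = true := by
    rw [AT_isSome, hgt_fv3' b p e he]
    exact ⟨h2, h0, c2, c0⟩
  obtain ⟨x, hx⟩ := Option.isSome_iff_exists.1 s0
  obtain ⟨y, hy⟩ := Option.isSome_iff_exists.1 s1
  obtain ⟨z, hz⟩ := Option.isSome_iff_exists.1 s2
  rw [hgtS_some C hx, hgtS_some C hy, hgtS_some C hz]
  exact hgtW_tri hC _ _ _ (lam_triangle_ne_zero b p e he x y z hx hy hz)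

/-- points -/
def hgtP (t : ℕ) (i j : ℕ) : Fin 3 → ℤ := ![3 * t - i, i - j, j]

theorem hgtP_inT (t i j : ℕ) (hi : i ≤ 3 * t) (hj : j ≤ i) : InT t (hgtP t i j) := by
  refine ⟨fun m => ?_, ?_⟩
  · fin_cases m <;> simp [hgtP] <;> omega
  · simp [hgtP]

theorem hgtP_f0 (t i j : ℕ) : hgtP t i j + fv 0 = hgtP t (i + 1) j := by
  funext m
  fin_cases m <;> simp [hgtP, fv] <;> ring

theorem hgtP_f1 (t i j : ℕ) : hgtP t i j + fv 1 = hgtP t i (j + 1) := by
  funext m
  fin_cases m <;> simp [hgtP, fv]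
  ring

theorem exists_hgtP {t : ℕ} {b : Fin 3 → ℤ} (hb : InT t b) :
    ∃ i j : ℕ, i ≤ 3 * t ∧ j ≤ i ∧ b = hgtP t i j := by
  obtain ⟨h0, h1⟩ := hb
  have e0 := h0 0
  have e1 := h0 1
  have e2 := h0 2
  refine ⟨(3 * t - b 0).toNat, (b 2).toNat, by omega, by omega, ?_⟩
  funext m
  fin_cases m <;> simp [hgtP] <;> omega

/-- the height in terms of the parameters -/
noncomputable def hgtH (t : ℕ) (C : Set (Arr t)) (i j : ℕ) : ℤ :=
  - (∑ k ∈ Finset.range i, hgtS t C (hgtP t k 0) 0) -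
    ∑ l ∈ Finset.range j, hgtS t C (hgtP t i l) 1

theorem hgtH_f1 (t : ℕ) (C : Set (Arr t)) (i j : ℕ) :
    hgtH t C i j - hgtH t C i (j + 1) = hgtS t C (hgtP t i j) 1 := by
  unfold hgtH
  rw [Finset.sum_range_succ]
  ring

theorem hgtH_f0 {t : ℕ} [NeZero t] {C : Set (Arr t)} (hC : IsCut C) (i j : ℕ)
    (hi : i + 1 ≤ 3 * t) (hj : j ≤ i) :
    hgtH t C i j - hgtH t C (i + 1) j = hgtS t C (hgtP t i j) 0 := by
  induction j with
  | zero =>
    unfold hgtH
    rw [Finset.sum_range_succ]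
    simp
  | succ j ih =>
    have ih' := ih (by omega)
    have a1 := hgtH_f1 t C i j
    have a2 := hgtH_f1 t C (i + 1) j
    have t1 := hgtS_tri hC (hgtP t i j) 0 1 (by decide) (hgtP_inT t i j (by omega) (by omega))
      (by rw [hgtP_f0]; exact hgtP_inT t _ _ (by omega) (by omega))
      (by rw [hgtP_f0, zero_add, hgtP_f1]; exact hgtP_inT t _ _ (by omega) (by omega))
    have t2 := hgtS_tri hC (hgtP t i j) 1 2 (by decide) (hgtP_inT t i j (by omega) (by omega))
      (by rw [hgtP_f1]; exact hgtP_inT t _ _ (by omega) (by omega))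
      (by
        have : (1 : Fin 3) + 2 = 0 := rfl
        rw [hgtP_f1, this, hgtP_f0]
        exact hgtP_inT t _ _ (by omega) (by omega))
    have z1 : (1 : Fin 3) + 2 = 0 := rfl
    have z2 : (0 : Fin 3) + 2 = 2 := rfl
    have z3 : (0 : Fin 3) + 1 = 1 := rfl
    have z4 : (1 : Fin 3) + 1 = 2 := rfl
    rw [z3, z4, hgtP_f0, hgtP_f1] at t1
    rw [z1, z2, hgtP_f1, hgtP_f0] at t2
    omega

open Classical in
/-- the height function on points -/
noncomputable def hgtT (t : ℕ) (C : Set (Arr t)) (b : Fin 3 → ℤ) : ℤ :=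
  hgtH t C (3 * t - b 0).toNat (b 2).toNat

theorem hgtT_P (t : ℕ) (C : Set (Arr t)) (i j : ℕ) (hi : i ≤ 3 * t) :
    hgtT t C (hgtP t i j) = hgtH t C i j := by
  unfold hgtT
  have e1 : (3 * (t : ℤ) - hgtP t i j 0).toNat = i := by
    simp [hgtP]
  have e2 : (hgtP t i j 2).toNat = j := by
    simp [hgtP]
  rw [e1, e2]

theorem hgtT_step {t : ℕ} [NeZero t] {C : Set (Arr t)} (hC : IsCut C) (b : Fin 3 → ℤ)
    (p : Fin 3) (h0 : InT t b) (h1 : InT t (b + fv p)) :
    hgtT t C b - hgtT t C (b + fv p) = hgtS t C b p := by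
  have s1 : ∀ b : Fin 3 → ℤ, InT t b → InT t (b + fv 1) →
      hgtT t C b - hgtT t C (b + fv 1) = hgtS t C b 1 := by
    intro b h0 h1
    obtain ⟨i, j, hi, hj, rfl⟩ := exists_hgtP h0
    rw [hgtP_f1, hgtT_P t C i j hi, hgtT_P t C i (j + 1) hi]
    exact hgtH_f1 t C i j
  have s0 : ∀ b : Fin 3 → ℤ, InT t b → InT t (b + fv 0) →
      hgtT t C b - hgtT t C (b + fv 0) = hgtS t C b 0 := by
    intro b h0 h1
    obtain ⟨i, j, hi, hj, rfl⟩ := exists_hgtP h0
    have h3 := (inT_add_fv h0 0).1 h1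
    have h4 : i + 1 ≤ 3 * t := by
      simp [hgtP] at h3
      omega
    rw [hgtP_f0, hgtT_P t C i j hi, hgtT_P t C (i + 1) j h4]
    exact hgtH_f0 hC i j h4 hj
  have s2 : ∀ b : Fin 3 → ℤ, InT t b → InT t (b + fv 2) →
      hgtT t C b - hgtT t C (b + fv 2) = hgtS t C b 2 := by
    intro b h0 h1
    have z1 : (2 : Fin 3) + 1 = 0 := rfl
    have z2 : (0 : Fin 3) + 1 = 1 := rfl
    have e0 := h0.1 0
    have e1 := h0.1 1
    have h2 : InT t (b + fv 2 + fv 0) := by
      rw [inT_add_fv h1 0]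
      simp [fv]
      omega
    have e3 : b + fv 2 + fv 0 + fv 1 = b := hgt_fv3' b 2 1 (by decide)
    have t1 := hgtS_tri hC b 2 1 (by decide) h0 h1 (by rw [z1]; exact h2)
    rw [z1, z2] at t1
    have a1 := s0 (b + fv 2) h1 h2
    have a2 := s1 (b + fv 2 + fv 0) h2 (by rw [e3]; exact h0)
    rw [e3] at a2
    omega
  match p with
  | 0 => exact s0 b h0 h1
  | 1 => exact s1 b h0 h1
  | 2 => exact s2 b h0 h1

theorem hgtT_rot_step {t : ℕ} [NeZero t] {C : Set (Arr t)} (hC : IsCut C) (b : Fin 3 → ℤ)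
    (p : Fin 3) (h0 : InT t b) (h1 : InT t (b + fv p)) :
    hgtT t C (rot 1 b) - hgtT t C b = hgtT t C (rot 1 (b + fv p)) - hgtT t C (b + fv p) := by
  have a1 := hgtT_step hC b p h0 h1
  have e : rot 1 (b + fv p) = rot 1 b + fv (p - 1) := by
    rw [rot_add', rot_fv]
  have a2 := hgtT_step hC (rot 1 b) (p - 1) ((inT_rot 1).2 h0) (by
    rw [← e]
    exact (inT_rot 1).2 h1)
  rw [hgtS_rot, ← e] at a2
  omega

theorem hgtT_rot1 {t : ℕ} [NeZero t] {C : Set (Arr t)} (hC : IsCut C) (b : Fin 3 → ℤ)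
    (h0 : InT t b) : hgtT t C (rot 1 b) = hgtT t C b := by
  have key : ∀ i j : ℕ, i ≤ 3 * t → j ≤ i →
      hgtT t C (rot 1 (hgtP t i j)) - hgtT t C (hgtP t i j) =
        hgtT t C (rot 1 (hgtP t 0 0)) - hgtT t C (hgtP t 0 0) := by
    intro i j hi hj
    have k0 : hgtT t C (rot 1 (hgtP t i 0)) - hgtT t C (hgtP t i 0) =
        hgtT t C (rot 1 (hgtP t 0 0)) - hgtT t C (hgtP t 0 0) := by
      clear hj
      induction i with
      | zero => rfl
      | succ i ih =>
        have ih' := ih (by omega)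
        have := hgtT_rot_step hC (hgtP t i 0) 0 (hgtP_inT t _ _ (by omega) (by omega))
          (by rw [hgtP_f0]; exact hgtP_inT t _ _ (by omega) (by omega))
        rw [hgtP_f0] at this
        omega
    induction j with
    | zero => exact k0
    | succ j ih =>
      have ih' := ih (by omega)
      have := hgtT_rot_step hC (hgtP t i j) 1 (hgtP_inT t _ _ (by omega) (by omega))
        (by rw [hgtP_f1]; exact hgtP_inT t _ _ (by omega) (by omega))
      rw [hgtP_f1] at this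
      omega
  obtain ⟨i, j, hi, hj, rfl⟩ := exists_hgtP h0
  obtain ⟨i', j', hi', hj', hX⟩ := exists_hgtP (inT_cX t)
  have k1 := key i j hi hj
  have k2 := key i' j' hi' hj'
  rw [← hX, rot_cX] at k2
  omega

theorem hgtT_rot {t : ℕ} [NeZero t] {C : Set (Arr t)} (hC : IsCut C) (b : Fin 3 → ℤ)
    (h0 : InT t b) (r : Fin 3) : hgtT t C (rot r b) = hgtT t C b := by
  match r with
  | 0 => rw [rot_zero]
  | 1 => exact hgtT_rot1 hC b h0
  | 2 =>
    have e : rot 2 b = rot 1 (rot 1 b) := by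
      rw [rot_rot]
      rfl
    rw [e, hgtT_rot1 hC _ ((inT_rot 1).2 h0), hgtT_rot1 hC b h0]

theorem exists_height (t : ℕ) [NeZero t] (C : Set (Arr t)) (hC : IsCut C) :
    ∃ h : Vert t → ℤ, IsHeight C h := by
  refine ⟨fun v => match v with
    | .inl a => hgtT t C a.1
    | .inr k => hgtT t C (vP t).1 - hgtW C (.be k), ?_⟩
  intro x
  change _ = hgtW C x
  match x with
  | .al x =>
    change hgtT t C x.1.1.1 - hgtT t C (rot x.1.2.2 x.1.1.1 + fv x.1.2.1) = _
    have e : rot x.1.2.2 x.1.1.1 + fv x.1.2.1 = rot x.1.2.2 (x.1.1.1 + fv (x.1.2.1 + x.1.2.2)) := by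
      rw [rot_add', rot_fv, add_sub_cancel_right]
    have hT : InT t (x.1.1.1 + fv (x.1.2.1 + x.1.2.2)) := by
      have h := (InV.inT x.2)
      rw [e] at h
      exact (inT_rot _).1 h
    rw [e, hgtT_rot hC _ hT, hgtT_step hC _ _ x.1.1.2.inT hT]
    exact hgtS_some C (AT_self x)
  | .be k =>
    change hgtT t C (vP t).1 - (hgtT t C (vP t).1 - hgtW C (.be k)) = _
    ring
  | .ga k =>
    change hgtT t C (vP t).1 - hgtW C (.be k) - hgtT t C (vS t).1 = _
    have h1 := hgtW_tri hC _ _ _ (lam_center_one (t := t) k)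
    have e : (vS t).1 + fv 1 = (vP t).1 := by
      have h3 := hgt_fv3' (cX t - fv 0) 0 2 (by decide)
      change cX t + fv 2 + fv 1 = cX t - fv 0
      have z1 : (0 : Fin 3) + 2 = 2 := rfl
      have z2 : (2 : Fin 3) + 2 = 1 := rfl
      rw [z1, z2, sub_add_cancel] at h3
      exact h3
    have h2 := hgtT_step hC (vS t).1 1 (vS t).2.inT (by rw [e]; exact (vP t).2.inT)
    rw [e, hgtS_some C (hgt_AT_vS1 t)] at h2
    omega

end MPdda
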