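import Pool.Agent.H.MP_dda0b9_al.DWExpl
import Pool.Agent.H.MP_dda0b9_al.DefsMod
import Pool.Agent.H.MP_dda0b9_al.TypeA

/-!
# MP_dda0b9_al: the modules over `Λ_C` attached to the points of the triangle `T`
(for the lower bounds of the Cartan numbers)

For a point `a` of `T` the algebra `Λ_C` acts on the space of all functions `f(y,u)`, `y ∈ Z^3`,
`u` a vertex.  This is the dual of the right module with basis the pairs `(y,u)`, where `0 ≤ y ≤ a`
and `u` is a vertex over the point `a + mv y`.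
-/

namespace MPdda

/-- The additive character `m ↦ ζ^m` of `Z/3`. -/
noncomputable def ch (m : Fin 3) : ℂ := zeta ^ (m : ℕ)

theorem zeta_prim : IsPrimitiveRoot zeta 3 := by
  have h := Complex.isPrimitiveRoot_exp 3 (by norm_num)
  have e : zeta = Complex.exp (2 * Real.pi * Complex.I / ((3 : ℕ) : ℂ)) := by
    unfold zeta
    norm_num
  rw [e]
  exact h

theorem zeta_cube : zeta ^ 3 = 1 := zeta_prim.pow_eq_one

theorem zeta_sum : 1 + zeta + zeta ^ 2 = 0 := by
  have h1 : zeta ≠ 1 := zeta_prim.ne_one (by norm_num)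
  have h2 : (zeta - 1) * (1 + zeta + zeta ^ 2) = 0 := by
    linear_combination zeta_cube
  rcases mul_eq_zero.1 h2 with h3 | h3
  · exact absurd (sub_eq_zero.1 h3) h1
  · exact h3

theorem ch_zero : ch 0 = 1 := by simp [ch]

theorem ch_add (m n : Fin 3) : ch (m + n) = ch m * ch n := by
  have h := zeta_cube
  fin_cases m <;> fin_cases n <;> simp [ch, Fin.add_def, ← pow_succ, ← pow_succ'] <;>
    first
      | exact h.symm
      | (linear_combination (-zeta) * h)
      | ring1

theorem ch_ne_zero (m : Fin 3) : ch m ≠ 0 := by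
  have h : zeta ≠ 0 := by
    intro h
    have := zeta_cube
    rw [h] at this
    norm_num at this
  exact pow_ne_zero _ h

theorem ch_neg_mul (m : Fin 3) : ch (-m) * ch m = 1 := by
  rw [← ch_add, neg_add_cancel, ch_zero]

theorem sum_ch (m : Fin 3) : ∑ k : Fin 3, ch (k * m) = if m = 0 then 3 else 0 := by
  have h := zeta_sum
  have h3 := zeta_cube
  fin_cases m
  · simp [ch]
  · simp [Fin.sum_univ_three, ch]
    linear_combination h
  · rw [Fin.sum_univ_three]
    have e1 : (1 : Fin 3) * 2 = 2 := rfl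
    have e2 : (2 : Fin 3) * 2 = 1 := rfl
    simp [ch, e1, e2]
    linear_combination h

/-- The unit vectors. -/
def ev (p : Fin 3) : Fin 3 → ℤ := fun i => if i = p then 1 else 0

theorem mv_ev (p : Fin 3) : mv (ev p) = fv p := by
  funext i
  fin_cases p <;> fin_cases i <;> simp [mv, ev, fv, Fin.ext_iff]

theorem mv_add (x y : Fin 3 → ℤ) : mv (x + y) = mv x + mv y := by
  funext i
  simp only [mv, Pi.add_apply]
  ring

theorem mv_step (a y : Fin 3 → ℤ) (p : Fin 3) : a + mv (y + ev p) = a + mv y + fv p := by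
  rw [mv_add, mv_ev, add_assoc]

theorem rot_ev (q p : Fin 3) : rot q (ev p) = ev (p - q) := by
  funext i
  simp only [rot, ev, eq_sub_iff_add_eq]

theorem fv_inj {p q : Fin 3} (h : fv p = fv q) : p = q := by
  have h0 := congrFun h p
  by_contra hne
  simp only [fv, if_true, if_neg hne] at h0
  split_ifs at h0

theorem fv_sum' (d : Fin 3) : fv (d + 1) + fv (d + 2) = - fv d := by
  funext i
  fin_cases d <;> fin_cases i <;> simp [fv, Fin.ext_iff, Fin.add_def]

/-- `0 ≤ y` and `y + e_p ≤ a`. -/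
def Ok (a y : Fin 3 → ℤ) (p : Fin 3) : Prop :=
  (∀ i, 0 ≤ y i) ∧ (∀ i, y i ≤ a i) ∧ y p + 1 ≤ a p

theorem ok_inT {t : ℕ} {a y : Fin 3 → ℤ} {p : Fin 3} (ha : InT t a) (h : Ok a y p) :
    InT t (a + mv y) ∧ InT t (a + mv y + fv p) := by
  obtain ⟨h1, h2, h3⟩ := h
  obtain ⟨a1, a2⟩ := ha
  have e0 : (a + mv y) 0 = a 0 + (y 2 - y 0) := rfl
  have e1 : (a + mv y) 1 = a 1 + (y 0 - y 1) := rfl
  have e2 : (a + mv y) 2 = a 2 + (y 1 - y 2) := rfl
  have hI : InT t (a + mv y) := by
    refine ⟨?_, ?_⟩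
    · intro i
      have := h1 0; have := h1 1; have := h1 2
      have := h2 0; have := h2 1; have := h2 2
      fin_cases i
      · change 0 ≤ (a + mv y) 0
        rw [e0]; linarith
      · change 0 ≤ (a + mv y) 1
        rw [e1]; linarith
      · change 0 ≤ (a + mv y) 2
        rw [e2]; linarith
    · rw [e0, e1, e2]; linarith
  refine ⟨hI, (inT_add_fv hI p).2 ?_⟩
  have e : (a + mv y) p = a p + (y (p + 2) - y p) := rfl
  rw [e]
  have := h1 (p + 2)
  linarith

theorem ok_step {a y : Fin 3 → ℤ} {p p' : Fin 3} (hp : p ≠ p') :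
    (Ok a y p ∧ Ok a (y + ev p) p') ↔ (Ok a y p ∧ Ok a y p') := by
  constructor
  · rintro ⟨h, h1, h2, h3⟩
    refine ⟨h, h.1, h.2.1, ?_⟩
    have e : (y + ev p) p' = y p' := by simp [ev, hp.symm]
    rw [e] at h3
    exact h3
  · rintro ⟨h, h'⟩
    refine ⟨h, ?_, ?_, ?_⟩
    · intro i
      have h1 := h.1 i
      have h2 : (0 : ℤ) ≤ ev p i := by unfold ev; split_ifs <;> norm_num
      change 0 ≤ y i + ev p i
      linarith
    · intro i
      change y i + ev p i ≤ a i
      by_cases hi : i = p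
      · subst hi
        have := h.2.2
        simpa [ev] using this
      · have := h.2.1 i
        simpa [ev, hi] using this
    · have e : (y + ev p) p' = y p' := by simp [ev, hp.symm]
      rw [e]
      exact h'.2.2

theorem AT_inj {t : ℕ} {b : Fin 3 → ℤ} {d d' : Fin 3} {ω : AlArr t} (h : AT t b d = some ω)
    (h' : AT t b d' = some ω) : d = d' := by
  unfold AT at h h'
  split_ifs at h h' with h1 h2
  · have e1 := congrArg (fun x : AlArr t => x.1.2) (Option.some.inj h)
    have e2 := congrArg (fun x : AlArr t => x.1.2) (Option.some.inj h')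
    have e3 := e1.trans e2.symm
    simp only [Prod.mk.injEq] at e3
    obtain ⟨e4, e5⟩ := e3
    have e6 := sub_left_inj.1 e5
    rw [e6] at e4
    exact sub_left_inj.1 e4

variable (t : ℕ)

/-- The space of functions `f(y,u)`. -/
abbrev MM : Type := (Fin 3 → ℤ) → Vert t → ℂ

open Classical in
/-- The coefficients of the action of the arrows. -/
noncomputable def cf (a : Fin 3 → ℤ) : Arr t → (Fin 3 → ℤ) → Fin 3 → ℂ
  | .al ω, y, d => if AT t (a + mv y) d = some ω then 1 else 0
  | .be k, y, d => if a + mv y + fv d = cX t then ch (-(k * d)) else 0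
  | .ga k, y, d => if a + mv y = cX t then (1 / 3) * ch (-(k * (2 - d))) else 0

open Classical in
/-- The action of the idempotents. -/
noncomputable def prj (v : Vert t) : Module.End ℂ (MM t) where
  toFun f := fun y u => if u = v then f y u else 0
  map_add' f g := by
    funext y u
    simp only [Pi.add_apply]
    split_ifs <;> simp
  map_smul' c f := by
    funext y u
    simp

variable [NeZero t]

open Classical in
/-- The action of the arrows. -/
noncomputable def act (C : Set (Arr t)) (a : Fin 3 → ℤ) (g : Arr t) : Module.End ℂ (MM t) where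
  toFun f := fun y u =>
    if u = src g ∧ g ∉ C then
      ∑ d : Fin 3, (if Ok a y d then cf t a g y d * f (y + ev d) (tgt g) else 0)
    else 0
  map_add' f g' := by
    funext y u
    simp only [Pi.add_apply]
    split_ifs with h1
    · rw [← Finset.sum_add_distrib]
      refine Finset.sum_congr rfl fun d _ => ?_
      split_ifs <;> ring
    · simp
  map_smul' c f := by
    funext y u
    simp only [Pi.smul_apply, smul_eq_mul, RingHom.id_apply]
    split_ifs with h1
    · rw [Finset.mul_sum]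
      refine Finset.sum_congr rfl fun d _ => ?_
      split_ifs <;> ring
    · simp

/-- The action of the free algebra. -/
noncomputable def LL (C : Set (Arr t)) (a : Fin 3 → ℤ) : FA t →ₐ[ℂ] Module.End ℂ (MM t) :=
  FreeAlgebra.lift ℂ (Sum.elim (prj t) (act t C a))

variable {t}

theorem LL_gV (C : Set (Arr t)) (a : Fin 3 → ℤ) (v : Vert t) : LL t C a (gV v) = prj t v := by
  simp [LL, gV]

theorem LL_gA (C : Set (Arr t)) (a : Fin 3 → ℤ) (g : Arr t) : LL t C a (gA g) = act t C a g := by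
  simp [LL, gA]

open Classical in
omit [NeZero t] in
theorem prj_apply (v : Vert t) (f : MM t) (y : Fin 3 → ℤ) (u : Vert t) :
    prj t v f y u = if u = v then f y u else 0 := rfl

open Classical in
theorem act_apply (C : Set (Arr t)) (a : Fin 3 → ℤ) (g : Arr t) (f : MM t) (y : Fin 3 → ℤ)
    (u : Vert t) : act t C a g f y u = if u = src g ∧ g ∉ C then
      ∑ d : Fin 3, (if Ok a y d then cf t a g y d * f (y + ev d) (tgt g) else 0)
    else 0 := rfl

open Classical in
theorem act_al (C : Set (Arr t)) (a : Fin 3 → ℤ) {ω : AlArr t} {y : Fin 3 → ℤ} {d : Fin 3}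
    (hω : AT t (a + mv y) d = some ω) (f : MM t) (u : Vert t) :
    act t C a (.al ω) f y u = if u = src (.al ω) ∧ Arr.al ω ∉ C ∧ Ok a y d then
      f (y + ev d) (tgt (.al ω)) else 0 := by
  rw [act_apply]
  by_cases h : u = src (.al ω) ∧ Arr.al ω ∉ C
  · rw [if_pos h, Finset.sum_eq_single d]
    · simp only [cf, if_pos hω, one_mul, h.1, h.2, true_and, not_false_eq_true]
    · intro d' _ hd
      have : ¬ AT t (a + mv y) d' = some ω := fun h' => hd (AT_inj h' hω)
      simp only [cf, if_neg this, zero_mul, ite_self]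
    · simp
  · rw [if_neg h, if_neg]
    tauto

theorem act_al_zero (C : Set (Arr t)) (a : Fin 3 → ℤ) {ω : AlArr t} {y : Fin 3 → ℤ}
    (hω : ∀ d, AT t (a + mv y) d ≠ some ω) (f : MM t) (u : Vert t) :
    act t C a (.al ω) f y u = 0 := by
  rw [act_apply]
  split_ifs with h
  · refine Finset.sum_eq_zero fun d _ => ?_
    simp only [cf, if_neg (hω d), zero_mul, ite_self]
  · rfl

open Classical in
theorem act_be (C : Set (Arr t)) (a : Fin 3 → ℤ) (k : Fin 3) {y : Fin 3 → ℤ} {r : Fin 3}
    (hr : a + mv y + fv r = cX t) (f : MM t) (u : Vert t) :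
    act t C a (.be k) f y u = if u = .inl (vP t) ∧ Arr.be k ∉ C ∧ Ok a y r then
      ch (-(k * r)) * f (y + ev r) (.inr k) else 0 := by
  rw [act_apply]
  by_cases h : u = src (.be k) ∧ Arr.be k ∉ C
  · rw [if_pos h, Finset.sum_eq_single r]
    · have h1 : u = .inl (vP t) := h.1
      simp only [cf, if_pos hr, h1, h.2, true_and, not_false_eq_true, tgt]
    · intro d' _ hd
      have : ¬ a + mv y + fv d' = cX t := fun h' => hd (fv_inj (add_left_cancel (h'.trans hr.symm)))
      simp only [cf, if_neg this, zero_mul, ite_self]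
    · simp
  · rw [if_neg h, if_neg]
    intro h'
    exact h ⟨h'.1, h'.2.1⟩

theorem act_be_zero (C : Set (Arr t)) (a : Fin 3 → ℤ) (k : Fin 3) {y : Fin 3 → ℤ}
    (hr : ∀ r, a + mv y + fv r ≠ cX t) (f : MM t) (u : Vert t) :
    act t C a (.be k) f y u = 0 := by
  rw [act_apply]
  split_ifs with h
  · refine Finset.sum_eq_zero fun d _ => ?_
    simp only [cf, if_neg (hr d), zero_mul, ite_self]
  · rfl

open Classical in
theorem act_ga (C : Set (Arr t)) (a : Fin 3 → ℤ) (k : Fin 3) {y : Fin 3 → ℤ}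
    (hy : a + mv y = cX t) (f : MM t) (u : Vert t) :
    act t C a (.ga k) f y u = if u = .inr k ∧ Arr.ga k ∉ C then
      ∑ d : Fin 3, (if Ok a y d then (1 / 3) * ch (-(k * (2 - d))) * f (y + ev d) (.inl (vS t))
        else 0) else 0 := by
  rw [act_apply]
  simp only [cf, if_pos hy, src, tgt]

theorem act_ga_zero (C : Set (Arr t)) (a : Fin 3 → ℤ) (k : Fin 3) {y : Fin 3 → ℤ}
    (hy : a + mv y ≠ cX t) (f : MM t) (u : Vert t) :
    act t C a (.ga k) f y u = 0 := by
  rw [act_apply]
  simp only [cf, if_neg hy, zero_mul, ite_self, Finset.sum_const_zero]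

/-! ### Heights -/

theorem cX_add_fv_ne (t : ℕ) (p : Fin 3) : cX t + fv p ≠ cX t := by
  intro h
  have := congrFun h p
  simp [fv] at this

theorem vrt_of_step_X (k : Fin 3) {b : Fin 3 → ℤ} {p : Fin 3} (h : b + fv p = cX t) :
    vrt t k b = .inl (vP t) := by
  rw [vrt_eq_iff]
  refine ⟨-p, ?_⟩
  have e : rot (-p) (vP t).1 = cX t - fv p := by
    have e1 : (vP t).1 = cX t - fv 0 := rfl
    have e2 : rot (-p) (cX t - fv 0) + rot (-p) (fv 0) = rot (-p) (cX t) := by
      rw [← rot_add', sub_add_cancel]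
    rw [rot_fv, rot_cX, zero_sub, neg_neg] at e2
    rw [e1]
    exact eq_sub_of_add_eq e2
  rw [e, ← h, add_sub_cancel_right]

theorem vrt_X_step (k : Fin 3) (p : Fin 3) : vrt t k (cX t + fv p) = .inl (vS t) := by
  rw [vrt_eq_iff]
  refine ⟨2 - p, ?_⟩
  have e1 : (vS t).1 = cX t + fv 2 := rfl
  rw [e1, rot_add', rot_cX, rot_fv, sub_sub_cancel]

theorem arr_height {C : Set (Arr t)} {h : Vert t → ℤ} (hh : IsHeight C h) (g : Arr t) :
    (g ∉ C ∧ h (src g) - h (tgt g) = 1) ∨ (g ∈ C ∧ h (src g) - h (tgt g) = -2) := by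
  have := hh g
  by_cases hg : g ∈ C
  · right
    rw [if_pos hg] at this
    exact ⟨hg, this⟩
  · left
    rw [if_neg hg] at this
    exact ⟨hg, this⟩

theorem H_step {C : Set (Arr t)} {h : Vert t → ℤ} (hh : IsHeight C h) (k : Fin 3)
    (b : Fin 3 → ℤ) (p : Fin 3) (hb : InT t b) (hb' : InT t (b + fv p)) :
    HT t h k b - HT t h k (b + fv p) = 1 ∨ HT t h k b - HT t h k (b + fv p) = -2 := by
  unfold HT
  by_cases h1 : b = cX t
  · rw [h1, vrt_cX, vrt_X_step]
    rcases arr_height hh (.ga k) with h2 | h2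
    · exact Or.inl h2.2
    · exact Or.inr h2.2
  by_cases h2 : b + fv p = cX t
  · rw [vrt_of_step_X k h2, h2, vrt_cX]
    rcases arr_height hh (.be k) with h2 | h2
    · exact Or.inl h2.2
    · exact Or.inr h2.2
  have h3 := (AT_isSome b p).2 ⟨hb, hb', h1, h2⟩
  obtain ⟨ω, hω⟩ := Option.isSome_iff_exists.1 h3
  rw [← AT_src hω k, ← AT_tgt hω k]
  rcases arr_height hh (.al ω) with h2 | h2
  · exact Or.inl h2.2
  · exact Or.inr h2.2

/-! ### The action of `gT` -/

open Classical in
theorem LL_gT {C : Set (Arr t)} {h : Vert t → ℤ} (hh : IsHeight C h) (a y : Fin 3 → ℤ)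
    (u : Vert t) (d : Fin 3) (f : MM t) :
    LL t C a (gT t (a + mv y) d) f y u =
      if (AT t (a + mv y) d).isSome = true ∧
          HT t h 0 (a + mv y) - HT t h 0 (a + mv y + fv d) = 1 ∧
          u = vrt t 0 (a + mv y) ∧ Ok a y d then
        f (y + ev d) (vrt t 0 (a + mv y + fv d)) else 0 := by
  rcases hω : AT t (a + mv y) d with _ | ω
  · simp [gT, hω]
  · have e : gT t (a + mv y) d = gA (.al ω) := by simp [gT, hω]
    rw [e, LL_gA, act_al C a hω]
    have e1 := AT_src hω 0
    have e2 := AT_tgt hω 0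
    have e3 : Arr.al ω ∉ C ↔ HT t h 0 (a + mv y) - HT t h 0 (a + mv y + fv d) = 1 := by
      unfold HT
      rw [← e1, ← e2]
      rcases arr_height hh (.al ω) with h2 | h2
      · exact ⟨fun _ => h2.2, fun _ => h2.1⟩
      · constructor
        · intro h3
          exact absurd h2.1 h3
        · intro h3
          rw [h2.2] at h3
          norm_num at h3
    rw [e1, e2]
    refine if_congr ?_ rfl rfl
    rw [← e3]
    simp only [Option.isSome_some, true_and]
    tauto

theorem LL_gT_zero (C : Set (Arr t)) (a y b : Fin 3 → ℤ)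
    (u : Vert t) (d : Fin 3) (f : MM t) (hu : u ≠ vrt t 0 b ∨ vrt t 0 (a + mv y) ≠ vrt t 0 b) :
    LL t C a (gT t b d) f y u = 0 := by
  rcases hω : AT t b d with _ | ω
  · simp [gT, hω]
  · have e : gT t b d = gA (.al ω) := by simp [gT, hω]
    rw [e, LL_gA]
    by_cases h1 : ∃ d', AT t (a + mv y) d' = some ω
    · obtain ⟨d', hd'⟩ := h1
      have e1 := AT_src hω 0
      have e2 := AT_src hd' 0
      rcases hu with hu | hu
      · rw [act_al C a hd', if_neg]
        rintro ⟨h3, -⟩
        exact hu (h3.trans e1)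
      · exact absurd (e2.symm.trans e1) hu
    · push Not at h1
      exact act_al_zero C a h1 f u

open Classical in
/-- Two steps. -/
theorem LL_gT2 {C : Set (Arr t)} {h : Vert t → ℤ} (hh : IsHeight C h) (a y : Fin 3 → ℤ)
    (u : Vert t) (p p' : Fin 3) (f : MM t) :
    LL t C a (gT t (a + mv y) p * gT t (a + mv y + fv p) p') f y u =
      if ((AT t (a + mv y) p).isSome = true ∧ (AT t (a + mv y + fv p) p').isSome = true ∧
          HT t h 0 (a + mv y) - HT t h 0 (a + mv y + fv p) = 1 ∧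
          HT t h 0 (a + mv y + fv p) - HT t h 0 (a + mv y + fv p + fv p') = 1 ∧
          u = vrt t 0 (a + mv y)) ∧ (Ok a y p ∧ Ok a (y + ev p) p') then
        f (y + ev p + ev p') (vrt t 0 (a + mv y + fv p + fv p')) else 0 := by
  rw [map_mul, Module.End.mul_apply, LL_gT hh]
  by_cases h1 : (AT t (a + mv y) p).isSome = true ∧
          HT t h 0 (a + mv y) - HT t h 0 (a + mv y + fv p) = 1 ∧
          u = vrt t 0 (a + mv y) ∧ Ok a y p
  · rw [if_pos h1, ← mv_step, LL_gT hh, mv_step]
    refine if_congr ?_ rfl rfl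
    simp only [true_and, h1.1, h1.2.1, h1.2.2.1, h1.2.2.2]
    tauto
  · rw [if_neg h1, if_neg]
    tauto

omit [NeZero t] in
theorem gT_rot (b : Fin 3 → ℤ) (p r : Fin 3) : gT t (rot r b) (p - r) = gT t b p := by
  unfold gT
  rw [AT_rot]

omit [NeZero t] in
theorem gT2_rot (b : Fin 3 → ℤ) (p p' r : Fin 3) :
    gT t (rot r b) (p - r) * gT t (rot r b + fv (p - r)) (p' - r) =
      gT t b p * gT t (b + fv p) p' := by
  rw [← rot_fv, ← rot_add', gT_rot, gT_rot]

/-! ### The relations -/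

open Classical in
theorem LL_central {C : Set (Arr t)} {h : Vert t → ℤ} (hh : IsHeight C h) (a y : Fin 3 → ℤ)
    (u : Vert t) (r j : Fin 3) (f : MM t) (hr : a + mv y + fv r = cX t) :
    (∑ k : Fin 3, ch (k * j) • (act t C a (.be k) * act t C a (.ga k))) f y u =
      if h (.inl (vP t)) - h (.inl (vS t)) = 2 ∧ u = .inl (vP t) ∧ Ok a y r ∧
          Ok a (y + ev r) (r + 2 - j) then
        f (y + ev r + ev (r + 2 - j)) (.inl (vS t)) else 0 := by
  have key : ∀ k : Fin 3, act t C a (.be k) (act t C a (.ga k) f) y u =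
      if h (.inl (vP t)) - h (.inl (vS t)) = 2 ∧ u = .inl (vP t) ∧ Ok a y r then
        ∑ d : Fin 3, (if Ok a (y + ev r) d then
          (1 / 3) * (ch (-(k * r)) * ch (-(k * (2 - d)))) * f (y + ev r + ev d) (.inl (vS t))
          else 0) else 0 := by
    intro k
    have hy : a + mv (y + ev r) = cX t := by rw [mv_step, hr]
    have h1 := arr_height hh (.be k)
    have h2 := arr_height hh (.ga k)
    simp only [src, tgt] at h1 h2
    have hc : (Arr.be k ∉ C ∧ Arr.ga k ∉ C) ↔ h (.inl (vP t)) - h (.inl (vS t)) = 2 := by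
      constructor
      · rintro ⟨c1, c2⟩
        rcases h1 with h1 | h1
        · rcases h2 with h2 | h2
          · linarith [h1.2, h2.2]
          · exact absurd h2.1 c2
        · exact absurd h1.1 c1
      · intro hc
        rcases h1 with h1 | h1
        · rcases h2 with h2 | h2
          · exact ⟨h1.1, h2.1⟩
          · exfalso
            have := h1.2
            have := h2.2
            omega
        · exfalso
          rcases h2 with h2 | h2
          · have := h1.2
            have := h2.2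
            omega
          · have := h1.2
            have := h2.2
            omega
    rw [act_be C a k hr, act_ga C a k hy]
    by_cases h3 : h (.inl (vP t)) - h (.inl (vS t)) = 2 ∧ u = .inl (vP t) ∧ Ok a y r
    · have h4 := hc.2 h3.1
      rw [if_pos h3, if_pos ⟨h3.2.1, h4.1, h3.2.2⟩, if_pos ⟨rfl, h4.2⟩, Finset.mul_sum]
      refine Finset.sum_congr rfl fun d _ => ?_
      split_ifs <;> ring
    · rw [if_neg h3]
      by_cases h4 : u = Sum.inl (vP t) ∧ Arr.be k ∉ C ∧ Ok a y r
      · rw [if_pos h4]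
        have h5 : ¬ ((Sum.inr k : Vert t) = Sum.inr k ∧ Arr.ga k ∉ C) := by
          rintro ⟨-, h6⟩
          exact h3 ⟨hc.1 ⟨h4.2.1, h6⟩, h4.1, h4.2.2⟩
        rw [if_neg h5, mul_zero]
      · rw [if_neg h4]
  have e0 : (∑ k : Fin 3, ch (k * j) • (act t C a (.be k) * act t C a (.ga k))) f y u =
      ∑ k : Fin 3, ch (k * j) * act t C a (.be k) (act t C a (.ga k) f) y u := by
    rw [LinearMap.sum_apply, Finset.sum_apply, Finset.sum_apply]
    rfl
  rw [e0]
  simp only [key]
  by_cases h3 : h (.inl (vP t)) - h (.inl (vS t)) = 2 ∧ u = .inl (vP t) ∧ Ok a y r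
  · simp only [if_pos h3, Finset.mul_sum]
    rw [Finset.sum_comm]
    have e1 : ∀ d : Fin 3, (∑ k : Fin 3, ch (k * j) * (if Ok a (y + ev r) d then
          (1 / 3) * (ch (-(k * r)) * ch (-(k * (2 - d)))) * f (y + ev r + ev d) (.inl (vS t))
          else 0)) = if Ok a (y + ev r) d ∧ d = r + 2 - j then
            f (y + ev r + ev d) (.inl (vS t)) else 0 := by
      intro d
      by_cases h4 : Ok a (y + ev r) d
      · simp only [h4, true_and, if_true]
        have e2 : ∀ k : Fin 3, ch (k * j) * ((1 / 3) * (ch (-(k * r)) * ch (-(k * (2 - d)))) *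
            f (y + ev r + ev d) (.inl (vS t))) =
            ch (k * (j - r - 2 + d)) * ((1 / 3) * f (y + ev r + ev d) (.inl (vS t))) := by
          intro k
          have e3 : k * (j - r - 2 + d) = k * j + (-(k * r) + -(k * (2 - d))) :=
            (by decide : ∀ k j r d : Fin 3, k * (j - r - 2 + d) =
              k * j + (-(k * r) + -(k * (2 - d)))) k j r d
          rw [e3, ch_add, ch_add]
          ring
        rw [Finset.sum_congr rfl fun k _ => e2 k, ← Finset.sum_mul, sum_ch]
        have e4 : (j - r - 2 + d = 0) ↔ d = r + 2 - j :=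
          (by decide : ∀ j r d : Fin 3, (j - r - 2 + d = 0) ↔ d = r + 2 - j) j r d
        by_cases h5 : d = r + 2 - j
        · rw [if_pos h5, if_pos (e4.2 h5)]
          ring
        · rw [if_neg h5, if_neg (fun h6 => h5 (e4.1 h6)), zero_mul]
      · simp [h4]
    rw [Finset.sum_congr rfl fun d _ => e1 d, Finset.sum_eq_single (r + 2 - j)]
    · simp only [and_true, h3.1, h3.2.1, h3.2.2, true_and]
    · intro d _ hd
      rw [if_neg (fun h6 => hd h6.2)]
    · simp
  · simp only [if_neg h3, mul_zero, Finset.sum_const_zero]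
    rw [if_neg]
    tauto

open Classical in
theorem two_step_iff {C : Set (Arr t)} {h : Vert t → ℤ} (hh : IsHeight C h) {a : Fin 3 → ℤ}
    (ha : InT t a) (y : Fin 3 → ℤ) (u : Vert t) {p p' e : Fin 3} (hpp : p ≠ p')
    (e3 : a + mv y + fv p + fv p' = a + mv y - fv e)
    (hT : InT t (a + mv y)) (hT' : InT t (a + mv y - fv e))
    (hX : a + mv y ≠ cX t) (hX' : a + mv y - fv e ≠ cX t)
    (hH : HT t h 0 (a + mv y) - HT t h 0 (a + mv y - fv e) = 2)
    (hu : u = vrt t 0 (a + mv y)) :
    (((AT t (a + mv y) p).isSome = true ∧ (AT t (a + mv y + fv p) p').isSome = true ∧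
          HT t h 0 (a + mv y) - HT t h 0 (a + mv y + fv p) = 1 ∧
          HT t h 0 (a + mv y + fv p) - HT t h 0 (a + mv y + fv p + fv p') = 1 ∧
          u = vrt t 0 (a + mv y)) ∧ (Ok a y p ∧ Ok a (y + ev p) p')) ↔
      (a + mv y + fv p ≠ cX t ∧ (Ok a y p ∧ Ok a y p')) := by
  rw [ok_step hpp]
  constructor
  · rintro ⟨⟨h1, -⟩, h2⟩
    exact ⟨((AT_isSome _ _).1 h1).2.2.2, h2⟩
  · rintro ⟨h1, h2⟩
    have hm : InT t (a + mv y + fv p) := (ok_inT ha h2.1).2
    have hs1 : (AT t (a + mv y) p).isSome = true := (AT_isSome _ _).2 ⟨hT, hm, hX, h1⟩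
    have hs2 : (AT t (a + mv y + fv p) p').isSome = true := by
      refine (AT_isSome _ _).2 ⟨hm, ?_, h1, ?_⟩
      · rw [e3]; exact hT'
      · rw [e3]; exact hX'
    have k1 := H_step hh 0 _ _ hT hm
    have k2 := H_step hh 0 _ p' hm (by rw [e3]; exact hT')
    rw [e3] at k2 ⊢
    refine ⟨⟨hs1, hs2, ?_, ?_, hu⟩, h2⟩
    · omega
    · omega

theorem tgt_alpha1 (t : ℕ) [NeZero t] : tgt (.al (alpha1 t)) = .inl (vP t) := by
  have h : AT t (vS t).1 1 = some (alpha1 t) := AT_self (alpha1 t)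
  rw [AT_tgt h 0]
  refine vrt_of_step_X (t := t) 0 (p := 0) ?_
  have e : (vS t).1 = cX t + fv 2 := rfl
  have := fv_sum' 0
  rw [zero_add, zero_add] at this
  rw [e, add_assoc, add_assoc, ← add_assoc (fv 2), add_comm (fv 2), this, neg_add_cancel, add_zero]

theorem tgt_alpha21 (t : ℕ) [NeZero t] : tgt (.al (alpha21 t)) = .inl (vP t) := by
  have h : AT t (vS t).1 (2 + 1) = some (alpha21 t) := AT_self (alpha21 t)
  rw [show (2 : Fin 3) + 1 = 0 from rfl] at h
  rw [AT_tgt h 0]
  refine vrt_of_step_X (t := t) 0 (p := 1) ?_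
  have e : (vS t).1 = cX t + fv 2 := rfl
  have := fv_sum' 1
  have e2 : (1 : Fin 3) + 1 = 2 := rfl
  have e3 : (1 : Fin 3) + 2 = 0 := rfl
  rw [e2, e3] at this
  rw [e, add_assoc, add_assoc, ← add_assoc (fv 2), this, neg_add_cancel, add_zero]

theorem smul_one_mul_sum {C : Set (Arr t)} (a : Fin 3 → ℤ) :
    LL t C a (- ∑ k : Fin 3, gA (.be k) * gA (.ga k)) =
      - ∑ k : Fin 3, ch (k * 0) • (act t C a (.be k) * act t C a (.ga k)) := by
  rw [map_neg, map_sum]
  congr 1
  refine Finset.sum_congr rfl fun k _ => ?_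
  rw [map_mul, LL_gA, LL_gA, mul_zero, ch_zero, one_smul]

theorem smul_zeta_mul_sum {C : Set (Arr t)} (a : Fin 3 → ℤ) :
    LL t C a (∑ k : Fin 3, (zeta ^ (k : ℕ)) • (gA (.be k) * gA (.ga k))) =
      ∑ k : Fin 3, ch (k * 1) • (act t C a (.be k) * act t C a (.ga k)) := by
  rw [map_sum]
  refine Finset.sum_congr rfl fun k _ => ?_
  rw [map_smul, map_mul, LL_gA, LL_gA, mul_one]
  rfl

theorem central_zero {C : Set (Arr t)} (a y : Fin 3 → ℤ) (u : Vert t) (j : Fin 3) (f : MM t)
    (hu : u ≠ .inl (vP t) ∨ vrt t 0 (a + mv y) ≠ .inl (vP t)) :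
    (∑ k : Fin 3, ch (k * j) • (act t C a (.be k) * act t C a (.ga k))) f y u = 0 := by
  rw [LinearMap.sum_apply, Finset.sum_apply, Finset.sum_apply]
  refine Finset.sum_eq_zero fun k _ => ?_
  change ch (k * j) * act t C a (.be k) (act t C a (.ga k) f) y u = 0
  have e : act t C a (.be k) (act t C a (.ga k) f) y u = 0 := by
    rcases hu with hu | hu
    · rw [act_apply, if_neg]
      rintro ⟨h1, -⟩
      exact hu h1
    · refine act_be_zero C a k ?_ _ _
      intro r hr
      exact hu (vrt_of_step_X 0 hr)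
  rw [e, mul_zero]

/-- The relations `∂_x W` for the arrows `α`. -/
theorem pot_al {C : Set (Arr t)} {h : Vert t → ℤ} (hh : IsHeight C h) {a : Fin 3 → ℤ}
    (ha : InT t a) (x : AlArr t) : LL t C a (dW (.al x)) = 0 := by
  classical
  refine LinearMap.ext fun f => ?_
  funext y u
  rw [dW_al, map_add, map_add, map_sub]
  simp only [LinearMap.add_apply, LinearMap.sub_apply, Pi.add_apply, Pi.sub_apply]
  set d : Fin 3 := x.1.2.1 + x.1.2.2 with hd
  set b : Fin 3 → ℤ := x.1.1.1 + fv d with hb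
  have hx : AT t x.1.1.1 d = some x := AT_self x
  have htgt : tgt (.al x) = vrt t 0 b := AT_tgt hx 0
  by_cases hu : u = vrt t 0 b ∧ vrt t 0 (a + mv y) = vrt t 0 b
  swap
  · have hu' : u ≠ vrt t 0 b ∨ vrt t 0 (a + mv y) ≠ vrt t 0 b := not_and_or.1 hu
    have z1 : ∀ p p' b', LL t C a (gT t b p * gT t b' p') f y u = 0 := by
      intro p p' b'
      rw [map_mul, Module.End.mul_apply, LL_gT_zero C a y b u p _ hu']
    rw [z1, z1, sub_zero, zero_add]
    have z2 : (LL t C a (if x = alpha1 t then - ∑ k : Fin 3, gA (.be k) * gA (.ga k) else 0)) f y u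
        = 0 := by
      split_ifs with h1
      · rw [← htgt, h1, tgt_alpha1] at hu'
        rw [smul_one_mul_sum, LinearMap.neg_apply, Pi.neg_apply, Pi.neg_apply,
          central_zero a y u 0 f hu', neg_zero]
      · simp
    have z3 : (LL t C a (if x = alpha21 t then
        ∑ k : Fin 3, (zeta ^ (k : ℕ)) • (gA (.be k) * gA (.ga k)) else 0)) f y u = 0 := by
      split_ifs with h1
      · rw [← htgt, h1, tgt_alpha21] at hu'
        rw [smul_zeta_mul_sum, central_zero a y u 1 f hu']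
      · simp
    rw [z2, z3, add_zero]
    rfl
  obtain ⟨hu1, hu2⟩ := hu
  obtain ⟨s, hs⟩ : ∃ s, rot s b = a + mv y := by
    have h1 : tgt (.al x) = .inl ⟨rot x.1.2.2 x.1.1.1 + fv x.1.2.1, x.2⟩ := rfl
    have h2 := htgt.symm.trans h1
    have h3 := hu2.trans h2
    obtain ⟨r, hr⟩ := (vrt_eq_iff 0 _).1 h2
    obtain ⟨r', hr'⟩ := (vrt_eq_iff 0 _).1 h3
    refine ⟨r' - r, ?_⟩
    rw [hr, hr', rot_rot, sub_add_cancel]
  set e : Fin 3 := d - s with he
  have f1 : d + 1 - s = e + 1 := (by decide : ∀ d s : Fin 3, d + 1 - s = d - s + 1) d s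
  have f2 : d + 2 - s = e + 2 := (by decide : ∀ d s : Fin 3, d + 2 - s = d - s + 2) d s
  have g1 := gT2_rot (t := t) b (d + 1) (d + 2) s
  have g2 := gT2_rot (t := t) b (d + 2) (d + 1) s
  rw [hs, f1, f2] at g1 g2
  rw [← g1, ← g2, LL_gT2 hh, LL_gT2 hh]
  have hx1 : AT t (rot s x.1.1.1) (d - s) = some x := by rw [AT_rot]; exact hx
  have hx2 : rot s x.1.1.1 = a + mv y - fv e := by
    rw [← hs, hb, rot_add', rot_fv, ← he, add_sub_cancel_right]
  rw [hx2, ← he] at hx1
  have hA := (AT_isSome (a + mv y - fv e) e).1 (by rw [hx1]; rfl)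
  rw [sub_add_cancel] at hA
  obtain ⟨hT', hT, hX', hX⟩ := hA
  have hS : h (src (.al x)) = HT t h 0 (a + mv y - fv e) := by rw [AT_src hx1 0]; rfl
  have hTg : h (tgt (.al x)) = HT t h 0 (a + mv y) := by
    rw [AT_tgt hx1 0, sub_add_cancel]; rfl
  have e3 : a + mv y + fv (e + 1) + fv (e + 2) = a + mv y - fv e := by
    rw [add_assoc, fv_sum', sub_eq_add_neg]
  have e3' : a + mv y + fv (e + 2) + fv (e + 1) = a + mv y - fv e := by
    rw [add_assoc, add_comm (fv (e + 2)), fv_sum', sub_eq_add_neg]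
  have hvP : x = alpha1 t ∨ x = alpha21 t → h (src (.al x)) = h (.inl (vS t)) ∧
      h (tgt (.al x)) = h (.inl (vP t)) := by
    rintro (h1 | h1)
    · rw [h1, tgt_alpha1]
      exact ⟨rfl, rfl⟩
    · rw [h1, tgt_alpha21]
      exact ⟨rfl, rfl⟩
  have hE1 : x = alpha1 t → a + mv y + fv (e + 2) = cX t := by
    intro h1
    have k1 : x.1.1.1 = cX t + fv 2 := by rw [h1]; rfl
    have k2 : d = 1 := by rw [hd, h1]; rfl
    have k3 : a + mv y = cX t + fv (e + 1) + fv e := by
      rw [k1, rot_add', rot_cX, rot_fv] at hx2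
      have k4 : 2 - s = e + 1 := by
        rw [he, k2]
        exact (by decide : ∀ s : Fin 3, 2 - s = 1 - s + 1) s
      rw [k4] at hx2
      rw [hx2, sub_add_cancel]
    have k5 : fv (e + 2) = - fv e - fv (e + 1) := by
      rw [← fv_sum' e, add_sub_cancel_left]
    rw [k3, k5]
    abel
  have hE21 : x = alpha21 t → a + mv y + fv (e + 1) = cX t := by
    intro h1
    have k1 : x.1.1.1 = cX t + fv 2 := by rw [h1]; rfl
    have k2 : d = 0 := by
      have k6 : d = 2 + 1 := by rw [hd, h1]; rfl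
      rw [k6]
      rfl
    have k3 : a + mv y = cX t + fv (e + 2) + fv e := by
      rw [k1, rot_add', rot_cX, rot_fv] at hx2
      have k4 : 2 - s = e + 2 := by
        rw [he, k2]
        exact (by decide : ∀ s : Fin 3, 2 - s = 0 - s + 2) s
      rw [k4] at hx2
      rw [hx2, sub_add_cancel]
    have k5 : fv (e + 2) = - fv e - fv (e + 1) := by
      rw [← fv_sum' e, add_sub_cancel_left]
    rw [k3, k5]
    abel
  have hF21 : x ≠ alpha21 t → a + mv y + fv (e + 1) ≠ cX t := by
    intro h1 h2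
    refine h1 ?_
    have k1 : a + mv y - fv e = cX t + fv (e + 2) := by
      rw [← e3, h2]
    rw [k1] at hx1
    have k2 := AT_rot (t := t) (cX t + fv (e + 2)) e e
    rw [hx1, rot_add', rot_cX, rot_fv, sub_self, add_sub_cancel_left] at k2
    have k3 : AT t (vS t).1 (2 + 1) = some (alpha21 t) := AT_self (alpha21 t)
    rw [show (2 : Fin 3) + 1 = 0 from rfl] at k3
    exact Option.some.inj (k2.symm.trans k3)
  have hF1 : x ≠ alpha1 t → a + mv y + fv (e + 2) ≠ cX t := by
    intro h1 h2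
    refine h1 ?_
    have k1 : a + mv y - fv e = cX t + fv (e + 1) := by
      rw [← e3', h2]
    rw [k1] at hx1
    have k2 := AT_rot (t := t) (cX t + fv (e + 1)) e (e + 2)
    rw [hx1, rot_add', rot_cX, rot_fv] at k2
    have k4 : e - (e + 2) = 1 := (by decide : ∀ e : Fin 3, e - (e + 2) = 1) e
    have k5 : e + 1 - (e + 2) = 2 := (by decide : ∀ e : Fin 3, e + 1 - (e + 2) = 2) e
    rw [k4, k5] at k2
    have k3 : AT t (vS t).1 1 = some (alpha1 t) := AT_self (alpha1 t)
    exact Option.some.inj (k2.symm.trans k3)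
  rcases arr_height hh (.al x) with ⟨hc, h1⟩ | ⟨hc, h1⟩
  · -- the arrow is not in the cut
    rw [hS, hTg] at h1
    rw [if_neg, if_neg]
    · have z2 : (LL t C a (if x = alpha1 t then - ∑ k : Fin 3, gA (.be k) * gA (.ga k) else 0)) f y
          u = 0 := by
        split_ifs with h2
        · rw [smul_one_mul_sum, LinearMap.neg_apply, Pi.neg_apply, Pi.neg_apply,
            LL_central hh a y u (e + 2) 0 f (hE1 h2), if_neg, neg_zero]
          rintro ⟨h3, -⟩
          have h4 := hvP (Or.inl h2)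
          omega
        · simp
      have z3 : (LL t C a (if x = alpha21 t then
          ∑ k : Fin 3, (zeta ^ (k : ℕ)) • (gA (.be k) * gA (.ga k)) else 0)) f y u = 0 := by
        split_ifs with h2
        · rw [smul_zeta_mul_sum, LL_central hh a y u (e + 1) 1 f (hE21 h2), if_neg]
          rintro ⟨h3, -⟩
          have h4 := hvP (Or.inr h2)
          omega
        · simp
      rw [z2, z3]
      simp
    · rintro ⟨⟨-, -, h2, h3, -⟩, -⟩
      rw [e3'] at h3
      omega
    · rintro ⟨⟨-, -, h2, h3, -⟩, -⟩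
      rw [e3] at h3
      omega
  · rw [hS, hTg] at h1
    have hpp : e + 1 ≠ e + 2 := (by decide : ∀ e : Fin 3, e + 1 ≠ e + 2) e
    have hH : HT t h 0 (a + mv y) - HT t h 0 (a + mv y - fv e) = 2 := by omega
    have huy : u = vrt t 0 (a + mv y) := by rw [hu2, hu1]
    rw [if_congr (two_step_iff hh ha y u hpp e3 hT hT' hX hX' hH huy) rfl rfl,
      if_congr (two_step_iff hh ha y u hpp.symm e3' hT hT' hX hX' hH huy) rfl rfl, e3, e3']
    have hvS : x = alpha1 t ∨ x = alpha21 t → vrt t 0 (a + mv y - fv e) = .inl (vS t) := by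
      intro h2
      rw [← AT_src hx1 0]
      rcases h2 with h2 | h2 <;> rw [h2] <;> rfl
    have huP : x = alpha1 t ∨ x = alpha21 t → u = .inl (vP t) := by
      intro h2
      rw [hu1, ← htgt]
      rcases h2 with h2 | h2
      · rw [h2, tgt_alpha1]
      · rw [h2, tgt_alpha21]
    have hPS : x = alpha1 t ∨ x = alpha21 t → h (.inl (vP t)) - h (.inl (vS t)) = 2 := by
      intro h2
      have h3 := hvP h2
      omega
    have hne : alpha1 t ≠ alpha21 t := by
      intro h2
      have h3 := congrArg (fun z : AlArr t => z.1.2.1) h2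
      exact absurd h3 (by decide : (1 : Fin 3) ≠ 2)
    have hsw : y + ev (e + 2) + ev (e + 1) = y + ev (e + 1) + ev (e + 2) := add_right_comm _ _ _
    by_cases x1 : x = alpha1 t
    · have x2 : x ≠ alpha21 t := by rw [x1]; exact hne
      have k1 := hE1 x1
      have k2 := hF21 x2
      rw [if_neg (c := a + mv y + fv (e + 2) ≠ cX t ∧ _) (fun h2 => h2.1 k1), if_pos x1,
        if_neg x2, smul_one_mul_sum, LinearMap.neg_apply, Pi.neg_apply, Pi.neg_apply,
        LL_central hh a y u (e + 2) 0 f k1]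
      have k3 : e + 2 + 2 - 0 = e + 1 := (by decide : ∀ e : Fin 3, e + 2 + 2 - 0 = e + 1) e
      rw [k3, hsw, hvS (Or.inl x1)]
      have k4 : (a + mv y + fv (e + 1) ≠ cX t ∧ Ok a y (e + 1) ∧ Ok a y (e + 2)) ↔
          (h (.inl (vP t)) - h (.inl (vS t)) = 2 ∧ u = .inl (vP t) ∧ Ok a y (e + 2) ∧
            Ok a (y + ev (e + 2)) (e + 1)) := by
        rw [ok_step hpp.symm]
        constructor
        · rintro ⟨-, h3, h4⟩
          exact ⟨hPS (Or.inl x1), huP (Or.inl x1), h4, h3⟩
        · rintro ⟨-, -, h3, h4⟩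
          exact ⟨k2, h4, h3⟩
      rw [if_congr k4 rfl rfl]
      simp
    · by_cases x2 : x = alpha21 t
      · have k1 := hE21 x2
        have k2 := hF1 x1
        rw [if_neg (c := a + mv y + fv (e + 1) ≠ cX t ∧ _) (fun h2 => h2.1 k1), if_neg x1,
          if_pos x2, smul_zeta_mul_sum, LL_central hh a y u (e + 1) 1 f k1]
        have k3 : e + 1 + 2 - 1 = e + 2 := (by decide : ∀ e : Fin 3, e + 1 + 2 - 1 = e + 2) e
        rw [k3, hsw, hvS (Or.inr x2)]
        have k4 : (a + mv y + fv (e + 2) ≠ cX t ∧ Ok a y (e + 2) ∧ Ok a y (e + 1)) ↔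
            (h (.inl (vP t)) - h (.inl (vS t)) = 2 ∧ u = .inl (vP t) ∧ Ok a y (e + 1) ∧
              Ok a (y + ev (e + 1)) (e + 2)) := by
          rw [ok_step hpp]
          constructor
          · rintro ⟨-, h3, h4⟩
            exact ⟨hPS (Or.inr x2), huP (Or.inr x2), h4, h3⟩
          · rintro ⟨-, -, h3, h4⟩
            exact ⟨k2, h4, h3⟩
        rw [if_congr k4 rfl rfl]
        simp
      · rw [if_neg x1, if_neg x2, hsw]
        have k1 := hF21 x2
        have k2 := hF1 x1
        have k4 : (a + mv y + fv (e + 2) ≠ cX t ∧ Ok a y (e + 2) ∧ Ok a y (e + 1)) ↔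
            (a + mv y + fv (e + 1) ≠ cX t ∧ Ok a y (e + 1) ∧ Ok a y (e + 2)) :=
          ⟨fun h2 => ⟨k1, h2.2.2, h2.2.1⟩, fun h2 => ⟨k2, h2.2.2, h2.2.1⟩⟩
        rw [if_congr k4 rfl rfl]
        simp

theorem AT_alpha21 (d : Fin 3) : AT t (cX t + fv d) (d + 1) = some (alpha21 t) := by
  have k3 : AT t (vS t).1 (2 + 1) = some (alpha21 t) := AT_self (alpha21 t)
  have e1 : (vS t).1 = cX t + fv 2 := rfl
  have k2 := AT_rot (t := t) (cX t + fv 2) (2 + 1) (2 - d)
  rw [← e1, k3, e1, rot_add', rot_cX, rot_fv, sub_sub_cancel] at k2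
  have k4 : 2 + 1 - (2 - d) = d + 1 := (by decide : ∀ d : Fin 3, 2 + 1 - (2 - d) = d + 1) d
  rw [k4] at k2
  exact k2

theorem AT_alpha1 (d : Fin 3) : AT t (cX t + fv d) (d + 2) = some (alpha1 t) := by
  have k3 : AT t (vS t).1 1 = some (alpha1 t) := AT_self (alpha1 t)
  have e1 : (vS t).1 = cX t + fv 2 := rfl
  have k2 := AT_rot (t := t) (cX t + fv 2) 1 (2 - d)
  rw [← e1, k3, e1, rot_add', rot_cX, rot_fv, sub_sub_cancel] at k2
  have k4 : 1 - (2 - d) = d + 2 := (by decide : ∀ d : Fin 3, 1 - (2 - d) = d + 2) d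
  rw [k4] at k2
  exact k2

theorem alpha_cut {C : Set (Arr t)} {h : Vert t → ℤ} (hh : IsHeight C h) :
    Arr.al (alpha1 t) ∈ C ↔ Arr.al (alpha21 t) ∈ C := by
  have h1 := arr_height hh (.al (alpha1 t))
  have h2 := arr_height hh (.al (alpha21 t))
  rw [tgt_alpha1] at h1
  rw [tgt_alpha21] at h2
  have e1 : src (.al (alpha1 t)) = .inl (vS t) := rfl
  have e2 : src (.al (alpha21 t)) = .inl (vS t) := rfl
  rw [e1] at h1
  rw [e2] at h2
  constructor
  · intro hc
    rcases h1 with h1 | h1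
    · exact absurd hc h1.1
    · rcases h2 with h2 | h2
      · have := h1.2
        have := h2.2
        omega
      · exact h2.1
  · intro hc
    rcases h2 with h2 | h2
    · exact absurd hc h2.1
    · rcases h1 with h1 | h1
      · have := h1.2
        have := h2.2
        omega
      · exact h1.1

open Classical in
theorem act_alpha {C : Set (Arr t)} {h : Vert t → ℤ} (hh : IsHeight C h) {a y : Fin 3 → ℤ}
    {d : Fin 3} (hy : a + mv y = cX t + fv d) (k : Fin 3) (f : MM t) (u : Vert t) :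
    ((zeta ^ (k : ℕ)) • act t C a (.al (alpha21 t)) - act t C a (.al (alpha1 t))) f y u =
      if u = .inl (vS t) ∧ Arr.al (alpha1 t) ∉ C then
        ch k * (if Ok a y (d + 1) then f (y + ev (d + 1)) (.inl (vP t)) else 0) -
          (if Ok a y (d + 2) then f (y + ev (d + 2)) (.inl (vP t)) else 0)
      else 0 := by
  have e1 : AT t (a + mv y) (d + 1) = some (alpha21 t) := by rw [hy, AT_alpha21]
  have e2 : AT t (a + mv y) (d + 2) = some (alpha1 t) := by rw [hy, AT_alpha1]
  rw [LinearMap.sub_apply, LinearMap.smul_apply, Pi.sub_apply, Pi.sub_apply, Pi.smul_apply,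
    Pi.smul_apply, act_al C a e1, act_al C a e2, tgt_alpha1, tgt_alpha21, ← alpha_cut hh]
  have e3 : src (.al (alpha1 t)) = .inl (vS t) := rfl
  have e4 : src (.al (alpha21 t)) = .inl (vS t) := rfl
  rw [e3, e4]
  by_cases hu : u = .inl (vS t) ∧ Arr.al (alpha1 t) ∉ C
  · rw [if_pos hu]
    simp only [hu.1, hu.2, true_and, not_false_eq_true, smul_eq_mul]
    rfl
  · rw [if_neg hu, if_neg (fun h1 => hu ⟨h1.1, h1.2.1⟩), if_neg (fun h1 => hu ⟨h1.1, h1.2.1⟩)]
    simp

open Classical in
theorem act_alpha_pos {C : Set (Arr t)} {h : Vert t → ℤ} (hh : IsHeight C h) {a y : Fin 3 → ℤ}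
    {d : Fin 3} (hy : a + mv y = cX t + fv d) (k : Fin 3) (f : MM t)
    (hc : Arr.al (alpha1 t) ∉ C) :
    ((zeta ^ (k : ℕ)) • act t C a (.al (alpha21 t)) - act t C a (.al (alpha1 t))) f y
      (.inl (vS t)) =
        ch k * (if Ok a y (d + 1) then f (y + ev (d + 1)) (.inl (vP t)) else 0) -
          (if Ok a y (d + 2) then f (y + ev (d + 2)) (.inl (vP t)) else 0) := by
  rw [act_alpha hh hy, if_pos ⟨rfl, hc⟩]

theorem act_alpha_neg {C : Set (Arr t)} {h : Vert t → ℤ} (hh : IsHeight C h) {a y : Fin 3 → ℤ}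
    {d : Fin 3} (hy : a + mv y = cX t + fv d) (k : Fin 3) (f : MM t) (u : Vert t)
    (hc : Arr.al (alpha1 t) ∈ C) :
    ((zeta ^ (k : ℕ)) • act t C a (.al (alpha21 t)) - act t C a (.al (alpha1 t))) f y u = 0 := by
  rw [act_alpha hh hy, if_neg (fun h1 => h1.2 hc)]

theorem pot_be {C : Set (Arr t)} {h : Vert t → ℤ} (hh : IsHeight C h) (a : Fin 3 → ℤ)
    (k : Fin 3) : LL t C a (dW (.be k)) = 0 := by
  classical
  refine LinearMap.ext fun f => ?_
  funext y u
  rw [dW_be, map_mul, map_sub, map_smul, LL_gA, LL_gA, LL_gA, Module.End.mul_apply]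
  by_cases hy : a + mv y = cX t
  swap
  · rw [act_ga_zero C a k hy]
    rfl
  rw [act_ga C a k hy]
  by_cases hu : u = Sum.inr k ∧ Arr.ga k ∉ C
  swap
  · rw [if_neg hu]
    rfl
  rw [if_pos hu]
  by_cases hc : Arr.al (alpha1 t) ∈ C
  · refine Finset.sum_eq_zero fun d _ => ?_
    have e : a + mv (y + ev d) = cX t + fv d := by rw [mv_step, hy]
    rw [act_alpha_neg hh e k f _ hc, mul_zero, ite_self]
  · set G : Fin 3 → Fin 3 → ℂ := fun d d' =>
      if Ok a y d ∧ Ok a y d' then f (y + ev d + ev d') (.inl (vP t)) else 0 with hG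
    have hsym : ∀ d d', G d d' = G d' d := by
      intro d d'
      simp only [hG]
      rw [add_right_comm, if_congr and_comm rfl rfl]
    have e1 : ∀ d : Fin 3, (if Ok a y d then (1 / 3) * ch (-(k * (2 - d))) *
        (((zeta ^ (k : ℕ)) • act t C a (.al (alpha21 t)) - act t C a (.al (alpha1 t))) f
          (y + ev d) (.inl (vS t))) else 0) =
        (1 / 3) * ch (-(k * (2 - d))) * (ch k * G d (d + 1) - G d (d + 2)) := by
      intro d
      have e : a + mv (y + ev d) = cX t + fv d := by rw [mv_step, hy]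
      rw [act_alpha_pos hh e k f hc]
      have n1 : d ≠ d + 1 := (by decide : ∀ d : Fin 3, d ≠ d + 1) d
      have n2 : d ≠ d + 2 := (by decide : ∀ d : Fin 3, d ≠ d + 2) d
      have o1 := ok_step (a := a) (y := y) n1
      have o2 := ok_step (a := a) (y := y) n2
      simp only [hG]
      rw [← if_congr o1 rfl rfl, ← if_congr o2 rfl rfl]
      by_cases h1 : Ok a y d
      · simp only [h1, true_and, if_true]
      · simp [h1]
    rw [Finset.sum_congr rfl fun d _ => e1 d, Fin.sum_univ_three]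
    have a1 : (0 : Fin 3) + 1 = 1 := rfl
    have a2 : (0 : Fin 3) + 2 = 2 := rfl
    have a3 : (1 : Fin 3) + 1 = 2 := rfl
    have a4 : (1 : Fin 3) + 2 = 0 := rfl
    have a5 : (2 : Fin 3) + 1 = 0 := rfl
    have a6 : (2 : Fin 3) + 2 = 1 := rfl
    have b1 : ch (-(k * (2 - 0))) = ch k := by
      congr 1
      exact (by decide : ∀ k : Fin 3, -(k * (2 - 0)) = k) k
    have b2 : ch (-(k * (2 - 1))) * ch k = 1 := by
      rw [← ch_add]
      have : -(k * (2 - 1)) + k = 0 := (by decide : ∀ k : Fin 3, -(k * (2 - 1)) + k = 0) k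
      rw [this, ch_zero]
    have b3 : ch (-(k * (2 - 2))) = 1 := by
      have : -(k * (2 - 2)) = 0 := (by decide : ∀ k : Fin 3, -(k * (2 - 2)) = 0) k
      rw [this, ch_zero]
    have b4 : ch k * ch k = ch (-(k * (2 - 1))) := by
      rw [← ch_add]
      congr 1
      exact (by decide : ∀ k : Fin 3, k + k = -(k * (2 - 1))) k
    rw [a1, a2, a3, a4, a5, a6, b1, b3, hsym 1 0, hsym 2 0, hsym 2 1]
    change _ = (0 : ℂ)
    linear_combination (1 / 3) * G 0 1 * b4 + (1 / 3) * G 1 2 * b2

theorem pot_ga {C : Set (Arr t)} {h : Vert t → ℤ} (hh : IsHeight C h) (a : Fin 3 → ℤ)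
    (k : Fin 3) : LL t C a (dW (.ga k)) = 0 := by
  classical
  refine LinearMap.ext fun f => ?_
  funext y u
  rw [dW_ga, map_mul, map_sub, map_smul, LL_gA, LL_gA, LL_gA, Module.End.mul_apply]
  by_cases hy : ∃ d, a + mv y = cX t + fv d
  swap
  · have hy' : vrt t 0 (a + mv y) ≠ .inl (vS t) := by
      intro h1
      obtain ⟨r, hr⟩ := (vrt_eq_iff 0 _).1 h1
      refine hy ⟨2 - r, ?_⟩
      have e1 : (vS t).1 = cX t + fv 2 := rfl
      rw [hr, e1, rot_add', rot_cX, rot_fv]
    have z : ∀ ω : AlArr t, src (.al ω) = .inl (vS t) → ∀ g : MM t,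
        act t C a (.al ω) g y u = 0 := by
      intro ω hω g
      refine act_al_zero C a ?_ g u
      intro d hd
      exact hy' ((AT_src hd 0).symm.trans hω)
    rw [LinearMap.sub_apply, LinearMap.smul_apply, Pi.sub_apply, Pi.sub_apply, Pi.smul_apply,
      Pi.smul_apply, z _ rfl, z _ rfl, smul_zero, sub_zero]
    rfl
  obtain ⟨d, hd⟩ := hy
  rw [act_alpha hh hd]
  by_cases hu : u = .inl (vS t) ∧ Arr.al (alpha1 t) ∉ C
  swap
  · rw [if_neg hu]
    rfl
  rw [if_pos hu]
  have e1 : a + mv (y + ev (d + 1)) + fv (d + 2) = cX t := by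
    have := fv_sum' d
    rw [mv_step, hd, add_assoc, add_assoc, this, add_neg_cancel, add_zero]
  have e2 : a + mv (y + ev (d + 2)) + fv (d + 1) = cX t := by
    have := fv_sum' d
    rw [mv_step, hd, add_assoc, add_assoc, add_comm (fv (d + 2)), this, add_neg_cancel, add_zero]
  rw [act_be C a k e1, act_be C a k e2]
  have n1 : d + 1 ≠ d + 2 := (by decide : ∀ d : Fin 3, d + 1 ≠ d + 2) d
  have o1 := ok_step (a := a) (y := y) n1
  have o2 := ok_step (a := a) (y := y) n1.symm
  have hsw : y + ev (d + 2) + ev (d + 1) = y + ev (d + 1) + ev (d + 2) := add_right_comm _ _ _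
  have b1 : ch k * ch (-(k * (d + 2))) = ch (-(k * (d + 1))) := by
    rw [← ch_add]
    congr 1
    exact (by decide : ∀ k d : Fin 3, k + -(k * (d + 2)) = -(k * (d + 1))) k d
  rw [hsw]
  by_cases hb : Arr.be k ∉ C ∧ Ok a y (d + 1) ∧ Ok a y (d + 2)
  · obtain ⟨h1, h2, h3⟩ := hb
    have h4 := (o1.2 ⟨h2, h3⟩).2
    have h5 := (o2.2 ⟨h3, h2⟩).2
    rw [if_pos h2, if_pos h3, if_pos ⟨rfl, h1, h4⟩, if_pos ⟨rfl, h1, h5⟩, ← mul_assoc, b1]
    exact sub_self _
  · have z1 : (if Ok a y (d + 1) then (if (Sum.inl (vP t) : Vert t) = Sum.inl (vP t) ∧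
        Arr.be k ∉ C ∧ Ok a (y + ev (d + 1)) (d + 2) then
        ch (-(k * (d + 2))) * f (y + ev (d + 1) + ev (d + 2)) (Sum.inr k) else 0) else 0) = 0 := by
      split_ifs with h1 h2
      · exact absurd ⟨h2.2.1, o1.1 ⟨h1, h2.2.2⟩⟩ hb
      · rfl
      · rfl
    have z2 : (if Ok a y (d + 2) then (if (Sum.inl (vP t) : Vert t) = Sum.inl (vP t) ∧
        Arr.be k ∉ C ∧ Ok a (y + ev (d + 2)) (d + 1) then
        ch (-(k * (d + 1))) * f (y + ev (d + 1) + ev (d + 2)) (Sum.inr k) else 0) else 0) = 0 := by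
      split_ifs with h1 h2
      · exact absurd ⟨h2.2.1, (o2.1 ⟨h1, h2.2.2⟩).2, h1⟩ hb
      · rfl
      · rfl
    rw [z1, z2, mul_zero, sub_zero]
    rfl

/-- The action of `Λ_C`. -/
noncomputable def psi {C : Set (Arr t)} {h : Vert t → ℤ} (hh : IsHeight C h) {a : Fin 3 → ℤ}
    (ha : InT t a) : Lam C →ₐ[ℂ] Module.End ℂ (MM t) :=
  RingQuot.liftAlgHom ℂ ⟨LL t C a, by
    classical
    intro p q hr
    cases hr with
    | idem v =>
      rw [map_mul, LL_gV]
      refine LinearMap.ext fun f => ?_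
      funext y u
      rw [Module.End.mul_apply, prj_apply, prj_apply]
      split_ifs <;> rfl
    | orth v w hvw =>
      rw [map_mul, LL_gV, LL_gV, map_zero]
      refine LinearMap.ext fun f => ?_
      funext y u
      rw [Module.End.mul_apply, prj_apply, prj_apply]
      split_ifs with h1 h2
      · exact absurd (h1.symm.trans h2) hvw
      · rfl
      · rfl
    | one =>
      rw [map_sum, map_one]
      refine LinearMap.ext fun f => ?_
      funext y u
      rw [LinearMap.sum_apply, Finset.sum_apply, Finset.sum_apply]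
      simp only [LL_gV, prj_apply]
      rw [Finset.sum_ite_eq]
      simp
    | left x =>
      rw [map_mul, LL_gV, LL_gA]
      refine LinearMap.ext fun f => ?_
      funext y u
      rw [Module.End.mul_apply, prj_apply]
      split_ifs with h1
      · rfl
      · rw [act_apply, if_neg (fun h2 => h1 h2.1)]
    | right x =>
      rw [map_mul, LL_gV, LL_gA]
      refine LinearMap.ext fun f => ?_
      funext y u
      rw [Module.End.mul_apply, act_apply, act_apply]
      simp only [prj_apply, if_true]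
    | pot x =>
      rw [map_zero]
      cases x with
      | al x => exact pot_al hh ha x
      | be k => exact pot_be hh a k
      | ga k => exact pot_ga hh a k
    | cut x hx =>
      rw [LL_gA, map_zero]
      refine LinearMap.ext fun f => ?_
      funext y u
      rw [act_apply, if_neg (fun h2 => h2.2 hx)]
      rfl⟩

theorem psi_eL {C : Set (Arr t)} {h : Vert t → ℤ} (hh : IsHeight C h) {a : Fin 3 → ℤ}
    (ha : InT t a) (v : Vert t) : psi hh ha (eL C v) = prj t v := by
  unfold psi eL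
  rw [RingQuot.liftAlgHom_mkAlgHom_apply]
  exact LL_gV C a v

theorem psi_aL {C : Set (Arr t)} {h : Vert t → ℤ} (hh : IsHeight C h) {a : Fin 3 → ℤ}
    (ha : InT t a) (g : Arr t) : psi hh ha (aL C g) = act t C a g := by
  unfold psi aL
  rw [RingQuot.liftAlgHom_mkAlgHom_apply]
  exact LL_gA C a g

theorem mem_peirce {A : Type} [Ring A] [Algebra ℂ A] (e f l : A) : e * (l * f) ∈ peirce e f :=
  ⟨l, rfl⟩

theorem finrank_ge_gen {A M : Type} [Ring A] [Algebra ℂ A] [AddCommGroup M] [Module ℂ M]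
    (ψ : A →ₐ[ℂ] Module.End ℂ M) (φ : M → ℂ) (hφ : ∀ x y, φ (x + y) = φ x + φ y)
    (hφ' : ∀ (c : ℂ) x, φ (c • x) = c * φ x) (e f : A) {ι : Type} [Fintype ι] (l : ι → A)
    (g : ι → M) (h1 : ∀ i, φ (ψ (e * (l i * f)) (g i)) = 1)
    (h0 : ∀ i j, i ≠ j → φ (ψ (e * (l i * f)) (g j)) = 0)
    (hfd : FiniteDimensional ℂ (peirce e f)) :
    Fintype.card ι ≤ Module.finrank ℂ (peirce e f) := by
  classical
  let φ' : M →ₗ[ℂ] ℂ := { toFun := φ, map_add' := hφ, map_smul' := hφ' }
  let m : ι → peirce e f := fun i => ⟨e * (l i * f), mem_peirce _ _ _⟩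
  have hind : LinearIndependent ℂ m := by
    rw [Fintype.linearIndependent_iff]
    intro c hc i
    have h2 : ∑ j, c j • (m j : A) = 0 := by
      have := congrArg Subtype.val hc
      simpa using this
    have h3 := congrArg (fun z : A => φ' (ψ z (g i))) h2
    simp only [map_sum, map_smul, map_zero, LinearMap.sum_apply, LinearMap.smul_apply,
      LinearMap.zero_apply] at h3
    rw [Finset.sum_eq_single i] at h3
    · have h4 : φ' (ψ (m i : A) (g i)) = 1 := h1 i
      rw [h4] at h3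
      simpa using h3
    · intro j _ hj
      have h4 : φ' (ψ (m j : A) (g i)) = 0 := h0 j i hj
      rw [h4, smul_zero]
    · simp
  exact hind.fintype_card_le_finrank

theorem finrank_pos_gen {A M : Type} [Ring A] [Algebra ℂ A] [AddCommGroup M] [Module ℂ M]
    (ψ : A →ₐ[ℂ] Module.End ℂ M) (φ : M → ℂ) (h0 : φ 0 = 0) (e f l : A)
    (g : M) (h1 : φ (ψ (e * (l * f)) g) ≠ 0)
    (hfd : FiniteDimensional ℂ (peirce e f)) :
    1 ≤ Module.finrank ℂ (peirce e f) := by
  let m : peirce e f := ⟨e * (l * f), mem_peirce _ _ _⟩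
  have hm : m ≠ 0 := by
    intro h2
    have h3 : e * (l * f) = 0 := congrArg Subtype.val h2
    rw [h3, map_zero, LinearMap.zero_apply, h0] at h1
    exact h1 rfl
  have : Nontrivial (peirce e f) := ⟨⟨m, 0, hm⟩⟩
  exact Module.finrank_pos

theorem psi_peirce {C : Set (Arr t)} {h : Vert t → ℤ} (hh : IsHeight C h) {a : Fin 3 → ℤ}
    (ha : InT t a) (v w : Vert t) (l : Lam C) (f : MM t) (y : Fin 3 → ℤ) :
    psi hh ha (eL C v * (l * eL C w)) f y v = psi hh ha l (prj t w f) y v := by
  rw [map_mul, map_mul, psi_eL, psi_eL, Module.End.mul_apply, Module.End.mul_apply, prj_apply,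
    if_pos rfl]

/-- Elements of `e_v Λ e_w` which act as different evaluations are linearly independent. -/
theorem finrank_ge_card {C : Set (Arr t)} {h : Vert t → ℤ} (hh : IsHeight C h) {a : Fin 3 → ℤ}
    (ha : InT t a) {ι : Type} [Fintype ι] (l : ι → Lam C) (x : ι → Fin 3 → ℤ)
    (hx : Function.Injective x) (y0 : Fin 3 → ℤ) (v w : Vert t)
    (hl : ∀ i, ∀ f : MM t, psi hh ha (l i) f y0 v = f (x i) w)
    (hfd : FiniteDimensional ℂ (peirce (eL C v) (eL C w))) :
    Fintype.card ι ≤ Module.finrank ℂ (peirce (eL C v) (eL C w)) := by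
  classical
  refine finrank_ge_gen (psi hh ha) (fun f => f y0 v) (fun _ _ => rfl) (fun _ _ => rfl)
    (eL C v) (eL C w) l (fun i y _ => if y = x i then 1 else 0) ?_ ?_ hfd
  · intro i
    change psi hh ha (eL C v * (l i * eL C w)) _ y0 v = 1
    rw [psi_peirce, hl, prj_apply, if_pos rfl, if_pos rfl]
  · intro i j hij
    change psi hh ha (eL C v * (l i * eL C w)) _ y0 v = 0
    rw [psi_peirce, hl, prj_apply, if_pos rfl, if_neg (fun h4 => hij (hx h4))]

/-- Nonvanishing. -/
theorem finrank_pos_of {C : Set (Arr t)} {h : Vert t → ℤ} (hh : IsHeight C h) {a : Fin 3 → ℤ}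
    (ha : InT t a) (l : Lam C) (y0 : Fin 3 → ℤ) (v w : Vert t) (f : MM t)
    (hl : psi hh ha l (prj t w f) y0 v ≠ 0)
    (hfd : FiniteDimensional ℂ (peirce (eL C v) (eL C w))) :
    1 ≤ Module.finrank ℂ (peirce (eL C v) (eL C w)) := by
  refine finrank_pos_gen (psi hh ha) (fun f => f y0 v) rfl (eL C v) (eL C w) l f ?_ hfd
  change psi hh ha (eL C v * (l * eL C w)) f y0 v ≠ 0
  rw [psi_peirce]
  exact hl

/-- Degrees of the steps. -/
theorem deg_step {C : Set (Arr t)} {h : Vert t → ℤ} (hh : IsHeight C h) {a : Fin 3 → ℤ}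
    (ha : InT t a) {y : Fin 3 → ℤ} {p : Fin 3} (hy : Ok a y p) (k : Fin 3)
    (hd : (y + ev p) 0 + (y + ev p) 1 + (y + ev p) 2 =
      HT t h k a - HT t h k (a + mv (y + ev p))) :
    y 0 + y 1 + y 2 = HT t h k a - HT t h k (a + mv y) ∧
      HT t h k (a + mv y) - HT t h k (a + mv y + fv p) = 1 := by
  have h1 := (typeA_nonneg t (HT t h k) (fun b q => H_step hh k b q) a y ha
    (fun i => ⟨hy.1 i, hy.2.1 i⟩)).2
  have h2 := ok_inT ha hy
  have h3 := H_step hh k (a + mv y) p h2.1 h2.2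
  have h4 : (y + ev p) 0 + (y + ev p) 1 + (y + ev p) 2 = y 0 + y 1 + y 2 + 1 := by
    simp only [Pi.add_apply]
    have h5 : ev p 0 + ev p 1 + ev p 2 = 1 := by
      fin_cases p <;> simp [ev, Fin.ext_iff]
    linarith
  rw [mv_step] at hd
  rw [h4] at hd
  omega

omit [NeZero t] in
theorem vrt_indep {b : Fin 3 → ℤ} (h : InT t b) (hb : b ≠ cX t) (k k' : Fin 3) :
    vrt t k b = vrt t k' b := by
  rw [vrt_eq_inl k h hb, vrt_eq_inl k' h hb]

theorem sum_ch_swap (p : Fin 3) (g : Fin 3 → ℂ) :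
    ∑ k : Fin 3, ch (k * (2 - p)) * ∑ d : Fin 3, ((1 / 3) * ch (-(k * (2 - d))) * g d) = g p := by
  simp only [Finset.mul_sum]
  rw [Finset.sum_comm]
  have e1 : ∀ d : Fin 3, ∑ k : Fin 3, ch (k * (2 - p)) * ((1 / 3) * ch (-(k * (2 - d))) * g d) =
      if d = p then g d else 0 := by
    intro d
    have e2 : ∀ k : Fin 3, ch (k * (2 - p)) * ((1 / 3) * ch (-(k * (2 - d))) * g d) =
        ch (k * (d - p)) * ((1 / 3) * g d) := by
      intro k
      have e3 : k * (d - p) = k * (2 - p) + -(k * (2 - d)) :=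
        (by decide : ∀ k d p : Fin 3, k * (d - p) = k * (2 - p) + -(k * (2 - d))) k d p
      rw [e3, ch_add]
      ring
    rw [Finset.sum_congr rfl fun k _ => e2 k, ← Finset.sum_mul, sum_ch]
    by_cases h5 : d = p
    · rw [if_pos h5, if_pos (by rw [h5, sub_self])]
      ring
    · rw [if_neg h5, if_neg (fun h6 => h5 (sub_eq_zero.1 h6)), zero_mul]
  rw [Finset.sum_congr rfl fun d _ => e1 d, Finset.sum_ite_eq']
  simp

/-- One step along an arrow `α`. -/
theorem reach_al {C : Set (Arr t)} {h : Vert t → ℤ} (hh : IsHeight C h) {a : Fin 3 → ℤ}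
    (ha : InT t a) {y : Fin 3 → ℤ} {p : Fin 3} (hy : Ok a y p) (k : Fin 3)
    (hX : a + mv y ≠ cX t) (hX' : a + mv y + fv p ≠ cX t)
    (hH : HT t h k (a + mv y) - HT t h k (a + mv y + fv p) = 1) :
    ∃ ω : AlArr t, AT t (a + mv y) p = some ω ∧ ∀ f : MM t,
      psi hh ha (aL C (.al ω)) f y (vrt t k (a + mv y)) =
        f (y + ev p) (vrt t k (a + mv y + fv p)) := by
  have h2 := ok_inT ha hy
  obtain ⟨ω, hω⟩ := Option.isSome_iff_exists.1 ((AT_isSome _ _).2 ⟨h2.1, h2.2, hX, hX'⟩)
  refine ⟨ω, hω, fun f => ?_⟩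
  have e1 := AT_src hω k
  have e2 := AT_tgt hω k
  have hc : Arr.al ω ∉ C := by
    intro hc
    have h3 := hh (.al ω)
    rw [if_pos hc, e1, e2] at h3
    unfold HT at hH
    omega
  rw [psi_aL, act_al C a hω, if_pos ⟨e1.symm, hc, hy⟩, e2]

/-- One step along an arrow `β`. -/
theorem reach_be {C : Set (Arr t)} {h : Vert t → ℤ} (hh : IsHeight C h) {a : Fin 3 → ℤ}
    (ha : InT t a) {y : Fin 3 → ℤ} {p : Fin 3} (hy : Ok a y p) (k : Fin 3)
    (hX' : a + mv y + fv p = cX t)
    (hH : HT t h k (a + mv y) - HT t h k (a + mv y + fv p) = 1) (f : MM t) :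
    psi hh ha (ch (k * p) • aL C (.be k)) f y (vrt t k (a + mv y)) =
        f (y + ev p) (vrt t k (a + mv y + fv p)) := by
  have hc : Arr.be k ∉ C := by
    intro hc
    have h3 := hh (.be k)
    unfold HT at hH
    rw [if_pos hc] at h3
    rw [vrt_of_step_X k hX', hX', vrt_cX] at hH
    simp only [src, tgt] at h3
    omega
  rw [map_smul, psi_aL, LinearMap.smul_apply, Pi.smul_apply, Pi.smul_apply,
    act_be C a k hX', vrt_of_step_X k hX', if_pos ⟨rfl, hc, hy⟩, hX', vrt_cX, smul_eq_mul,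
    ← mul_assoc, mul_comm (ch (k * p)), ch_neg_mul, one_mul]

open Classical in
/-- One step along the arrows `γ`. -/
theorem reach_ga {C : Set (Arr t)} {h : Vert t → ℤ} (hh : IsHeight C h) {a : Fin 3 → ℤ}
    (ha : InT t a) {y : Fin 3 → ℤ} (k : Fin 3) (hX : a + mv y = cX t)
    (hH : h (.inr k) - h (.inl (vS t)) = 1) (f : MM t) :
    psi hh ha (aL C (.ga k)) f y (.inr k) =
      ∑ d : Fin 3, (1 / 3) * ch (-(k * (2 - d))) *
      (if Ok a y d then f (y + ev d) (.inl (vS t)) else 0) := by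
  have hc : Arr.ga k ∉ C := by
    intro hc
    have h3 := hh (.ga k)
    rw [if_pos hc] at h3
    simp only [src, tgt] at h3
    omega
  rw [psi_aL, act_ga C a k hX, if_pos ⟨rfl, hc⟩]
  refine Finset.sum_congr rfl fun d _ => ?_
  by_cases h1 : Ok a y d
  · simp only [h1, if_true]
  · simp only [h1, if_false, mul_zero]

end MPdda
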