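import Pool.Agent.H.MP_dda0b9_al.DWExpl
import Pool.Agent.H.MP_dda0b9_al.DefsMod
import Pool.Agent.H.MP_dda0b9_al.LowerMod

/-!
# MP_dda0b9_al: lower bound for the Cartan numbers of `Λ_C`, first vertex in `V` (job J23a)
-/

namespace MPdda

variable {t : ℕ} [NeZero t]

/-- The monomials of degree `0` are reached from the start vertex. -/
theorem reach_all {C : Set (Arr t)} {h : Vert t → ℤ} (hh : IsHeight C h) {a : Fin 3 → ℤ}
    (hv : InV t a) (n : ℕ) : ∀ x : Fin 3 → ℤ, (∀ i, 0 ≤ x i ∧ x i ≤ a i) →
    x 0 + x 1 + x 2 = (n : ℤ) → ∀ k : Fin 3,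
    x 0 + x 1 + x 2 = HT t h k a - HT t h k (a + mv x) →
    ∃ l : Lam C, ∀ f : MM t, psi hh hv.inT l f 0 (.inl ⟨a, hv⟩) = f x (vrt t k (a + mv x)) := by
  classical
  have hmv0 : a + mv 0 = a := by
    funext i
    simp [mv]
  induction n with
  | zero =>
    intro x hx hn k _
    have hx0 : x = 0 := by
      have h0 := (hx 0).1
      have h1 := (hx 1).1
      have h2 := (hx 2).1
      push_cast at hn
      funext i
      fin_cases i
      · change x 0 = 0
        omega
      · change x 1 = 0
        omega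
      · change x 2 = 0
        omega
    refine ⟨1, fun f => ?_⟩
    rw [map_one, hx0, hmv0]
    have e : vrt t k a = .inl ⟨a, hv⟩ := vrt_of_inV k ⟨a, hv⟩
    rw [e]
    rfl
  | succ n ih =>
    intro x hx hn k hd
    obtain ⟨p, hp⟩ : ∃ p, 1 ≤ x p := by
      by_contra hcon
      push Not at hcon
      have h0 := hcon 0
      have h1 := hcon 1
      have h2 := hcon 2
      push_cast at hn
      omega
    obtain ⟨y, rfl⟩ : ∃ y, x = y + ev p := ⟨x - ev p, by rw [sub_add_cancel]⟩
    have hok : Ok a y p := by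
      refine ⟨?_, ?_, ?_⟩
      · intro i
        have h1 := (hx i).1
        by_cases hi : i = p
        · subst hi
          have : (y + ev i) i = y i + 1 := by simp [ev]
          rw [this] at hp
          linarith
        · have : (y + ev p) i = y i := by simp [ev, hi]
          rw [this] at h1
          exact h1
      · intro i
        have h1 := (hx i).2
        by_cases hi : i = p
        · subst hi
          have : (y + ev i) i = y i + 1 := by simp [ev]
          rw [this] at h1
          linarith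
        · have : (y + ev p) i = y i := by simp [ev, hi]
          rw [this] at h1
          exact h1
      · have h1 := (hx p).2
        have : (y + ev p) p = y p + 1 := by simp [ev]
        rw [this] at h1
        exact h1
    have hyn : y 0 + y 1 + y 2 = (n : ℤ) := by
      have h4 : (y + ev p) 0 + (y + ev p) 1 + (y + ev p) 2 = y 0 + y 1 + y 2 + 1 := by
        simp only [Pi.add_apply]
        have h5 : ev p 0 + ev p 1 + ev p 2 = 1 := by
          fin_cases p <;> simp [ev, Fin.ext_iff]
        linarith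
      rw [h4] at hn
      push_cast at hn
      linarith
    have hyb : ∀ i, 0 ≤ y i ∧ y i ≤ a i := fun i => ⟨hok.1 i, hok.2.1 i⟩
    have hT := ok_inT hv.inT hok
    have haX : a ≠ cX t := fun h1 => not_inV_cX t (h1 ▸ hv)
    obtain ⟨hd1, hd2⟩ := deg_step hh hv.inT hok k hd
    by_cases hX : a + mv y = cX t
    · -- the last step starts at `X`
      have hX' : a + mv y + fv p ≠ cX t := by
        rw [hX]
        exact cX_add_fv_ne t p
      have hall : ∀ k' : Fin 3, ∃ l : Lam C, (∀ f : MM t,
          psi hh hv.inT l f 0 (.inl ⟨a, hv⟩) = f y (.inr k')) ∧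
          h (.inr k') - h (.inl (vS t)) = 1 := by
        intro k'
        have e1 : HT t h k' a = HT t h k a := by
          unfold HT
          rw [vrt_indep hv.inT haX k' k]
        have e2 : HT t h k' (a + mv (y + ev p)) = HT t h k (a + mv (y + ev p)) := by
          unfold HT
          rw [mv_step, vrt_indep hT.2 hX' k' k]
        obtain ⟨hd1', hd2'⟩ := deg_step hh hv.inT hok k' (by rw [e1, e2]; exact hd)
        obtain ⟨l, hl⟩ := ih y hyb hyn k' hd1'
        rw [hX, vrt_cX] at hl
        refine ⟨l, hl, ?_⟩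
        unfold HT at hd2'
        rw [hX, vrt_cX, vrt_X_step] at hd2'
        exact hd2'
      choose l hl hl' using hall
      refine ⟨∑ k' : Fin 3, ch (k' * (2 - p)) • (l k' * aL C (.ga k')), fun f => ?_⟩
      rw [map_sum, LinearMap.sum_apply, Finset.sum_apply, Finset.sum_apply]
      have e : ∀ k' : Fin 3, psi hh hv.inT (ch (k' * (2 - p)) • (l k' * aL C (.ga k'))) f 0
          (.inl ⟨a, hv⟩) = ch (k' * (2 - p)) * ∑ d : Fin 3, ((1 / 3) * ch (-(k' * (2 - d))) *
            (if Ok a y d then f (y + ev d) (.inl (vS t)) else 0)) := by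
        intro k'
        rw [map_smul, map_mul, LinearMap.smul_apply, Pi.smul_apply, Pi.smul_apply,
          Module.End.mul_apply, hl, reach_ga hh hv.inT k' hX (hl' k') f, smul_eq_mul]
      rw [Finset.sum_congr rfl fun k' _ => e k', sum_ch_swap p
        (fun d => if Ok a y d then f (y + ev d) (.inl (vS t)) else 0), if_pos hok, mv_step, hX,
        vrt_X_step]
    · obtain ⟨l, hl⟩ := ih y hyb hyn k hd1
      by_cases hX' : a + mv y + fv p = cX t
      · refine ⟨l * (ch (k * p) • aL C (.be k)), fun f => ?_⟩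
        rw [map_mul, Module.End.mul_apply, hl, reach_be hh hv.inT hok k hX' hd2 f, mv_step]
      · obtain ⟨ω, -, hω⟩ := reach_al hh hv.inT hok k hX hX' hd2
        refine ⟨l * aL C (.al ω), fun f => ?_⟩
        rw [map_mul, Module.End.mul_apply, hl, hω f, mv_step]

omit [NeZero t] in
theorem rot_inj_of_inV {c : Fin 3 → ℤ} (hc : InV t c) {r r' : Fin 3} (h : rot r c = rot r' c) :
    r = r' := by
  have h1 : InV t (rot (-r) (rot r c)) := by
    rw [rot_rot, neg_add_cancel, rot_zero]
    exact hc
  have h2 : InV t (rot (-r') (rot r c)) := by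
    rw [h, rot_rot, neg_add_cancel, rot_zero]
    exact hc
  have h3 := inV_rot_unique h1
  have h4 := inV_rot_unique h2
  exact neg_inj.1 (h3.trans h4.symm)

theorem peirce_lowerA (t : ℕ) [NeZero t] (C : Set (Arr t)) (h : Vert t → ℤ)
    (hh : IsHeight C h) (a : VV t) (w : Vert t)
    (hfd : FiniteDimensional ℂ (peirce (eL C (.inl a)) (eL C w))) :
    cD t h (.inl a) w ≤ (Module.finrank ℂ (peirce (eL C (.inl a)) (eL C w)) : ℤ) := by
  classical
  obtain ⟨a, hv⟩ := a
  have hreach : ∀ (k : Fin 3) (b : Fin 3 → ℤ), ZZ (HT t h k) a b → ∃ x : Fin 3 → ℤ,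
      a + mv x = b ∧ ∃ l : Lam C, ∀ f : MM t,
        psi hh hv.inT l f 0 (.inl ⟨a, hv⟩) = f x (vrt t k b) := by
    rintro k b ⟨x, hx, hb, hdeg⟩
    have h0 := (hx 0).1
    have h1 := (hx 1).1
    have h2 := (hx 2).1
    have hn : x 0 + x 1 + x 2 = ((x 0 + x 1 + x 2).toNat : ℤ) := by
      rw [Int.toNat_of_nonneg (by linarith)]
    obtain ⟨l, hl⟩ := reach_all hh hv _ x hx hn k (by rw [hb]; exact hdeg)
    rw [hb] at hl
    exact ⟨x, hb, l, hl⟩
  cases w with
  | inl c =>
    have e1 : cD t h (.inl ⟨a, hv⟩) (.inl c) =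
        (Fintype.card {r : Fin 3 // ZZ (HT t h 0) a (rot r c.1)} : ℤ) := by
      simp only [cD]
      rw [Finset.sum_boole, Fintype.card_subtype]
    rw [e1]
    have hall : ∀ r : {r : Fin 3 // ZZ (HT t h 0) a (rot r c.1)}, ∃ x : Fin 3 → ℤ,
      a + mv x = rot r.1 c.1 ∧ ∃ l : Lam C, ∀ f : MM t,
        psi hh hv.inT l f 0 (.inl ⟨a, hv⟩) = f x (.inl c) := by
      intro r
      have h1 := hreach 0 _ r.2
      have h2 : vrt t 0 (rot r.1 c.1) = .inl c := (vrt_eq_iff 0 c).2 ⟨r.1, rfl⟩
      rw [h2] at h1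
      exact h1
    choose x hx l hl using hall
    have hinj : Function.Injective x := by
      intro r r' hrr
      have h1 := hx r
      rw [hrr, hx r'] at h1
      exact Subtype.ext (rot_inj_of_inV c.2 h1).symm
    exact_mod_cast finrank_ge_card hh hv.inT l x hinj 0 (.inl ⟨a, hv⟩) (.inl c) hl hfd
  | inr k =>
    simp only [cD]
    split_ifs with hz
    · obtain ⟨x, -, l, hl⟩ := hreach k _ hz
      rw [vrt_cX] at hl
      have h1 := finrank_ge_card hh hv.inT (ι := Unit) (fun _ => l) (fun _ => x)
        (fun _ _ _ => rfl) 0 (.inl ⟨a, hv⟩) (.inr k) (fun _ => hl) hfd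
      rw [Fintype.card_unit] at h1
      exact_mod_cast h1
    · positivity

end MPdda
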