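import Pool.Agent.H.MP_dda0b9_al.DWExpl
import Pool.Agent.H.MP_dda0b9_al.DefsMod
import Pool.Agent.H.MP_dda0b9_al.TypeA

/-!
# MP_dda0b9_al: lower bound for the Cartan numbers of `Λ_C`, first vertex `X_l` (job J23b)
-/

namespace MPdda

namespace LX

/-! ### unit vectors -/

/-- The unit vector. -/
def ev (p : Fin 3) : Fin 3 → ℤ := fun i => if i = p then 1 else 0

theorem mv_add (x y : Fin 3 → ℤ) : mv (x + y) = mv x + mv y := by
  funext i
  simp only [mv, Pi.add_apply]
  ring

theorem mv_ev (p : Fin 3) : mv (ev p) = fv p := by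
  funext i
  fin_cases p <;> fin_cases i <;> simp [mv, ev, fv]

theorem mv_zero : mv 0 = 0 := by
  funext i
  simp [mv]

theorem rot_ev (q p : Fin 3) : rot q (ev p) = ev (p - q) := by
  funext i
  simp only [rot, ev, eq_sub_iff_add_eq]

theorem rot_zero_vec (q : Fin 3) : rot q (0 : Fin 3 → ℤ) = 0 := by
  funext i
  simp [rot]

theorem rot_inj {q : Fin 3} {a b : Fin 3 → ℤ} (h : rot q a = rot q b) : a = b := by
  have h2 := congrArg (rot (-q)) h
  rw [rot_rot, rot_rot] at h2
  simpa [rot_zero] using h2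

theorem sum_rot (q : Fin 3) (x : Fin 3 → ℤ) :
    rot q x 0 + rot q x 1 + rot q x 2 = x 0 + x 1 + x 2 := by
  fin_cases q
  · simp [rot]
  · simp only [rot]
    have e1 : (0 : Fin 3) + ⟨1, by omega⟩ = 1 := by decide
    have e2 : (1 : Fin 3) + ⟨1, by omega⟩ = 2 := by decide
    have e3 : (2 : Fin 3) + ⟨1, by omega⟩ = 0 := by decide
    rw [e1, e2, e3]
    ring
  · simp only [rot]
    have e1 : (0 : Fin 3) + ⟨2, by omega⟩ = 2 := by decide
    have e2 : (1 : Fin 3) + ⟨2, by omega⟩ = 0 := by decide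
    have e3 : (2 : Fin 3) + ⟨2, by omega⟩ = 1 := by decide
    rw [e1, e2, e3]
    ring

theorem sum_ev (p : Fin 3) : ev p 0 + ev p 1 + ev p 2 = 1 := by
  fin_cases p <;> simp [ev]

theorem forall_fin3 {P : Fin 3 → Prop} (h : ∀ i, P i) : P 0 ∧ P 1 ∧ P 2 := ⟨h 0, h 1, h 2⟩

/-- a vector with `mv x = 0` is constant -/
theorem const_of_mv {x : Fin 3 → ℤ} (h : mv x = 0) : x 0 = x 1 ∧ x 1 = x 2 := by
  have h1 : x (1 + 2) - x 1 = 0 := congrFun h 1
  have h2 : x (2 + 2) - x 2 = 0 := congrFun h 2
  have e1 : (1 : Fin 3) + 2 = 0 := by decide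
  have e2 : (2 : Fin 3) + 2 = 1 := by decide
  rw [e1] at h1
  rw [e2] at h2
  constructor <;> omega

theorem ext3 {x y : Fin 3 → ℤ} (h0 : x 0 = y 0) (h1 : x 1 = y 1) (h2 : x 2 = y 2) : x = y := by
  funext i
  fin_cases i
  · exact h0
  · exact h1
  · exact h2

variable {t : ℕ}

theorem inT_mv {x : Fin 3 → ℤ} (hx : ∀ i, 0 ≤ x i ∧ x i ≤ t) : InT t (cX t + mv x) := by
  obtain ⟨h0, h1, h2⟩ := forall_fin3 hx
  have e0 : (0 : Fin 3) + 2 = 2 := by decide
  have e1 : (1 : Fin 3) + 2 = 0 := by decide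
  have e2 : (2 : Fin 3) + 2 = 1 := by decide
  constructor
  · intro i
    have hi := hx i
    have hi2 := hx (i + 2)
    simp only [Pi.add_apply, cX, mv]
    omega
  · simp only [Pi.add_apply, cX, mv, e0, e1, e2]
    ring

theorem AT_inj {b : Fin 3 → ℤ} {d d' : Fin 3} {y : AlArr t} (h1 : AT t b d = some y)
    (h2 : AT t b d' = some y) : d = d' := by
  unfold AT at h1 h2
  split_ifs at h1 h2 with c1 c2
  · have e := h1.trans h2.symm
    rw [Option.some_inj] at e
    have e' := congrArg (fun z : AlArr t => z.1) e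
    simp only [Prod.mk.injEq, true_and] at e'
    obtain ⟨e3, e4⟩ := e'
    have e5 : qi t (b + fv d) = qi t (b + fv d') := by
      have := congrArg (fun z => z + qi t b) e4
      simpa using this
    rw [e5] at e3
    have := congrArg (fun z => z + qi t (b + fv d')) e3
    simpa using this

variable [NeZero t]

theorem vrt_step_X (l p : Fin 3) : vrt t l (cX t + fv p) = Sum.inl (vS t) := by
  have e : cX t + fv p = rot (2 - p) (vS t).1 := by
    change cX t + fv p = rot (2 - p) (cX t + fv 2)
    rw [rot_add', rot_cX, rot_fv]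
    congr 2
    abel
  rw [e, vrt_rot l (vS t).2.inT, vrt_of_inV]

theorem vrt_step_X' (l p : Fin 3) : vrt t l (cX t - fv p) = Sum.inl (vP t) := by
  have e : cX t - fv p = rot (-p) (vP t).1 := by
    have h1 : rot (-p) (vP t).1 + fv p = cX t := by
      have h2 : (vP t).1 = cX t - fv 0 := rfl
      have h3 : (vP t).1 + fv 0 = cX t := by rw [h2]; abel
      have h4 : fv p = rot (-p) (fv 0) := by
        rw [rot_fv]
        congr 1
        abel
      rw [h4, ← rot_add', h3, rot_cX]
    rw [← h1]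
    abel
  rw [e, vrt_rot l (vP t).2.inT, vrt_of_inV]

/-- Steps in the triangle have height difference `1` or `-2`. -/
theorem hstep {C : Set (Arr t)} {h : Vert t → ℤ} (hh : IsHeight C h) (l : Fin 3)
    (a : Fin 3 → ℤ) (p : Fin 3) (ha : InT t a) (hb : InT t (a + fv p)) :
    HT t h l a - HT t h l (a + fv p) = 1 ∨ HT t h l a - HT t h l (a + fv p) = -2 := by
  have key : ∀ x : Arr t, h (src x) - h (tgt x) = 1 ∨ h (src x) - h (tgt x) = -2 := by
    intro x
    rw [hh x]
    split_ifs
    · right; rfl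
    · left; rfl
  by_cases h1 : a = cX t
  · subst h1
    unfold HT
    rw [vrt_cX, vrt_step_X]
    exact key (.ga l)
  · by_cases h2 : a + fv p = cX t
    · have h3 : a = cX t - fv p := by rw [← h2]; abel
      unfold HT
      rw [h2, vrt_cX, h3, vrt_step_X']
      exact key (.be l)
    · have h4 := (AT_isSome (t := t) a p).2 ⟨ha, hb, h1, h2⟩
      obtain ⟨y, hy⟩ := Option.isSome_iff_exists.1 h4
      have := key (.al y)
      rw [AT_src hy l, AT_tgt hy l] at this
      exact this

/-! ### the module -/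

section

variable (h : Vert t → ℤ) (l : Fin 3)

/-- the degree zero monomials -/
def InB (x : Fin 3 → ℤ) : Prop :=
  (∀ i, 0 ≤ x i ∧ x i ≤ t) ∧ x 0 + x 1 + x 2 = HT t h l (cX t) - HT t h l (cX t + mv x)

theorem InB_zero : InB h l 0 := by
  refine ⟨fun i => ?_, ?_⟩
  · simp
  · rw [mv_zero]
    simp

theorem InB_rot (r : Fin 3) (x : Fin 3 → ℤ) : InB h l (rot r x) ↔ InB h l x := by
  have main : ∀ (r : Fin 3) (x : Fin 3 → ℤ), InB h l x → InB h l (rot r x) := by
    intro r x hx
    refine ⟨fun i => hx.1 (i + r), ?_⟩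
    have e : cX t + mv (rot r x) = rot r (cX t + mv x) := by
      rw [rot_add', rot_cX, rot_mv]
    rw [sum_rot, hx.2, e]
    unfold HT
    rw [vrt_rot l (inT_mv hx.1)]
  refine ⟨fun hx => ?_, main r x⟩
  have := main (-r) _ hx
  rw [rot_rot] at this
  simpa [rot_zero] using this

theorem InB_ne {x : Fin 3 → ℤ} (hx : InB h l x) (h0 : x ≠ 0) : cX t + mv x ≠ cX t := by
  intro e
  apply h0
  have e1 : mv x = 0 := by simpa using e
  obtain ⟨h1, h2⟩ := const_of_mv e1
  have h3 := hx.2
  rw [e, sub_self] at h3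
  apply ext3
  · change x 0 = 0
    omega
  · change x 1 = 0
    omega
  · change x 2 = 0
    omega

/-- the basis vectors -/
noncomputable def uu (x : Fin 3 → ℤ) : (Fin 3 → ℤ) →₀ ℂ := Finsupp.single x 1

open Classical in
/-- the right action of the generators on the basis vectors -/
noncomputable def act (C : Set (Arr t)) : Vert t ⊕ Arr t → (Fin 3 → ℤ) → ((Fin 3 → ℤ) →₀ ℂ)
  | .inl v, x => if vrt t l (cX t + mv x) = v then uu x else 0
  | .inr (.al y), x =>
      if InB h l x then
        ∑ d : Fin 3, if AT t (cX t + mv x) d = some y ∧ InB h l (x + ev d) then uu (x + ev d)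
          else 0
      else 0
  | .inr (.be _), _ => 0
  | .inr (.ga k), x =>
      if k = l ∧ x = 0 ∧ Arr.ga l ∉ C then
        ∑ j : Fin 3, (zeta ^ ((l : ℕ) * (j : ℕ))) • uu (ev j) else 0

/-- the right action of the generators -/
noncomputable def actL (C : Set (Arr t)) (g : Vert t ⊕ Arr t) :
    Module.End ℂ ((Fin 3 → ℤ) →₀ ℂ) :=
  Finsupp.linearCombination ℂ (act h l C g)

theorem actL_uu (C : Set (Arr t)) (g : Vert t ⊕ Arr t) (x : Fin 3 → ℤ) :
    actL h l C g (uu x) = act h l C g x := by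
  unfold actL uu
  rw [Finsupp.linearCombination_single, one_smul]

theorem end_ext {A B : Module.End ℂ ((Fin 3 → ℤ) →₀ ℂ)} (h : ∀ x, A (uu x) = B (uu x)) :
    A = B := by
  apply Finsupp.lhom_ext'
  intro x
  apply LinearMap.ext_ring
  exact h x

/-- the right action of the free algebra -/
noncomputable def phi0 (C : Set (Arr t)) :
    FA t →ₐ[ℂ] (Module.End ℂ ((Fin 3 → ℤ) →₀ ℂ))ᵐᵒᵖ :=
  FreeAlgebra.lift ℂ (fun g => MulOpposite.op (actL h l C g))

theorem phi0_gV (C : Set (Arr t)) (v : Vert t) :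
    phi0 h l C (gV v) = MulOpposite.op (actL h l C (.inl v)) := by
  unfold phi0 gV
  rw [FreeAlgebra.lift_ι_apply]

theorem phi0_gA (C : Set (Arr t)) (x : Arr t) :
    phi0 h l C (gA x) = MulOpposite.op (actL h l C (.inr x)) := by
  unfold phi0 gA
  rw [FreeAlgebra.lift_ι_apply]

/-- the action of an element of the free algebra -/
noncomputable def ac (C : Set (Arr t)) (f : FA t) : Module.End ℂ ((Fin 3 → ℤ) →₀ ℂ) :=
  (phi0 h l C f).unop

theorem ac_mul (C : Set (Arr t)) (f g : FA t) (u : (Fin 3 → ℤ) →₀ ℂ) :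
    ac h l C (f * g) u = ac h l C g (ac h l C f u) := by
  unfold ac
  rw [map_mul, MulOpposite.unop_mul]
  rfl

theorem ac_add (C : Set (Arr t)) (f g : FA t) : ac h l C (f + g) = ac h l C f + ac h l C g := by
  unfold ac
  rw [map_add, MulOpposite.unop_add]

theorem ac_sub (C : Set (Arr t)) (f g : FA t) : ac h l C (f - g) = ac h l C f - ac h l C g := by
  unfold ac
  rw [map_sub, MulOpposite.unop_sub]

theorem ac_neg (C : Set (Arr t)) (f : FA t) : ac h l C (-f) = -ac h l C f := by
  unfold ac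
  rw [map_neg, MulOpposite.unop_neg]

theorem ac_zero (C : Set (Arr t)) : ac h l C (0 : FA t) = 0 := by
  unfold ac
  rw [map_zero, MulOpposite.unop_zero]

theorem ac_smul (C : Set (Arr t)) (c : ℂ) (f : FA t) : ac h l C (c • f) = c • ac h l C f := by
  unfold ac
  rw [map_smul, MulOpposite.unop_smul]

theorem ac_sum {ι : Type} (C : Set (Arr t)) (s : Finset ι) (f : ι → FA t) :
    ac h l C (∑ i ∈ s, f i) = ∑ i ∈ s, ac h l C (f i) := by
  unfold ac
  rw [map_sum, Finset.unop_sum]

theorem ac_gV (C : Set (Arr t)) (v : Vert t) (x : Fin 3 → ℤ) :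
    ac h l C (gV v) (uu x) = act h l C (.inl v) x := by
  unfold ac
  rw [phi0_gV, MulOpposite.unop_op, actL_uu]

theorem ac_gA (C : Set (Arr t)) (y : Arr t) (x : Fin 3 → ℤ) :
    ac h l C (gA y) (uu x) = act h l C (.inr y) x := by
  unfold ac
  rw [phi0_gA, MulOpposite.unop_op, actL_uu]

theorem ac_be (C : Set (Arr t)) (k : Fin 3) : ac h l C (gA (.be k)) = 0 := by
  apply end_ext
  intro x
  rw [ac_gA]
  simp [act]

theorem vrt_add_ev (x : Fin 3 → ℤ) (d : Fin 3) :
    cX t + mv (x + ev d) = cX t + mv x + fv d := by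
  rw [mv_add, mv_ev, add_assoc]

/-- the action of an arrow with known position -/
theorem act_al {C : Set (Arr t)} {y : AlArr t} {x : Fin 3 → ℤ} {d : Fin 3}
    (hd : AT t (cX t + mv x) d = some y) (hx : InB h l x) (hx' : InB h l (x + ev d)) :
    act h l C (.inr (.al y)) x = uu (x + ev d) := by
  classical
  simp only [act]
  rw [if_pos hx, Finset.sum_eq_single d]
  · rw [if_pos ⟨hd, hx'⟩]
  · intro d' _ hne
    rw [if_neg]
    rintro ⟨h1, -⟩
    exact hne (AT_inj h1 hd)
  · intro h1
    exact absurd (Finset.mem_univ d) h1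

/-- the action of an arrow at a wrong position -/
theorem act_al_zero {C : Set (Arr t)} {y : AlArr t} {x : Fin 3 → ℤ}
    (hd : ∀ d, AT t (cX t + mv x) d = some y → InB h l x → ¬ InB h l (x + ev d)) :
    act h l C (.inr (.al y)) x = 0 := by
  classical
  simp only [act]
  split_ifs with hx
  · apply Finset.sum_eq_zero
    intro d _
    rw [if_neg]
    rintro ⟨h1, h2⟩
    exact hd d h1 hx h2
  · rfl

/-- the action of an arrow is zero or given by a position -/
theorem act_al_cases (C : Set (Arr t)) (y : AlArr t) (x : Fin 3 → ℤ) :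
    act h l C (.inr (.al y)) x = 0 ∨ ∃ d, AT t (cX t + mv x) d = some y ∧ InB h l x ∧
      InB h l (x + ev d) ∧ act h l C (.inr (.al y)) x = uu (x + ev d) := by
  classical
  by_cases hc : ∃ d, AT t (cX t + mv x) d = some y ∧ InB h l x ∧ InB h l (x + ev d)
  · obtain ⟨d, h1, h2, h3⟩ := hc
    exact Or.inr ⟨d, h1, h2, h3, act_al h l h1 h2 h3⟩
  · left
    apply act_al_zero
    intro d h1 h2 h3
    exact hc ⟨d, h1, h2, h3⟩

theorem ac_gV_uu (C : Set (Arr t)) (v : Vert t) (x : Fin 3 → ℤ)
    (hv : vrt t l (cX t + mv x) = v) : ac h l C (gV v) (uu x) = uu x := by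
  rw [ac_gV]
  simp only [act]
  rw [if_pos hv]

theorem ac_gV_uu_ne (C : Set (Arr t)) (v : Vert t) (x : Fin 3 → ℤ)
    (hv : vrt t l (cX t + mv x) ≠ v) : ac h l C (gV v) (uu x) = 0 := by
  rw [ac_gV]
  simp only [act]
  rw [if_neg hv]

/-! relations -/

theorem rel_idem (C : Set (Arr t)) (v : Vert t) :
    ac h l C (gV v * gV v) = ac h l C (gV v) := by
  apply end_ext
  intro x
  rw [ac_mul]
  by_cases hv : vrt t l (cX t + mv x) = v
  · rw [ac_gV_uu h l C v x hv, ac_gV_uu h l C v x hv]
  · rw [ac_gV_uu_ne h l C v x hv, map_zero]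

theorem rel_orth (C : Set (Arr t)) (v w : Vert t) (hvw : v ≠ w) :
    ac h l C (gV v * gV w) = ac h l C 0 := by
  apply end_ext
  intro x
  rw [ac_mul, ac_zero]
  by_cases hv : vrt t l (cX t + mv x) = v
  · rw [ac_gV_uu h l C v x hv, ac_gV_uu_ne h l C w x (by rw [hv]; exact hvw)]
    simp
  · rw [ac_gV_uu_ne h l C v x hv, map_zero]
    simp

theorem rel_one (C : Set (Arr t)) : ac h l C (∑ v : Vert t, gV v) = ac h l C 1 := by
  classical
  apply end_ext
  intro x
  rw [ac_sum]
  have e1 : ac h l C (1 : FA t) = 1 := by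
    unfold ac
    rw [map_one, MulOpposite.unop_one]
  rw [e1, LinearMap.sum_apply, Finset.sum_eq_single (vrt t l (cX t + mv x))]
  · rw [ac_gV_uu h l C _ x rfl]
    rfl
  · intro v _ hv
    rw [ac_gV_uu_ne h l C v x (fun e => hv e.symm)]
  · intro h1
    exact absurd (Finset.mem_univ _) h1

theorem act_ga (C : Set (Arr t)) (k : Fin 3) (x : Fin 3 → ℤ) :
    act h l C (.inr (.ga k)) x = 0 ∨ (k = l ∧ x = 0 ∧ Arr.ga l ∉ C ∧
      act h l C (.inr (.ga k)) x = ∑ j : Fin 3, (zeta ^ ((l : ℕ) * (j : ℕ))) • uu (ev j)) := by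
  by_cases hc : k = l ∧ x = 0 ∧ Arr.ga l ∉ C
  · right
    refine ⟨hc.1, hc.2.1, hc.2.2, ?_⟩
    simp only [act]
    rw [if_pos hc]
  · left
    simp only [act]
    rw [if_neg hc]

theorem rel_left (C : Set (Arr t)) (y : Arr t) :
    ac h l C (gV (src y) * gA y) = ac h l C (gA y) := by
  apply end_ext
  intro x
  rw [ac_mul]
  by_cases hv : vrt t l (cX t + mv x) = src y
  · rw [ac_gV_uu h l C _ x hv]
  · rw [ac_gV_uu_ne h l C _ x hv, map_zero, ac_gA]
    cases y with
    | al y =>
      rcases act_al_cases h l C y x with h0 | ⟨d, h1, -, -, -⟩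
      · exact h0.symm
      · exact absurd (AT_src h1 l).symm hv
    | be k => rfl
    | ga k =>
      rcases act_ga h l C k x with h0 | ⟨h1, h2, -, -⟩
      · exact h0.symm
      · exfalso
        apply hv
        rw [h2, h1, mv_zero, add_zero, vrt_cX]
        rfl

theorem rel_right (C : Set (Arr t)) (y : Arr t) :
    ac h l C (gA y * gV (tgt y)) = ac h l C (gA y) := by
  apply end_ext
  intro x
  rw [ac_mul, ac_gA]
  cases y with
  | al y =>
    rcases act_al_cases h l C y x with h0 | ⟨d, h1, -, -, h4⟩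
    · rw [h0, map_zero]
    · rw [h4, ac_gV_uu]
      rw [vrt_add_ev]
      exact (AT_tgt h1 l).symm
  | be k =>
    change ac h l C _ 0 = 0
    rw [map_zero]
  | ga k =>
    rcases act_ga h l C k x with h0 | ⟨h1, h2, -, h4⟩
    · rw [h0, map_zero]
    · rw [h4, map_sum]
      apply Finset.sum_congr rfl
      intro j _
      rw [map_smul, ac_gV_uu]
      rw [mv_ev, vrt_step_X]
      rfl

variable {h} in
theorem rel_cut {C : Set (Arr t)} (hh : IsHeight C h) (y : Arr t) (hy : y ∈ C) :
    ac h l C (gA y) = ac h l C 0 := by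
  rw [ac_zero]
  apply end_ext
  intro x
  rw [ac_gA]
  cases y with
  | al y =>
    rcases act_al_cases h l C y x with h0 | ⟨d, h1, h2, h3, -⟩
    · rw [h0]; rfl
    · exfalso
      have e1 := hh (.al y)
      rw [if_pos hy, AT_src h1 l, AT_tgt h1 l] at e1
      have e2 := h2.2
      have e3 := h3.2
      rw [vrt_add_ev] at e3
      unfold HT at e2 e3
      have e4 := sum_ev d
      simp only [Pi.add_apply] at e3
      omega
  | be k => rfl
  | ga k =>
    rcases act_ga h l C k x with h0 | ⟨h1, h2, h3, h4⟩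
    · rw [h0]; rfl
    · rw [h1] at hy
      exact absurd hy h3

theorem rel_ga (C : Set (Arr t)) (k : Fin 3) :
    ac h l C (dW (.ga k)) = ac h l C 0 := by
  rw [dW_ga, ac_zero]
  apply end_ext
  intro x
  rw [ac_mul, ac_be]
  rfl

end

theorem zeta3 : zeta ^ 3 = 1 := by
  unfold zeta
  rw [← Complex.exp_nat_mul]
  have e : ((3 : ℕ) : ℂ) * (2 * Real.pi * Complex.I / 3) = 2 * Real.pi * Complex.I := by
    push_cast
    ring
  rw [e, Complex.exp_two_pi_mul_I]

/-- `z j = ζ^{lj}` -/
noncomputable def zz (l j : Fin 3) : ℂ := zeta ^ ((l : ℕ) * (j : ℕ))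

theorem zz_zero (l : Fin 3) : zz l 0 = 1 := by
  unfold zz
  simp

theorem zeta_mod (n m : ℕ) (h : n % 3 = m % 3) : zeta ^ n = zeta ^ m := by
  have main : ∀ n : ℕ, zeta ^ n = zeta ^ (n % 3) := by
    intro n
    conv_lhs => rw [← Nat.div_add_mod n 3, pow_add, pow_mul, zeta3, one_pow, one_mul]
  rw [main n, main m, h]

theorem zz_add (l j k : Fin 3) : zz l (j + k) = zz l j * zz l k := by
  unfold zz
  rw [← pow_add]
  apply zeta_mod
  rw [← Nat.mul_add, Nat.mul_mod, Nat.mul_mod (l : ℕ) (↑j + ↑k), Fin.val_add, Nat.mod_mod]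

/-! the relations from the potential -/

section

variable (h : Vert t → ℤ) (l : Fin 3)

theorem AT_X_alpha21 (j : Fin 3) : AT t (cX t + fv j) (j + 1) = some (alpha21 t) := by
  have h1 := AT_self (alpha21 t)
  have h2 := AT_rot (t := t) (vS t).1 (2 + 1) (2 - j)
  have e1 : rot (2 - j) (vS t).1 = cX t + fv j := by
    change rot (2 - j) (cX t + fv 2) = _
    rw [rot_add', rot_cX, rot_fv]
    congr 2
    abel
  have e2 : (2 + 1 : Fin 3) - (2 - j) = j + 1 := by
    fin_cases j <;> rfl
  rw [e1, e2] at h2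
  rw [h2]
  exact h1

theorem AT_X_alpha1 (j : Fin 3) : AT t (cX t + fv j) (j + 2) = some (alpha1 t) := by
  have h1 := AT_self (alpha1 t)
  have h2 := AT_rot (t := t) (vS t).1 (1 + 0) (2 - j)
  have e1 : rot (2 - j) (vS t).1 = cX t + fv j := by
    change rot (2 - j) (cX t + fv 2) = _
    rw [rot_add', rot_cX, rot_fv]
    congr 2
    abel
  have e2 : (1 + 0 : Fin 3) - (2 - j) = j + 2 := by
    fin_cases j <;> rfl
  rw [e1, e2] at h2
  rw [h2]
  exact h1

open Classical in
theorem act_ev_al (C : Set (Arr t)) (y : AlArr t) (j d : Fin 3)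
    (hd : AT t (cX t + fv j) d = some y) :
    act h l C (.inr (.al y)) (ev j) =
      if InB h l (ev j) ∧ InB h l (ev j + ev d) then uu (ev j + ev d) else 0 := by
  split_ifs with hc
  · apply act_al h l (d := d) _ hc.1 hc.2
    rw [mv_ev, hd]
  · apply act_al_zero
    intro d' h1 h2 h3
    rw [mv_ev] at h1
    have := AT_inj h1 hd
    subst this
    exact hc ⟨h2, h3⟩

theorem InB_ev_rot (j : Fin 3) : InB h l (ev j) ↔ InB h l (ev 0) := by
  have e : ev j = rot (-j) (ev 0) := by
    rw [rot_ev]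
    congr 1
    abel
  rw [e, InB_rot]

theorem InB_ev2_rot (j d : Fin 3) : InB h l (ev j + ev (j + d)) ↔ InB h l (ev 0 + ev d) := by
  have e : ev j + ev (j + d) = rot (-j) (ev 0 + ev d) := by
    rw [rot_add', rot_ev, rot_ev]
    congr 2 <;> abel
  rw [e, InB_rot]

theorem rel_be (C : Set (Arr t)) (k : Fin 3) :
    ac h l C (dW (.be k)) = ac h l C 0 := by
  classical
  rw [dW_be, ac_zero]
  apply end_ext
  intro x
  rw [ac_mul, ac_gA]
  rcases act_ga h l C k x with h0 | ⟨h1, h2, h3, h4⟩
  · rw [h0, map_zero]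
    rfl
  · rw [h4, ac_sub, ac_smul, LinearMap.sub_apply, LinearMap.smul_apply, map_sum, map_sum]
    have A1 : ∀ j : Fin 3, ac h l C (gA (.al (alpha21 t))) ((zeta ^ ((l : ℕ) * (j : ℕ))) • uu (ev j))
        = zz l j • (if InB h l (ev 0) ∧ InB h l (ev 0 + ev 1) then uu (ev j + ev (j + 1)) else 0) := by
      intro j
      rw [map_smul, ac_gA, act_ev_al h l C (alpha21 t) j (j + 1) (AT_X_alpha21 j),
        InB_ev_rot h l j, InB_ev2_rot h l j 1]
      rfl
    have A2 : ∀ j : Fin 3, ac h l C (gA (.al (alpha1 t))) ((zeta ^ ((l : ℕ) * (j : ℕ))) • uu (ev j))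
        = zz l j • (if InB h l (ev 0) ∧ InB h l (ev 0 + ev 2) then uu (ev j + ev (j + 2)) else 0) := by
      intro j
      rw [map_smul, ac_gA, act_ev_al h l C (alpha1 t) j (j + 2) (AT_X_alpha1 j),
        InB_ev_rot h l j, InB_ev2_rot h l j 2]
      rfl
    rw [Finset.sum_congr rfl (fun j _ => A1 j), Finset.sum_congr rfl (fun j _ => A2 j)]
    have e3 : InB h l (ev 0 + ev 2) ↔ InB h l (ev 0 + ev 1) := by
      have := InB_ev2_rot h l 2 1
      rw [← this]
      have e : ev (0 : Fin 3) + ev 2 = ev 2 + ev (2 + 1) := by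
        rw [add_comm]
        rfl
      rw [e]
    rw [e3, h1]
    split_ifs with hc
    · -- reindex
      have e4 : ∑ j : Fin 3, zz l j • (uu (ev j + ev (j + 2)) : (Fin 3 → ℤ) →₀ ℂ) =
          ∑ j : Fin 3, zz l (j + 1) • (uu (ev (j + 1) + ev (j + 1 + 2)) : (Fin 3 → ℤ) →₀ ℂ) :=
        (Equiv.sum_comp (Equiv.addRight (1 : Fin 3))
          (fun j => zz l j • (uu (ev j + ev (j + 2)) : (Fin 3 → ℤ) →₀ ℂ))).symm
      rw [e4, Finset.smul_sum, LinearMap.zero_apply, sub_eq_zero]
      apply Finset.sum_congr rfl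
      intro j _
      have e5 : j + 1 + 2 = j := by
        fin_cases j <;> rfl
      rw [e5, add_comm (ev (j + 1)) (ev j), smul_smul, add_comm j 1, zz_add]
      congr 2
      unfold zz
      rw [show ((1 : Fin 3) : ℕ) = 1 from rfl, mul_one]
    · simp

/-- The action of `gT b p` at the right position. -/
theorem ac_gT {C : Set (Arr t)} {b x : Fin 3 → ℤ} {p r : Fin 3} (hb : cX t + mv x = rot r b)
    (hbT : InT t b) (hbX : b ≠ cX t) (hx : InB h l x) (hx' : InB h l (x + ev (p - r)))
    (hX : b + fv p ≠ cX t) :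
    ac h l C (gT t b p) (uu x) = uu (x + ev (p - r)) := by
  have h1 : InT t (b + fv p) := by
    have h2 := inT_mv hx'.1
    rw [vrt_add_ev, hb, ← rot_fv, ← rot_add', inT_rot] at h2
    exact h2
  obtain ⟨y, hy⟩ := Option.isSome_iff_exists.1 ((AT_isSome (t := t) b p).2 ⟨hbT, h1, hbX, hX⟩)
  have e1 : gT t b p = gA (.al y) := by
    unfold gT
    rw [hy]
    rfl
  rw [e1, ac_gA]
  apply act_al h l _ hx hx'
  rw [hb, AT_rot, hy]

/-- if the action of `gT b p` is not zero, then we are at the right position -/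
theorem ac_gT_cases (C : Set (Arr t)) (b x : Fin 3 → ℤ) (p : Fin 3) :
    ac h l C (gT t b p) (uu x) = 0 ∨ ∃ r, cX t + mv x = rot r b ∧ InT t b ∧ b ≠ cX t ∧
      InB h l x ∧ InB h l (x + ev (p - r)) ∧ b + fv p ≠ cX t := by
  rcases hA : AT t b p with _ | y
  · left
    unfold gT
    rw [hA]
    change ac h l C 0 (uu x) = 0
    rw [ac_zero]
    rfl
  · have h0 := (AT_isSome (t := t) b p).1 (by rw [hA]; rfl)
    have e1 : gT t b p = gA (.al y) := by
      unfold gT
      rw [hA]
      rfl
    rw [e1, ac_gA]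
    rcases act_al_cases h l C y x with h1 | ⟨d, h2, h3, h4, -⟩
    · left; exact h1
    · right
      have h5 := (AT_src h2 l).symm.trans (AT_src hA l)
      have h6 := vrt_eq_inl (t := t) l h0.1 h0.2.2.1
      rw [h6] at h5
      obtain ⟨r1, hr1⟩ := (vrt_eq_iff (t := t) l _).1 h5
      rw [rot_rot] at hr1
      refine ⟨r1 + qi t b, hr1, h0.1, h0.2.2.1, h3, ?_, h0.2.2.2⟩
      have h8 : AT t (cX t + mv x) (p - (r1 + qi t b)) = some y := by
        rw [hr1, AT_rot, hA]
      rw [← AT_inj h2 h8]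
      exact h4

variable {h} in
/-- the key commutation argument -/
theorem swap_cond {C : Set (Arr t)} (hh : IsHeight C h) {b x : Fin 3 → ℤ} {p q r : Fin 3}
    (hpq : p ≠ q) (hb : cX t + mv x = rot r b) (hx : InB h l x)
    (hx2 : InB h l (x + ev (p - r) + ev (q - r))) :
    InB h l (x + ev (q - r)) ∧ b + fv q ≠ cX t := by
  have hpq' : p - r ≠ q - r := fun e => hpq (sub_left_injective e)
  have hbd : ∀ i, 0 ≤ (x + ev (q - r)) i ∧ (x + ev (q - r)) i ≤ t := by
    intro i
    have a1 := hx.1 i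
    have a2 := hx2.1 i
    simp only [Pi.add_apply, ev] at a2 ⊢
    split_ifs at a2 ⊢ <;> omega
  have T0 := inT_mv hx.1
  have T1 := inT_mv hbd
  have T2 := inT_mv hx2.1
  have s1 := sum_ev (p - r)
  have s2 := sum_ev (q - r)
  have d0 := hx.2
  have d2 := hx2.2
  simp only [Pi.add_apply] at d2
  constructor
  · refine ⟨hbd, ?_⟩
    simp only [Pi.add_apply]
    have e1 : cX t + mv (x + ev (p - r) + ev (q - r)) =
        cX t + mv (x + ev (q - r)) + fv (p - r) := by
      rw [add_right_comm x, vrt_add_ev]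
    rw [e1] at d2 T2
    have e2 := vrt_add_ev (t := t) x (q - r)
    have g1 := hstep hh l _ _ T0 (by rw [← e2]; exact T1)
    have g2 := hstep hh l _ _ T1 T2
    rw [← e2] at g1
    omega
  · intro hX
    have e1 : mv (x + ev (q - r)) = 0 := by
      have e2 := vrt_add_ev (t := t) x (q - r)
      rw [hb, ← rot_fv, ← rot_add', hX, rot_cX] at e2
      simpa using e2
    obtain ⟨c1, c2⟩ := const_of_mv e1
    have e3 : cX t + mv (x + ev (p - r) + ev (q - r)) = cX t + fv (p - r) := by
      rw [add_right_comm x, vrt_add_ev, e1, add_zero]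
    rw [e3] at d2 T2
    have g1 := hstep hh l _ _ (inT_cX t) T2
    have g3 : 1 ≤ (x + ev (q - r)) (q - r) := by
      have a1 := (hx.1 (q - r)).1
      simp only [Pi.add_apply, ev, if_true]
      omega
    have g4 : 1 ≤ (x + ev (q - r)) 0 := by
      rcases (show (q - r) = 0 ∨ (q - r) = 1 ∨ (q - r) = 2 by
        generalize q - r = s
        fin_cases s <;> simp) with e | e | e <;> rw [e] at g3 c1 c2 ⊢
      · exact g3
      · omega
      · omega
    simp only [Pi.add_apply] at c1 c2 g4
    omega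

variable {h} in
/-- products of two steps commute on the module -/
theorem ac_gT_comm {C : Set (Arr t)} (hh : IsHeight C h) (b : Fin 3 → ℤ) (p q : Fin 3)
    (hpq : p ≠ q) :
    ac h l C (gT t b p * gT t (b + fv p) q) = ac h l C (gT t b q * gT t (b + fv q) p) := by
  -- one sided form
  have key : ∀ (p q : Fin 3), p ≠ q → ∀ x : Fin 3 → ℤ,
      ac h l C (gT t b p * gT t (b + fv p) q) (uu x) = 0 ∨
      (∃ r : Fin 3, cX t + mv x = rot r b ∧ InT t b ∧ b ≠ cX t ∧ InB h l x ∧
        InB h l (x + ev (p - r)) ∧ InB h l (x + ev (p - r) + ev (q - r)) ∧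
        b + fv p ≠ cX t ∧ b + fv p + fv q ≠ cX t ∧
        ac h l C (gT t b p * gT t (b + fv p) q) (uu x) = uu (x + ev (p - r) + ev (q - r))) := by
    intro p q hpq x
    rw [ac_mul]
    rcases ac_gT_cases h l C b x p with h0 | ⟨r, h1, h2, h3, h4, h5, h6⟩
    · left
      rw [h0, map_zero]
    · rw [ac_gT h l h1 h2 h3 h4 h5 h6]
      have e1 : cX t + mv (x + ev (p - r)) = rot r (b + fv p) := by
        rw [vrt_add_ev, h1, rot_add', rot_fv]
      rcases ac_gT_cases h l C (b + fv p) (x + ev (p - r)) q with h7 | ⟨r', g1, g2, g3, g4, g5, g6⟩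
      · left; exact h7
      · right
        have e2 : r' = r := by
          have g0 := e1.symm.trans g1
          have a1 := inV_rot_qi g2 g3
          have a2 : rot (r' - r) (b + fv p) = b + fv p := by
            apply rot_inj (q := r)
            rw [rot_rot, g0]
            congr 1
            abel
          have a3 := qi_rot g2 g3 (r' - r)
          rw [a2] at a3
          have a4 : r' - r = 0 := by
            have := congrArg (fun z => z - qi t (b + fv p)) a3
            simp only [sub_self] at this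
            rw [sub_sub_cancel_left] at this
            have := congrArg (fun z => -z) this
            simpa using this.symm
          exact sub_eq_zero.1 a4
        subst e2
        refine ⟨r', h1, h2, h3, h4, h5, g5, h6, g6, ?_⟩
        rw [ac_gT h l g1 g2 g3 g4 g5 g6]
  have key2 : ∀ (p q : Fin 3), p ≠ q → ∀ x : Fin 3 → ℤ,
      ac h l C (gT t b p * gT t (b + fv p) q) (uu x) = 0 ∨
      ac h l C (gT t b q * gT t (b + fv q) p) (uu x) =
        ac h l C (gT t b p * gT t (b + fv p) q) (uu x) := by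
    intro p q hpq x
    rcases key p q hpq x with h0 | ⟨r, h1, h2, h3, h4, h5, h6, h7, h8, h9⟩
    · left; exact h0
    · right
      obtain ⟨k1, k2⟩ := swap_cond l hh hpq h1 h4 h6
      rw [h9, ac_mul, ac_gT h l h1 h2 h3 h4 k1 k2]
      have e1 : cX t + mv (x + ev (q - r)) = rot r (b + fv q) := by
        rw [vrt_add_ev, h1, rot_add', rot_fv]
      have e2 : InT t (b + fv q) := by
        have := inT_mv k1.1
        rw [e1, inT_rot] at this
        exact this
      rw [ac_gT h l e1 e2 k2 k1]
      · rw [add_right_comm]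
      · rw [add_right_comm]
        exact h6
      · rw [add_right_comm]
        exact h8
  apply end_ext
  intro x
  rcases key2 p q hpq x with h0 | h0
  · rcases key2 q p hpq.symm x with h1 | h1
    · rw [h0, h1]
    · exact h1
  · exact h0.symm

variable {h} in
theorem rel_al {C : Set (Arr t)} (hh : IsHeight C h) (x : AlArr t) :
    ac h l C (dW (.al x)) = ac h l C 0 := by
  classical
  rw [dW_al]
  generalize x.1.2.1 + x.1.2.2 = d
  have e0 : ∀ k : Fin 3, ac h l C (gA (Arr.be k) * gA (Arr.ga k) : FA t) = 0 := by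
    intro k
    apply end_ext
    intro x
    rw [ac_mul, ac_be]
    exact map_zero _
  have e1 : ac h l C (if x = alpha1 t then - ∑ k : Fin 3, gA (.be k) * gA (.ga k) else 0 : FA t)
      = 0 := by
    split_ifs
    · rw [ac_neg, ac_sum, Finset.sum_eq_zero (fun k _ => e0 k)]
      refine LinearMap.ext fun u => ?_
      rw [LinearMap.neg_apply, LinearMap.zero_apply, neg_zero]
    · rw [ac_zero]
  have e2 : ac h l C (if x = alpha21 t then
      ∑ k : Fin 3, (zeta ^ (k : ℕ)) • (gA (.be k) * gA (.ga k)) else 0 : FA t) = 0 := by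
    split_ifs
    · rw [ac_sum, Finset.sum_eq_zero]
      intro k _
      rw [ac_smul, e0, smul_zero]
    · rw [ac_zero]
  have e3 : d + 1 ≠ d + 2 := by
    intro e
    have e3 : (1 : Fin 3) = 2 := add_left_cancel e
    exact absurd e3 (by decide)
  rw [ac_add, ac_add, e1, e2, add_zero, add_zero, ac_sub, ac_zero,
    ac_gT_comm l hh _ _ _ e3]
  refine LinearMap.ext fun u => ?_
  rw [LinearMap.sub_apply, sub_self, LinearMap.zero_apply]

variable {h} in
theorem rel_all {C : Set (Arr t)} (hh : IsHeight C h) {f g : FA t} (r : Rel C f g) :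
    ac h l C f = ac h l C g := by
  cases r with
  | idem v => exact rel_idem h l C v
  | orth v w hvw => exact rel_orth h l C v w hvw
  | one => exact rel_one h l C
  | left x => exact rel_left h l C x
  | right x => exact rel_right h l C x
  | pot x =>
    cases x with
    | al x => exact rel_al l hh x
    | be k => exact rel_be h l C k
    | ga k => exact rel_ga h l C k
  | cut x hx => exact rel_cut l hh x hx

/-! ### the action of `Λ_C` and the reachable vectors -/

variable {h} in
/-- the right action of `Λ_C` -/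
noncomputable def phi {C : Set (Arr t)} (hh : IsHeight C h) :
    Lam C →ₐ[ℂ] (Module.End ℂ ((Fin 3 → ℤ) →₀ ℂ))ᵐᵒᵖ :=
  RingQuot.liftAlgHom ℂ ⟨phi0 h l C, fun _ _ r => MulOpposite.unop_injective (rel_all l hh r)⟩

variable {h} in
/-- the right action of `Λ_C` -/
noncomputable def aq {C : Set (Arr t)} (hh : IsHeight C h) (f : Lam C) :
    Module.End ℂ ((Fin 3 → ℤ) →₀ ℂ) := (phi l hh f).unop

variable {h} in
theorem aq_mul {C : Set (Arr t)} (hh : IsHeight C h) (f g : Lam C) (u : (Fin 3 → ℤ) →₀ ℂ) :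
    aq l hh (f * g) u = aq l hh g (aq l hh f u) := by
  unfold aq
  rw [map_mul, MulOpposite.unop_mul]
  rfl

variable {h} in
theorem aq_smul {C : Set (Arr t)} (hh : IsHeight C h) (c : ℂ) (f : Lam C) :
    aq l hh (c • f) = c • aq l hh f := by
  unfold aq
  rw [map_smul, MulOpposite.unop_smul]

variable {h} in
theorem aq_zero {C : Set (Arr t)} (hh : IsHeight C h) : aq l hh 0 = 0 := by
  unfold aq
  rw [map_zero, MulOpposite.unop_zero]

variable {h} in
theorem aq_mk {C : Set (Arr t)} (hh : IsHeight C h) (f : FA t) :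
    aq l hh (RingQuot.mkAlgHom ℂ (Rel C) f) = ac h l C f := by
  unfold aq phi ac
  rw [RingQuot.liftAlgHom_mkAlgHom_apply]

/-- the vector of the module which belongs to the monomial `x` -/
noncomputable def UU (x : Fin 3 → ℤ) : (Fin 3 → ℤ) →₀ ℂ :=
  ∑ j : Fin 3, zz l j • uu (rot (-j) x)

variable {h} in
theorem InB_pred {C : Set (Arr t)} (hh : IsHeight C h) {x : Fin 3 → ℤ} (hx : InB h l x)
    (p : Fin 3) (hp : 1 ≤ x p) : InB h l (x - ev p) := by
  have hbd : ∀ i, 0 ≤ (x - ev p) i ∧ (x - ev p) i ≤ t := by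
    intro i
    have a1 := hx.1 i
    simp only [Pi.sub_apply, ev]
    split_ifs with hi
    · rw [hi] at a1 ⊢
      omega
    · omega
  refine ⟨hbd, ?_⟩
  have h1 := (typeA_nonneg t (HT t h l) (hstep hh l) (cX t) (x - ev p) (inT_cX t)
    (fun i => hbd i)).2
  have T1 := inT_mv hbd
  have T2 := inT_mv hx.1
  have e1 : cX t + mv x = cX t + mv (x - ev p) + fv p := by
    rw [← vrt_add_ev, sub_add_cancel]
  have h2 := hx.2
  rw [e1] at h2 T2
  have h3 := hstep hh l _ _ T1 T2
  have h4 := sum_ev p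
  simp only [Pi.sub_apply] at h1 ⊢
  omega

variable {h} in
theorem reach {C : Set (Arr t)} (hh : IsHeight C h) (n : ℕ) :
    ∀ x : Fin 3 → ℤ, InB h l x → x ≠ 0 → x 0 + x 1 + x 2 = n →
      ∃ f : Lam C, aq l hh f (uu 0) = UU l x := by
  induction n with
  | zero =>
    intro x hx hx0 hn
    exfalso
    apply hx0
    have a0 := hx.1 0
    have a1 := hx.1 1
    have a2 := hx.1 2
    push_cast at hn
    apply ext3
    · change x 0 = 0
      omega
    · change x 1 = 0
      omega
    · change x 2 = 0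
      omega
  | succ n ih =>
    intro x hx hx0 hn
    have hp : ∃ p, 1 ≤ x p := by
      by_contra hc
      push Not at hc
      apply hx0
      have a0 := hx.1 0
      have a1 := hx.1 1
      have a2 := hx.1 2
      have b0 := hc 0
      have b1 := hc 1
      have b2 := hc 2
      apply ext3
      · change x 0 = 0
        omega
      · change x 1 = 0
        omega
      · change x 2 = 0
        omega
    obtain ⟨p, hp⟩ := hp
    have hpred := InB_pred l hh hx p hp
    have hs := sum_ev p
    by_cases h0 : x - ev p = 0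
    · -- base case
      have h1 : x = ev p := sub_eq_zero.1 h0
      have hC : Arr.ga l ∉ C := by
        intro hg
        have e1 := hh (.ga l)
        rw [if_pos hg] at e1
        have e2 := hx.2
        rw [h1, mv_ev] at e2
        unfold HT at e2
        rw [vrt_cX, vrt_step_X] at e2
        change h (Sum.inr l) - h (Sum.inl (vS t)) = -2 at e1
        omega
      refine ⟨zz l (-p) • aL C (.ga l), ?_⟩
      rw [aq_smul, LinearMap.smul_apply]
      unfold aL
      rw [aq_mk, ac_gA]
      have e3 : act h l C (Sum.inr (Arr.ga l)) 0 =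
          ∑ j : Fin 3, (zeta ^ ((l : ℕ) * (j : ℕ))) • uu (ev j) := by
        simp only [act]
        rw [if_pos ⟨rfl, rfl, hC⟩]
      rw [e3]
      have e4 : ∑ j : Fin 3, (zeta ^ ((l : ℕ) * (j : ℕ))) • (uu (ev j) : (Fin 3 → ℤ) →₀ ℂ) =
          ∑ j : Fin 3, zz l (j + p) • (uu (ev (j + p)) : (Fin 3 → ℤ) →₀ ℂ) :=
        (Equiv.sum_comp (Equiv.addRight p)
          (fun j => zz l j • (uu (ev j) : (Fin 3 → ℤ) →₀ ℂ))).symm
      rw [e4, Finset.smul_sum]
      unfold UU
      apply Finset.sum_congr rfl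
      intro j _
      rw [smul_smul, ← zz_add, h1, rot_ev]
      congr 2
      · abel
      · congr 1
        abel
    · -- inductive step
      obtain ⟨f, hf⟩ := ih (x - ev p) hpred h0 (by
        simp only [Pi.sub_apply]
        push_cast at hn
        omega)
      have hX1 := InB_ne h l hpred h0
      have hX2 := InB_ne h l hx hx0
      have e1 : cX t + mv x = cX t + mv (x - ev p) + fv p := by
        rw [← vrt_add_ev, sub_add_cancel]
      have T1 := inT_mv hpred.1
      have T2 := inT_mv hx.1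
      rw [e1] at hX2 T2
      obtain ⟨y, hy⟩ := Option.isSome_iff_exists.1
        ((AT_isSome (t := t) (cX t + mv (x - ev p)) p).2 ⟨T1, T2, hX1, hX2⟩)
      refine ⟨f * aL C (.al y), ?_⟩
      rw [aq_mul, hf]
      unfold UU aL
      rw [aq_mk, map_sum]
      apply Finset.sum_congr rfl
      intro j _
      rw [map_smul, ac_gA]
      congr 1
      have e2 : rot (-j) (x - ev p) + ev (p - -j) = rot (-j) x := by
        rw [← rot_ev, ← rot_add', sub_add_cancel]
      have e3 : AT t (cX t + mv (rot (-j) (x - ev p))) (p - -j) = some y := by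
        rw [← rot_mv, ← rot_cX t (-j), ← rot_add', AT_rot, hy]
      rw [act_al h l e3 ((InB_rot h l _ _).2 hpred) (by rw [e2]; exact (InB_rot h l _ _).2 hx), e2]

theorem UU_ne_zero {x : Fin 3 → ℤ} (hx : cX t + mv x ≠ cX t) : UU l x ≠ 0 := by
  intro e
  have e1 := congrArg (fun f : (Fin 3 → ℤ) →₀ ℂ => f x) e
  have hr : ∀ j : Fin 3, j ≠ 0 → rot (-j) x ≠ x := by
    intro j hj e2
    apply hx
    have h0 : x (0 + -j) = x 0 := congrFun e2 0
    have h1 : x (1 + -j) = x 1 := congrFun e2 1
    have h2 : x (2 + -j) = x 2 := congrFun e2 2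
    have h3 : mv x = 0 := by
      revert h0 h1 h2 hj
      fin_cases j
      · intro hj _ _ _
        exact absurd rfl hj
      · intro _ h0 h1 h2
        change x 2 = x 0 at h0
        change x 0 = x 1 at h1
        change x 1 = x 2 at h2
        apply ext3
        · change x 2 - x 0 = 0
          omega
        · change x 0 - x 1 = 0
          omega
        · change x 1 - x 2 = 0
          omega
      · intro _ h0 h1 h2
        change x 1 = x 0 at h0
        change x 2 = x 1 at h1
        change x 0 = x 2 at h2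
        apply ext3
        · change x 2 - x 0 = 0
          omega
        · change x 0 - x 1 = 0
          omega
        · change x 1 - x 2 = 0
          omega
    rw [h3, add_zero]
  unfold UU at e1
  simp only [Finsupp.coe_finsetSum, Finset.sum_apply, Finsupp.coe_smul, Pi.smul_apply,
    Finsupp.coe_zero, Pi.zero_apply] at e1
  rw [Finset.sum_eq_single 0] at e1
  · rw [neg_zero, rot_zero, zz_zero] at e1
    simp [uu] at e1
  · intro j _ hj
    unfold uu
    rw [Finsupp.single_eq_of_ne (hr j hj).symm, smul_zero]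
  · intro hc
    exact absurd (Finset.mem_univ _) hc

end

end LX

theorem peirce_lowerX (t : ℕ) [NeZero t] (C : Set (Arr t)) (h : Vert t → ℤ)
    (hh : IsHeight C h) (l : Fin 3) (w : Vert t)
    (hfd : FiniteDimensional ℂ (peirce (eL C (.inr l)) (eL C w))) :
    cD t h (.inr l) w ≤ (Module.finrank ℂ (peirce (eL C (.inr l)) (eL C w)) : ℤ) := by
  classical
  -- it suffices to find a nonzero element
  have main : (∃ f ∈ peirce (eL C (.inr l)) (eL C w), f ≠ 0) →
      1 ≤ (Module.finrank ℂ (peirce (eL C (.inr l)) (eL C w)) : ℤ) := by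
    rintro ⟨f, hf, hf0⟩
    have : 1 ≤ Module.finrank ℂ (peirce (eL C (.inr l)) (eL C w)) := by
      rw [Submodule.one_le_finrank_iff]
      intro e
      rw [e] at hf
      exact hf0 ((Submodule.mem_bot ℂ).1 hf)
    omega
  have hX0 : vrt t l (cX t + mv 0) = Sum.inr l := by
    rw [LX.mv_zero, add_zero, vrt_cX]
  rcases w with c | k
  · change (if ZZ (HT t h l) (cX t) c.1 then (1 : ℤ) else 0) ≤ _
    split_ifs with hZ
    · apply main
      obtain ⟨x, hx1, hx2, hx3⟩ := hZ
      have hB : LX.InB h l x := by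
        refine ⟨hx1, ?_⟩
        rw [hx2]
        exact hx3
      have hcX : cX t + mv x ≠ cX t := by
        rw [hx2]
        intro e
        have := c.2
        rw [e] at this
        exact not_inV_cX t this
      have hx0 : x ≠ 0 := by
        intro e
        apply hcX
        rw [e, LX.mv_zero, add_zero]
      have hn : x 0 + x 1 + x 2 = ((x 0 + x 1 + x 2).toNat : ℤ) := by
        have a0 := hx1 0
        have a1 := hx1 1
        have a2 := hx1 2
        omega
      obtain ⟨f, hf⟩ := LX.reach l hh _ x hB hx0 hn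
      refine ⟨eL C (.inr l) * (f * eL C (.inl c)), ⟨f, rfl⟩, ?_⟩
      intro e
      apply LX.UU_ne_zero l hcX
      have e1 : LX.aq l hh (eL C (.inr l) * (f * eL C (.inl c))) (LX.uu 0) = LX.UU l x := by
        rw [LX.aq_mul, LX.aq_mul]
        unfold eL
        rw [LX.aq_mk l hh (gV (.inr l)), LX.ac_gV_uu h l C _ 0 hX0, hf, LX.aq_mk]
        unfold LX.UU
        rw [map_sum]
        apply Finset.sum_congr rfl
        intro j _
        rw [map_smul, LX.ac_gV_uu]
        rw [← rot_mv, ← rot_cX t (-j), ← rot_add', vrt_rot l (LX.inT_mv hx1), hx2, vrt_of_inV]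
      rw [← e1, e, LX.aq_zero]
      rfl
    · positivity
  · change (if l = k then (1 : ℤ) else 0) ≤ _
    split_ifs with hk
    · subst hk
      apply main
      refine ⟨eL C (.inr l) * (1 * eL C (.inr l)), ⟨1, rfl⟩, ?_⟩
      intro e
      have e1 : LX.aq l hh (eL C (.inr l) * (1 * eL C (.inr l))) (LX.uu 0) = LX.uu 0 := by
        rw [one_mul, LX.aq_mul]
        unfold eL
        rw [LX.aq_mk, LX.ac_gV_uu h l C _ 0 hX0, LX.ac_gV_uu h l C _ 0 hX0]
      rw [e, LX.aq_zero] at e1
      have e2 := congrArg (fun f : (Fin 3 → ℤ) →₀ ℂ => f 0) e1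
      simp [LX.uu] at e2
    · positivity

end MPdda
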