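import Pool.Agent.H.MP_dda0b9_al.DefsMod

/-!
# MP_dda0b9_al: the modules `A e` are projective; morphisms between them (job J6)
-/

namespace MPdda

namespace PM

open CategoryTheory CategoryTheory.Limits

variable {A : Type} [Ring A] [Algebra ℂ A] [FiniteDimensional ℂ A]

omit [FiniteDimensional ℂ A] in
theorem surjective_of_epi_fdMod {X Y : FDMod A} (f : X ⟶ Y) [Epi f] :
    Function.Surjective f.hom.hom := by
  have := (fdProp A).preservesEpimorphisms_ι_of_isNormalMonoCategory
  have h : Epi ((fdProp A).ι.map f) := inferInstance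
  exact (ModuleCat.epi_iff_surjective _).1 h

omit [FiniteDimensional ℂ A] [Algebra ℂ A] in
theorem mul_idem_of_mem_span {e : A} (he : IsIdempotentElem e) {x : A}
    (hx : x ∈ Submodule.span A {e}) : x * e = x := by
  obtain ⟨a, rfl⟩ := Submodule.mem_span_singleton.1 hx
  rw [smul_eq_mul, mul_assoc, he]

/-- the generator of `A e` -/
def genE (e : A) : Submodule.span A {e} := ⟨e, Submodule.mem_span_singleton_self e⟩

/-- the linear map `A e → M` given by an element of `M` -/
noncomputable def toE (e : A) {M : Type} [AddCommGroup M] [Module A M] (m : M) :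
    Submodule.span A {e} →ₗ[A] M :=
  (LinearMap.toSpanSingleton A M m).comp (Submodule.span A {e}).subtype

omit [FiniteDimensional ℂ A] [Algebra ℂ A] in
theorem toE_apply (e : A) {M : Type} [AddCommGroup M] [Module A M] (m : M)
    (x : Submodule.span A {e}) : toE e m x = (x : A) • m := rfl

omit [FiniteDimensional ℂ A] [Algebra ℂ A] in
theorem hom_apply_eq {e : A} (he : IsIdempotentElem e) {M : Type} [AddCommGroup M] [Module A M]
    (f : Submodule.span A {e} →ₗ[A] M) (x : Submodule.span A {e}) :
    f x = (x : A) • f (genE e) := by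
  rw [← map_smul]
  congr 1
  apply Subtype.ext
  change (x : A) = (x : A) * e
  exact (mul_idem_of_mem_span he x.2).symm

end PM

open CategoryTheory CategoryTheory.Limits PM

variable {A : Type} [Ring A] [Algebra ℂ A] [FiniteDimensional ℂ A]

theorem projMod_projective (e : A) (he : IsIdempotentElem e) : Projective (projMod e) := by
  refine ⟨fun {E X} f p hp => ?_⟩
  obtain ⟨y, hy⟩ := surjective_of_epi_fdMod p (f.hom.hom (genE e))
  refine ⟨ObjectProperty.homMk (ModuleCat.ofHom (toE e y)), ?_⟩
  apply ObjectProperty.hom_ext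
  apply ModuleCat.hom_ext
  refine LinearMap.ext fun (x : Submodule.span A {e}) => ?_
  change p.hom.hom ((x : A) • y) = f.hom.hom x
  rw [map_smul, hy]
  exact (hom_apply_eq he f.hom.hom x).symm

omit [FiniteDimensional ℂ A] in
theorem PM.mem_peirce_iff {e f : A} (he : IsIdempotentElem e) (hf : IsIdempotentElem f) {x : A} :
    x ∈ peirce e f ↔ e * x = x ∧ x * f = x := by
  constructor
  · rintro ⟨y, rfl⟩
    change e * (e * (y * f)) = e * (y * f) ∧ e * (y * f) * f = e * (y * f)
    constructor
    · rw [← mul_assoc, he]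
    · rw [mul_assoc, mul_assoc, hf]
  · rintro ⟨h1, h2⟩
    refine ⟨x, ?_⟩
    change e * (x * f) = x
    rw [h2, h1]

/-- evaluation at the generator -/
noncomputable def PM.evE {e f : A} (g : projMod e ⟶ projMod f) : Submodule.span A {f} :=
  g.hom.hom (genE e)

theorem PM.evE_smul {e f : A} (c : ℂ) (g : projMod e ⟶ projMod f) :
    ((evE (c • g) : Submodule.span A {f}) : A) = c • ((evE g : Submodule.span A {f}) : A) := by
  change ((((algebraMap ℂ A c) • (evE g) : Submodule.span A {f})) : A) = _
  rw [Submodule.coe_smul, algebraMap_smul]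

theorem projMod_hom (e f : A) (he : IsIdempotentElem e) (hf : IsIdempotentElem f) :
    Nonempty ((projMod e ⟶ projMod f) ≃ₗ[ℂ] peirce e f) := by
  have hmem : ∀ g : projMod e ⟶ projMod f,
      ((evE g : Submodule.span A {f}) : A) ∈ peirce e f := fun g => by
    rw [mem_peirce_iff he hf]
    constructor
    · have h := hom_apply_eq he (M := Submodule.span A {f}) g.hom.hom (genE e)
      have h1 := congrArg (fun z : Submodule.span A {f} => (z : A)) h
      exact h1.symm
    · exact mul_idem_of_mem_span hf (Subtype.prop _)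
  refine ⟨LinearEquiv.ofBijective
    { toFun := fun g => (⟨((evE g : Submodule.span A {f}) : A), hmem g⟩ : peirce e f)
      map_add' := fun g h => rfl
      map_smul' := fun c g => Subtype.ext (evE_smul c g) } ⟨?_, ?_⟩⟩
  · intro g h hgh
    apply ObjectProperty.hom_ext
    apply ModuleCat.hom_ext
    refine LinearMap.ext fun (x : Submodule.span A {e}) => ?_
    have h1 := hom_apply_eq he (M := Submodule.span A {f}) g.hom.hom x
    have h2 := hom_apply_eq he (M := Submodule.span A {f}) h.hom.hom x
    have h4 : (⟨((evE g : Submodule.span A {f}) : A), hmem g⟩ : peirce e f) =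
        ⟨((evE h : Submodule.span A {f}) : A), hmem h⟩ := hgh
    have h3 : evE g = evE h := Subtype.ext (Subtype.mk.inj h4)
    refine h1.trans (Eq.trans ?_ h2.symm)
    exact congrArg (fun z => (x : A) • z) h3
  · rintro ⟨x, hx⟩
    have hx' := (mem_peirce_iff he hf).1 hx
    have hxm : x ∈ Submodule.span A {f} := Submodule.mem_span_singleton.2 ⟨x, hx'.2⟩
    refine ⟨ObjectProperty.homMk (ModuleCat.ofHom (toE e (⟨x, hxm⟩ : Submodule.span A {f}))), ?_⟩
    apply Subtype.ext
    change e * x = x
    exact hx'.1

end MPdda
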