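import Pool.Agent.H.MP_dda0b9_al.Comb

/-!
# MP_dda0b9_al: the trace for `Λ_C` (job J25)
-/

namespace MPdda

namespace TrD

lemma ext3 {a b : Fin 3 → ℤ} : a = b ↔ a 0 = b 0 ∧ a 1 = b 1 ∧ a 2 = b 2 := by
  constructor
  · rintro rfl
    exact ⟨rfl, rfl, rfl⟩
  · rintro ⟨h0, h1, h2⟩
    funext i
    fin_cases i
    · exact h0
    · exact h1
    · exact h2

lemma all3 {p : Fin 3 → Prop} : (∀ i, p i) ↔ p 0 ∧ p 1 ∧ p 2 := by
  constructor
  · intro h
    exact ⟨h 0, h 1, h 2⟩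
  · rintro ⟨h0, h1, h2⟩ i
    fin_cases i
    · exact h0
    · exact h1
    · exact h2

lemma fv00 : fv 0 0 = -1 := rfl
lemma fv01 : fv 0 1 = 1 := rfl
lemma fv02 : fv 0 2 = 0 := rfl
lemma fv10 : fv 1 0 = 0 := rfl
lemma fv11 : fv 1 1 = -1 := rfl
lemma fv12 : fv 1 2 = 1 := rfl
lemma fv20 : fv 2 0 = 1 := rfl
lemma fv21 : fv 2 1 = 0 := rfl
lemma fv22 : fv 2 2 = -1 := rfl

lemma rot0 (a : Fin 3 → ℤ) (i : Fin 3) : rot 0 a i = a i := by rw [rot_zero]
lemma rot10 (a : Fin 3 → ℤ) : rot 1 a 0 = a 1 := rfl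
lemma rot11 (a : Fin 3 → ℤ) : rot 1 a 1 = a 2 := rfl
lemma rot12 (a : Fin 3 → ℤ) : rot 1 a 2 = a 0 := rfl
lemma rot20 (a : Fin 3 → ℤ) : rot 2 a 0 = a 2 := rfl
lemma rot21 (a : Fin 3 → ℤ) : rot 2 a 1 = a 0 := rfl
lemma rot22 (a : Fin 3 → ℤ) : rot 2 a 2 = a 1 := rfl

lemma mv0 (x : Fin 3 → ℤ) : mv x 0 = x 2 - x 0 := rfl
lemma mv1 (x : Fin 3 → ℤ) : mv x 1 = x 0 - x 1 := rfl
lemma mv2 (x : Fin 3 → ℤ) : mv x 2 = x 1 - x 2 := rfl

lemma cXi (t : ℕ) (i : Fin 3) : cX t i = (t : ℤ) := rfl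

/-- There is a monomial of degree `n` from `a` to `b`. -/
def ZN (n : ℤ) (a b : Fin 3 → ℤ) : Prop :=
  ∃ x : Fin 3 → ℤ, (∀ i, 0 ≤ x i ∧ x i ≤ a i) ∧ a + mv x = b ∧ x 0 + x 1 + x 2 = n

lemma ZZ_iff (H : (Fin 3 → ℤ) → ℤ) (a b : Fin 3 → ℤ) : ZZ H a b ↔ ZN (H a - H b) a b := Iff.rfl

lemma ZN_iff {n : ℤ} {a b : Fin 3 → ℤ} : ZN n a b ↔
    ∃ u v w : ℤ, 0 ≤ u ∧ u ≤ a 0 ∧ 0 ≤ v ∧ v ≤ a 1 ∧ 0 ≤ w ∧ w ≤ a 2 ∧
      a 0 + (w - u) = b 0 ∧ a 1 + (u - v) = b 1 ∧ a 2 + (v - w) = b 2 ∧ u + v + w = n := by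
  constructor
  · rintro ⟨x, hx, he, hs⟩
    rw [ext3] at he
    simp only [Pi.add_apply, mv0, mv1, mv2] at he
    exact ⟨x 0, x 1, x 2, (hx 0).1, (hx 0).2, (hx 1).1, (hx 1).2, (hx 2).1, (hx 2).2,
      he.1, he.2.1, he.2.2, hs⟩
  · rintro ⟨u, v, w, h1, h2, h3, h4, h5, h6, h7, h8, h9, h10⟩
    refine ⟨![u, v, w], ?_, ?_, ?_⟩
    · rw [all3]
      exact ⟨⟨h1, h2⟩, ⟨h3, h4⟩, ⟨h5, h6⟩⟩
    · rw [ext3]
      exact ⟨h7, h8, h9⟩
    · exact h10

lemma ZN_rot {n : ℤ} {a b : Fin 3 → ℤ} (q : Fin 3) : ZN n (rot q a) (rot q b) ↔ ZN n a b := by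
  have h1 : ∀ a b : Fin 3 → ℤ, ZN n a b → ZN n (rot 1 a) (rot 1 b) := by
    intro a b h
    rw [ZN_iff] at h ⊢
    obtain ⟨u, v, w, h⟩ := h
    refine ⟨v, w, u, ?_⟩
    simp only [rot10, rot11, rot12]
    omega
  have h2 : ∀ a b : Fin 3 → ℤ, ZN n a b → ZN n (rot 2 a) (rot 2 b) := by
    intro a b h
    rw [ZN_iff] at h ⊢
    obtain ⟨u, v, w, h⟩ := h
    refine ⟨w, u, v, ?_⟩
    simp only [rot20, rot21, rot22]
    omega
  have h3 : ∀ q : Fin 3, ∀ a b : Fin 3 → ℤ, ZN n a b → ZN n (rot q a) (rot q b) := by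
    intro q a b h
    fin_cases q
    · change ZN n (rot 0 a) (rot 0 b)
      rwa [rot_zero, rot_zero]
    · exact h1 a b h
    · exact h2 a b h
  constructor
  · intro h
    have h4 := h3 (-q) _ _ h
    rwa [rot_rot, rot_rot, neg_add_cancel, rot_zero, rot_zero] at h4
  · exact h3 q a b

lemma cases3 (d : Fin 3) : d = 0 ∨ d = 1 ∨ d = 2 := by
  fin_cases d
  · exact Or.inl rfl
  · exact Or.inr (Or.inl rfl)
  · exact Or.inr (Or.inr rfl)

lemma f00 : (0 : Fin 3) + 2 = 2 := rfl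
lemma f10 : (1 : Fin 3) + 2 = 0 := rfl
lemma f20 : (2 : Fin 3) + 2 = 1 := rfl

lemma U_zero {a : Fin 3 → ℤ} (ha : ∀ i, 0 ≤ a i) {d : Fin 3} (hd : 1 ≤ a d) :
    ZN 1 a (a + fv d) := by
  rw [all3] at ha
  rw [ZN_iff]
  obtain rfl | rfl | rfl := cases3 d
  · refine ⟨1, 0, 0, ?_⟩
    simp only [Pi.add_apply, fv00, fv01, fv02]
    omega
  · refine ⟨0, 1, 0, ?_⟩
    simp only [Pi.add_apply, fv10, fv11, fv12]
    omega
  · refine ⟨0, 0, 1, ?_⟩
    simp only [Pi.add_apply, fv20, fv21, fv22]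
    omega

lemma K_zero {a : Fin 3 → ℤ} (ha : ∀ i, 0 ≤ a i) {d : Fin 3} (hd : 1 ≤ a d) :
    ZN 2 (a + fv d) a ↔ 1 ≤ a (d + 2) := by
  rw [all3] at ha
  rw [ZN_iff]
  obtain rfl | rfl | rfl := cases3 d
  · simp only [Pi.add_apply, fv00, fv01, fv02, f00]
    constructor
    · rintro ⟨u, v, w, h⟩
      omega
    · intro h
      exact ⟨0, 1, 1, by omega⟩
  · simp only [Pi.add_apply, fv10, fv11, fv12, f10]
    constructor
    · rintro ⟨u, v, w, h⟩
      omega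
    · intro h
      exact ⟨1, 0, 1, by omega⟩
  · simp only [Pi.add_apply, fv20, fv21, fv22, f20]
    constructor
    · rintro ⟨u, v, w, h⟩
      omega
    · intro h
      exact ⟨1, 1, 0, by omega⟩

/-- coordinates of `a` relative to `X` -/
def At (t : ℕ) (a : Fin 3 → ℤ) (x y z : ℤ) : Prop := a 0 = t + x ∧ a 1 = t + y ∧ a 2 = t + z

lemma inV_iff {t : ℕ} {a : Fin 3 → ℤ} : InV t a ↔ (0 ≤ a 0 ∧ 0 ≤ a 1 ∧ 0 ≤ a 2) ∧
    a 0 + a 1 + a 2 = 3 * t ∧ (a 1 < a 0 ∨ (a 1 = a 0 ∧ (a 2 < a 1 ∨ (a 2 = a 1 ∧ a 0 < a 2)))) ∧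
    (a 2 < a 0 ∨ (a 2 = a 0 ∧ (a 0 < a 1 ∨ (a 0 = a 1 ∧ a 1 < a 2)))) := by
  unfold InV LexGT
  rw [all3]
  simp only [rot10, rot11, rot12, rot20, rot21, rot22]

lemma U1 {t : ℕ} {a : Fin 3 → ℤ} (ha : InV t a) {d : Fin 3} (hd : 1 ≤ a d)
    (hX : a + fv d ≠ cX t) :
    ZN 1 a (rot 1 (a + fv d)) ↔ d = 0 ∧ At t a 1 0 (-1) := by
  rw [inV_iff] at ha
  rw [ZN_iff]
  rw [Ne, ext3] at hX
  unfold At
  simp only [rot10, rot11, rot12, Pi.add_apply, cXi] at hX ⊢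
  obtain rfl | rfl | rfl := cases3 d
  · simp only [fv00, fv01, fv02, true_and] at hX ⊢
    constructor
    · rintro ⟨u, v, w, h⟩
      have hu : u = 0 ∨ u = 1 := by omega
      have hv : v = 0 ∨ v = 1 := by omega
      rcases hu with rfl | rfl <;> rcases hv with rfl | rfl <;> omega
    · intro h
      exact ⟨0, 1, 0, by omega⟩
  · simp only [fv10, fv11, fv12, (by decide : ¬ ((1 : Fin 3) = 0)), false_and, iff_false] at hX ⊢
    rintro ⟨u, v, w, h⟩
    have hu : u = 0 ∨ u = 1 := by omega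
    have hv : v = 0 ∨ v = 1 := by omega
    rcases hu with rfl | rfl <;> rcases hv with rfl | rfl <;> omega
  · simp only [fv20, fv21, fv22, (by decide : ¬ ((2 : Fin 3) = 0)), false_and, iff_false] at hX ⊢
    rintro ⟨u, v, w, h⟩
    have hu : u = 0 ∨ u = 1 := by omega
    have hv : v = 0 ∨ v = 1 := by omega
    rcases hu with rfl | rfl <;> rcases hv with rfl | rfl <;> omega

lemma U2 {t : ℕ} {a : Fin 3 → ℤ} (ha : InV t a) {d : Fin 3} (hd : 1 ≤ a d)
    (hX : a + fv d ≠ cX t) :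
    ZN 1 a (rot 2 (a + fv d)) ↔ d = 1 ∧ At t a 1 0 (-1) := by
  rw [inV_iff] at ha
  rw [ZN_iff]
  rw [Ne, ext3] at hX
  unfold At
  simp only [rot20, rot21, rot22, Pi.add_apply, cXi] at hX ⊢
  obtain rfl | rfl | rfl := cases3 d
  · simp only [fv00, fv01, fv02, (by decide : ¬ ((0 : Fin 3) = 1)), false_and, iff_false] at hX ⊢
    rintro ⟨u, v, w, h⟩
    have hu : u = 0 ∨ u = 1 := by omega
    have hv : v = 0 ∨ v = 1 := by omega
    rcases hu with rfl | rfl <;> rcases hv with rfl | rfl <;> omega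
  · simp only [fv10, fv11, fv12, true_and] at hX ⊢
    constructor
    · rintro ⟨u, v, w, h⟩
      have hu : u = 0 ∨ u = 1 := by omega
      have hv : v = 0 ∨ v = 1 := by omega
      rcases hu with rfl | rfl <;> rcases hv with rfl | rfl <;> omega
    · intro h
      exact ⟨1, 0, 0, by omega⟩
  · simp only [fv20, fv21, fv22, (by decide : ¬ ((2 : Fin 3) = 1)), false_and, iff_false] at hX ⊢
    rintro ⟨u, v, w, h⟩
    have hu : u = 0 ∨ u = 1 := by omega
    have hv : v = 0 ∨ v = 1 := by omega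
    rcases hu with rfl | rfl <;> rcases hv with rfl | rfl <;> omega

lemma K1 {t : ℕ} {a : Fin 3 → ℤ} (ha : InV t a) {d : Fin 3} (hd : 1 ≤ a d)
    (hX : a + fv d ≠ cX t) :
    ZN 2 (a + fv d) (rot 1 a) ↔ (d = 0 ∧ At t a 1 0 (-1)) ∨
      (d = 1 ∧ ((At t a 1 0 (-1) ∧ 2 ≤ t) ∨ At t a 1 (-1) 0 ∨ At t a 1 1 (-2))) := by
  rw [inV_iff] at ha
  rw [ZN_iff]
  rw [Ne, ext3] at hX
  unfold At
  simp only [rot10, rot11, rot12, Pi.add_apply, cXi] at hX ⊢
  obtain rfl | rfl | rfl := cases3 d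
  · simp only [fv00, fv01, fv02, true_and, (by decide : ¬ ((0 : Fin 3) = 1)), false_and,
      or_false] at hX ⊢
    constructor
    · rintro ⟨u, v, w, h⟩
      have hu : u = 0 ∨ u = 1 ∨ u = 2 := by omega
      have hv : v = 0 ∨ v = 1 ∨ v = 2 := by omega
      rcases hu with rfl | rfl | rfl <;> rcases hv with rfl | rfl | rfl <;> omega
    · intro h
      exact ⟨0, 2, 0, by omega⟩
  · simp only [fv10, fv11, fv12, true_and, (by decide : ¬ ((1 : Fin 3) = 0)), false_and,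
      false_or] at hX ⊢
    constructor
    · rintro ⟨u, v, w, h⟩
      have hu : u = 0 ∨ u = 1 ∨ u = 2 := by omega
      have hv : v = 0 ∨ v = 1 ∨ v = 2 := by omega
      rcases hu with rfl | rfl | rfl <;> rcases hv with rfl | rfl | rfl <;> omega
    · rintro (h | h | h)
      · exact ⟨1, 1, 0, by omega⟩
      · exact ⟨2, 0, 0, by omega⟩
      · exact ⟨0, 2, 0, by omega⟩
  · simp only [fv20, fv21, fv22, (by decide : ¬ ((2 : Fin 3) = 1)),
      (by decide : ¬ ((2 : Fin 3) = 0)), false_and, or_false, iff_false] at hX ⊢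
    rintro ⟨u, v, w, h⟩
    have hu : u = 0 ∨ u = 1 ∨ u = 2 := by omega
    have hv : v = 0 ∨ v = 1 ∨ v = 2 := by omega
    rcases hu with rfl | rfl | rfl <;> rcases hv with rfl | rfl | rfl <;> omega

lemma K2 {t : ℕ} {a : Fin 3 → ℤ} (ha : InV t a) {d : Fin 3} (hd : 1 ≤ a d)
    (hX : a + fv d ≠ cX t) :
    ZN 2 (a + fv d) (rot 2 a) ↔ (d = 0 ∧ (At t a 1 0 (-1) ∨ At t a 2 (-1) (-1))) ∨
      (d = 1 ∧ At t a 1 0 (-1)) ∨ (d = 2 ∧ At t a 1 (-1) 0) := by
  rw [inV_iff] at ha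
  rw [ZN_iff]
  rw [Ne, ext3] at hX
  unfold At
  simp only [rot20, rot21, rot22, Pi.add_apply, cXi] at hX ⊢
  obtain rfl | rfl | rfl := cases3 d
  · simp only [fv00, fv01, fv02, true_and, (by decide : ¬ ((0 : Fin 3) = 1)),
      (by decide : ¬ ((0 : Fin 3) = 2)), false_and, or_false] at hX ⊢
    constructor
    · rintro ⟨u, v, w, h⟩
      have hu : u = 0 ∨ u = 1 ∨ u = 2 := by omega
      have hv : v = 0 ∨ v = 1 ∨ v = 2 := by omega
      rcases hu with rfl | rfl | rfl <;> rcases hv with rfl | rfl | rfl <;> omega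
    · rintro (h | h)
      · exact ⟨1, 1, 0, by omega⟩
      · exact ⟨2, 0, 0, by omega⟩
  · simp only [fv10, fv11, fv12, true_and, (by decide : ¬ ((1 : Fin 3) = 0)),
      (by decide : ¬ ((1 : Fin 3) = 2)), false_and, false_or, or_false] at hX ⊢
    constructor
    · rintro ⟨u, v, w, h⟩
      have hu : u = 0 ∨ u = 1 ∨ u = 2 := by omega
      have hv : v = 0 ∨ v = 1 ∨ v = 2 := by omega
      rcases hu with rfl | rfl | rfl <;> rcases hv with rfl | rfl | rfl <;> omega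
    · intro h
      exact ⟨2, 0, 0, by omega⟩
  · simp only [fv20, fv21, fv22, (by decide : ¬ ((2 : Fin 3) = 1)),
      (by decide : ¬ ((2 : Fin 3) = 0)), false_and, false_or, true_and] at hX ⊢
    constructor
    · rintro ⟨u, v, w, h⟩
      have hu : u = 0 ∨ u = 1 ∨ u = 2 := by omega
      have hv : v = 0 ∨ v = 1 ∨ v = 2 := by omega
      rcases hu with rfl | rfl | rfl <;> rcases hv with rfl | rfl | rfl <;> omega
    · intro h
      exact ⟨2, 0, 0, by omega⟩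

/-! ### the points of the triangle -/

open Classical in
/-- the points of `T` -/
noncomputable def TT (t : ℕ) : Finset (Fin 3 → ℤ) :=
  (Fintype.piFinset fun _ : Fin 3 => Finset.Icc (0 : ℤ) (3 * t)).filter fun a => InT t a

lemma mem_TT {t : ℕ} {a : Fin 3 → ℤ} : a ∈ TT t ↔ InT t a := by
  classical
  unfold TT
  rw [Finset.mem_filter, Fintype.mem_piFinset]
  constructor
  · exact fun h => h.2
  · intro h
    refine ⟨?_, h⟩
    obtain ⟨h1, h2⟩ := h
    rw [all3] at h1 ⊢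
    simp only [Finset.mem_Icc]
    omega

open Classical in
/-- the cut steps -/
noncomputable def gg (H : (Fin 3 → ℤ) → ℤ) (b : Fin 3 → ℤ) (d : Fin 3) : ℤ :=
  if H b - H (b + fv d) = -2 then 1 else 0

open Classical in
/-- the regular contribution of a step -/
noncomputable def Freg (H : (Fin 3 → ℤ) → ℤ) (b : Fin 3 → ℤ) (d : Fin 3) : ℤ :=
  if H b - H (b + fv d) = -2 then (if 1 ≤ b (d + 2) then 1 else 0) else -1

/-- height functions on `T` -/
def GoodH (t : ℕ) (H : (Fin 3 → ℤ) → ℤ) : Prop :=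
  ∀ b d, InT t b → 1 ≤ b d → H b - H (b + fv d) = 1 ∨ H b - H (b + fv d) = -2

open Classical in
noncomputable def ES (t : ℕ) : Finset ((Fin 3 → ℤ) × Fin 3) :=
  (TT t ×ˢ Finset.univ).filter fun s => 1 ≤ s.1 s.2

open Classical in
noncomputable def ES2 (t : ℕ) : Finset ((Fin 3 → ℤ) × Fin 3) :=
  (TT t ×ˢ Finset.univ).filter fun s => 1 ≤ s.1 s.2 ∧ 1 ≤ s.1 (s.2 + 2)

lemma mem_ES {t : ℕ} {s : (Fin 3 → ℤ) × Fin 3} : s ∈ ES t ↔ InT t s.1 ∧ 1 ≤ s.1 s.2 := by
  classical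
  unfold ES
  simp [mem_TT]

lemma mem_ES2 {t : ℕ} {s : (Fin 3 → ℤ) × Fin 3} :
    s ∈ ES2 t ↔ InT t s.1 ∧ 1 ≤ s.1 s.2 ∧ 1 ≤ s.1 (s.2 + 2) := by
  classical
  unfold ES2
  simp [mem_TT]

lemma fv_self (d : Fin 3) : fv d d = -1 := by
  obtain rfl | rfl | rfl := cases3 d <;> rfl

lemma fv_succ (d : Fin 3) : fv d (d + 1) = 1 := by
  obtain rfl | rfl | rfl := cases3 d <;> rfl

lemma fv_succ2 (d : Fin 3) : fv d (d + 2) = 0 := by
  obtain rfl | rfl | rfl := cases3 d <;> rfl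

lemma d12 (d : Fin 3) : d + 1 + 2 = d := by
  obtain rfl | rfl | rfl := cases3 d <;> rfl

lemma d21 (d : Fin 3) : d + 2 + 1 = d := by
  obtain rfl | rfl | rfl := cases3 d <;> rfl

lemma d22 (d : Fin 3) : d + 2 + 2 = d + 1 := by
  obtain rfl | rfl | rfl := cases3 d <;> rfl

lemma d11 (d : Fin 3) : d + 1 + 1 = d + 2 := by
  obtain rfl | rfl | rfl := cases3 d <;> rfl

lemma fv_sum' (d : Fin 3) (b : Fin 3 → ℤ) : b + fv d + fv (d + 1) + fv (d + 2) = b := by
  rw [ext3]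
  simp only [Pi.add_apply]
  obtain rfl | rfl | rfl := cases3 d
  · change b 0 + fv 0 0 + fv 1 0 + fv 2 0 = b 0 ∧ b 1 + fv 0 1 + fv 1 1 + fv 2 1 = b 1 ∧
      b 2 + fv 0 2 + fv 1 2 + fv 2 2 = b 2
    simp only [fv00, fv01, fv02, fv10, fv11, fv12, fv20, fv21, fv22]
    omega
  · change b 0 + fv 1 0 + fv 2 0 + fv 0 0 = b 0 ∧ b 1 + fv 1 1 + fv 2 1 + fv 0 1 = b 1 ∧
      b 2 + fv 1 2 + fv 2 2 + fv 0 2 = b 2
    simp only [fv00, fv01, fv02, fv10, fv11, fv12, fv20, fv21, fv22]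
    omega
  · change b 0 + fv 2 0 + fv 0 0 + fv 1 0 = b 0 ∧ b 1 + fv 2 1 + fv 0 1 + fv 1 1 = b 1 ∧
      b 2 + fv 2 2 + fv 0 2 + fv 1 2 = b 2
    simp only [fv00, fv01, fv02, fv10, fv11, fv12, fv20, fv21, fv22]
    omega

lemma sum_ES_shift {t : ℕ} (g : (Fin 3 → ℤ) × Fin 3 → ℤ) :
    ∑ s ∈ ES t, g (s.1 + fv s.2, s.2 + 1) = ∑ s ∈ ES t, g s := by
  refine Finset.sum_nbij' (fun s => (s.1 + fv s.2, s.2 + 1))
    (fun s => (s.1 - fv (s.2 + 2), s.2 + 2)) ?_ ?_ ?_ ?_ ?_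
  · rintro ⟨b, d⟩ hs
    rw [mem_ES] at hs ⊢
    simp only at hs ⊢
    refine ⟨(inT_add_fv hs.1 d).mpr hs.2, ?_⟩
    rw [Pi.add_apply, fv_succ]
    have := hs.1.1 (d + 1)
    omega
  · rintro ⟨b, d⟩ hs
    rw [mem_ES] at hs ⊢
    simp only at hs ⊢
    refine ⟨(inT_sub_fv hs.1 (d + 2)).mpr (by rw [d21]; exact hs.2), ?_⟩
    rw [Pi.sub_apply, fv_self]
    have := hs.1.1 (d + 2)
    omega
  · rintro ⟨b, d⟩ hs
    simp only [d12, add_sub_cancel_right]
  · rintro ⟨b, d⟩ hs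
    simp only [d21, sub_add_cancel]
  · rintro ⟨b, d⟩ hs
    rfl

lemma sum_ES2_shift {t : ℕ} (g : (Fin 3 → ℤ) × Fin 3 → ℤ) :
    ∑ s ∈ ES2 t, g (s.1 + fv s.2, s.2 + 2) = ∑ s ∈ ES2 t, g s := by
  refine Finset.sum_nbij' (fun s => (s.1 + fv s.2, s.2 + 2))
    (fun s => (s.1 - fv (s.2 + 1), s.2 + 1)) ?_ ?_ ?_ ?_ ?_
  · rintro ⟨b, d⟩ hs
    rw [mem_ES2] at hs ⊢
    simp only at hs ⊢
    refine ⟨(inT_add_fv hs.1 d).mpr hs.2.1, ?_, ?_⟩
    · rw [Pi.add_apply, fv_succ2, add_zero]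
      exact hs.2.2
    · rw [d22, Pi.add_apply, fv_succ]
      have := hs.1.1 (d + 1)
      omega
  · rintro ⟨b, d⟩ hs
    rw [mem_ES2] at hs ⊢
    simp only at hs ⊢
    refine ⟨(inT_sub_fv hs.1 (d + 1)).mpr (by rw [d11]; exact hs.2.2), ?_, ?_⟩
    · rw [Pi.sub_apply, fv_self]
      have := hs.1.1 (d + 1)
      omega
    · rw [d12, Pi.sub_apply]
      have h1 : fv (d + 1) d = 0 := by
        have := fv_succ2 (d + 1)
        rwa [d12] at this
      rw [h1, sub_zero]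
      exact hs.2.1
  · rintro ⟨b, d⟩ hs
    simp only [d21, add_sub_cancel_right]
  · rintro ⟨b, d⟩ hs
    simp only [d12, sub_add_cancel]
  · rintro ⟨b, d⟩ hs
    rfl

lemma gg_tri {t : ℕ} {H : (Fin 3 → ℤ) → ℤ} (hH : GoodH t H) {b : Fin 3 → ℤ} {d : Fin 3}
    (hb : InT t b) (hd : 1 ≤ b d) :
    gg H b d + gg H (b + fv d) (d + 1) + gg H (b + fv d + fv (d + 1)) (d + 2) = 1 := by
  have h1 := hH b d hb hd
  have hb1 := (inT_add_fv hb d).mpr hd
  have hd1 : 1 ≤ (b + fv d) (d + 1) := by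
    rw [Pi.add_apply, fv_succ]
    have := hb.1 (d + 1)
    omega
  have h2 := hH (b + fv d) (d + 1) hb1 hd1
  have hb2 := (inT_add_fv hb1 (d + 1)).mpr hd1
  have hd2 : 1 ≤ (b + fv d + fv (d + 1)) (d + 2) := by
    have e1 : fv (d + 1) (d + 2) = 1 := by rw [← d11]; exact fv_succ (d + 1)
    rw [Pi.add_apply, Pi.add_apply, fv_succ2, e1]
    have := hb.1 (d + 2)
    omega
  have h3 := hH (b + fv d + fv (d + 1)) (d + 2) hb2 hd2
  rw [fv_sum'] at h3
  unfold gg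
  rw [fv_sum']
  split_ifs <;> omega

lemma gg_tri2 {t : ℕ} {H : (Fin 3 → ℤ) → ℤ} (hH : GoodH t H) {b : Fin 3 → ℤ} {d : Fin 3}
    (hb : InT t b) (hd : 1 ≤ b d) (hd' : 1 ≤ b (d + 2)) :
    gg H b d + gg H (b + fv d) (d + 2) + gg H (b + fv d + fv (d + 2)) (d + 1) = 1 := by
  have h1 := hH b d hb hd
  have hb1 := (inT_add_fv hb d).mpr hd
  have hd1 : 1 ≤ (b + fv d) (d + 2) := by
    rw [Pi.add_apply, fv_succ2]
    omega
  have h2 := hH (b + fv d) (d + 2) hb1 hd1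
  have hb2 := (inT_add_fv hb1 (d + 2)).mpr hd1
  have hd2 : 1 ≤ (b + fv d + fv (d + 2)) (d + 1) := by
    have e1 : fv (d + 2) (d + 1) = 0 := by rw [← d22]; exact fv_succ2 (d + 2)
    rw [Pi.add_apply, Pi.add_apply, fv_succ, e1]
    have := hb.1 (d + 1)
    omega
  have h3 := hH (b + fv d + fv (d + 2)) (d + 1) hb2 hd2
  have e : b + fv d + fv (d + 2) + fv (d + 1) = b := by
    rw [add_right_comm, fv_sum']
  rw [e] at h3
  unfold gg
  rw [e]
  split_ifs <;> omega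

lemma sum_gg {t : ℕ} {H : (Fin 3 → ℤ) → ℤ} (hH : GoodH t H) :
    3 * ∑ s ∈ ES t, gg H s.1 s.2 = (ES t).card := by
  have h1 := sum_ES_shift (t := t) (fun s => gg H s.1 s.2)
  have h2 := sum_ES_shift (t := t) (fun s => gg H (s.1 + fv s.2) (s.2 + 1))
  simp only at h1 h2
  have h3 : ∑ s ∈ ES t, (gg H s.1 s.2 + gg H (s.1 + fv s.2) (s.2 + 1) +
      gg H (s.1 + fv s.2 + fv (s.2 + 1)) (s.2 + 2)) = ∑ _s ∈ ES t, 1 := by
    refine Finset.sum_congr rfl fun s hs => ?_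
    rw [mem_ES] at hs
    exact gg_tri hH hs.1 hs.2
  rw [Finset.sum_add_distrib, Finset.sum_add_distrib, Finset.sum_const, nsmul_eq_mul,
    mul_one] at h3
  simp only [d11] at h2
  rw [← h3]
  linarith

lemma sum_gg2 {t : ℕ} {H : (Fin 3 → ℤ) → ℤ} (hH : GoodH t H) :
    3 * ∑ s ∈ ES2 t, gg H s.1 s.2 = (ES2 t).card := by
  have h1 := sum_ES2_shift (t := t) (fun s => gg H s.1 s.2)
  have h2 := sum_ES2_shift (t := t) (fun s => gg H (s.1 + fv s.2) (s.2 + 2))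
  simp only at h1 h2
  have h3 : ∑ s ∈ ES2 t, (gg H s.1 s.2 + gg H (s.1 + fv s.2) (s.2 + 2) +
      gg H (s.1 + fv s.2 + fv (s.2 + 2)) (s.2 + 1)) = ∑ _s ∈ ES2 t, 1 := by
    refine Finset.sum_congr rfl fun s hs => ?_
    rw [mem_ES2] at hs
    exact gg_tri2 hH hs.1 hs.2.1 hs.2.2
  rw [Finset.sum_add_distrib, Finset.sum_add_distrib, Finset.sum_const, nsmul_eq_mul,
    mul_one] at h3
  simp only [d22] at h2
  rw [← h3]
  linarith

lemma sum_d_shift (f : Fin 3 → ℤ) : ∑ d : Fin 3, f (d + 2) = ∑ d : Fin 3, f d := by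
  rw [Fin.sum_univ_three, Fin.sum_univ_three]
  change f 2 + f 0 + f 1 = _
  ring

lemma card_rel (t : ℕ) : 3 * ((TT t).card : ℤ) - 2 * (ES t).card + (ES2 t).card = 3 := by
  classical
  have e1 : ((ES t).card : ℤ) = ∑ b ∈ TT t, ∑ d : Fin 3, if 1 ≤ b d then 1 else 0 := by
    unfold ES
    rw [Finset.card_filter, Nat.cast_sum, Finset.sum_product]
    simp only [Nat.cast_ite, Nat.cast_one, Nat.cast_zero]
  have e1' : ((ES t).card : ℤ) = ∑ b ∈ TT t, ∑ d : Fin 3, if 1 ≤ b (d + 2) then 1 else 0 := by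
    rw [e1]
    refine Finset.sum_congr rfl fun b _ => ?_
    exact (sum_d_shift (fun d => if 1 ≤ b d then 1 else 0)).symm
  have e2 : ((ES2 t).card : ℤ) =
      ∑ b ∈ TT t, ∑ d : Fin 3, if 1 ≤ b d ∧ 1 ≤ b (d + 2) then 1 else 0 := by
    unfold ES2
    rw [Finset.card_filter, Nat.cast_sum, Finset.sum_product]
    simp only [Nat.cast_ite, Nat.cast_one, Nat.cast_zero]
  have e3 : 3 * ((TT t).card : ℤ) = ∑ b ∈ TT t, ∑ d : Fin 3, (1 : ℤ) := by
    simp [mul_comm]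
  have e4 : ∑ b ∈ TT t, ∑ d : Fin 3, (if b = (fun i => if i = d + 1 then 3 * (t : ℤ) else 0)
      then (1 : ℤ) else 0) = 3 := by
    rw [Finset.sum_comm]
    have : ∀ d : Fin 3, ∑ b ∈ TT t, (if b = (fun i => if i = d + 1 then 3 * (t : ℤ) else 0)
      then (1 : ℤ) else 0) = 1 := by
      intro d
      rw [Finset.sum_ite_eq', if_pos]
      rw [mem_TT]
      obtain rfl | rfl | rfl := cases3 d
      · refine ⟨?_, ?_⟩
        · rw [all3]
          refine ⟨?_, ?_, ?_⟩ <;> simp only <;> split_ifs <;> positivity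
        · change 0 + 3 * (t : ℤ) + 0 = 3 * t
          ring
      · refine ⟨?_, ?_⟩
        · rw [all3]
          refine ⟨?_, ?_, ?_⟩ <;> simp only <;> split_ifs <;> positivity
        · change 0 + 0 + 3 * (t : ℤ) = 3 * t
          ring
      · refine ⟨?_, ?_⟩
        · rw [all3]
          refine ⟨?_, ?_, ?_⟩ <;> simp only <;> split_ifs <;> positivity
        · change 3 * (t : ℤ) + 0 + 0 = 3 * t
          ring
    simp_rw [this]
    simp
  have e5 : 3 * ((TT t).card : ℤ) - (ES t).card - (ES t).card + (ES2 t).card = 3 := by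
    nth_rw 1 [e1]
    rw [e1', e2, e3, ← e4, ← Finset.sum_sub_distrib, ← Finset.sum_sub_distrib,
      ← Finset.sum_add_distrib]
    refine Finset.sum_congr rfl fun b hb => ?_
    rw [mem_TT] at hb
    rw [← Finset.sum_sub_distrib, ← Finset.sum_sub_distrib, ← Finset.sum_add_distrib]
    refine Finset.sum_congr rfl fun d _ => ?_
    have h0 := hb.1
    have hs := hb.2
    rw [all3] at h0
    have hiff : (b = fun i => if i = d + 1 then 3 * (t : ℤ) else 0) ↔ b d = 0 ∧ b (d + 2) = 0 := by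
      rw [ext3]
      obtain rfl | rfl | rfl := cases3 d
      · change (b 0 = 0 ∧ b 1 = 3 * (t : ℤ) ∧ b 2 = 0) ↔ b 0 = 0 ∧ b 2 = 0
        omega
      · change (b 0 = 0 ∧ b 1 = 0 ∧ b 2 = 3 * (t : ℤ)) ↔ b 1 = 0 ∧ b 0 = 0
        omega
      · change (b 0 = 3 * (t : ℤ) ∧ b 1 = 0 ∧ b 2 = 0) ↔ b 2 = 0 ∧ b 1 = 0
        omega
    have hd0 := hb.1 d
    have hd2 := hb.1 (d + 2)
    simp only [hiff]
    split_ifs <;> omega
  linarith

lemma sum_Freg {t : ℕ} {H : (Fin 3 → ℤ) → ℤ} (hH : GoodH t H) :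
    3 * ∑ s ∈ ES t, Freg H s.1 s.2 = -2 * (ES t).card + (ES2 t).card := by
  classical
  have h1 : ∑ s ∈ ES t, Freg H s.1 s.2 =
      -((ES t).card : ℤ) + ∑ s ∈ ES t, gg H s.1 s.2 + ∑ s ∈ ES2 t, gg H s.1 s.2 := by
    have h2 : ∑ s ∈ ES2 t, gg H s.1 s.2 =
        ∑ s ∈ ES t, if 1 ≤ s.1 (s.2 + 2) then gg H s.1 s.2 else 0 := by
      rw [← Finset.sum_filter]
      refine Finset.sum_congr ?_ fun _ _ => rfl
      ext s
      rw [Finset.mem_filter, mem_ES, mem_ES2, and_assoc]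
    have h3 : -((ES t).card : ℤ) = ∑ s ∈ ES t, (-1 : ℤ) := by simp
    rw [h2, h3, ← Finset.sum_add_distrib, ← Finset.sum_add_distrib]
    refine Finset.sum_congr rfl fun s hs => ?_
    rw [mem_ES] at hs
    unfold Freg gg
    split_ifs <;> omega
  have h4 := sum_gg hH
  have h5 := sum_gg2 hH
  rw [h1]
  linarith

section

variable {t : ℕ} [NeZero t]

lemma vrt_P (k d : Fin 3) : vrt t k (cX t - fv d) = Sum.inl (vP t) := by
  have e : cX t - fv d = rot (-d) (vP t).1 := by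
    change _ = rot (-d) (cX t - fv 0)
    rw [ext3]
    obtain rfl | rfl | rfl := cases3 d
    · exact ⟨rfl, rfl, rfl⟩
    · exact ⟨rfl, rfl, rfl⟩
    · exact ⟨rfl, rfl, rfl⟩
  rw [e, vrt_rot k (vP t).2.inT, vrt_of_inV]

lemma vrt_S (k d : Fin 3) : vrt t k (cX t + fv d) = Sum.inl (vS t) := by
  have e : cX t + fv d = rot (2 - d) (vS t).1 := by
    change _ = rot (2 - d) (cX t + fv 2)
    rw [ext3]
    obtain rfl | rfl | rfl := cases3 d
    · exact ⟨rfl, rfl, rfl⟩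
    · exact ⟨rfl, rfl, rfl⟩
    · exact ⟨rfl, rfl, rfl⟩
  rw [e, vrt_rot k (vS t).2.inT, vrt_of_inV]

omit [NeZero t] in
lemma HT_rot {h : Vert t → ℤ} {b : Fin 3 → ℤ} (hb : InT t b) (k r : Fin 3) :
    HT t h k (rot r b) = HT t h k b := by
  unfold HT
  rw [vrt_rot k hb]

omit [NeZero t] in
lemma HT_X (h : Vert t → ℤ) (k : Fin 3) : HT t h k (cX t) = h (.inr k) := by
  unfold HT
  rw [vrt_cX]

lemma HT_XS (h : Vert t → ℤ) (k d : Fin 3) : HT t h k (cX t + fv d) = h (.inl (vS t)) := by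
  unfold HT
  rw [vrt_S]

lemma HT_XP (h : Vert t → ℤ) (k d : Fin 3) : HT t h k (cX t - fv d) = h (.inl (vP t)) := by
  unfold HT
  rw [vrt_P]

omit [NeZero t] in
lemma HT_V (h : Vert t → ℤ) (k : Fin 3) (a : VV t) : HT t h k a.1 = h (.inl a) := by
  unfold HT
  rw [vrt_of_inV]

open Classical in
lemma HT_al {C : Set (Arr t)} {h : Vert t → ℤ} (hh : IsHeight C h) {b : Fin 3 → ℤ} {d : Fin 3}
    {x : AlArr t} (hx : AT t b d = some x) :
    HT t h 0 b - HT t h 0 (b + fv d) = if Arr.al x ∈ C then -2 else 1 := by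
  have h1 := hh (.al x)
  rw [AT_src hx 0, AT_tgt hx 0] at h1
  exact h1

omit [NeZero t] in
lemma AT_some {b : Fin 3 → ℤ} {d : Fin 3} (hb : InT t b) (hd : 1 ≤ b d) (hX : b ≠ cX t)
    (hX' : b + fv d ≠ cX t) : ∃ x, AT t b d = some x := by
  have h1 := (AT_isSome (t := t) b d).mpr ⟨hb, (inT_add_fv hb d).mpr hd, hX, hX'⟩
  exact Option.isSome_iff_exists.mp h1

lemma goodH {C : Set (Arr t)} {h : Vert t → ℤ} (hh : IsHeight C h) : GoodH t (HT t h 0) := by
  classical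
  intro b d hb hd
  by_cases hX : b = cX t
  · have h1 := hh (.ga 0)
    change h (.inr 0) - h (.inl (vS t)) = _ at h1
    rw [hX, HT_X, HT_XS, h1]
    split_ifs <;> simp
  · by_cases hX' : b + fv d = cX t
    · have h1 := hh (.be 0)
      change h (.inl (vP t)) - h (.inr 0) = _ at h1
      have e : b = cX t - fv d := by rw [← hX', add_sub_cancel_right]
      rw [hX', HT_X, e, HT_XP, h1]
      split_ifs <;> simp
    · obtain ⟨x, hx⟩ := AT_some hb hd hX hX'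
      rw [HT_al hh hx]
      split_ifs <;> simp

/-! ### sums over `T` and over `V` -/

omit [NeZero t] in
lemma rot_inj_V {a a' : VV t} {r r' : Fin 3} (h : rot r a.1 = rot r' a'.1) : a = a' ∧ r = r' := by
  have h1 : rot (-r) (rot r a.1) = a.1 := by rw [rot_rot, neg_add_cancel, rot_zero]
  have h2 : rot (-r') (rot r' a'.1) = a'.1 := by rw [rot_rot, neg_add_cancel, rot_zero]
  have h3 : InV t (rot (-r) (rot r a.1)) := by rw [h1]; exact a.2
  have h4 : InV t (rot (-r') (rot r a.1)) := by rw [h, h2]; exact a'.2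
  have h5 : -r = -r' := (inV_rot_unique h3).trans (inV_rot_unique h4).symm
  have h6 : r = r' := neg_injective h5
  refine ⟨?_, h6⟩
  apply Subtype.ext
  rw [← h1, ← h2, h, h6]

omit [NeZero t] in
lemma sum_TT_erase (f : (Fin 3 → ℤ) → ℤ) (hf : ∀ (b : Fin 3 → ℤ) (r : Fin 3), InT t b →
    f (rot r b) = f b) : ∑ b ∈ (TT t).erase (cX t), f b = 3 * ∑ a : VV t, f a.1 := by
  classical
  have h1 : ∑ p : VV t × Fin 3, f (rot p.2 p.1.1) = ∑ b ∈ (TT t).erase (cX t), f b := by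
    refine Finset.sum_bij (fun p _ => rot p.2 p.1.1) ?_ ?_ ?_ ?_
    · rintro ⟨a, r⟩ -
      rw [Finset.mem_erase, mem_TT]
      refine ⟨?_, (inT_rot r).mpr a.2.inT⟩
      intro h
      simp only at h
      have h2 : rot (-r) (rot r a.1) = a.1 := by rw [rot_rot, neg_add_cancel, rot_zero]
      rw [h, rot_cX] at h2
      exact not_inV_cX t (h2 ▸ a.2)
    · rintro ⟨a, r⟩ - ⟨a', r'⟩ - h
      obtain ⟨h3, h4⟩ := rot_inj_V h
      exact Prod.ext h3 h4
    · intro b hb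
      rw [Finset.mem_erase, mem_TT] at hb
      refine ⟨(⟨rot (qi t b) b, inV_rot_qi hb.2 hb.1⟩, -qi t b), Finset.mem_univ _, ?_⟩
      simp only
      rw [rot_rot, neg_add_cancel, rot_zero]
    · intros
      rfl
  rw [← h1, Fintype.sum_prod_type, Finset.mul_sum]
  refine Finset.sum_congr rfl fun a _ => ?_
  simp only
  rw [Finset.sum_congr rfl (fun r _ => hf a.1 r a.2.inT), Finset.sum_const, Finset.card_univ,
    Fintype.card_fin]
  simp

omit [NeZero t] in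
lemma card_TT : ((TT t).card : ℤ) = 3 * (Fintype.card (VV t)) + 1 := by
  classical
  have h1 := sum_TT_erase (t := t) (fun _ => 1) (fun _ _ _ => rfl)
  rw [Finset.sum_const, nsmul_one, Finset.sum_const, Finset.card_univ, nsmul_one] at h1
  have h2 := Finset.card_erase_add_one (mem_TT.mpr (inT_cX t))
  rw [← h1]
  exact_mod_cast h2.symm

/-- the regular contribution of a point -/
noncomputable def ff (t : ℕ) (H : (Fin 3 → ℤ) → ℤ) (b : Fin 3 → ℤ) : ℤ :=
  open Classical in ∑ d : Fin 3, if 1 ≤ b d ∧ b + fv d ≠ cX t then Freg H b d else 0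

omit [NeZero t] in
lemma ff_rot (h : Vert t → ℤ) (b : Fin 3 → ℤ) (r : Fin 3) (hb : InT t b) :
    ff t (HT t h 0) (rot r b) = ff t (HT t h 0) b := by
  classical
  unfold ff
  refine Fintype.sum_equiv (Equiv.addRight r) _ _ fun d => ?_
  simp only [Equiv.coe_addRight]
  have e1 : rot r b d = b (d + r) := rfl
  have e2 : rot r b + fv d = rot r (b + fv (d + r)) := by
    rw [rot_add', rot_fv, add_sub_cancel_right]
  have e3 : rot r (b + fv (d + r)) = cX t ↔ b + fv (d + r) = cX t := by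
    constructor
    · intro h
      have h2 : rot (-r) (rot r (b + fv (d + r))) = b + fv (d + r) := by
        rw [rot_rot, neg_add_cancel, rot_zero]
      rw [← h2, h, rot_cX]
    · intro h
      rw [h, rot_cX]
  rw [e1, e2]
  refine if_ctx_congr (and_congr Iff.rfl (not_congr e3)) ?_ (fun _ => rfl)
  intro hc
  unfold Freg
  rw [e2, HT_rot hb, HT_rot ((inT_add_fv hb (d + r)).mpr hc.1)]
  have e4 : rot r b (d + 2) = b (d + r + 2) := by
    change b (d + 2 + r) = _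
    rw [add_right_comm]
  rw [e4]

open Classical in
lemma regular_sum {C : Set (Arr t)} {h : Vert t → ℤ} (hh : IsHeight C h) :
    ∑ a : VV t, ff t (HT t h 0) a.1 = -(Fintype.card (VV t) : ℤ) -
      (if Arr.be 0 ∈ C then (1 : ℤ) else -1) - (if Arr.ga 0 ∈ C then (1 : ℤ) else -1) := by
  have ht : 1 ≤ t := NeZero.one_le
  have h1 := sum_Freg (goodH hh)
  have h2 := card_rel t
  have h3 := card_TT (t := t)
  have h4 := sum_TT_erase (ff t (HT t h 0)) (ff_rot h)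
  have h5 : ∑ s ∈ ES t, Freg (HT t h 0) s.1 s.2 =
      ∑ b ∈ TT t, ∑ d : Fin 3, if 1 ≤ b d then Freg (HT t h 0) b d else 0 := by
    unfold ES
    rw [Finset.sum_filter, Finset.sum_product]
  have hga := hh (.ga 0)
  change h (.inr 0) - h (.inl (vS t)) = _ at hga
  have hbe := hh (.be 0)
  change h (.inl (vP t)) - h (.inr 0) = _ at hbe
  have h6 : ∀ d : Fin 3, Freg (HT t h 0) (cX t) d = if Arr.ga 0 ∈ C then (1 : ℤ) else -1 := by
    intro d
    unfold Freg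
    rw [HT_X, HT_XS, hga, cXi]
    split_ifs <;> first | rfl | omega
  have h7 : ∀ d : Fin 3, Freg (HT t h 0) (cX t - fv d) d =
      if Arr.be 0 ∈ C then (1 : ℤ) else -1 := by
    intro d
    unfold Freg
    rw [sub_add_cancel, HT_X, HT_XP, hbe, Pi.sub_apply, fv_succ2, cXi]
    split_ifs <;> first | rfl | omega
  have h8 : ∑ b ∈ (TT t).erase (cX t),
      (∑ d : Fin 3, if 1 ≤ b d then Freg (HT t h 0) b d else 0) =
      ∑ b ∈ (TT t).erase (cX t), ff t (HT t h 0) b +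
        ∑ d : Fin 3, Freg (HT t h 0) (cX t - fv d) d := by
    have h9 : ∑ d : Fin 3, Freg (HT t h 0) (cX t - fv d) d =
        ∑ b ∈ (TT t).erase (cX t), ∑ d : Fin 3,
          if b = cX t - fv d then Freg (HT t h 0) b d else 0 := by
      rw [Finset.sum_comm]
      refine Finset.sum_congr rfl fun d _ => ?_
      rw [Finset.sum_ite_eq', if_pos]
      rw [Finset.mem_erase, mem_TT]
      refine ⟨?_, (inT_sub_fv (inT_cX t) d).mpr (by rw [cXi]; omega)⟩
      intro h10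
      have h11 := congrFun h10 d
      rw [Pi.sub_apply, fv_self] at h11
      omega
    rw [h9, ← Finset.sum_add_distrib]
    refine Finset.sum_congr rfl fun b _ => ?_
    unfold ff
    rw [← Finset.sum_add_distrib]
    refine Finset.sum_congr rfl fun d _ => ?_
    have h12 : b = cX t - fv d ↔ b + fv d = cX t := eq_sub_iff_add_eq
    have h13 : b + fv d = cX t → 1 ≤ b d := by
      intro h14
      have h15 := congrFun h14 d
      rw [Pi.add_apply, fv_self, cXi] at h15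
      omega
    by_cases h16 : b + fv d = cX t
    · have h17 := h13 h16
      rw [if_pos h17, if_neg (fun h => h.2 h16), if_pos (h12.mpr h16), zero_add]
    · rw [if_neg (fun h => h16 (h12.mp h)), add_zero]
      simp only [ne_eq, h16, not_false_eq_true, and_true]
  have h10 : ∑ b ∈ TT t, (∑ d : Fin 3, if 1 ≤ b d then Freg (HT t h 0) b d else 0) =
      ∑ d : Fin 3, Freg (HT t h 0) (cX t) d + ∑ b ∈ (TT t).erase (cX t),
      (∑ d : Fin 3, if 1 ≤ b d then Freg (HT t h 0) b d else 0) := by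
    rw [← Finset.add_sum_erase (TT t) _ (mem_TT.mpr (inT_cX t))]
    congr 1
    refine Finset.sum_congr rfl fun d _ => ?_
    rw [if_pos]
    rw [cXi]
    omega
  rw [h10, h8, Finset.sum_congr rfl (fun d _ => h6 d), Finset.sum_congr rfl (fun d _ => h7 d),
    Finset.sum_const, Finset.sum_const, Finset.card_univ, Fintype.card_fin, h4] at h5
  simp only [nsmul_eq_mul, Nat.cast_ofNat] at h5
  linarith

end

section

variable {t : ℕ} [NeZero t]

lemma ZN_zero {a b : Fin 3 → ℤ} (ha : ∀ i, 0 ≤ a i) : ZN 0 a b ↔ a = b := by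
  rw [all3] at ha
  rw [ZN_iff, ext3]
  constructor
  · rintro ⟨u, v, w, h⟩
    omega
  · intro h
    exact ⟨0, 0, 0, by omega⟩

open Classical in
omit [NeZero t] in
lemma cD_vrt {h : Vert t → ℤ} {b b' : Fin 3 → ℤ} (hb : InT t b) (hbX : b ≠ cX t)
    (hb' : InT t b') (hb'X : b' ≠ cX t) :
    cD t h (vrt t 0 b) (vrt t 0 b') =
      (if ZN (HT t h 0 b - HT t h 0 b') b b' then 1 else 0) +
      (if ZN (HT t h 0 b - HT t h 0 b') b (rot 1 b') then 1 else 0) +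
      (if ZN (HT t h 0 b - HT t h 0 b') b (rot 2 b') then 1 else 0) := by
  have h1 : cD t h (vrt t 0 b) (vrt t 0 b') =
      ∑ r : Fin 3, if ZN (HT t h 0 b - HT t h 0 b') b (rot r b') then 1 else 0 := by
    rw [vrt_eq_inl 0 hb hbX, vrt_eq_inl 0 hb' hb'X]
    change (∑ r : Fin 3, if ZN (HT t h 0 (rot (qi t b) b) - HT t h 0 (rot r (rot (qi t b') b')))
      (rot (qi t b) b) (rot r (rot (qi t b') b')) then 1 else 0) = _
    refine Fintype.sum_equiv (Equiv.addRight (qi t b' - qi t b)) _ _ fun r => ?_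
    simp only [Equiv.coe_addRight]
    have e1 : rot r (rot (qi t b') b') = rot (qi t b) (rot (r + (qi t b' - qi t b)) b') := by
      rw [rot_rot, rot_rot]
      congr 1
      abel
    rw [e1, HT_rot hb, HT_rot ((inT_rot _).mpr hb'), HT_rot hb']
    exact if_congr (ZN_rot _) rfl rfl
  rw [h1, Fin.sum_univ_three, rot_zero]

open Classical in
omit [NeZero t] in
lemma cD_diag (h : Vert t → ℤ) (v : Vert t) : cD t h v v = 1 := by
  cases v with
  | inl a =>
    have hX : a.1 ≠ cX t := fun e => not_inV_cX t (e ▸ a.2)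
    have h1 := cD_vrt (h := h) a.2.inT hX a.2.inT hX
    rw [vrt_of_inV, sub_self, ZN_zero a.2.inT.1, ZN_zero a.2.inT.1, ZN_zero a.2.inT.1] at h1
    have h2 : ∀ r : Fin 3, r ≠ 0 → ¬ (a.1 = rot r a.1) := by
      intro r hr e
      have h3 : InV t (rot r a.1) := by
        rw [← e]
        exact a.2
      have h4 := inV_rot_unique h3
      rw [qi_of_inV a.2] at h4
      exact hr h4
    rw [h1, if_pos rfl, if_neg (h2 1 (by decide)), if_neg (h2 2 (by decide))]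
    rfl
  | inr k =>
    change (if k = k then (1 : ℤ) else 0) = 1
    rw [if_pos rfl]

omit [NeZero t] in
lemma X_nonneg (i : Fin 3) : 0 ≤ cX t i := by
  rw [cXi]
  positivity

lemma cD_be0 {h : Vert t → ℤ} {k : Fin 3} (hk : h (.inl (vP t)) - h (.inr k) = 1) :
    cD t h (.inl (vP t)) (.inr k) = 1 := by
  classical
  change (if ZN (HT t h k (vP t).1 - HT t h k (cX t)) (vP t).1 (cX t) then 1 else 0) = 1
  rw [HT_V, HT_X, hk, if_pos]
  have h1 := U_zero (a := (vP t).1) (d := 0) (vP t).2.inT.1 (by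
    change 1 ≤ cX t 0 - fv 0 0
    rw [cXi, fv00]
    omega)
  have e : (vP t).1 + fv 0 = cX t := by
    change cX t - fv 0 + fv 0 = cX t
    rw [sub_add_cancel]
  rwa [e] at h1

lemma cD_be1 {h : Vert t → ℤ} {k : Fin 3} (hk : h (.inr k) - h (.inl (vP t)) = 2) :
    cD t h (.inr k) (.inl (vP t)) = 1 := by
  classical
  have ht : 1 ≤ t := NeZero.one_le
  change (if ZN (HT t h k (cX t) - HT t h k (vP t).1) (cX t) (vP t).1 then 1 else 0) = 1
  rw [HT_V, HT_X, hk, if_pos]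
  have h1 := K_zero (a := (vP t).1) (d := 0) (vP t).2.inT.1 (by
    change 1 ≤ cX t 0 - fv 0 0
    rw [cXi, fv00]
    omega)
  have e : (vP t).1 + fv 0 = cX t := by
    change cX t - fv 0 + fv 0 = cX t
    rw [sub_add_cancel]
  rw [e] at h1
  rw [h1]
  change 1 ≤ cX t 2 - fv 0 2
  rw [cXi, fv02]
  omega

lemma cD_ga0 {h : Vert t → ℤ} {k : Fin 3} (hk : h (.inr k) - h (.inl (vS t)) = 1) :
    cD t h (.inr k) (.inl (vS t)) = 1 := by
  classical
  have ht : 1 ≤ t := NeZero.one_le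
  change (if ZN (HT t h k (cX t) - HT t h k (vS t).1) (cX t) (vS t).1 then 1 else 0) = 1
  rw [HT_V, HT_X, hk, if_pos]
  exact U_zero (a := cX t) (d := 2) X_nonneg (by
    rw [cXi]
    omega)

lemma cD_ga1 {h : Vert t → ℤ} {k : Fin 3} (hk : h (.inl (vS t)) - h (.inr k) = 2) :
    cD t h (.inl (vS t)) (.inr k) = 1 := by
  classical
  have ht : 1 ≤ t := NeZero.one_le
  change (if ZN (HT t h k (vS t).1 - HT t h k (cX t)) (vS t).1 (cX t) then 1 else 0) = 1
  rw [HT_V, HT_X, hk, if_pos]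
  have h1 := K_zero (a := cX t) (d := 2) X_nonneg (by
    rw [cXi]
    omega)
  change ZN 2 (cX t + fv 2) (cX t)
  rw [h1, cXi]
  omega

/-- the extra contributions -/
noncomputable def ext (t : ℕ) (H : (Fin 3 → ℤ) → ℤ) (a : Fin 3 → ℤ) (d : Fin 3) : ℤ :=
  open Classical in
  if H a - H (a + fv d) = -2 then
    (if (d = 0 ∧ At t a 1 0 (-1)) ∨
      (d = 1 ∧ ((At t a 1 0 (-1) ∧ 2 ≤ t) ∨ At t a 1 (-1) 0 ∨ At t a 1 1 (-2))) then 1 else 0) +
    (if (d = 0 ∧ (At t a 1 0 (-1) ∨ At t a 2 (-1) (-1))) ∨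
      (d = 1 ∧ At t a 1 0 (-1)) ∨ (d = 2 ∧ At t a 1 (-1) 0) then 1 else 0)
  else
    -(if d = 0 ∧ At t a 1 0 (-1) then 1 else 0) - (if d = 1 ∧ At t a 1 0 (-1) then 1 else 0)

open Classical in
/-- the contribution of an arrow -/
noncomputable def FF (C : Set (Arr t)) (h : Vert t → ℤ) (x : Arr t) : ℤ :=
  if x ∈ C then cD t h (tgt x) (src x) else -cD t h (src x) (tgt x)

open Classical in
lemma FF_al {C : Set (Arr t)} {h : Vert t → ℤ} (hh : IsHeight C h) (a : VV t) (d : Fin 3) :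
    (AT t a.1 d).elim 0 (fun x => FF C h (.al x)) =
      (if 1 ≤ a.1 d ∧ a.1 + fv d ≠ cX t then Freg (HT t h 0) a.1 d else 0) +
      (if 1 ≤ a.1 d ∧ a.1 + fv d ≠ cX t then ext t (HT t h 0) a.1 d else 0) := by
  have haX : a.1 ≠ cX t := fun e => not_inV_cX t (e ▸ a.2)
  have haT := a.2.inT
  by_cases hc : 1 ≤ a.1 d ∧ a.1 + fv d ≠ cX t
  · obtain ⟨x, hx⟩ := AT_some haT hc.1 haX hc.2
    have hbT := (inT_add_fv haT d).mpr hc.1
    rw [hx, if_pos hc, if_pos hc]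
    change FF C h (.al x) = _
    have hH := HT_al hh hx
    unfold FF
    rw [AT_src hx 0, AT_tgt hx 0, cD_vrt haT haX hbT hc.2, cD_vrt hbT hc.2 haT haX]
    unfold Freg ext
    by_cases hxC : Arr.al x ∈ C
    · rw [if_pos hxC] at hH
      have hH' : HT t h 0 (a.1 + fv d) - HT t h 0 a.1 = 2 := by linarith
      rw [if_pos hxC, hH, hH', if_pos rfl, if_pos rfl]
      simp only [K_zero haT.1 hc.1, K1 a.2 hc.1 hc.2, K2 a.2 hc.1 hc.2]
      ring
    · rw [if_neg hxC] at hH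
      rw [if_neg hxC, hH, if_neg (by decide : ¬ ((1 : ℤ) = -2)),
        if_neg (by decide : ¬ ((1 : ℤ) = -2)), if_pos (U_zero haT.1 hc.1)]
      simp only [U1 a.2 hc.1 hc.2, U2 a.2 hc.1 hc.2]
      ring
  · have hx : AT t a.1 d = none := by
      by_contra h1
      have h2 := (AT_isSome (t := t) a.1 d).mp (Option.ne_none_iff_isSome.mp h1)
      exact hc ⟨(inT_add_fv haT d).mp h2.2.1, h2.2.2.2⟩
    rw [hx, if_neg hc, if_neg hc]
    rfl

open Classical in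
lemma FF_be' {C : Set (Arr t)} {h : Vert t → ℤ} (hh : IsHeight C h) (k : Fin 3) :
    FF C h (.be k) = if Arr.be k ∈ C then 1 else -1 := by
  have h1 := hh (.be k)
  change h (.inl (vP t)) - h (.inr k) = _ at h1
  unfold FF
  by_cases hk : Arr.be k ∈ C
  · rw [if_pos hk] at h1
    rw [if_pos hk, if_pos hk]
    exact cD_be1 (by linarith)
  · rw [if_neg hk] at h1
    rw [if_neg hk, if_neg hk]
    change -cD t h (.inl (vP t)) (.inr k) = -1
    rw [cD_be0 h1]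

open Classical in
lemma FF_ga' {C : Set (Arr t)} {h : Vert t → ℤ} (hh : IsHeight C h) (k : Fin 3) :
    FF C h (.ga k) = if Arr.ga k ∈ C then 1 else -1 := by
  have h1 := hh (.ga k)
  change h (.inr k) - h (.inl (vS t)) = _ at h1
  unfold FF
  by_cases hk : Arr.ga k ∈ C
  · rw [if_pos hk] at h1
    rw [if_pos hk, if_pos hk]
    exact cD_ga1 (by linarith)
  · rw [if_neg hk] at h1
    rw [if_neg hk, if_neg hk]
    change -cD t h (.inr k) (.inl (vS t)) = -1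
    rw [cD_ga0 h1]

open Classical in
omit [NeZero t] in
lemma E0 (ht : 1 ≤ t) (H : (Fin 3 → ℤ) → ℤ) (a : Fin 3 → ℤ) :
    (if 1 ≤ a 0 ∧ a + fv 0 ≠ cX t then ext t H a 0 else 0) =
      (if At t a 1 0 (-1) then (if H a - H (a + fv 0) = -2 then 2 else -1) else 0) +
      (if At t a 2 (-1) (-1) then (if H a - H (a + fv 0) = -2 then 1 else 0) else 0) := by
  have n01 : ¬ ((0 : Fin 3) = 1) := by decide
  have n02 : ¬ ((0 : Fin 3) = 2) := by decide
  unfold ext At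
  simp only [n01, n02, false_and, true_and, or_false, if_false, sub_zero, ne_eq, ext3,
    Pi.add_apply, fv00, fv01, fv02, cXi]
  by_cases hk : H a - H (a + fv 0) = -2
  · simp only [hk, if_true]
    split_ifs <;> omega
  · simp only [hk, if_false]
    split_ifs <;> omega

open Classical in
omit [NeZero t] in
lemma E1 (ht : 1 ≤ t) (H : (Fin 3 → ℤ) → ℤ) (a : Fin 3 → ℤ) :
    (if 1 ≤ a 1 ∧ a + fv 1 ≠ cX t then ext t H a 1 else 0) =
      (if At t a 1 0 (-1) then (if H a - H (a + fv 1) = -2 then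
        1 + (if 2 ≤ t then 1 else 0) else -1) else 0) +
      (if At t a 1 (-1) 0 then (if 2 ≤ t then (if H a - H (a + fv 1) = -2 then 1 else 0)
        else 0) else 0) +
      (if At t a 1 1 (-2) then (if H a - H (a + fv 1) = -2 then 1 else 0) else 0) := by
  have n10 : ¬ ((1 : Fin 3) = 0) := by decide
  have n12 : ¬ ((1 : Fin 3) = 2) := by decide
  unfold ext At
  simp only [n10, n12, false_and, true_and, or_false, false_or, if_false, neg_zero, zero_sub,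
    ne_eq, ext3, Pi.add_apply, fv10, fv11, fv12, cXi]
  by_cases hk : H a - H (a + fv 1) = -2
  · simp only [hk, if_true]
    split_ifs <;> omega
  · simp only [hk, if_false]
    split_ifs <;> omega

open Classical in
omit [NeZero t] in
lemma E2 (ht : 1 ≤ t) (H : (Fin 3 → ℤ) → ℤ) (a : Fin 3 → ℤ) :
    (if 1 ≤ a 2 ∧ a + fv 2 ≠ cX t then ext t H a 2 else 0) =
      (if At t a 1 (-1) 0 then (if H a - H (a + fv 2) = -2 then 1 else 0) else 0) := by
  have n20 : ¬ ((2 : Fin 3) = 0) := by decide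
  have n21 : ¬ ((2 : Fin 3) = 1) := by decide
  unfold ext At
  simp only [n20, n21, false_and, true_and, false_or, if_false, neg_zero, sub_zero,
    zero_add, ne_eq, ext3, Pi.add_apply, fv20, fv21, fv22, cXi]
  by_cases hk : H a - H (a + fv 2) = -2
  · simp only [hk, if_true]
    split_ifs <;> omega
  · simp only [hk, if_false]
    split_ifs <;> omega

end

section

variable {t : ℕ} [NeZero t]

open Classical in
omit [NeZero t] in
lemma sum_At (v : VV t) {x y z : ℤ} (hv : At t v.1 x y z) (c : (Fin 3 → ℤ) → ℤ) :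
    ∑ a : VV t, (if At t a.1 x y z then c a.1 else 0) = c v.1 := by
  rw [Fintype.sum_eq_single v, if_pos hv]
  intro a ha
  rw [if_neg]
  intro h
  apply ha
  apply Subtype.ext
  rw [ext3]
  unfold At at h hv
  omega

open Classical in
omit [NeZero t] in
lemma sum_At_none {x y z : ℤ} (hno : ∀ a : VV t, ¬ At t a.1 x y z) (c : (Fin 3 → ℤ) → ℤ) :
    ∑ a : VV t, (if At t a.1 x y z then c a.1 else 0) = 0 := by
  refine Finset.sum_eq_zero fun a _ => ?_
  rw [if_neg (hno a)]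

lemma exY (t : ℕ) [NeZero t] : ∃ v : VV t, At t v.1 2 (-1) (-1) := by
  have ht : 1 ≤ t := NeZero.one_le
  refine ⟨⟨![t + 2, t + -1, t + -1], ?_⟩, ?_⟩
  · rw [inV_iff]
    change (0 ≤ (t : ℤ) + 2 ∧ 0 ≤ (t : ℤ) + -1 ∧ 0 ≤ (t : ℤ) + -1) ∧
      (t : ℤ) + 2 + (t + -1) + (t + -1) = 3 * t ∧
      ((t : ℤ) + -1 < t + 2 ∨ ((t : ℤ) + -1 = t + 2 ∧ ((t : ℤ) + -1 < t + -1 ∨
        ((t : ℤ) + -1 = t + -1 ∧ (t : ℤ) + 2 < t + -1)))) ∧
      ((t : ℤ) + -1 < t + 2 ∨ ((t : ℤ) + -1 = t + 2 ∧ ((t : ℤ) + 2 < t + -1 ∨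
        ((t : ℤ) + 2 = t + -1 ∧ (t : ℤ) + -1 < t + -1))))
    omega
  · exact ⟨rfl, rfl, rfl⟩

lemma exQ (t : ℕ) (ht : 2 ≤ t) : ∃ v : VV t, At t v.1 1 1 (-2) := by
  refine ⟨⟨![t + 1, t + 1, t + -2], ?_⟩, ?_⟩
  · rw [inV_iff]
    change (0 ≤ (t : ℤ) + 1 ∧ 0 ≤ (t : ℤ) + 1 ∧ 0 ≤ (t : ℤ) + -2) ∧
      (t : ℤ) + 1 + (t + 1) + (t + -2) = 3 * t ∧
      ((t : ℤ) + 1 < t + 1 ∨ ((t : ℤ) + 1 = t + 1 ∧ ((t : ℤ) + -2 < t + 1 ∨
        ((t : ℤ) + -2 = t + 1 ∧ (t : ℤ) + 1 < t + -2)))) ∧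
      ((t : ℤ) + -2 < t + 1 ∨ ((t : ℤ) + -2 = t + 1 ∧ ((t : ℤ) + 1 < t + 1 ∨
        ((t : ℤ) + 1 = t + 1 ∧ (t : ℤ) + 1 < t + -2))))
    omega
  · exact ⟨rfl, rfl, rfl⟩

lemma atS : At t (vS t).1 1 0 (-1) := by
  refine ⟨?_, ?_, ?_⟩
  · change cX t 0 + fv 2 0 = _
    rw [cXi, fv20]
  · change cX t 1 + fv 2 1 = _
    rw [cXi, fv21]
  · change cX t 2 + fv 2 2 = _
    rw [cXi, fv22]

lemma atP : At t (vP t).1 1 (-1) 0 := by
  refine ⟨?_, ?_, ?_⟩
  · change cX t 0 - fv 0 0 = _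
    rw [cXi, fv00]
    ring
  · change cX t 1 - fv 0 1 = _
    rw [cXi, fv01]
    ring
  · change cX t 2 - fv 0 2 = _
    rw [cXi, fv02]
    ring

lemma hSP {C : Set (Arr t)} {h : Vert t → ℤ} (hh : IsHeight C h) :
    h (.inl (vS t)) - h (.inl (vP t)) = 1 ∨ h (.inl (vS t)) - h (.inl (vP t)) = -2 := by
  have ht : 1 ≤ t := NeZero.one_le
  have hS := atS (t := t)
  have hP := atP (t := t)
  have eS1 : (vS t).1 + fv 1 = (vP t).1 := by
    rw [ext3]
    simp only [Pi.add_apply, fv10, fv11, fv12]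
    unfold At at hS hP
    omega
  have g1 := goodH hh (vS t).1 1 (vS t).2.inT (by unfold At at hS; omega)
  rw [eS1, HT_V, HT_V] at g1
  exact g1

open Classical in
lemma ext_sum {C : Set (Arr t)} {h : Vert t → ℤ} (hh : IsHeight C h) :
    (∑ a : VV t, ∑ d : Fin 3,
      if 1 ≤ a.1 d ∧ a.1 + fv d ≠ cX t then ext t (HT t h 0) a.1 d else 0) =
    (if h (.inl (vS t)) - h (.inl (vP t)) = -2 then 3 else -1) + (if 2 ≤ t then 1 else 0) := by
  have ht : 1 ≤ t := NeZero.one_le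
  have hG := goodH hh
  obtain ⟨vY, hY⟩ := exY t
  have hS := atS (t := t)
  have hP := atP (t := t)
  set H := HT t h 0 with hHdef
  have hHS : H (vS t).1 = h (.inl (vS t)) := HT_V h 0 _
  have hHP : H (vP t).1 = h (.inl (vP t)) := HT_V h 0 _
  have eS0 : (vS t).1 + fv 0 = rot 2 (vP t).1 := by
    rw [ext3]
    simp only [Pi.add_apply, fv00, fv01, fv02, rot20, rot21, rot22]
    unfold At at hS hP
    omega
  have eS1 : (vS t).1 + fv 1 = (vP t).1 := by
    rw [ext3]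
    simp only [Pi.add_apply, fv10, fv11, fv12]
    unfold At at hS hP
    omega
  have eY0 : vY.1 + fv 0 = (vS t).1 := by
    rw [ext3]
    simp only [Pi.add_apply, fv00, fv01, fv02]
    unfold At at hS hY
    omega
  have eP2 : (vP t).1 + fv 2 = vY.1 := by
    rw [ext3]
    simp only [Pi.add_apply, fv20, fv21, fv22]
    unfold At at hP hY
    omega
  have hHS0 : H ((vS t).1 + fv 0) = H (vP t).1 := by
    rw [eS0]
    exact HT_rot (vP t).2.inT 0 2
  have g1 := hG (vS t).1 1 (vS t).2.inT (by unfold At at hS; omega)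
  have g2 := hG (vP t).1 2 (vP t).2.inT (by unfold At at hP; omega)
  have g3 := hG vY.1 0 vY.2.inT (by unfold At at hY; omega)
  rw [eS1] at g1
  rw [eP2] at g2
  rw [eY0] at g3
  have key : ∀ a : VV t, (∑ d : Fin 3,
      if 1 ≤ a.1 d ∧ a.1 + fv d ≠ cX t then ext t H a.1 d else 0) = _ := fun a => by
    rw [Fin.sum_univ_three, E0 ht, E1 ht, E2 ht]
  rw [Finset.sum_congr rfl (fun a _ => key a)]
  simp only [Finset.sum_add_distrib]
  rw [sum_At (vS t) hS (fun a => if H a - H (a + fv 0) = -2 then 2 else -1),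
    sum_At vY hY (fun a => if H a - H (a + fv 0) = -2 then 1 else 0),
    sum_At (vS t) hS (fun a => if H a - H (a + fv 1) = -2 then
        1 + (if 2 ≤ t then 1 else 0) else -1),
    sum_At (vP t) hP (fun a => if 2 ≤ t then (if H a - H (a + fv 1) = -2 then 1 else 0)
        else 0),
    sum_At (vP t) hP (fun a => if H a - H (a + fv 2) = -2 then 1 else 0)]
  simp only [eS1, eY0, eP2, hHS0, hHS, hHP] at g1 g2 g3 ⊢
  by_cases ht2 : 2 ≤ t
  · obtain ⟨vQ, hQ⟩ := exQ t ht2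
    have eP1 : (vP t).1 + fv 1 = rot 1 vQ.1 := by
      rw [ext3]
      simp only [Pi.add_apply, fv10, fv11, fv12, rot10, rot11, rot12]
      unfold At at hP hQ
      omega
    have eQ1 : vQ.1 + fv 1 = (vS t).1 := by
      rw [ext3]
      simp only [Pi.add_apply, fv10, fv11, fv12]
      unfold At at hS hQ
      omega
    have hHP1 : H ((vP t).1 + fv 1) = H vQ.1 := by
      rw [eP1]
      exact HT_rot vQ.2.inT 0 1
    have g4 := hG (vP t).1 1 (vP t).2.inT (by unfold At at hP; omega)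
    have g5 := hG vQ.1 1 vQ.2.inT (by unfold At at hQ; omega)
    rw [sum_At vQ hQ (fun a => if H a - H (a + fv 1) = -2 then 1 else 0)]
    simp only [hHP1, eQ1, hHS, hHP, ht2, if_true] at g4 g5 ⊢
    split_ifs <;> omega
  · rw [sum_At_none (fun a ha => ?_) (fun a => if H a - H (a + fv 1) = -2 then 1 else 0)]
    · simp only [ht2, if_false]
      split_ifs <;> omega
    · unfold At at ha
      have := a.2.1 2
      omega

end

end TrD

open Classical in
theorem trace_cD (t : ℕ) [NeZero t] (C : Set (Arr t)) (h : Vert t → ℤ) (hh : IsHeight C h) :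
    (∑ v : Vert t, cD t h v v) - (∑ x : Arr t with x ∉ C, cD t h (src x) (tgt x)) +
      (∑ x : Arr t with x ∈ C, cD t h (tgt x) (src x)) = if 2 ≤ t then 3 else 2 := by
  have h1 : ∑ v : Vert t, cD t h v v = Fintype.card (VV t) + 3 := by
    rw [Finset.sum_congr rfl (fun v _ => TrD.cD_diag h v), Finset.sum_const, Finset.card_univ,
      Fintype.card_sum, Fintype.card_fin]
    simp
  have h2 : (∑ x : Arr t with x ∈ C, cD t h (tgt x) (src x)) -
      (∑ x : Arr t with x ∉ C, cD t h (src x) (tgt x)) = ∑ x : Arr t, TrD.FF C h x := by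
    rw [Finset.sum_filter, Finset.sum_filter, ← Finset.sum_sub_distrib]
    refine Finset.sum_congr rfl fun x _ => ?_
    unfold TrD.FF
    by_cases hx : x ∈ C
    · rw [if_pos hx, if_pos hx, if_neg (not_not.mpr hx), sub_zero]
    · rw [if_neg hx, if_neg hx, if_pos hx, zero_sub]
  have h3 : ∑ x : AlArr t, TrD.FF C h (.al x) =
      ∑ a : VV t, TrD.ff t (HT t h 0) a.1 + ∑ a : VV t, ∑ d : Fin 3,
        (if 1 ≤ a.1 d ∧ a.1 + fv d ≠ cX t then TrD.ext t (HT t h 0) a.1 d else 0) := by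
    rw [← Finset.sum_fiberwise Finset.univ (fun x : AlArr t => x.1.1)
      (fun x => TrD.FF C h (.al x)), ← Finset.sum_add_distrib]
    refine Finset.sum_congr rfl fun a _ => ?_
    rw [sum_src a (fun x => TrD.FF C h (.al x))]
    unfold TrD.ff
    rw [← Finset.sum_add_distrib]
    exact Finset.sum_congr rfl fun d _ => TrD.FF_al hh a d
  have h4 := sum_arr (t := t) (TrD.FF C h)
  rw [h3, TrD.regular_sum hh, TrD.ext_sum hh, Fin.sum_univ_three, Fin.sum_univ_three,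
    TrD.FF_be' hh, TrD.FF_be' hh, TrD.FF_be' hh, TrD.FF_ga' hh, TrD.FF_ga' hh,
    TrD.FF_ga' hh] at h4
  have b1 := hh (.be 1)
  have b2 := hh (.be 2)
  have c1 := hh (.ga 1)
  have c2 := hh (.ga 2)
  change h (.inl (vP t)) - h (.inr 1) = _ at b1
  change h (.inl (vP t)) - h (.inr 2) = _ at b2
  change h (.inr 1) - h (.inl (vS t)) = _ at c1
  change h (.inr 2) - h (.inl (vS t)) = _ at c2
  have e : (∑ v : Vert t, cD t h v v) - (∑ x : Arr t with x ∉ C, cD t h (src x) (tgt x)) +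
      (∑ x : Arr t with x ∈ C, cD t h (tgt x) (src x)) = Fintype.card (VV t) + 3 +
      ∑ x : Arr t, TrD.FF C h x := by
    rw [← h1, ← h2]
    ring
  rw [e, h4]
  have g := TrD.hSP hh
  split_ifs at b1 b2 c1 c2 ⊢ <;> omega

end MPdda
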