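import Pool.Agent.H.MP_dda0b9_al.Upper1
import Pool.Agent.H.MP_dda0b9_al.DefsMod

/-!
# MP_dda0b9_al: upper bound for the Cartan numbers of `Λ_C` (job J22b)
-/

namespace MPdda

variable {t : ℕ} [NeZero t] (C : Set (Arr t))

/-! ### degrees -/

theorem aT_comb (b : Fin 3 → ℤ) (p : Fin 3) : ∃ c : Arr t → ℂ, aT C b p = ∑ x, c x • aL C x := by
  classical
  unfold aT
  split_ifs with h1 h2
  · refine ⟨fun x => match x with
      | .ga k => zeta ^ ((k : ℕ) * ((2 - p : Fin 3) : ℕ))
      | _ => 0, ?_⟩
    have := Fintype.ofFinite (AlArr t)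
    rw [sum_arr]
    simp
  · refine ⟨fun x => match x with
      | .be k => zeta ^ ((k : ℕ) * (p : ℕ))
      | _ => 0, ?_⟩
    have := Fintype.ofFinite (AlArr t)
    rw [sum_arr]
    simp
  · cases h : AT t b p with
    | none => exact ⟨0, by simp⟩
    | some x =>
      refine ⟨Pi.single (.al x) 1, ?_⟩
      rw [Finset.sum_eq_single (Arr.al x)]
      · simp
      · intro y _ hy
        rw [Pi.single_eq_of_ne hy, zero_smul]
      · simp

theorem eP_comb (b : Fin 3 → ℤ) : ∃ c : Vert t → ℂ, eP C b = ∑ v, c v • eL C v := by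
  classical
  unfold eP
  split_ifs with h1
  · refine ⟨fun v => match v with
      | .inr _ => 1
      | .inl _ => 0, ?_⟩
    rw [Fintype.sum_sum_type]
    simp
  · refine ⟨Pi.single (vrt t 0 b) 1, ?_⟩
    rw [Finset.sum_eq_single (vrt t 0 b)]
    · simp
    · intro y _ hy
      rw [Pi.single_eq_of_ne hy, zero_smul]
    · simp

theorem PW_degree (h : Vert t → ℤ) (hh : IsHeight C h) (w : Vert t) (s : List (Fin 3)) :
    ∀ (b : Fin 3 → ℤ) (v : Vert t), eL C v * PW C b s * eL C w ≠ 0 →
      (s.length : ℤ) = h v - h w := by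
  classical
  induction s with
  | nil =>
    intro b v hne
    obtain ⟨c, hc⟩ := eP_comb C b
    by_cases hvw : v = w
    · rw [hvw]; simp
    · exfalso
      apply hne
      rw [PW, hc, Finset.mul_sum, Finset.sum_mul]
      refine Finset.sum_eq_zero fun u _ => ?_
      rw [mul_smul_comm, e_mul_e, smul_mul_assoc]
      split_ifs with h1
      · rw [e_mul_e, if_neg hvw, smul_zero]
      · rw [zero_mul, smul_zero]
  | cons p s ih =>
    intro b v hne
    obtain ⟨c, hc⟩ := aT_comb C b p
    rw [PW, hc, Finset.sum_mul, Finset.mul_sum, Finset.sum_mul] at hne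
    obtain ⟨x, -, hx⟩ := Finset.exists_ne_zero_of_sum_ne_zero hne
    rw [smul_mul_assoc, mul_smul_comm, smul_mul_assoc, ← mul_assoc, e_mul_a] at hx
    have hx1 := right_ne_zero_of_smul hx
    have hv : v = src x := by
      by_contra hv
      rw [if_neg hv, zero_mul, zero_mul] at hx1
      exact hx1 rfl
    rw [if_pos hv] at hx1
    have hxC : x ∉ C := by
      intro hxC
      rw [aL_cut C x hxC, zero_mul, zero_mul] at hx1
      exact hx1 rfl
    rw [← aL_mul_tgt C x] at hx1
    have hx2 : eL C (tgt x) * PW C (b + fv p) s * eL C w ≠ 0 := by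
      intro h0
      apply hx1
      rw [mul_assoc (aL C x), mul_assoc (aL C x), h0, mul_zero]
    have h1 := ih _ _ hx2
    have h2 := hh x
    rw [if_neg hxC, ← hv] at h2
    rw [List.length_cons]
    push_cast
    omega

/-! ### points over a vertex -/

/-- The point `b` lies over the vertex `v`. -/
def Over (b : Fin 3 → ℤ) : Vert t → Prop
  | .inl a => ∃ r : Fin 3, b = rot r a.1
  | .inr _ => b = cX t

omit [NeZero t] in
theorem over_ne_cX {b : Fin 3 → ℤ} {a : VV t} (h : Over b (.inl a)) : b ≠ cX t := by
  obtain ⟨r, hr⟩ := h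
  rintro rfl
  have h1 := rot_eq_cX.1 hr.symm
  exact not_inV_cX t (h1 ▸ a.2)

theorem e_mul_eP (v : Vert t) (b : Fin 3 → ℤ) (hb : InT t b) (h : ¬ Over b v) :
    eL C v * eP C b = 0 := by
  unfold eP
  split_ifs with h1
  · rw [Finset.mul_sum]
    refine Finset.sum_eq_zero fun k _ => ?_
    rw [e_mul_e]
    split_ifs with h2
    · exfalso
      apply h
      rw [h2]
      exact h1
    · rfl
  · rw [e_mul_e]
    split_ifs with h2
    · exfalso
      apply h
      rw [vrt_eq_inl 0 hb h1] at h2
      rw [h2]
      refine ⟨- qi t b, ?_⟩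
      change b = rot (- qi t b) (rot (qi t b) b)
      rw [rot_rot, neg_add_cancel, rot_zero]
    · rfl

theorem e_mul_aT (v : Vert t) (b : Fin 3 → ℤ) (p : Fin 3) (h : ¬ Over b v) :
    eL C v * aT C b p = 0 := by
  unfold aT
  split_ifs with h1 h2
  · rw [Finset.mul_sum]
    refine Finset.sum_eq_zero fun k _ => ?_
    rw [mul_smul_comm, e_mul_a]
    split_ifs with h2
    · exfalso
      apply h
      rw [h2]
      exact h1
    · rw [smul_zero]
  · rw [Finset.mul_sum]
    refine Finset.sum_eq_zero fun k _ => ?_
    rw [mul_smul_comm, e_mul_a]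
    split_ifs with h3
    · exfalso
      apply h
      rw [h3]
      -- b = X - f_p is over vP
      refine ⟨- p, ?_⟩
      change b = rot (-p) (cX t - fv 0)
      rw [← h2, sub_eq_add_neg, ← neg_one_smul ℤ (fv 0)]
      have h4 : rot (-p) (b + fv p) = b + fv p := by
        rw [h2, rot_cX]
      rw [rot_add']
      rw [h4]
      have h5 : rot (-p) ((-1 : ℤ) • fv 0) = (-1 : ℤ) • rot (-p) (fv 0) := rfl
      rw [h5, rot_fv]
      simp
    · rw [smul_zero]
  · cases hx : AT t b p with
    | none => simp
    | some x =>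
      simp only [Option.elim]
      rw [e_mul_a]
      split_ifs with h3
      · exfalso
        apply h
        rw [h3, AT_src hx 0]
        have h4 := (AT_isSome b p).1 (by rw [hx]; rfl)
        rw [vrt_eq_inl 0 h4.1 h4.2.2.1]
        refine ⟨- qi t b, ?_⟩
        change b = rot (- qi t b) (rot (qi t b) b)
        rw [rot_rot, neg_add_cancel, rot_zero]
      · rfl

theorem e_mul_PW (v : Vert t) (b : Fin 3 → ℤ) (hb : InT t b) (h : ¬ Over b v)
    (s : List (Fin 3)) : eL C v * PW C b s = 0 := by
  cases s with
  | nil => exact e_mul_eP C v b hb h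
  | cons p s => rw [PW, ← mul_assoc, e_mul_aT C v b p h, zero_mul]

theorem PW_mul_e (w : Vert t) (s : List (Fin 3)) : ∀ (b : Fin 3 → ℤ), InT t b →
    ¬ Over (endP b s) w → PW C b s * eL C w = 0 := by
  induction s with
  | nil =>
    intro b hb h
    rw [PW]
    have h1 := e_mul_eP C w b hb h
    obtain ⟨c, hc⟩ := eP_comb C b
    have hcomm : eP C b * eL C w = eL C w * eP C b := by
      classical
      rw [hc, Finset.mul_sum, Finset.sum_mul]
      refine Finset.sum_congr rfl fun u _ => ?_
      rw [smul_mul_assoc, mul_smul_comm, e_mul_e, e_mul_e]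
      by_cases huw : u = w
      · rw [if_pos huw, if_pos huw.symm, huw]
      · rw [if_neg huw, if_neg (fun h => huw h.symm)]
    rw [hcomm, h1]
  | cons p s ih =>
    intro b hb h
    rw [PW, mul_assoc]
    by_cases hc : InT t (b + fv p)
    · rw [ih _ hc h, mul_zero]
    · rw [aT_eq_zero C b p (fun h => hc h.2), zero_mul]

theorem thR_mul_e (r : Fin 3) (b : Fin 3 → ℤ) (w : Vert t) (h : Over b w) :
    ∃ c : ℂ, c ≠ 0 ∧ thR C r b * eL C w = c • eL C w := by
  cases w with
  | inl a =>
    refine ⟨1, one_ne_zero, ?_⟩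
    rw [thR, if_neg (over_ne_cX h), one_mul, one_smul]
  | inr l =>
    refine ⟨zeta ^ ((l : ℕ) * (r : ℕ)), pow_ne_zero _ zeta_ne_zero, ?_⟩
    rw [thR, if_pos (show b = cX t from h), Finset.sum_mul, Finset.sum_eq_single l]
    · rw [smul_mul_assoc, e_mul_e, if_pos rfl]
    · intro k _ hk
      rw [smul_mul_assoc, e_mul_e, if_neg (by simpa using hk), smul_zero]
    · simp

theorem e_mul_thR (r : Fin 3) (b : Fin 3 → ℤ) (w : Vert t) (h : Over b w) :
    ∃ c : ℂ, c ≠ 0 ∧ eL C w * thR C r b = c • eL C w := by
  cases w with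
  | inl a =>
    refine ⟨1, one_ne_zero, ?_⟩
    rw [thR, if_neg (over_ne_cX h), mul_one, one_smul]
  | inr l =>
    refine ⟨zeta ^ ((l : ℕ) * (r : ℕ)), pow_ne_zero _ zeta_ne_zero, ?_⟩
    rw [thR, if_pos (show b = cX t from h), Finset.mul_sum, Finset.sum_eq_single l]
    · rw [mul_smul_comm, e_mul_e, if_pos rfl]
    · intro k _ hk
      rw [mul_smul_comm, e_mul_e, if_neg (by simpa using hk.symm), smul_zero]
    · simp

/-- Rotating the start point changes `e_v (path) e_w` by a nonzero scalar. -/
theorem PW_rot_smul (r : Fin 3) (s : List (Fin 3)) (b : Fin 3 → ℤ) (hb : InT t b) (v w : Vert t)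
    (hv : Over b v) : ∃ c : ℂ, c ≠ 0 ∧
      eL C v * PW C (rot r b) (s.map (· - r)) * eL C w =
        c • (eL C v * PW C b s * eL C w) := by
  rw [PW_rot C r s b hb]
  obtain ⟨c1, hc1, h1⟩ := e_mul_thR C r b v hv
  by_cases hw : Over (endP b s) w
  · obtain ⟨c2, hc2, h2⟩ := thR_mul_e C (-r) (endP b s) w hw
    refine ⟨c1 * c2, mul_ne_zero hc1 hc2, ?_⟩
    calc eL C v * (thR C r b * PW C b s * thR C (-r) (endP b s)) * eL C w
        = (eL C v * thR C r b) * PW C b s * (thR C (-r) (endP b s) * eL C w) := by noncomm_ring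
      _ = _ := by
        rw [h1, h2, smul_mul_assoc, smul_mul_assoc, mul_smul_comm, smul_smul]
  · refine ⟨1, one_ne_zero, ?_⟩
    have h3 : PW C b s * eL C w = 0 := PW_mul_e C w s b hb hw
    rw [one_smul, mul_assoc (eL C v) (PW C b s), h3, mul_zero]
    have h4 : thR C (-r) (endP b s) * eL C w = 0 ∨
        thR C (-r) (endP b s) * eL C w = eL C w := by
      unfold thR
      split_ifs with h5
      · left
        rw [Finset.sum_mul]
        refine Finset.sum_eq_zero fun k _ => ?_
        rw [smul_mul_assoc, e_mul_e]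
        split_ifs with h6
        · exfalso
          apply hw
          rw [← h6]
          exact h5
        · rw [smul_zero]
      · right
        rw [one_mul]
    calc eL C v * (thR C r b * PW C b s * thR C (-r) (endP b s)) * eL C w
        = eL C v * (thR C r b * PW C b s * (thR C (-r) (endP b s) * eL C w)) := by noncomm_ring
      _ = 0 := by
        rcases h4 with h4 | h4
        · rw [h4, mul_zero, mul_zero]
        · rw [h4, mul_assoc (thR C r b), h3, mul_zero, mul_zero]

/-! ### spanning -/

/-- The elements `e_v (path) e_w`. -/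
def gens : Set (Lam C) :=
  {u | ∃ (v w : Vert t) (b : Fin 3 → ℤ) (s : List (Fin 3)), InT t b ∧ Over b v ∧
    u = eL C v * PW C b s * eL C w}

omit [NeZero t] in
theorem over_vrt {b : Fin 3 → ℤ} (k : Fin 3) (hb : InT t b) (h : b ≠ cX t) :
    Over b (vrt t k b) := by
  rw [vrt_eq_inl k hb h]
  refine ⟨- qi t b, ?_⟩
  change b = rot (- qi t b) (rot (qi t b) b)
  rw [rot_rot, neg_add_cancel, rot_zero]

omit [NeZero t] in
theorem vrt_of_over {b : Fin 3 → ℤ} (k : Fin 3) (a : VV t) (h : Over b (.inl a)) :
    vrt t k b = .inl a := by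
  obtain ⟨r, hr⟩ := h
  rw [hr, vrt_rot k a.2.inT, vrt_of_inV]

/-- An arrow which ends at the vertex of `b ≠ X` is over a step which ends at `b`. -/
theorem exists_lift (y : AlArr t) (b : Fin 3 → ℤ) (h : Over b (tgt (.al y))) :
    ∃ p : Fin 3, AT t (b - fv p) p = some y := by
  obtain ⟨r, hr⟩ := h
  refine ⟨y.1.2.1 - r, ?_⟩
  have h1 := AT_rot (t := t) y.1.1.1 (y.1.2.1 + y.1.2.2) (y.1.2.2 + r)
  rw [AT_self] at h1
  have h2 : y.1.2.1 + y.1.2.2 - (y.1.2.2 + r) = y.1.2.1 - r := by abel
  rw [h2] at h1
  rw [← h1]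
  congr 1
  rw [hr]
  change rot r (rot y.1.2.2 y.1.1.1 + fv y.1.2.1) - fv (y.1.2.1 - r) = _
  rw [rot_add', rot_rot, rot_fv, add_sub_cancel_right, add_comm r]

theorem aT_of_AT {b : Fin 3 → ℤ} {p : Fin 3} {y : AlArr t} (h : AT t b p = some y) :
    aT C b p = aL C (.al y) ∧ InT t b := by
  have h4 := (AT_isSome b p).1 (by rw [h]; rfl)
  refine ⟨?_, h4.1⟩
  rw [aT, if_neg h4.2.2.1, if_neg h4.2.2.2, h]
  rfl

theorem inT_vP : InT t (cX t - fv 0) := (vP t).2.inT

theorem aT_vP : aT C (cX t - fv 0) 0 = ∑ k : Fin 3, aL C (.be k) := by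
  rw [aT, if_neg, if_pos (sub_add_cancel _ _)]
  · simp
  · intro h
    exact fv_ne_zeroU 0 (by simpa using h)

theorem aT_cX (p : Fin 3) :
    aT C (cX t) p = ∑ k : Fin 3, (zeta ^ ((k : ℕ) * ((2 - p : Fin 3) : ℕ))) • aL C (.ga k) := by
  rw [aT, if_pos rfl]

theorem be_mul_ga (k l : Fin 3) : aL C (.be k) * aL C (.ga l) =
    if k = l then aL C (.be k) * aL C (.ga k) else 0 := by
  by_cases h : k = l
  · rw [if_pos h, h]
  · rw [if_neg h, ← aL_mul_tgt C (.be k), mul_assoc, e_mul_a,
      if_neg (by simpa [src, tgt] using h), mul_zero]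

/-- Fourier inversion at the centre. -/
theorem be_ga_eq (k : Fin 3) : ∃ c : Fin 3 → ℂ, aL C (.be k) * aL C (.ga k) =
    ∑ p : Fin 3, c p • (aT C (cX t - fv 0) 0 * aT C (cX t) p) := by
  have key : ∀ p, aT C (cX t - fv 0) 0 * aT C (cX t) p =
      ∑ l : Fin 3, (zeta ^ ((l : ℕ) * ((2 - p : Fin 3) : ℕ))) •
        (aL C (.be l) * aL C (.ga l)) := by
    intro p
    rw [aT_vP, aT_cX, Finset.sum_mul]
    refine Finset.sum_congr rfl fun l _ => ?_
    rw [Finset.mul_sum, Finset.sum_eq_single l]
    · rw [mul_smul_comm]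
    · intro m _ hm
      rw [mul_smul_comm, be_mul_ga, if_neg (fun h => hm h.symm), smul_zero]
    · simp
  have h3 := zeta_pow_three
  have h1 : 1 + zeta + zeta ^ 2 = 0 := by
    have : (zeta - 1) * (1 + zeta + zeta ^ 2) = 0 := by linear_combination h3
    rcases mul_eq_zero.1 this with h | h
    · exact absurd (sub_eq_zero.1 h) zeta_ne_one
    · exact h
  refine ⟨fun p => (1 / 3 : ℂ) * zeta ^ ((k : ℕ) * ((p - 2 : Fin 3) : ℕ)), ?_⟩
  simp only [key, Finset.smul_sum, smul_smul]
  rw [Finset.sum_comm]
  simp only [← Finset.sum_smul]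
  rw [Finset.sum_eq_single k]
  · have : (∑ p : Fin 3, (1 / 3 : ℂ) * zeta ^ ((k : ℕ) * ((p - 2 : Fin 3) : ℕ)) *
        zeta ^ ((k : ℕ) * ((2 - p : Fin 3) : ℕ))) = 1 := by
      have h2 : ∀ p : Fin 3, (1 / 3 : ℂ) * zeta ^ ((k : ℕ) * ((p - 2 : Fin 3) : ℕ)) *
        zeta ^ ((k : ℕ) * ((2 - p : Fin 3) : ℕ)) = 1 / 3 := by
        intro p
        rw [mul_assoc, ← pow_add, zeta_pow_mod]
        have h0 : ((k : ℕ) * ((p - 2 : Fin 3) : ℕ) + (k : ℕ) * ((2 - p : Fin 3) : ℕ)) % 3 = 0 := by
          fin_cases k <;> fin_cases p <;> rfl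
        rw [h0, pow_zero, mul_one]
      simp only [h2]
      norm_num
    rw [this, one_smul]
  · intro l _ hl
    have : (∑ p : Fin 3, (1 / 3 : ℂ) * zeta ^ ((k : ℕ) * ((p - 2 : Fin 3) : ℕ)) *
        zeta ^ ((l : ℕ) * ((2 - p : Fin 3) : ℕ))) = 0 := by
      rw [Fin.sum_univ_three]
      simp only [mul_assoc, ← pow_add]
      rw [zeta_pow_mod, zeta_pow_mod (_ + (l : ℕ) * ((2 - 1 : Fin 3) : ℕ)),
        zeta_pow_mod (_ + (l : ℕ) * ((2 - 2 : Fin 3) : ℕ))]
      fin_cases k <;> fin_cases l <;> first | exact absurd rfl hl | skip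
      all_goals
        simp [show ((-2 : Fin 3) : ℕ) = 1 from rfl]
        linear_combination (1 / 3 : ℂ) * h1
    rw [this, zero_smul]
  · simp

theorem mul_mem_span (x : Arr t) (u : Lam C) (hu : u ∈ gens C) :
    aL C x * u ∈ Submodule.span ℂ (gens C) := by
  obtain ⟨v, w, b, s, hb, hv, rfl⟩ := hu
  have e0 : aL C x * (eL C v * PW C b s * eL C w) =
      (aL C x * eL C v) * PW C b s * eL C w := by noncomm_ring
  rw [e0, a_mul_e]
  split_ifs with h
  swap
  · rw [zero_mul, zero_mul]
    exact Submodule.zero_mem _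
  subst h
  cases x with
  | al y =>
    obtain ⟨p, hp⟩ := exists_lift y b hv
    obtain ⟨h1, h2⟩ := aT_of_AT C hp
    have e1 : aL C (.al y) * PW C b s * eL C w =
        eL C (src (.al y)) * PW C (b - fv p) (p :: s) * eL C w := by
      rw [PW, h1, sub_add_cancel, ← mul_assoc, eL_src_mul]
    rw [e1]
    refine Submodule.subset_span ⟨_, _, _, _, h2, ?_, rfl⟩
    rw [AT_src hp 0]
    exact over_vrt 0 h2 ((AT_isSome _ _).1 (by rw [hp]; rfl)).2.2.1
  | ga k =>
    obtain ⟨r, hr⟩ := hv
    have hb2 : b = cX t + fv (2 - r) := by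
      rw [hr]
      change rot r (cX t + fv 2) = _
      rw [rot_add', rot_cX, rot_fv]
    have e1 : eL C (.inr k) * PW C (cX t) ((2 - r) :: s) * eL C w =
        (zeta ^ ((k : ℕ) * ((2 - (2 - r) : Fin 3) : ℕ))) • (aL C (.ga k) * PW C b s * eL C w) := by
      rw [PW, aT_cX, ← hb2, Finset.sum_mul, Finset.mul_sum, Finset.sum_mul,
        Finset.sum_eq_single k]
      · rw [smul_mul_assoc, mul_smul_comm, smul_mul_assoc, ← mul_assoc, e_mul_a,
          if_pos (show (Sum.inr k : Vert t) = src (.ga k) from rfl)]
      · intro l _ hl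
        rw [smul_mul_assoc, mul_smul_comm, smul_mul_assoc, ← mul_assoc, e_mul_a,
          if_neg (by simpa [src] using hl.symm), zero_mul, zero_mul, smul_zero]
      · simp
    have hne : (zeta ^ ((k : ℕ) * ((2 - (2 - r) : Fin 3) : ℕ))) ≠ 0 :=
      pow_ne_zero _ zeta_ne_zero
    have e2 : aL C (.ga k) * PW C b s * eL C w =
        (zeta ^ ((k : ℕ) * ((2 - (2 - r) : Fin 3) : ℕ)))⁻¹ •
          (eL C (.inr k) * PW C (cX t) ((2 - r) :: s) * eL C w) := by
      rw [e1, smul_smul, inv_mul_cancel₀ hne, one_smul]
    rw [e2]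
    exact Submodule.smul_mem _ _
      (Submodule.subset_span ⟨.inr k, w, cX t, _, inT_cX t, rfl, rfl⟩)
  | be k =>
    have hb2 : b = cX t := hv
    subst hb2
    cases s with
    | nil =>
      have hover : Over (cX t - fv 0) (.inl (vP t)) := ⟨0, (rot_zero _).symm⟩
      by_cases hw : w = .inr k
      · have e1 : aL C (.be k) * PW C (cX t) [] * eL C w =
            eL C (.inl (vP t)) * PW C (cX t - fv 0) [0] * eL C w := by
          rw [PW, PW, PW, sub_add_cancel, aT_vP, eP, if_pos rfl, hw, Finset.sum_mul,
            Finset.mul_sum, Finset.mul_sum, Finset.sum_mul, Finset.sum_mul,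
            Finset.sum_eq_single k, Finset.sum_eq_single k]
          · rw [Finset.mul_sum, Finset.mul_sum, Finset.sum_mul, Finset.sum_eq_single k]
            · rw [a_mul_e, if_pos (show tgt (.be k) = (Sum.inr k : Vert t) from rfl), e_mul_a,
                if_pos (show (Sum.inl (vP t) : Vert t) = src (.be k) from rfl)]
            · intro l _ hl
              rw [a_mul_e, if_neg (by simpa [tgt] using hl.symm), mul_zero, zero_mul]
            · simp
          · intro l _ hl
            rw [Finset.mul_sum, Finset.mul_sum, Finset.sum_mul]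
            refine Finset.sum_eq_zero fun m _ => ?_
            rw [a_mul_e]
            split_ifs with h1
            · rw [e_mul_a, if_pos (show (Sum.inl (vP t) : Vert t) = src (.be l) from rfl),
                a_mul_e, if_neg (by simpa [tgt] using hl)]
            · rw [mul_zero, zero_mul]
          · simp
          · intro l _ hl
            rw [a_mul_e, if_neg (by simpa [tgt] using hl.symm), zero_mul]
          · simp
        rw [e1]
        exact Submodule.subset_span ⟨_, _, _, _, inT_vP, hover, rfl⟩
      · have e1 : aL C (.be k) * PW C (cX t) [] * eL C w = 0 := by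
          rw [PW, eP, if_pos rfl, Finset.mul_sum, Finset.sum_mul]
          refine Finset.sum_eq_zero fun m _ => ?_
          rw [a_mul_e]
          split_ifs with h1
          · rw [a_mul_e, if_neg (fun h => hw h.symm)]
          · rw [zero_mul]
        rw [e1]
        exact Submodule.zero_mem _
    | cons p s =>
      obtain ⟨c, hc⟩ := be_ga_eq C k
      have hbT : InT t (cX t + fv p) := by
        rw [inT_add_fv (inT_cX t)]
        have : 1 ≤ t := NeZero.one_le
        simp [cX]
        omega
      have e1 : aL C (.be k) * PW C (cX t) (p :: s) * eL C w =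
          (zeta ^ ((k : ℕ) * ((2 - p : Fin 3) : ℕ))) • ((aL C (.be k) * aL C (.ga k)) *
            (PW C (cX t + fv p) s * eL C w)) := by
        rw [PW, aT_cX, Finset.sum_mul, Finset.mul_sum, Finset.sum_mul, Finset.sum_eq_single k]
        · rw [smul_mul_assoc, mul_smul_comm, smul_mul_assoc]
          congr 1
          noncomm_ring
        · intro l _ hl
          rw [smul_mul_assoc, mul_smul_comm, smul_mul_assoc, ← mul_assoc, be_mul_ga,
            if_neg (fun h => hl h.symm), zero_mul, zero_mul, smul_zero]
        · simp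
      rw [e1, hc, Finset.sum_mul]
      refine Submodule.smul_mem _ _ (Submodule.sum_mem _ fun q _ => ?_)
      rw [smul_mul_assoc]
      refine Submodule.smul_mem _ _ ?_
      -- rotate `X + f_p` to `X + f_q`
      have hrot : rot (p - q) (cX t + fv p) = cX t + fv q := by
        rw [rot_add', rot_cX, rot_fv]
        congr 2
        abel
      have hne : cX t + fv p ≠ cX t := cX_add_fv_neU p
      have h1 := PW_rot C (p - q) s (cX t + fv p) hbT
      rw [hrot, thR, if_neg hne, one_mul] at h1
      have hthR : ∃ c : ℂ, c ≠ 0 ∧ PW C (cX t + fv p) s * eL C w =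
          c • (PW C (cX t + fv q) (s.map (· - (p - q))) * eL C w) := by
        rw [h1]
        by_cases hw : Over (endP (cX t + fv p) s) w
        · obtain ⟨c2, hc2, h2⟩ := thR_mul_e C (-(p - q)) _ w hw
          refine ⟨c2⁻¹, inv_ne_zero hc2, ?_⟩
          rw [mul_assoc, h2, mul_smul_comm, smul_smul, inv_mul_cancel₀ hc2, one_smul]
        · refine ⟨1, one_ne_zero, ?_⟩
          have h3 : PW C (cX t + fv p) s * eL C w = 0 := PW_mul_e C w s _ hbT hw
          rw [one_smul, h3, mul_assoc]
          unfold thR
          split_ifs with h5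
          · rw [Finset.sum_mul, Finset.mul_sum]
            symm
            refine Finset.sum_eq_zero fun m _ => ?_
            rw [smul_mul_assoc, e_mul_e]
            split_ifs with h6
            · exfalso
              apply hw
              rw [← h6]
              exact h5
            · rw [smul_zero, mul_zero]
          · rw [one_mul, h3]
      obtain ⟨c3, -, h3⟩ := hthR
      rw [h3, mul_smul_comm]
      refine Submodule.smul_mem _ _ ?_
      have e4 : aT C (cX t - fv 0) 0 * aT C (cX t) q *
          (PW C (cX t + fv q) (s.map (· - (p - q))) * eL C w) =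
          eL C (.inl (vP t)) * PW C (cX t - fv 0) (0 :: q :: s.map (· - (p - q))) * eL C w := by
        rw [PW, PW, sub_add_cancel]
        have h6 : eL C (.inl (vP t)) * aT C (cX t - fv 0) 0 = aT C (cX t - fv 0) 0 := by
          rw [aT_vP, Finset.mul_sum]
          refine Finset.sum_congr rfl fun m _ => ?_
          rw [e_mul_a, if_pos (show (Sum.inl (vP t) : Vert t) = src (.be m) from rfl)]
        calc _ = (eL C (.inl (vP t)) * aT C (cX t - fv 0) 0) * aT C (cX t) q *
              (PW C (cX t + fv q) (s.map (· - (p - q))) * eL C w) := by rw [h6]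
          _ = _ := by noncomm_ring
      rw [e4]
      exact Submodule.subset_span
        ⟨.inl (vP t), w, _, _, inT_vP, ⟨0, (rot_zero _).symm⟩, rfl⟩

theorem span_gens : Submodule.span ℂ (gens C) = ⊤ := by
  refine span_of_stable C _ ?_ ?_
  · intro v
    cases v with
    | inl a =>
      refine Submodule.subset_span ⟨.inl a, .inl a, a.1, [], a.2.inT, ⟨0, (rot_zero _).symm⟩, ?_⟩
      have hne : a.1 ≠ cX t := fun h => not_inV_cX t (h ▸ a.2)
      rw [PW, eP, if_neg hne, vrt_of_inV, e_mul_e, if_pos rfl, e_mul_e, if_pos rfl]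
    | inr k =>
      refine Submodule.subset_span ⟨.inr k, .inr k, cX t, [], inT_cX t, rfl, ?_⟩
      rw [PW, eP, if_pos rfl, Finset.mul_sum, Finset.sum_mul, Finset.sum_eq_single k]
      · rw [e_mul_e, if_pos rfl, e_mul_e, if_pos rfl]
      · intro l _ hl
        rw [e_mul_e, if_neg (by simpa using hl.symm), zero_mul]
      · simp
  · intro x u hu
    induction hu using Submodule.span_induction with
    | mem u hu => exact mul_mem_span C x u hu
    | zero => rw [mul_zero]; exact Submodule.zero_mem _
    | add u v _ _ h1 h2 => rw [mul_add]; exact Submodule.add_mem _ h1 h2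
    | smul c u _ h1 => rw [mul_smul_comm]; exact Submodule.smul_mem _ _ h1

/-! ### the bound -/

theorem peirce_of_finset (v w : Vert t) (F : Finset (Lam C))
    (hF : ∀ b s, InT t b → Over b v → eL C v * PW C b s * eL C w ∈
      Submodule.span ℂ (F : Set (Lam C))) :
    FiniteDimensional ℂ (peirce (eL C v) (eL C w)) ∧
      Module.finrank ℂ (peirce (eL C v) (eL C w)) ≤ F.card := by
  have hle : peirce (eL C v) (eL C w) ≤ Submodule.span ℂ (F : Set (Lam C)) := by
    rintro x ⟨z, rfl⟩
    have hz : z ∈ Submodule.span ℂ (gens C) := by rw [span_gens]; exact Submodule.mem_top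
    change eL C v * (z * eL C w) ∈ _
    induction hz using Submodule.span_induction with
    | mem u hu =>
      obtain ⟨v', w', b, s, hb, hv, rfl⟩ := hu
      have e0 : eL C v * (eL C v' * PW C b s * eL C w' * eL C w) =
          (eL C v * eL C v') * PW C b s * (eL C w' * eL C w) := by noncomm_ring
      rw [e0, e_mul_e, e_mul_e]
      split_ifs with h1 h2
      · subst h1
        subst h2
        exact hF b s hb hv
      · rw [mul_zero]; exact Submodule.zero_mem _
      · rw [zero_mul, zero_mul]; exact Submodule.zero_mem _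
      · rw [mul_zero]; exact Submodule.zero_mem _
    | zero => rw [zero_mul, mul_zero]; exact Submodule.zero_mem _
    | add x y _ _ h1 h2 => rw [add_mul, mul_add]; exact Submodule.add_mem _ h1 h2
    | smul c x _ h1 =>
      rw [smul_mul_assoc, mul_smul_comm]; exact Submodule.smul_mem _ _ h1
  have hfd : FiniteDimensional ℂ (Submodule.span ℂ (F : Set (Lam C))) :=
    FiniteDimensional.span_finset ℂ F
  refine ⟨Submodule.finiteDimensional_of_le hle, ?_⟩
  exact (Submodule.finrank_mono hle).trans (finrank_span_finset_le_card F)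

/-- The list of directions of a monomial. -/
def lst (x : Fin 3 → ℤ) : List (Fin 3) :=
  List.replicate (x 0).toNat 0 ++ List.replicate (x 1).toNat 1 ++ List.replicate (x 2).toNat 2

/-- The multiplicities of a list of directions. -/
def cnt (s : List (Fin 3)) : Fin 3 → ℤ := fun i => (s.count i : ℤ)

theorem perm_lst (s : List (Fin 3)) : s.Perm (lst (cnt s)) := by
  rw [List.perm_iff_count]
  intro i
  simp only [lst, cnt, Int.toNat_natCast, List.count_append, List.count_replicate]
  fin_cases i <;> simp

theorem length_eq (s : List (Fin 3)) : (s.length : ℤ) = cnt s 0 + cnt s 1 + cnt s 2 := by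
  rw [(perm_lst s).length_eq]
  simp [lst, cnt]
  ring

theorem cnt_map (s : List (Fin 3)) (r : Fin 3) : cnt (s.map (· - r)) = rot r (cnt s) := by
  funext i
  simp only [cnt, rot]
  congr 1
  have : i = (fun j : Fin 3 => j - r) (i + r) := by simp
  conv_lhs => rw [this]
  exact List.count_map_of_injective s _ (sub_left_injective) _

theorem mv_inj {x y : Fin 3 → ℤ} (h : mv x = mv y)
    (hs : x 0 + x 1 + x 2 = y 0 + y 1 + y 2) : x = y := by
  have h0 := congrFun h 0
  have h1 := congrFun h 1
  have h2 := congrFun h 2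
  simp only [mv] at h0 h1 h2
  have e0 : (0 : Fin 3) + 2 = 2 := rfl
  have e1 : (1 : Fin 3) + 2 = 0 := rfl
  have e2 : (2 : Fin 3) + 2 = 1 := rfl
  rw [e0] at h0
  rw [e1] at h1
  rw [e2] at h2
  funext i
  fin_cases i
  · change x 0 = y 0; omega
  · change x 1 = y 1; omega
  · change x 2 = y 2; omega

/-- Properties of a nonzero `e_v (path) e_w`. -/
theorem PW_ne_zero_props (h : Vert t → ℤ) (hh : IsHeight C h) (v w : Vert t)
    (b : Fin 3 → ℤ) (hb : InT t b) (s : List (Fin 3))
    (hne : eL C v * PW C b s * eL C w ≠ 0) :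
    (∀ i, 0 ≤ cnt s i ∧ cnt s i ≤ b i) ∧ Over (b + mv (cnt s)) w ∧
      cnt s 0 + cnt s 1 + cnt s 2 = h v - h w := by
  refine ⟨fun i => ⟨Int.natCast_nonneg _, ?_⟩, ?_, ?_⟩
  · by_contra hlt
    push Not at hlt
    apply hne
    obtain ⟨n, hn⟩ := Int.eq_ofNat_of_zero_le (hb.1 i)
    rw [PW_eq_zero C i n b s hb hn, mul_zero, zero_mul]
    rw [hn] at hlt
    simp only [cnt] at hlt
    exact_mod_cast hlt
  · by_contra hov
    apply hne
    rw [mul_assoc, PW_mul_e C w s b hb, mul_zero]
    rw [endP_eq]
    exact hov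
  · rw [← length_eq]
    exact PW_degree C h hh w s b v hne

open Classical in
theorem peirce_upper (t : ℕ) [NeZero t] (C : Set (Arr t)) (h : Vert t → ℤ)
    (hh : IsHeight C h) (v w : Vert t) :
    FiniteDimensional ℂ (peirce (eL C v) (eL C w)) ∧
      (Module.finrank ℂ (peirce (eL C v) (eL C w)) : ℤ) ≤ cD t h v w := by
  -- a uniform treatment: it suffices to give a finset with at most `cD` elements
  suffices hs : ∃ F : Finset (Lam C), (F.card : ℤ) ≤ cD t h v w ∧
      ∀ b s, InT t b → Over b v → eL C v * PW C b s * eL C w ≠ 0 →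
        eL C v * PW C b s * eL C w ∈ Submodule.span ℂ (F : Set (Lam C)) by
    obtain ⟨F, hF1, hF2⟩ := hs
    have := peirce_of_finset C v w F (fun b s hb hv => by
      by_cases h0 : eL C v * PW C b s * eL C w = 0
      · rw [h0]; exact Submodule.zero_mem _
      · exact hF2 b s hb hv h0)
    exact ⟨this.1, (by exact_mod_cast this.2 : (_ : ℤ) ≤ (F.card : ℤ)).trans hF1⟩
  cases v with
  | inl a =>
    -- rotate to the base point `a`
    have hrot : ∀ b s, InT t b → Over b (.inl a) →
        ∃ (c : ℂ) (s' : List (Fin 3)), eL C (.inl a) * PW C b s * eL C w =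
          c • (eL C (.inl a) * PW C a.1 s' * eL C w) := by
      rintro b s hb ⟨r, rfl⟩
      obtain ⟨c, -, hc⟩ := PW_rot_smul C r (s.map (· + r)) a.1 a.2.inT (.inl a) w
        ⟨0, (rot_zero _).symm⟩
      have e1 : (s.map (· + r)).map (· - r) = s := by
        rw [List.map_map]
        conv_rhs => rw [← List.map_id s]
        congr 1
        funext i
        simp
      rw [e1] at hc
      exact ⟨c, _, hc⟩
    cases w with
    | inl c =>
      let P : Fin 3 → Prop := fun r => ZZ (HT t h 0) a.1 (rot r c.1)
      let g : Fin 3 → Lam C := fun r => if hr : P r then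
        eL C (.inl a) * PW C a.1 (lst hr.choose) * eL C (.inl c) else 0
      refine ⟨(Finset.univ.filter P).image g, ?_, ?_⟩
      · refine (by exact_mod_cast Finset.card_image_le :
          (((Finset.univ.filter P).image g).card : ℤ) ≤ ((Finset.univ.filter P).card : ℤ)).trans ?_
        rw [cD, Finset.card_filter]
        push_cast
        exact le_of_eq rfl
      · intro b s hb hv hne
        obtain ⟨c0, s', hs'⟩ := hrot b s hb hv
        rw [hs']
        rw [hs'] at hne
        have hne' := right_ne_zero_of_smul hne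
        obtain ⟨h1, h2, h3⟩ := PW_ne_zero_props C h hh _ _ a.1 a.2.inT s' hne'
        obtain ⟨r, hr⟩ := h2
        refine Submodule.smul_mem _ _ (Submodule.subset_span ?_)
        have hP : P r := ⟨cnt s', h1, hr, by
          rw [h3]; simp only [HT]; rw [vrt_of_inV, vrt_rot 0 c.2.inT, vrt_of_inV]⟩
        refine Finset.mem_coe.2 (Finset.mem_image.2 ⟨r, by simpa using hP, ?_⟩)
        have hx := hP.choose_spec
        have hxe : hP.choose = cnt s' := by
          refine mv_inj ?_ ?_
          · exact add_left_cancel (hx.2.1.trans hr.symm)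
          · rw [hx.2.2, h3]; simp only [HT]; rw [vrt_of_inV, vrt_rot 0 c.2.inT, vrt_of_inV]
        simp only [g]
        rw [dif_pos hP, hxe, ← PW_perm C (perm_lst s')]
    | inr l =>
      by_cases hP : ZZ (HT t h l) a.1 (cX t)
      · refine ⟨{eL C (.inl a) * PW C a.1 (lst hP.choose) * eL C (.inr l)}, ?_, ?_⟩
        · rw [cD, if_pos hP]; simp
        · intro b s hb hv hne
          obtain ⟨c0, s', hs'⟩ := hrot b s hb hv
          rw [hs']
          rw [hs'] at hne
          have hne' := right_ne_zero_of_smul hne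
          obtain ⟨h1, h2, h3⟩ := PW_ne_zero_props C h hh _ _ a.1 a.2.inT s' hne'
          refine Submodule.smul_mem _ _ (Submodule.subset_span ?_)
          have hx := hP.choose_spec
          have hxe : hP.choose = cnt s' := by
            refine mv_inj ?_ ?_
            · have h5 : a.1 + mv (cnt s') = cX t := h2
              exact add_left_cancel (hx.2.1.trans h5.symm)
            · rw [hx.2.2, h3]; simp only [HT]; rw [vrt_of_inV, vrt_cX]
          rw [hxe, ← PW_perm C (perm_lst s')]
          simp
      · refine ⟨∅, ?_, ?_⟩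
        · rw [cD, if_neg hP]; simp
        · intro b s hb hv hne
          exfalso
          obtain ⟨c0, s', hs'⟩ := hrot b s hb hv
          rw [hs'] at hne
          have hne' := right_ne_zero_of_smul hne
          obtain ⟨h1, h2, h3⟩ := PW_ne_zero_props C h hh _ _ a.1 a.2.inT s' hne'
          exact hP ⟨cnt s', h1, h2, by rw [h3]; simp only [HT]; rw [vrt_of_inV, vrt_cX]⟩
  | inr k =>
    cases w with
    | inl c =>
      have hrot : ∀ s, eL C (.inr k) * PW C (cX t) s * eL C (.inl c) ≠ 0 →
          ∃ (c0 : ℂ) (s' : List (Fin 3)), eL C (.inr k) * PW C (cX t) s * eL C (.inl c) =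
            c0 • (eL C (.inr k) * PW C (cX t) s' * eL C (.inl c)) ∧
            (∀ i, 0 ≤ cnt s' i ∧ cnt s' i ≤ cX t i) ∧ cX t + mv (cnt s') = c.1 ∧
            cnt s' 0 + cnt s' 1 + cnt s' 2 = h (.inr k) - h (.inl c) := by
        intro s hne
        obtain ⟨h1, h2, h3⟩ := PW_ne_zero_props C h hh _ _ _ (inT_cX t) s hne
        obtain ⟨r, hr⟩ := h2
        obtain ⟨c0, hc0, hc⟩ := PW_rot_smul C (-r) s (cX t) (inT_cX t) (.inr k) (.inl c) rfl
        rw [rot_cX] at hc
        refine ⟨c0⁻¹, s.map (· - (-r)), ?_, ?_, ?_, ?_⟩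
        · rw [hc, smul_smul, inv_mul_cancel₀ hc0, one_smul]
        · intro i
          rw [cnt_map]
          exact h1 (i + -r)
        · have h4 : cX t + rot (-r) (mv (cnt s)) = rot (-r) (cX t + mv (cnt s)) := by
            rw [rot_add', rot_cX]
          rw [cnt_map, ← rot_mv, h4, hr, rot_rot, neg_add_cancel, rot_zero]
        · rw [cnt_map, ← h3]
          simp only [rot]
          fin_cases r
          · simp
          · change cnt s (0 + 2) + cnt s (1 + 2) + cnt s (2 + 2) = _
            have e0 : (0 : Fin 3) + 2 = 2 := rfl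
            have e1 : (1 : Fin 3) + 2 = 0 := rfl
            have e2 : (2 : Fin 3) + 2 = 1 := rfl
            rw [e0, e1, e2]; ring
          · change cnt s (0 + 1) + cnt s (1 + 1) + cnt s (2 + 1) = _
            have e0 : (0 : Fin 3) + 1 = 1 := rfl
            have e1 : (1 : Fin 3) + 1 = 2 := rfl
            have e2 : (2 : Fin 3) + 1 = 0 := rfl
            rw [e0, e1, e2]; ring
      by_cases hP : ZZ (HT t h k) (cX t) c.1
      · refine ⟨{eL C (.inr k) * PW C (cX t) (lst hP.choose) * eL C (.inl c)}, ?_, ?_⟩
        · rw [cD, if_pos hP]; simp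
        · intro b s hb hv hne
          have hb2 : b = cX t := hv
          subst hb2
          obtain ⟨c0, s', hs', h1, h2, h3⟩ := hrot s hne
          rw [hs']
          refine Submodule.smul_mem _ _ (Submodule.subset_span ?_)
          have hx := hP.choose_spec
          have hxe : hP.choose = cnt s' := by
            refine mv_inj ?_ ?_
            · exact add_left_cancel (hx.2.1.trans h2.symm)
            · rw [hx.2.2, h3]; simp only [HT]; rw [vrt_of_inV, vrt_cX]
          rw [hxe, ← PW_perm C (perm_lst s')]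
          simp
      · refine ⟨∅, ?_, ?_⟩
        · rw [cD, if_neg hP]; simp
        · intro b s hb hv hne
          exfalso
          have hb2 : b = cX t := hv
          subst hb2
          obtain ⟨c0, s', hs', h1, h2, h3⟩ := hrot s hne
          exact hP ⟨cnt s', h1, h2, by rw [h3]; simp only [HT]; rw [vrt_of_inV, vrt_cX]⟩
    | inr l =>
      have hcst : ∀ s, eL C (.inr k) * PW C (cX t) s * eL C (.inr l) ≠ 0 →
          cnt s 0 = cnt s 1 ∧ cnt s 1 = cnt s 2 := by
        intro s hne
        obtain ⟨h1, h2, h3⟩ := PW_ne_zero_props C h hh _ _ _ (inT_cX t) s hne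
        have h4 : cX t + mv (cnt s) = cX t := h2
        have h5 : mv (cnt s) = 0 := by simpa using h4
        have e1 := congrFun h5 1
        have e2 := congrFun h5 2
        simp only [mv, Pi.zero_apply] at e1 e2
        have f1 : (1 : Fin 3) + 2 = 0 := rfl
        have f2 : (2 : Fin 3) + 2 = 1 := rfl
        rw [f1] at e1
        rw [f2] at e2
        constructor <;> omega
      by_cases hkl : k = l
      · subst hkl
        refine ⟨{eL C (.inr k)}, ?_, ?_⟩
        · rw [cD, if_pos rfl]; simp
        · intro b s hb hv hne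
          have hb2 : b = cX t := hv
          subst hb2
          obtain ⟨h1, h2, h3⟩ := PW_ne_zero_props C h hh _ _ _ (inT_cX t) s hne
          rw [sub_self, ← length_eq] at h3
          have hs : s = [] := List.length_eq_zero_iff.1 (by exact_mod_cast h3)
          subst hs
          rw [PW, eP, if_pos rfl, Finset.mul_sum, Finset.sum_mul, Finset.sum_eq_single k]
          · rw [e_mul_e, if_pos rfl, e_mul_e, if_pos rfl]
            exact Submodule.subset_span (by simp)
          · intro l _ hl
            rw [e_mul_e, if_neg (by simpa using hl.symm), zero_mul]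
          · simp
      · refine ⟨∅, ?_, ?_⟩
        · rw [cD, if_neg hkl]; simp
        · intro b s hb hv hne
          exfalso
          have hb2 : b = cX t := hv
          subst hb2
          obtain ⟨h1, h2⟩ := hcst s hne
          have hperm : (s.map (· - (1 : Fin 3))).Perm s := by
            rw [List.perm_iff_count]
            intro i
            have h3 := congrFun (cnt_map s 1) i
            simp only [cnt, rot] at h3 h1 h2
            have : (s.count (i + 1) : ℤ) = s.count i := by
              fin_cases i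
              · change (s.count 1 : ℤ) = s.count 0
                exact h1.symm
              · change (s.count 2 : ℤ) = s.count 1
                exact h2.symm
              · change (s.count 0 : ℤ) = s.count 2
                exact h1.trans h2
            rw [this] at h3
            exact_mod_cast h3
          have hr := PW_rot C 1 s (cX t) (inT_cX t)
          rw [rot_cX, PW_perm C hperm] at hr
          have hend : endP (cX t) s = cX t := by
            rw [endP_eq]
            obtain ⟨-, h4, -⟩ := PW_ne_zero_props C h hh _ _ _ (inT_cX t) s hne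
            exact h4
          rw [hend] at hr
          have h5 : eL C (.inr k) * PW C (cX t) s * eL C (.inr l) =
              (zeta ^ ((k : ℕ) * ((1 : Fin 3) : ℕ)) * zeta ^ ((l : ℕ) * ((-1 : Fin 3) : ℕ))) •
                (eL C (.inr k) * PW C (cX t) s * eL C (.inr l)) := by
            conv_lhs => rw [hr]
            have e1 : eL C (.inr k) * thR C 1 (cX t) =
                (zeta ^ ((k : ℕ) * ((1 : Fin 3) : ℕ))) • eL C (.inr k) := by
              rw [thR, if_pos rfl, Finset.mul_sum, Finset.sum_eq_single k]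
              · rw [mul_smul_comm, e_mul_e, if_pos rfl]
              · intro m _ hm
                rw [mul_smul_comm, e_mul_e, if_neg (by simpa using hm.symm), smul_zero]
              · simp
            have e2 : thR C (-1) (cX t) * eL C (.inr l) =
                (zeta ^ ((l : ℕ) * ((-1 : Fin 3) : ℕ))) • eL C (.inr l) := by
              rw [thR, if_pos rfl, Finset.sum_mul, Finset.sum_eq_single l]
              · rw [smul_mul_assoc, e_mul_e, if_pos rfl]
              · intro m _ hm
                rw [smul_mul_assoc, e_mul_e, if_neg (by simpa using hm), smul_zero]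
              · simp
            calc eL C (.inr k) * (thR C 1 (cX t) * PW C (cX t) s * thR C (-1) (cX t)) *
                  eL C (.inr l)
                = (eL C (.inr k) * thR C 1 (cX t)) * PW C (cX t) s *
                  (thR C (-1) (cX t) * eL C (.inr l)) := by noncomm_ring
              _ = _ := by
                rw [e1, e2, smul_mul_assoc, smul_mul_assoc, mul_smul_comm, smul_smul]
          rw [← pow_add, zeta_pow_mod] at h5
          have h6 : (1 - zeta ^ (((k : ℕ) * ((1 : Fin 3) : ℕ) +
              (l : ℕ) * ((-1 : Fin 3) : ℕ)) % 3)) •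
              (eL C (.inr k) * PW C (cX t) s * eL C (.inr l)) = 0 := by
            have h7 := sub_smul (1 : ℂ) (zeta ^ (((k : ℕ) * ((1 : Fin 3) : ℕ) +
              (l : ℕ) * ((-1 : Fin 3) : ℕ)) % 3))
              (eL C (.inr k) * PW C (cX t) s * eL C (.inr l))
            refine h7.trans ?_
            rw [one_smul, ← h5, sub_self]
          rcases smul_eq_zero.1 h6 with h7 | h7
          · have hz1 : zeta ≠ 1 := zeta_ne_one
            have hz3 := zeta_pow_three
            have hz2 : zeta ^ 2 ≠ 1 := by
              intro h8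
              apply hz1
              calc zeta = zeta ^ 3 / zeta ^ 2 := by
                    field_simp [zeta_ne_zero]
                _ = 1 := by rw [h8, hz3, div_one]
            have h8 : zeta ^ (((k : ℕ) * ((1 : Fin 3) : ℕ) +
              (l : ℕ) * ((-1 : Fin 3) : ℕ)) % 3) = 1 := (sub_eq_zero.1 h7).symm
            fin_cases k <;> fin_cases l <;> first | exact absurd rfl hkl | skip
            · exact hz2 h8
            · exact hz1 (by simpa using (show zeta ^ 1 = 1 from h8))
            · exact hz1 (by simpa using (show zeta ^ 1 = 1 from h8))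
            · exact hz2 h8
            · exact hz2 h8
            · exact hz1 (by simpa using (show zeta ^ 1 = 1 from h8))
          · exact hne h7

end MPdda
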