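import Pool.Agent.H.MP_dda0b9_al.Height
import Pool.Agent.H.MP_dda0b9_al.CartanD
import Pool.Agent.H.MP_dda0b9_al.TraceD
import Pool.Agent.H.MP_dda0b9_al.Upper
import Pool.Agent.H.MP_dda0b9_al.LowerA
import Pool.Agent.H.MP_dda0b9_al.LowerX
import Pool.Agent.H.MP_dda0b9_al.ProjMod
import Pool.Agent.H.MP_dda0b9_al.AcyclicGen

/-!
# MP_dda0b9_al: the algebra `Λ_C`: projectives, generation, Cartan matrix and trace (assembly)
-/

namespace MPdda

open CategoryTheory CategoryTheory.Limits Matrix

theorem finrank_peirce_eq (t : ℕ) [NeZero t] (C : Set (Arr t)) (h : Vert t → ℤ)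
    (hh : IsHeight C h) (v w : Vert t) :
    (Module.finrank ℂ (peirce (eL C v) (eL C w)) : ℤ) = cD t h v w := by
  obtain ⟨h1, h2⟩ := peirce_upper t C h hh v w
  refine le_antisymm h2 ?_
  cases v with
  | inl a => exact peirce_lowerA t C h hh a w h1
  | inr l => exact peirce_lowerX t C h hh l w h1

theorem lam_fd (t : ℕ) [NeZero t] (C : Set (Arr t)) (h : Vert t → ℤ) (hh : IsHeight C h) :
    FiniteDimensional ℂ (Lam C) := by
  classical
  have hfd : ∀ p : Vert t × Vert t, FiniteDimensional ℂ (peirce (eL C p.1) (eL C p.2)) :=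
    fun p => (peirce_upper t C h hh p.1 p.2).1
  let φ : (∀ p : Vert t × Vert t, peirce (eL C p.1) (eL C p.2)) →ₗ[ℂ] Lam C :=
    ∑ p : Vert t × Vert t, (peirce (eL C p.1) (eL C p.2)).subtype ∘ₗ LinearMap.proj p
  refine Module.Finite.of_surjective φ fun a => ?_
  refine ⟨fun p => ⟨eL C p.1 * (a * eL C p.2), ⟨a, rfl⟩⟩, ?_⟩
  have hc := (eL_complete C).complete
  simp only [φ, LinearMap.sum_apply, LinearMap.comp_apply, LinearMap.proj_apply,
    Submodule.subtype_apply]
  rw [Fintype.sum_prod_type]
  simp only [← Finset.mul_sum, hc, mul_one]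
  rw [← Finset.sum_mul, hc, one_mul]

/-- The Cartan matrix. -/
noncomputable def CPm (t : ℕ) (h : Vert t → ℤ) : Matrix (Vert t) (Vert t) ℤ :=
  fun v w => cD t h v w

open Classical in
/-- The inverse Cartan matrix. -/
noncomputable def NPm (t : ℕ) [NeZero t] (C : Set (Arr t)) : Matrix (Vert t) (Vert t) ℤ :=
  fun v w => (if v = w then 1 else 0) -
    (∑ x : Arr t with src x = v ∧ x ∉ C, if tgt x = w then 1 else 0) +
    (∑ x : Arr t with tgt x = v ∧ x ∈ C, if src x = w then 1 else 0)

open Classical in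
theorem NPm_sum (t : ℕ) [NeZero t] (C : Set (Arr t)) (v : Vert t) (F : Vert t → ℤ) :
    ∑ w, NPm t C v w * F w = F v - (∑ x : Arr t with src x = v ∧ x ∉ C, F (tgt x)) +
      (∑ x : Arr t with tgt x = v ∧ x ∈ C, F (src x)) := by
  simp only [NPm, add_mul, sub_mul, Finset.sum_add_distrib, Finset.sum_sub_distrib,
    Finset.sum_mul, ite_mul, one_mul, zero_mul]
  congr 1
  · congr 1
    · simp
    · rw [Finset.sum_comm]
      simp
  · rw [Finset.sum_comm]
    simp

open Classical in
theorem lambda_family (t : ℕ) [NeZero t] (C : Set (Arr t)) (hC : IsCut C) :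
    ∃ (P : Vert t → FDMod (Lam C)) (CP NP : Matrix (Vert t) (Vert t) ℤ),
      (∀ v, Projective (P v)) ∧ AbGen P ∧ (∀ v, Module.finrank ℂ (P v ⟶ P v) = 1) ∧
      (∀ v w, CP v w = (Module.finrank ℂ (P v ⟶ P w) : ℤ)) ∧ NP * CP = 1 ∧
      (NPᵀ * CP).trace = if 2 ≤ t then 3 else 2 := by
  obtain ⟨h, hh⟩ := exists_height t C hC
  have hfd := lam_fd t C h hh
  have hcomp := eL_complete C
  have hidem : ∀ v, IsIdempotentElem (eL C v) := hcomp.idem
  have hrank : ∀ v w, (Module.finrank ℂ (projMod (eL C v) ⟶ projMod (eL C w)) : ℤ) =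
      cD t h v w := fun v w => by
    obtain ⟨e⟩ := projMod_hom (eL C v) (eL C w) (hidem v) (hidem w)
    rw [e.finrank_eq]
    exact finrank_peirce_eq t C h hh v w
  refine ⟨fun v => projMod (eL C v), CPm t h, NPm t C,
    fun v => projMod_projective _ (hidem v), ?_, ?_, ?_, ?_, ?_⟩
  · refine abGen_projMod (eL C) hcomp h ?_ ?_
    · intro v
      have := finrank_peirce_eq t C h hh v v
      rw [cD_self] at this
      exact_mod_cast this
    · intro v w hvw hne
      refine cD_acyclic t h v w hvw ?_
      rw [← finrank_peirce_eq t C h hh v w]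
      have := (peirce_upper t C h hh v w).1
      intro h0
      exact hne (Submodule.finrank_eq_zero.1 (by exact_mod_cast h0))
  · intro v
    have := hrank v v
    rw [cD_self] at this
    exact_mod_cast this
  · intro v w
    exact (hrank v w).symm
  · ext v w
    rw [Matrix.mul_apply]
    change ∑ u, NPm t C v u * cD t h u w = _
    rw [NPm_sum t C v (fun u => cD t h u w), cD_inverse t C h hh v w, Matrix.one_apply]
  · have e1 : ((NPm t C)ᵀ * CPm t h).trace =
        ∑ v, ∑ w, NPm t C v w * cD t h v w := by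
      rw [Matrix.trace, Finset.sum_comm]
      refine Finset.sum_congr rfl fun w _ => ?_
      rw [Matrix.diag_apply, Matrix.mul_apply]
      rfl
    rw [e1, ← trace_cD t C h hh]
    simp only [NPm_sum t C _ (fun w => cD t h _ w)]
    rw [Finset.sum_add_distrib, Finset.sum_sub_distrib]
    congr 1
    · congr 1
      rw [← Finset.sum_fiberwise (s := Finset.univ.filter (fun x : Arr t => x ∉ C)) (g := src)]
      refine Finset.sum_congr rfl fun v _ => ?_
      rw [Finset.filter_filter]
      refine Finset.sum_congr ?_ fun x hx => ?_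
      · ext x
        simp [and_comm]
      · rw [Finset.mem_filter] at hx
        rw [hx.2.2]
    · rw [← Finset.sum_fiberwise (s := Finset.univ.filter (fun x : Arr t => x ∈ C)) (g := tgt)]
      refine Finset.sum_congr rfl fun v _ => ?_
      rw [Finset.filter_filter]
      refine Finset.sum_congr ?_ fun x hx => ?_
      · ext x
        simp [and_comm]
      · rw [Finset.mem_filter] at hx
        rw [hx.2.2]

end MPdda
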