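import Pool.Agent.H.MP_dda0b9_al.Comm

/-!
# MP_dda0b9_al: products of arrows of the triangle in `Λ_C`
-/

namespace MPdda

variable {t : ℕ} [NeZero t] (C : Set (Arr t))

open Classical in
/-- The idempotent of a point of `T`. -/
noncomputable def eP (b : Fin 3 → ℤ) : Lam C :=
  if b = cX t then ∑ k : Fin 3, eL C (.inr k) else eL C (vrt t 0 b)

/-- The product of the arrows along the path which starts at `b` and has the given list of
directions. -/
noncomputable def PW : (Fin 3 → ℤ) → List (Fin 3) → Lam C
  | b, [] => eP C b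
  | b, p :: s => aT C b p * PW (b + fv p) s

/-- The end point of a path. -/
def endP : (Fin 3 → ℤ) → List (Fin 3) → (Fin 3 → ℤ)
  | b, [] => b
  | b, p :: s => endP (b + fv p) s

theorem aT_comm' (b : Fin 3 → ℤ) (p q : Fin 3) :
    aT C b p * aT C (b + fv p) q = aT C b q * aT C (b + fv q) p := by
  by_cases hb : InT t b
  · exact aT_comm C b hb p q
  · rw [aT_eq_zero C b p (fun h => hb h.1), aT_eq_zero C b q (fun h => hb h.1), zero_mul, zero_mul]

theorem PW_perm {s s' : List (Fin 3)} (h : s.Perm s') : ∀ b, PW C b s = PW C b s' := by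
  induction h with
  | nil => intro b; rfl
  | cons p _ ih => intro b; simp only [PW, ih]
  | swap p q s =>
    intro b
    simp only [PW]
    rw [← mul_assoc, ← mul_assoc, aT_comm' C b q p, add_right_comm]
  | trans _ _ ih1 ih2 => intro b; rw [ih1, ih2]

theorem PW_eq_zero (p : Fin 3) : ∀ (n : ℕ) (b : Fin 3 → ℤ) (s : List (Fin 3)), InT t b →
    b p = n → n < s.count p → PW C b s = 0 := by
  intro n
  induction n with
  | zero =>
    intro b s hb hbp hs
    have hmem : p ∈ s := List.count_pos_iff.1 hs
    rw [PW_perm C (List.perm_cons_erase hmem), PW, aT_eq_zero C b p, zero_mul]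
    rintro ⟨-, h⟩
    rw [inT_add_fv hb] at h
    rw [hbp] at h
    exact absurd h (by norm_num)
  | succ m ih =>
    intro b s hb hbp hs
    have hmem : p ∈ s := List.count_pos_iff.1 (by omega)
    rw [PW_perm C (List.perm_cons_erase hmem), PW]
    have h1 : InT t (b + fv p) := (inT_add_fv hb p).2 (by rw [hbp]; push_cast; omega)
    rw [ih (b + fv p) (s.erase p) h1 ?_ ?_, mul_zero]
    · rw [Pi.add_apply, hbp]
      simp [fv]
    · rw [List.count_erase_self]
      omega

theorem endP_eq (s : List (Fin 3)) : ∀ b : Fin 3 → ℤ,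
    endP b s = b + mv (fun i => (s.count i : ℤ)) := by
  induction s with
  | nil =>
    intro b
    funext i
    simp [endP, mv]
  | cons p s ih =>
    intro b
    rw [endP, ih]
    funext i
    simp only [Pi.add_apply, mv, fv, List.count_cons]
    fin_cases p <;> fin_cases i <;> simp <;> ring

/-! ### rotations -/

open Classical in
/-- The rotation factor at a point. -/
noncomputable def thR (r : Fin 3) (b : Fin 3 → ℤ) : Lam C :=
  if b = cX t then ∑ k : Fin 3, (zeta ^ ((k : ℕ) * (r : ℕ))) • eL C (.inr k) else 1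

theorem zeta_pow_mod (m : ℕ) : zeta ^ m = zeta ^ (m % 3) := by
  conv_lhs => rw [← Nat.div_add_mod m 3]
  rw [pow_add, pow_mul, zeta_pow_three, one_pow, one_mul]

theorem zeta_ne_zero : zeta ≠ 0 := Complex.exp_ne_zero _

theorem e_mul_e (v w : Vert t) : eL C v * eL C w = if v = w then eL C v else 0 := by
  split_ifs with h
  · rw [h]; exact (eL_complete C).idem w
  · exact (eL_complete C).ortho h

theorem e_mul_a (v : Vert t) (x : Arr t) : eL C v * aL C x = if v = src x then aL C x else 0 := by
  rw [← eL_src_mul C x, ← mul_assoc, e_mul_e]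
  split_ifs with h
  · rw [h, eL_src_mul]
  · rw [zero_mul]

theorem a_mul_e (x : Arr t) (v : Vert t) : aL C x * eL C v = if tgt x = v then aL C x else 0 := by
  conv_lhs => rw [← aL_mul_tgt C x, mul_assoc, e_mul_e]
  split_ifs with h
  · rw [aL_mul_tgt]
  · rw [mul_zero]

theorem fv_ne_zeroU (p : Fin 3) : fv p ≠ 0 := by
  intro h
  have := congrFun h p
  simp [fv] at this

omit [NeZero t] in
theorem cX_add_fv_neU (p : Fin 3) : cX t + fv p ≠ cX t := by
  intro h
  exact fv_ne_zeroU p (by simpa using h)

theorem rot_inj {r : Fin 3} {a b : Fin 3 → ℤ} (h : rot r a = rot r b) : a = b := by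
  have := congrArg (rot (-r)) h
  rwa [rot_rot, rot_rot, neg_add_cancel, rot_zero, rot_zero] at this

omit [NeZero t] in
theorem rot_eq_cX {r : Fin 3} {b : Fin 3 → ℤ} : rot r b = cX t ↔ b = cX t := by
  constructor
  · intro h
    rw [← rot_cX t r] at h
    exact rot_inj h
  · rintro rfl
    exact rot_cX t r

theorem aT_rot (r : Fin 3) (b : Fin 3 → ℤ) (p : Fin 3) :
    aT C (rot r b) (p - r) = thR C r b * aT C b p * thR C (-r) (b + fv p) := by
  have hadd : rot r b + fv (p - r) = rot r (b + fv p) := by rw [rot_add', rot_fv]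
  by_cases h1 : b = cX t
  · subst h1
    have h2 : cX t + fv p ≠ cX t := cX_add_fv_neU p
    rw [aT, if_pos (rot_cX t r), aT, if_pos rfl, thR, if_pos rfl, thR, if_neg h2, mul_one,
      Finset.sum_mul]
    refine Finset.sum_congr rfl fun k _ => ?_
    rw [Finset.mul_sum, Finset.sum_eq_single k]
    · rw [smul_mul_assoc, mul_smul_comm, smul_smul, e_mul_a,
        if_pos (show (Sum.inr k : Vert t) = src (.ga k) from rfl), ← pow_add]
      congr 1
      rw [zeta_pow_mod, zeta_pow_mod (_ + _)]
      congr 1
      fin_cases k <;> fin_cases p <;> fin_cases r <;> rfl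
    · intro l _ hl
      rw [smul_mul_assoc, mul_smul_comm, e_mul_a, if_neg (by simpa [src] using hl.symm),
        smul_zero, smul_zero]
    · simp
  · by_cases h2 : b + fv p = cX t
    · rw [aT, if_neg (fun h => h1 (rot_eq_cX.1 h)), if_pos (by rw [hadd, rot_eq_cX]; exact h2),
        aT, if_neg h1, if_pos h2, thR, if_neg h1, one_mul, thR, if_pos h2, Finset.sum_mul]
      refine Finset.sum_congr rfl fun k _ => ?_
      rw [Finset.mul_sum, Finset.sum_eq_single k]
      · rw [smul_mul_assoc, mul_smul_comm, smul_smul, a_mul_e,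
          if_pos (show tgt (.be k) = (Sum.inr k : Vert t) from rfl), ← pow_add]
        congr 1
        rw [zeta_pow_mod, zeta_pow_mod (_ + _)]
        congr 1
        fin_cases k <;> fin_cases p <;> fin_cases r <;> rfl
      · intro l _ hl
        rw [smul_mul_assoc, mul_smul_comm, a_mul_e, if_neg (by simpa [tgt] using hl.symm),
          smul_zero, smul_zero]
      · simp
    · rw [aT, if_neg (fun h => h1 (rot_eq_cX.1 h)), if_neg (by rw [hadd, rot_eq_cX]; exact h2),
        aT, if_neg h1, if_neg h2, thR, if_neg h1, one_mul, thR, if_neg h2, mul_one, AT_rot]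

theorem thR_mul (r : Fin 3) (b : Fin 3 → ℤ) (hb : b = cX t) :
    thR C (-r) b * thR C r b = ∑ k : Fin 3, eL C (.inr k) := by
  rw [thR, thR, if_pos hb, if_pos hb, Finset.sum_mul]
  refine Finset.sum_congr rfl fun k _ => ?_
  rw [Finset.mul_sum, Finset.sum_eq_single k]
  · rw [smul_mul_assoc, mul_smul_comm, smul_smul, e_mul_e, if_pos rfl, ← pow_add]
    rw [zeta_pow_mod]
    have h0 : ((k : ℕ) * ((-r : Fin 3) : ℕ) + (k : ℕ) * (r : ℕ)) % 3 = 0 := by
      fin_cases k <;> fin_cases r <;> rfl
    rw [h0, pow_zero, one_smul]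
  · intro l _ hl
    rw [smul_mul_assoc, mul_smul_comm, e_mul_e, if_neg (by simpa using hl.symm),
      smul_zero, smul_zero]
  · simp

theorem aT_mul_thR (r : Fin 3) (b : Fin 3 → ℤ) (p : Fin 3) :
    aT C b p * (thR C (-r) (b + fv p) * thR C r (b + fv p)) = aT C b p := by
  by_cases h2 : b + fv p = cX t
  · rw [thR_mul C r _ h2]
    have h1 : b ≠ cX t := by
      rintro rfl
      exact cX_add_fv_neU p h2
    rw [aT, if_neg h1, if_pos h2, Finset.sum_mul]
    refine Finset.sum_congr rfl fun k _ => ?_
    rw [Finset.mul_sum, Finset.sum_eq_single k]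
    · rw [smul_mul_assoc, a_mul_e, if_pos (show tgt (.be k) = (Sum.inr k : Vert t) from rfl)]
    · intro l _ hl
      rw [smul_mul_assoc, a_mul_e, if_neg (by simpa [tgt] using hl.symm), smul_zero]
    · simp
  · rw [thR, if_neg h2, thR, if_neg h2, mul_one, mul_one]

theorem PW_rot (r : Fin 3) (s : List (Fin 3)) : ∀ b : Fin 3 → ℤ, InT t b →
    PW C (rot r b) (s.map (· - r)) = thR C r b * PW C b s * thR C (-r) (endP b s) := by
  induction s with
  | nil =>
    intro b hb
    simp only [List.map_nil, PW, endP]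
    by_cases h1 : b = cX t
    · rw [eP, if_pos (rot_eq_cX.2 h1), eP, if_pos h1]
      have h := thR_mul C (-r) b h1
      rw [neg_neg] at h
      have h2 : thR C r b * ∑ k : Fin 3, eL C (.inr k) = thR C r b := by
        rw [thR, if_pos h1, Finset.sum_mul]
        refine Finset.sum_congr rfl fun k _ => ?_
        rw [Finset.mul_sum, Finset.sum_eq_single k]
        · rw [smul_mul_assoc, e_mul_e, if_pos rfl]
        · intro l _ hl
          rw [smul_mul_assoc, e_mul_e, if_neg (by simpa using hl.symm), smul_zero]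
        · simp
      rw [h2, h]
    · rw [eP, if_neg (fun h => h1 (rot_eq_cX.1 h)), eP, if_neg h1, thR, if_neg h1, one_mul, thR,
        if_neg h1, mul_one, vrt_rot 0 hb]
  | cons p s ih =>
    intro b hb
    simp only [List.map_cons, PW, endP]
    have hadd : rot r b + fv (p - r) = rot r (b + fv p) := by rw [rot_add', rot_fv]
    rw [hadd]
    by_cases hc : InT t (b + fv p)
    · rw [ih _ hc, aT_rot]
      calc thR C r b * aT C b p * thR C (-r) (b + fv p) *
            (thR C r (b + fv p) * PW C (b + fv p) s * thR C (-r) (endP (b + fv p) s))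
          = thR C r b * (aT C b p * (thR C (-r) (b + fv p) * thR C r (b + fv p))) *
            PW C (b + fv p) s * thR C (-r) (endP (b + fv p) s) := by noncomm_ring
        _ = _ := by rw [aT_mul_thR]; noncomm_ring
    · rw [aT_eq_zero C b p (fun h => hc h.2), aT_eq_zero C (rot r b) (p - r), zero_mul, zero_mul,
        mul_zero, zero_mul]
      rintro ⟨-, h⟩
      rw [hadd, inT_rot] at h
      exact hc h

end MPdda
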